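import Pool.Agent.Edg.Pr

/-!
Complex conjugation and the key congruence.
-/

namespace Pool.Agent.Edg

open NumberField Ideal Polynomial

noncomputable section

variable (n : ℕ) [hn : Fact n.Prime] (K : Type*) [Field K] [NumberField K]
  [hK : IsCyclotomicExtension {n} ℚ K]

/-- complex conjugation -/
def br : 𝓞 K →+* 𝓞 K := sg n K (-1)

lemma z_pow_one_val : z n K ^ (1 : ZMod n).val = z n K := by
  have := z_pow_val_natCast n K 1
  rwa [Nat.cast_one, pow_one] at this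

lemma z_pow_zero_val : z n K ^ (0 : ZMod n).val = 1 := by
  have := z_pow_val_natCast n K 0
  rwa [Nat.cast_zero, pow_zero] at this

lemma br_z_mul : br n K (z n K) * z n K = 1 := by
  have h2 := z_pow_val_add n K (-1) 1
  rw [z_pow_one_val] at h2
  rw [br, sg_z, Units.val_neg, Units.val_one, h2, neg_add_cancel, z_pow_zero_val]

variable {n K}

omit [NumberField K] in
lemma norm_root {w : 𝓞 K} {m : ℕ} (hm : m ≠ 0) (hw : w ^ m = 1) (φ : K →+* ℂ) :
    ‖φ (w : K)‖ = 1 := by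
  have h1 : (φ (w : K)) ^ m = 1 := by
    rw [← map_pow, show ((w : K)) ^ m = ((w ^ m : 𝓞 K) : K) from
      (map_pow (algebraMap (𝓞 K) K) w m).symm, hw]
    exact map_one φ
  exact Complex.norm_eq_one_of_pow_eq_one h1 hm

lemma emb_br (φ : K →+* ℂ) (x : 𝓞 K) :
    φ (br n K x : K) = (starRingEnd ℂ) (φ (x : K)) := by
  have key : (φ.comp (algebraMap (𝓞 K) K)).comp (br n K) =
      (starRingEnd ℂ).comp (φ.comp (algebraMap (𝓞 K) K)) := by
    refine hom_ext n K ?_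
    simp only [RingHom.comp_apply]
    have h1 : φ (algebraMap (𝓞 K) K (br n K (z n K))) * φ (algebraMap (𝓞 K) K (z n K)) = 1 := by
      rw [← map_mul, ← map_mul, br_z_mul, map_one, map_one]
    have h2 : ‖φ (algebraMap (𝓞 K) K (z n K))‖ = 1 :=
      norm_root hn.out.ne_zero (z_pow n K) φ
    have h3 : (starRingEnd ℂ) (φ (algebraMap (𝓞 K) K (z n K))) *
        φ (algebraMap (𝓞 K) K (z n K)) = 1 := by
      rw [mul_comm, Complex.mul_conj, Complex.normSq_eq_norm_sq, h2]; simp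
    have h4 : φ (algebraMap (𝓞 K) K (z n K)) ≠ 0 := by
      intro h; rw [h, norm_zero] at h2; exact zero_ne_one h2
    exact mul_right_cancel₀ h4 (h1.trans h3.symm)
  exact congrArg (fun f => f x) key

lemma norm_emb_br (φ : K →+* ℂ) (x : 𝓞 K) : ‖φ (br n K x : K)‖ = ‖φ (x : K)‖ := by
  rw [emb_br]; exact Complex.norm_conj _

lemma br_br (x : 𝓞 K) : br n K (br n K x) = x := by
  rw [br, ← sg_mul, neg_mul_neg, one_mul, sg_one]

lemma N_br (x : 𝓞 K) : N (br n K x) = N x := N_sg n K _ x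

/-- Kronecker for `K` -/
lemma root_of_norm (h2 : n ≠ 2) {x : 𝓞 K} (hx : ∀ φ : K →+* ℂ, ‖φ (x : K)‖ = 1) :
    x ^ (2 * n) = 1 := by
  obtain ⟨m, hm, h1⟩ := NumberField.Embeddings.pow_eq_one_of_norm_eq_one K ℂ
    x.isIntegral_coe hx
  have hf : IsOfFinOrder (x : K) := isOfFinOrder_iff_pow_eq_one.2 ⟨m, hm, h1⟩
  have hodd : Odd n := hn.out.eq_two_or_odd'.resolve_left h2
  obtain ⟨r, hr⟩ := (IsCyclotomicExtension.zeta_spec n ℚ K).exists_neg_pow_of_isOfFinOrder hodd hf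
  have h3 : (x : K) ^ (2 * n) = 1 := by
    have h4 : (-IsCyclotomicExtension.zeta n ℚ K) ^ (2 * n) = 1 := by
      rw [pow_mul, neg_sq, ← pow_mul, mul_comm 2 n, pow_mul,
        (IsCyclotomicExtension.zeta_spec n ℚ K).pow_eq_one, one_pow]
    rw [hr, ← pow_mul, mul_comm, pow_mul, h4, one_pow]
  apply RingOfIntegers.coe_injective
  rw [map_pow, map_one]
  exact h3

/-- iterated Frobenius congruence -/
lemma frob_pow {q : ℕ} (hq : q.Prime) (hqn : IsUnit (q : ZMod n)) (k : ℕ) (x : 𝓞 K) :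
    (q : 𝓞 K) ∣ sg n K (hqn.unit ^ k) x - x ^ q ^ k := by
  induction k generalizing x with
  | zero => rw [pow_zero, sg_one, pow_zero, pow_one, sub_self]; exact dvd_zero _
  | succ k ih =>
    have h1 := ih (sg n K hqn.unit x)
    have h2 : (q : 𝓞 K) ∣ (sg n K hqn.unit x) ^ q ^ k - (x ^ q) ^ q ^ k :=
      (frob n K hq hqn x).trans (sub_dvd_pow_sub_pow _ _ _)
    have h3 := dvd_add h1 h2
    rw [sub_add_sub_cancel, ← sg_mul, ← pow_succ, ← pow_mul, ← pow_succ'] at h3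
    exact h3

/-- First half: `α ^ l ≡ (root of unity) * conj α ^ l`, normalised. -/
lemma key1 (h2 : n ≠ 2) {M : 𝓞 K} {l : ℕ} (hln : l.Coprime (2 * n)) {α W w ε : 𝓞 K}
    (hε : IsUnit ε) (hW : W = ε * α ^ l) (hw : w ^ (2 * n) = 1) (hWw : M ∣ W - w * br n K W) :
    ∃ ρ : 𝓞 K, ρ ^ (2 * n) = 1 ∧ M ∣ (ρ * α) ^ l - (br n K α) ^ l := by
  have h2n : 2 * n ≠ 0 := mul_ne_zero two_ne_zero hn.out.ne_zero
  obtain ⟨ε', hε'⟩ := hε.exists_right_inv
  -- the root of unity `η = br ε * ε'`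
  set η : 𝓞 K := br n K ε * ε' with hη
  have hη1 : η ^ (2 * n) = 1 := by
    refine root_of_norm h2 fun φ => ?_
    have e1 : φ (ε : K) * φ (ε' : K) = 1 := by
      rw [← map_mul, show (ε : K) * (ε' : K) = ((ε * ε' : 𝓞 K) : K) from
        (map_mul (algebraMap (𝓞 K) K) ε ε').symm, hε']
      exact map_one φ
    rw [hη, show ((br n K ε * ε' : 𝓞 K) : K) = (br n K ε : K) * (ε' : K) from
      map_mul (algebraMap (𝓞 K) K) _ _, map_mul, norm_mul, norm_emb_br, ← norm_mul, e1, norm_one]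
  -- congruence `α ^ l ≡ (w * η) * br α ^ l`
  have hc1 : M ∣ α ^ l - (w * η) * (br n K α) ^ l := by
    have hd2 : M ∣ ε' * (W - w * br n K W) := hWw.mul_left _
    convert hd2 using 1
    rw [hW, map_mul, map_pow, hη]
    linear_combination (-α ^ l) * hε'
  set θ : 𝓞 K := w * η with hθ
  have hθ1 : θ ^ (2 * n) = 1 := by
    rw [hθ, mul_pow, hη1, mul_one, hw]
  -- choose t with l t ≡ -1 mod 2n
  obtain ⟨t, ht⟩ : ∃ t : ℕ, 2 * n ∣ l * t + 1 := by
    have h1 : IsUnit (l : ZMod (2 * n)) := (ZMod.isUnit_iff_coprime l (2 * n)).2 hln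
    obtain ⟨u, hu⟩ := h1.exists_right_inv
    have : NeZero (2 * n) := ⟨h2n⟩
    refine ⟨(-u).val, ?_⟩
    rw [← ZMod.natCast_eq_zero_iff]
    push_cast
    rw [ZMod.natCast_zmod_val, mul_neg, hu, neg_add_cancel]
  refine ⟨θ ^ t, ?_, ?_⟩
  · rw [← pow_mul, mul_comm, pow_mul, hθ1, one_pow]
  · obtain ⟨v, hv⟩ := ht
    have e1 : θ ^ (l * t) * θ = 1 := by
      rw [← pow_succ, hv, pow_mul, hθ1, one_pow]
    have hd3 := hc1.mul_left (θ ^ (l * t))
    convert hd3 using 1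
    rw [mul_pow, ← pow_mul, mul_comm t l]
    linear_combination (br n K α) ^ l * e1

/-- Second half: the Frobenius congruence. -/
lemma key2 {q l k : ℕ} (hq : q.Prime) (hqn : IsUnit (q : ZMod n)) (hl : l ∣ q ^ k - 1)
    {a b : 𝓞 K} (hab : (q : 𝓞 K) ∣ a ^ l - b ^ l) :
    (q : 𝓞 K) ∣ sg n K (hqn.unit ^ k) a * b - sg n K (hqn.unit ^ k) b * a := by
  obtain ⟨m, hm⟩ := hl
  have h1 : (q : 𝓞 K) ∣ a ^ (q ^ k - 1) - b ^ (q ^ k - 1) := by
    rw [hm, pow_mul, pow_mul]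
    exact hab.trans (sub_dvd_pow_sub_pow _ _ _)
  have h2 : q ^ k = q ^ k - 1 + 1 := by
    have := Nat.one_le_pow k q hq.pos; omega
  have h3 : (q : 𝓞 K) ∣ a ^ q ^ k * b - b ^ q ^ k * a := by
    have := h1.mul_right (a * b)
    convert this using 1
    rw [h2, pow_succ, pow_succ, Nat.add_sub_cancel]; ring
  have h4 := (frob_pow hq hqn k a).mul_right b
  have h5 := (frob_pow hq hqn k b).mul_right a
  have h6 := dvd_add (dvd_sub h4 h5) h3
  convert h6 using 1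
  ring

lemma norm_emb_sg_eq {c : (ZMod n)ˣ} {a b : 𝓞 K}
    (h : ∀ φ : K →+* ℂ, ‖φ (a : K)‖ = ‖φ (b : K)‖) (φ : K →+* ℂ) :
    ‖φ (sg n K c a : K)‖ = ‖φ (sg n K c b : K)‖ := by
  have := h (φ.comp (((IsCyclotomicExtension.Rat.galEquivZMod n K).symm c : K ≃ₐ[ℚ] K) :
    K →+* K))
  simpa [sg_coe] using this

/-- The key inequality. -/
theorem key (h2 : n ≠ 2) {q l k : ℕ} (hq : q.Prime) (hqn : IsUnit (q : ZMod n))
    (hln : l.Coprime (2 * n)) (hl : l ∣ q ^ k - 1) {α W w ε : 𝓞 K} (hε : IsUnit ε)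
    (hW : W = ε * α ^ l) (hw : w ^ (2 * n) = 1)
    (hWw : (q : 𝓞 K) ∣ W - w * br n K W) :
    (∃ ρ : 𝓞 K, ρ ^ (2 * n) = 1 ∧ sg n K (hqn.unit ^ k) (ρ * α) * br n K α =
      sg n K (hqn.unit ^ k) (br n K α) * (ρ * α)) ∨
    q ^ (n - 1) ≤ 2 ^ (n - 1) * N α ^ 2 := by
  obtain ⟨ρ, hρ, hd⟩ := key1 h2 hln hε hW hw hWw
  by_cases he : sg n K (hqn.unit ^ k) (ρ * α) * br n K α =
      sg n K (hqn.unit ^ k) (br n K α) * (ρ * α)
  · exact Or.inl ⟨ρ, hρ, he⟩
  right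
  have h2n : 2 * n ≠ 0 := mul_ne_zero two_ne_zero hn.out.ne_zero
  have h3 := key2 hq hqn hl hd
  have hρα : ∀ φ : K →+* ℂ, ‖φ ((ρ * α : 𝓞 K) : K)‖ = ‖φ (br n K α : K)‖ := by
    intro φ
    rw [show ((ρ * α : 𝓞 K) : K) = (ρ : K) * (α : K) from map_mul (algebraMap (𝓞 K) K) _ _,
      map_mul, norm_mul, norm_root h2n hρ, one_mul, norm_emb_br]
  have h4 := size (K := K) (q := q) (I := ⊤) he (by
    rw [mul_top, span_singleton_le_span_singleton]; exact h3) (fun φ => by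
    have e1 : ∀ x y : 𝓞 K, φ ((x * y : 𝓞 K) : K) = φ (x : K) * φ (y : K) := fun x y => by
      rw [show ((x * y : 𝓞 K) : K) = (x : K) * (y : K) from map_mul (algebraMap (𝓞 K) K) _ _,
        map_mul]
    rw [e1, e1, norm_mul, norm_mul, norm_emb_sg_eq hρα, ← hρα φ])
  rw [finrank_K n K, absNorm_top, mul_one, N_mul, N_sg, N_mul, N_br] at h4
  have hNρ : N ρ = 1 := by
    have : N ρ ^ (2 * n) = 1 := by rw [← N_pow, hρ, N_one]
    exact (Nat.pow_eq_one.1 this).resolve_right h2n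
  rw [hNρ, one_mul] at h4
  rw [sq]; exact h4

end

end Pool.Agent.Edg
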