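import Pool.Agent.Edg.Bar

/-!
The ideal `PP ^ t` is not principal.
-/

namespace Pool.Agent.Edg

open NumberField Ideal Polynomial

noncomputable section

variable {n : ℕ} [hn : Fact n.Prime] (K : Type*) [Field K] [NumberField K]
  [hK : IsCyclotomicExtension {n} ℚ K] {p q : ℕ}

omit [NumberField K] in
lemma isUnit_of_root {w : 𝓞 K} {m : ℕ} (hm : m ≠ 0) (hw : w ^ m = 1) : IsUnit w :=
  IsUnit.of_pow_eq_one hw hm

lemma Dat.q_ne_zero [Fact p.Prime] (D : Dat n p q) : (q : ZMod p) ≠ 0 := by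
  intro h
  have h1 := D.ord
  have h2 : (q : ZMod p) ^ n = 1 := h1 ▸ pow_orderOf_eq_one _
  rw [h, zero_pow hn.out.ne_zero] at h2
  exact zero_ne_one h2

/-- only one conjugate of `q - z` lies in `PP` -/
lemma res_sg_sub [Fact p.Prime] (D : Dat n p q) {c : (ZMod n)ˣ}
    (h : res K D (sg n K c ((q : 𝓞 K) - z n K)) = 0) : c = 1 := by
  rw [sg_sub, map_sub, map_natCast, map_pow, res_z, sub_eq_zero] at h
  have h1 : (q : ZMod p) ^ (c : ZMod n).val = (q : ZMod p) ^ 1 := by rw [pow_one]; exact h.symm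
  have hu : IsUnit (q : ZMod p) := (D.q_ne_zero).isUnit
  have h2 : (c : ZMod n).val ≡ 1 [MOD n] := by
    have h3 : hu.unit ^ (c : ZMod n).val = hu.unit ^ 1 := by
      apply Units.ext; push_cast; exact h1
    have h4 := pow_eq_pow_iff_modEq.1 h3
    have h5 : orderOf hu.unit = n := by
      rw [← D.ord, ← orderOf_units]; rfl
    rwa [h5] at h4
  have h3 := (ZMod.natCast_eq_natCast_iff _ _ _).2 h2
  rw [ZMod.natCast_zmod_val, Nat.cast_one] at h3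
  exact Units.ext h3

lemma res_sg_root [Fact p.Prime] (D : Dat n p q) {a ε : 𝓞 K} {l : ℕ} (hl : l ≠ 0)
    (h : (q : 𝓞 K) - z n K = ε * a ^ l) (c : (ZMod n)ˣ)
    (h0 : res K D (sg n K c a) = 0) : c = 1 := by
  refine res_sg_sub K D ?_
  rw [h, map_mul, map_mul, map_pow, map_pow, h0, zero_pow hl, mul_zero]

lemma res_root [Fact p.Prime] (D : Dat n p q) {a ε : 𝓞 K} {l : ℕ} (hl : l ≠ 0)
    (hε : IsUnit ε) (h : (q : 𝓞 K) - z n K = ε * a ^ l) : res K D a = 0 := by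
  have h1 := res_sub K D
  rw [h, map_mul, map_pow] at h1
  have h2 : res K D ε ≠ 0 := (hε.map (res K D)).ne_zero
  exact (pow_eq_zero_iff hl).1 ((mul_eq_zero.1 h1).resolve_left h2)

/-- the nonvanishing -/
lemma nonvanish [Fact p.Prime] (D : Dat n p q) (h2 : n ≠ 2) {a ε ρ : 𝓞 K} {l : ℕ} (hl : l ≠ 0)
    (hε : IsUnit ε) (h : (q : 𝓞 K) - z n K = ε * a ^ l) (hρ : ρ ^ (2 * n) = 1)
    {u : (ZMod n)ˣ} (hu : u ≠ 1) :
    sg n K u (ρ * a) * br n K a ≠ sg n K u (br n K a) * (ρ * a) := by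
  intro he
  have h2n : 2 * n ≠ 0 := mul_ne_zero two_ne_zero hn.out.ne_zero
  have h3 := congrArg (res K D) he
  have hρu : res K D (sg n K u ρ) ≠ 0 :=
    (((isUnit_of_root K h2n hρ).map (sg n K u)).map (res K D)).ne_zero
  rw [map_mul, map_mul, map_mul, map_mul, map_mul (res K D) ρ a, res_root K D hl hε h, mul_zero,
    mul_zero, mul_eq_zero, mul_eq_zero] at h3
  rcases h3 with (h3 | h3) | h3
  · exact hρu h3
  · exact hu (res_sg_root K D hl h u h3)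
  · have h4 := res_sg_root K D hl h (-1) h3
    have h5 : (-1 : ZMod n) = 1 := congrArg Units.val h4
    have h6 : ((2 : ℕ) : ZMod n) = 0 := by
      push_cast
      linear_combination (-1 : ZMod n) * h5
    rw [ZMod.natCast_eq_zero_iff] at h6
    have h7 := Nat.le_of_dvd two_pos h6
    have := hn.out.two_le
    omega

lemma size_contra {q n l P : ℕ} (hn : 5 ≤ n) (hq : 3 ≤ q) (hl : 3 ≤ l)
    (hlq : 5 * 2 ^ l ≤ 4 * q ^ (l - 2)) (hP : P ^ l = R q n)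
    (h : q ^ (n - 1) ≤ 2 ^ (n - 1) * P ^ 2) : False := by
  obtain ⟨m, rfl⟩ : ∃ m, n = m + 1 := ⟨n - 1, by omega⟩
  obtain ⟨k, rfl⟩ : ∃ k, l = k + 2 := ⟨l - 2, by omega⟩
  rw [Nat.add_sub_cancel] at h hlq
  have h1 : (q ^ m) ^ (k + 2) ≤ (2 ^ m) ^ (k + 2) * (R q (m + 1)) ^ 2 := by
    have e0 : (2 ^ m) ^ (k + 2) * (P ^ (k + 2)) ^ 2 = (2 ^ m * P ^ 2) ^ (k + 2) := by ring
    rw [← hP, e0]
    exact Nat.pow_le_pow_left h _
  have h2 : (q - 1) * R q (m + 1) < q ^ (m + 1) := by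
    rw [sub_mul_R (by omega)]
    have := Nat.one_le_pow (m + 1) q (by omega)
    omega
  have h3 : (q ^ m) ^ (k + 2) * (q - 1) ^ 2 < (2 ^ m) ^ (k + 2) * (q ^ (m + 1)) ^ 2 := by
    calc (q ^ m) ^ (k + 2) * (q - 1) ^ 2
        ≤ ((2 ^ m) ^ (k + 2) * (R q (m + 1)) ^ 2) * (q - 1) ^ 2 := Nat.mul_le_mul_right _ h1
      _ = (2 ^ m) ^ (k + 2) * ((q - 1) * R q (m + 1)) ^ 2 := by ring
      _ < (2 ^ m) ^ (k + 2) * (q ^ (m + 1)) ^ 2 := by
          apply Nat.mul_lt_mul_of_pos_left (Nat.pow_lt_pow_left h2 two_ne_zero) (by positivity)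
  have h4 : (q ^ k) ^ m * (q - 1) ^ 2 < (2 ^ (k + 2)) ^ m * q ^ 2 := by
    have e1 : (q ^ m) ^ (k + 2) * (q - 1) ^ 2 = (q ^ m) ^ 2 * ((q ^ k) ^ m * (q - 1) ^ 2) := by
      ring
    have e2 : (2 ^ m) ^ (k + 2) * (q ^ (m + 1)) ^ 2 =
        (q ^ m) ^ 2 * ((2 ^ (k + 2)) ^ m * q ^ 2) := by
      have e3 : (2 ^ m) ^ (k + 2) = (2 ^ (k + 2)) ^ m := by
        rw [← pow_mul, ← pow_mul, mul_comm]
      rw [e3]; ring
    rw [e1, e2] at h3
    exact Nat.lt_of_mul_lt_mul_left h3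
  have h5 : (5 * 2 ^ (k + 2)) ^ m ≤ (4 * q ^ k) ^ m := Nat.pow_le_pow_left hlq _
  have h6 : 5 ^ m * (q - 1) ^ 2 < 4 ^ m * q ^ 2 := by
    have h7 : (2 ^ (k + 2)) ^ m * (5 ^ m * (q - 1) ^ 2) < (2 ^ (k + 2)) ^ m * (4 ^ m * q ^ 2) := by
      calc (2 ^ (k + 2)) ^ m * (5 ^ m * (q - 1) ^ 2)
          = (5 * 2 ^ (k + 2)) ^ m * (q - 1) ^ 2 := by rw [mul_pow]; ring
        _ ≤ (4 * q ^ k) ^ m * (q - 1) ^ 2 := Nat.mul_le_mul_right _ h5
        _ = 4 ^ m * ((q ^ k) ^ m * (q - 1) ^ 2) := by rw [mul_pow]; ring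
        _ < 4 ^ m * ((2 ^ (k + 2)) ^ m * q ^ 2) :=
            Nat.mul_lt_mul_of_pos_left h4 (by positivity)
        _ = (2 ^ (k + 2)) ^ m * (4 ^ m * q ^ 2) := by ring
    exact Nat.lt_of_mul_lt_mul_left h7
  obtain ⟨j, rfl⟩ : ∃ j, m = j + 4 := ⟨m - 4, by omega⟩
  obtain ⟨r, rfl⟩ : ∃ r, q = r + 3 := ⟨q - 3, by omega⟩
  have h8 : 4 ^ j ≤ 5 ^ j := Nat.pow_le_pow_left (by norm_num) _
  have h9 : 256 * (r + 3) ^ 2 ≤ 625 * (r + 3 - 1) ^ 2 := by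
    rw [show r + 3 - 1 = r + 2 by omega]; nlinarith
  have h10 : 4 ^ (j + 4) * (r + 3) ^ 2 ≤ 5 ^ (j + 4) * (r + 3 - 1) ^ 2 := by
    calc 4 ^ (j + 4) * (r + 3) ^ 2 = 4 ^ j * (256 * (r + 3) ^ 2) := by ring
      _ ≤ 5 ^ j * (625 * (r + 3 - 1) ^ 2) := Nat.mul_le_mul h8 h9
      _ = 5 ^ (j + 4) * (r + 3 - 1) ^ 2 := by ring
  omega

/-- `PP ^ t` is not principal when `y = l * t`. -/
theorem not_principal [Fact p.Prime] (D : Dat n p q) (h5 : 5 ≤ n) (hq3 : 3 ≤ q)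
    (hqn : IsUnit (q : ZMod n)) {l t k : ℕ}
    (hl : 3 ≤ l) (hlodd : Odd l) (hln : l.Coprime n) (hlk : l ∣ q ^ k - 1)
    (hk : hqn.unit ^ k ≠ 1) (hlq : 5 * 2 ^ l ≤ 4 * q ^ (l - 2)) (hR : R q n = p ^ (l * t)) :
    ¬ Submodule.IsPrincipal (PP K D ^ t) := by
  intro hprin
  obtain ⟨α, hα⟩ := hprin.principal
  change PP K D ^ t = span {α} at hα
  have h2 : n ≠ 2 := by omega
  have h1 : span {(q : 𝓞 K) - z n K} = span {α ^ l} := by
    rw [span_sub K D hR, ← span_singleton_pow, ← hα, ← pow_mul, mul_comm]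
  obtain ⟨ε, hε⟩ := (span_singleton_eq_span_singleton.1 h1).symm
  have hW : (q : 𝓞 K) - z n K = (ε : 𝓞 K) * α ^ l := by rw [← hε, mul_comm]
  have hw : (z n K ^ 2) ^ (2 * n) = 1 := by
    rw [← pow_mul, mul_comm 2 (2 * n), mul_comm 2 n, mul_assoc, pow_mul, z_pow, one_pow]
  have hWw : (q : 𝓞 K) ∣ ((q : 𝓞 K) - z n K) - z n K ^ 2 * br n K ((q : 𝓞 K) - z n K) :=
    ⟨1 - z n K ^ 2, by rw [map_sub, map_natCast]; linear_combination z n K * br_z_mul n K⟩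
  have hl2 : l.Coprime (2 * n) := by
    refine Nat.Coprime.mul_right ?_ hln
    exact (Nat.coprime_two_right).2 hlodd
  have hNα : N α = p ^ t := by
    rw [N, ← hα, map_pow, absNorm_PP]
  rcases key h2 D.hq hqn hl2 hlk ε.isUnit hW hw hWw with ⟨ρ, hρ, he⟩ | h
  · exact nonvanish K D h2 (by omega) ε.isUnit hW hρ hk he
  · rw [hNα] at h
    exact size_contra h5 hq3 hl hlq (by rw [hR, ← pow_mul, mul_comm]) h

end

end Pool.Agent.Edg
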