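import Pool.Agent.Edg.Spec7

/-!
Assembly: `PP ^ (y / l)` is not principal, and the divisibility of the class number.
-/

namespace Pool.Agent.Edg

open NumberField Ideal Polynomial

noncomputable section

variable {n : ℕ} [hn : Fact n.Prime] (K : Type*) [Field K] [NumberField K]
  [hK : IsCyclotomicExtension {n} ℚ K] {p q : ℕ}

lemma size_contra1 {q n l P : ℕ} (hn : 5 ≤ n) (hq : 5 ≤ q) (hl : 3 ≤ l) (hP : P ^ l = R q n)
    (h : q ^ (n - 1) ≤ 2 ^ (n - 1) * P) : False := by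
  obtain ⟨m, rfl⟩ : ∃ m, n = m + 1 := ⟨n - 1, by omega⟩
  obtain ⟨k, rfl⟩ : ∃ k, l = k + 1 := ⟨l - 1, by omega⟩
  rw [Nat.add_sub_cancel] at h
  have h1 : (q ^ m) ^ (k + 1) ≤ (2 ^ m) ^ (k + 1) * R q (m + 1) := by
    rw [← hP, ← mul_pow]
    exact Nat.pow_le_pow_left h _
  have h2 : (q - 1) * R q (m + 1) < q ^ (m + 1) := by
    rw [sub_mul_R (by omega)]
    have := Nat.one_le_pow (m + 1) q (by omega)
    omega
  have h3 : (q ^ m) ^ (k + 1) * (q - 1) < (2 ^ m) ^ (k + 1) * q ^ (m + 1) := by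
    calc (q ^ m) ^ (k + 1) * (q - 1)
        ≤ ((2 ^ m) ^ (k + 1) * R q (m + 1)) * (q - 1) := Nat.mul_le_mul_right _ h1
      _ = (2 ^ m) ^ (k + 1) * ((q - 1) * R q (m + 1)) := by ring
      _ < (2 ^ m) ^ (k + 1) * q ^ (m + 1) := Nat.mul_lt_mul_of_pos_left h2 (by positivity)
  have h4 : (q ^ k) ^ m * (q - 1) < (2 ^ (k + 1)) ^ m * q := by
    have e1 : (q ^ m) ^ (k + 1) * (q - 1) = q ^ m * ((q ^ k) ^ m * (q - 1)) := by ring
    have e2 : (2 ^ m) ^ (k + 1) * q ^ (m + 1) = q ^ m * ((2 ^ (k + 1)) ^ m * q) := by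
      have e3 : (2 ^ m) ^ (k + 1) = (2 ^ (k + 1)) ^ m := by
        rw [← pow_mul, ← pow_mul, mul_comm]
      rw [e3]; ring
    rw [e1, e2] at h3
    exact Nat.lt_of_mul_lt_mul_left h3
  have h5 : 2 * 2 ^ (k + 1) ≤ q ^ k := by
    obtain ⟨j, rfl⟩ : ∃ j, k = j + 2 := ⟨k - 2, by omega⟩
    calc 2 * 2 ^ (j + 2 + 1) = 2 ^ j * 16 := by ring
      _ ≤ 5 ^ j * 25 := Nat.mul_le_mul (Nat.pow_le_pow_left (by norm_num) _) (by norm_num)
      _ = 5 ^ (j + 2) := by ring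
      _ ≤ q ^ (j + 2) := Nat.pow_le_pow_left hq _
  have h6 : 2 ^ m * (2 ^ (k + 1)) ^ m ≤ (q ^ k) ^ m := by
    rw [← mul_pow]; exact Nat.pow_le_pow_left h5 _
  have h7 : (2 ^ (k + 1)) ^ m * (2 ^ m * (q - 1)) < (2 ^ (k + 1)) ^ m * q := by
    calc (2 ^ (k + 1)) ^ m * (2 ^ m * (q - 1)) = 2 ^ m * (2 ^ (k + 1)) ^ m * (q - 1) := by ring
      _ ≤ (q ^ k) ^ m * (q - 1) := Nat.mul_le_mul_right _ h6
      _ < (2 ^ (k + 1)) ^ m * q := h4
  have h8 : 2 ^ m * (q - 1) < q := Nat.lt_of_mul_lt_mul_left h7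
  have h9 : 2 ≤ 2 ^ m := by
    calc 2 = 2 ^ 1 := by norm_num
      _ ≤ 2 ^ m := Nat.pow_le_pow_right (by norm_num) (by omega)
  have h10 : 2 * (q - 1) ≤ 2 ^ m * (q - 1) := Nat.mul_le_mul_right _ h9
  omega

lemma pow_ineq {q l : ℕ} (hl : 3 ≤ l) (hlo : Odd l) (hqo : Odd q) (hq : q ≠ 1) (hlq : l ∣ q - 1)
    (hex : ¬ (l = 3 ∧ q = 7)) : 5 * 2 ^ l ≤ 4 * q ^ (l - 2) ∧ 5 ≤ q := by
  obtain ⟨m, hm⟩ := hlq
  have hq0 : 1 ≤ q := hqo.pos
  have hme : Even m := by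
    have h1 : Even (q - 1) := by
      obtain ⟨j, hj⟩ := hqo; exact ⟨j, by omega⟩
    rw [hm, Nat.even_mul] at h1
    rcases h1 with h1 | h1
    · exact absurd h1 (Nat.not_even_iff_odd.2 hlo)
    · exact h1
  obtain ⟨r, hr⟩ := hme
  have hr1 : 1 ≤ r := by
    rcases Nat.eq_zero_or_pos r with h0 | h0
    · rw [hr, h0] at hm; simp at hm; omega
    · exact h0
  have hq2 : q = l * (2 * r) + 1 := by rw [show 2 * r = m by omega]; omega
  rcases Nat.lt_or_ge l 5 with h5 | h5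
  · have hl3 : l = 3 := by
      obtain ⟨j, hj⟩ := hlo; omega
    subst hl3
    have : r ≠ 1 := by rintro rfl; exact hex ⟨rfl, by omega⟩
    constructor
    · rw [show 3 - 2 = 1 by norm_num, pow_one]; omega
    · omega
  · have hq11 : 11 ≤ q := by nlinarith
    obtain ⟨j, rfl⟩ : ∃ j, l = j + 5 := ⟨l - 5, by omega⟩
    refine ⟨?_, by omega⟩
    rw [show j + 5 - 2 = j + 3 by omega]
    calc 5 * 2 ^ (j + 5) = 2 ^ j * 160 := by ring
      _ ≤ 11 ^ j * 5324 := Nat.mul_le_mul (Nat.pow_le_pow_left (by norm_num) _) (by norm_num)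
      _ = 4 * 11 ^ (j + 3) := by ring
      _ ≤ 4 * q ^ (j + 3) := Nat.mul_le_mul_left _ (Nat.pow_le_pow_left hq11 _)

/-- `PP ^ t` is not principal, `y = l * t`, `l` odd, `l ∣ q - 1`. -/
theorem not_principal' [Fact p.Prime] (D : Dat n p q) (h5 : 5 ≤ n) (hp2 : p ≠ 2) (hq2 : q ≠ 2)
    (hpn : n ∣ p - 1) (hnq : ¬ n ∣ q - 1) {l t : ℕ} (hl : 3 ≤ l) (hlodd : Odd l)
    (hlq : l ∣ q - 1) (hR : R q n = p ^ (l * t)) : ¬ Submodule.IsPrincipal (PP K D ^ t) := by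
  have hqo : Odd q := D.hq.eq_two_or_odd'.resolve_left hq2
  have hln : l.Coprime n := by
    rw [Nat.coprime_comm, Nat.Prime.coprime_iff_not_dvd hn.out]
    exact fun h => hnq (h.trans hlq)
  have h2 : n ≠ 2 := by omega
  have hl2 : l.Coprime (2 * n) := Nat.Coprime.mul_right ((Nat.coprime_two_right).2 hlodd) hln
  have hpn' : p ≠ n := by
    rintro rfl
    have h6 := Nat.le_of_dvd (by have := D.hp.one_lt; omega) hpn
    omega
  by_cases hex : l = 3 ∧ q = 7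
  · obtain ⟨rfl, rfl⟩ := hex
    intro hprin
    obtain ⟨α, hα⟩ := hprin.principal
    change PP K D ^ t = span {α} at hα
    have h1 : span {((7 : ℕ) : 𝓞 K) - z n K} = span {α ^ 3} := by
      rw [span_sub K D hR, ← span_singleton_pow, ← hα, ← pow_mul, mul_comm]
    obtain ⟨ε, hε⟩ := (span_singleton_eq_span_singleton.1 h1).symm
    have hW : ((7 : ℕ) : 𝓞 K) - z n K = (ε : 𝓞 K) * α ^ 3 := by rw [← hε, mul_comm]
    have hNα : N α = p ^ t := by rw [N, ← hα, map_pow, absNorm_PP]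
    by_cases h7 : n = 7
    · subst h7
      have hw : (z 7 K ^ 2) ^ (2 * 7) = 1 := by
        rw [← pow_mul, mul_comm 2 (2 * 7), mul_comm 2 7, mul_assoc, pow_mul, z_pow, one_pow]
      have hWw : ((7 : ℕ) : 𝓞 K) ∣ (((7 : ℕ) : 𝓞 K) - z 7 K) -
          z 7 K ^ 2 * br 7 K (((7 : ℕ) : 𝓞 K) - z 7 K) :=
        ⟨1 - z 7 K ^ 2, by rw [map_sub, map_natCast]; linear_combination z 7 K * br_z_mul 7 K⟩
      obtain ⟨ρ, hρ, hd⟩ := key1 h2 hl2 ε.isUnit hW hw hWw
      have h8 := caseN K D h2 hpn' three_ne_zero (by norm_num) hNα ε.isUnit hW hρ hd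
      rw [hNα] at h8
      exact size_contra1 (l := 3) (by norm_num) (by norm_num) (by norm_num)
        (by rw [hR, ← pow_mul, mul_comm]) h8
    · have hWw : (8 : 𝓞 K) ∣ (((7 : ℕ) : 𝓞 K) - z n K) -
          z n K * br n K (((7 : ℕ) : 𝓞 K) - z n K) :=
        ⟨1 - z n K, by
          rw [map_sub, map_natCast]; push_cast; linear_combination br_z_mul n K⟩
      have hw : (z n K) ^ (2 * n) = 1 := by rw [mul_comm, pow_mul, z_pow, one_pow]
      obtain ⟨ρ, hρ, hd⟩ := key1 h2 hl2 ε.isUnit hW hw hWw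
      have h8 := case73 K D hp2 h5 hNα ε.isUnit hW hρ hd
      rw [hNα] at h8
      exact size_contra73 h5 (by rw [hR, ← pow_mul, mul_comm]) h8
  · obtain ⟨hineq, hq5⟩ := pow_ineq hl hlodd hqo D.hq.one_lt.ne' hlq hex
    by_cases hqn : q = n
    · subst hqn
      intro hprin
      obtain ⟨α, hα⟩ := hprin.principal
      change PP K D ^ t = span {α} at hα
      have h1 : span {(q : 𝓞 K) - z q K} = span {α ^ l} := by
        rw [span_sub K D hR, ← span_singleton_pow, ← hα, ← pow_mul, mul_comm]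
      obtain ⟨ε, hε⟩ := (span_singleton_eq_span_singleton.1 h1).symm
      have hW : (q : 𝓞 K) - z q K = (ε : 𝓞 K) * α ^ l := by rw [← hε, mul_comm]
      have hNα : N α = p ^ t := by rw [N, ← hα, map_pow, absNorm_PP]
      have hw : (z q K ^ 2) ^ (2 * q) = 1 := by
        rw [← pow_mul, mul_comm 2 (2 * q), mul_comm 2 q, mul_assoc, pow_mul, z_pow, one_pow]
      have hWw : (q : 𝓞 K) ∣ ((q : 𝓞 K) - z q K) - z q K ^ 2 * br q K ((q : 𝓞 K) - z q K) :=
        ⟨1 - z q K ^ 2, by rw [map_sub, map_natCast]; linear_combination z q K * br_z_mul q K⟩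
      obtain ⟨ρ, hρ, hd⟩ := key1 h2 hl2 ε.isUnit hW hw hWw
      have h8 := caseN K D h2 hpn' (by omega) hlq hNα ε.isUnit hW hρ hd
      rw [hNα] at h8
      exact size_contra1 h5 hq5 hl (by rw [hR, ← pow_mul, mul_comm]) h8
    · have hqn' : IsUnit (q : ZMod n) := by
        rw [ZMod.isUnit_iff_coprime]
        exact (Nat.coprime_primes D.hq hn.out).2 hqn
      refine not_principal K D h5 (by omega) hqn' hl hlodd hln (k := 1)
        (by rw [pow_one]; exact hlq) ?_ hineq hR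
      rw [pow_one]
      intro h
      apply hnq
      have h1 : (q : ZMod n) = 1 := by
        have := congrArg Units.val h
        rwa [IsUnit.unit_spec, Units.val_one] at this
      rw [← ZMod.natCast_eq_zero_iff, Nat.cast_sub D.hq.one_lt.le, h1]
      simp

/-- the divisibility for the order of the class of `PP` -/
theorem pow_dvd_order [Fact p.Prime] (D : Dat n p q) (h5 : 5 ≤ n) (hp2 : p ≠ 2) (hq2 : q ≠ 2)
    (hpn : n ∣ p - 1) (hnq : ¬ n ∣ q - 1) {y l : ℕ} (hl : l.Prime) (hl2 : l ≠ 2)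
    (hlq : l ∣ q - 1) (hR : R q n = p ^ y) :
    l ^ padicValNat l y ∣ classNumber K := by
  have hPP0 : PP K D ∈ nonZeroDivisors (Ideal (𝓞 K)) :=
    mem_nonZeroDivisors_of_ne_zero (PP_ne_bot K D)
  set c : ClassGroup (𝓞 K) := ClassGroup.mk0 ⟨PP K D, hPP0⟩ with hc
  have hpr : ∀ t : ℕ, c ^ t = 1 ↔ Submodule.IsPrincipal (PP K D ^ t) := by
    intro t
    rw [hc, ← map_pow, ClassGroup.mk0_eq_one_iff]
    rfl
  have h1 : orderOf c ∣ y := by
    rw [orderOf_dvd_iff_pow_eq_one, hpr, ← span_sub K D hR]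
    exact ⟨_, rfl⟩
  obtain ⟨m, hm⟩ := h1
  have h2 : ¬ l ∣ m := by
    rintro ⟨m', rfl⟩
    have h3 : c ^ (orderOf c * m') = 1 := by rw [pow_mul, pow_orderOf_eq_one, one_pow]
    rw [hpr] at h3
    have h4 : R q n = p ^ (l * (orderOf c * m')) := by rw [hR]; congr 1; rw [hm]; ring
    have hl3 : 3 ≤ l := by
      have := hl.two_le; omega
    exact not_principal' K D h5 hp2 hq2 hpn hnq hl3 (hl.eq_two_or_odd'.resolve_left hl2)
      hlq h4 h3
  have h3 : l ^ padicValNat l y ∣ orderOf c * m := by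
    rw [← hm]; exact pow_padicValNat_dvd
  have h4 : l ^ padicValNat l y ∣ orderOf c :=
    (Nat.Coprime.pow_left _ ((Nat.Prime.coprime_iff_not_dvd hl).2 h2)).dvd_of_dvd_mul_right h3
  refine h4.trans ?_
  rw [NumberField.classNumber, ← Nat.card_eq_fintype_card]
  exact orderOf_dvd_natCard c

end

end Pool.Agent.Edg
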