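import Mathlib

/-!
A double count in a finite abelian group: a half-size set and the translates by a subgroup of odd
order.
-/

namespace Pool.Agent.Edg

open Finset

section count

variable {G : Type*} [CommGroup G] [Fintype G] [DecidableEq G]

/-- `#{c ∈ A : c h ∈ A}` -/
def MM (A : Finset G) (h : G) : ℕ := (A.filter fun c => c * h ∈ A).card

omit [Fintype G] in
lemma MM_one (A : Finset G) : MM A 1 = A.card := by
  rw [MM]; congr 1; ext c; simp

/-- the indicator function -/
def ind (A : Finset G) (c : G) : ℤ := if c ∈ A then 1 else 0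

omit [CommGroup G] in
lemma sum_ind (A : Finset G) : ∑ c : G, ind A c = A.card := by
  simp only [ind]
  rw [← sum_filter, sum_const, nsmul_eq_mul, mul_one]
  congr 2; ext c; simp

lemma MM_sum (A : Finset G) (h : G) :
    (MM A h : ℤ) = ∑ c : G, ind A c * ind A (c * h) := by
  have h1 : ∀ c : G, ind A c * ind A (c * h) = ind (A.filter fun c => c * h ∈ A) c := by
    intro c
    simp only [ind, mem_filter]
    by_cases h1 : c ∈ A <;> by_cases h2 : c * h ∈ A <;> simp [h1, h2]
  rw [sum_congr rfl fun c _ => h1 c, sum_ind, MM]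

theorem count (A : Finset G) (hA : 2 * A.card = Fintype.card G) (H : Subgroup G)
    [Fintype H] (hodd : Odd (Fintype.card H)) :
    (Fintype.card G : ℤ) * ((Fintype.card H : ℤ) ^ 2 + 1) ≤
      4 * (Fintype.card H : ℤ) * ∑ h : H, (MM A (h : G) : ℤ) := by
  set f : ℤ := (Fintype.card H : ℤ) with hf
  set a : G → ℤ := fun c => ∑ h : H, ind A (c * (h : G)) with ha
  have h1 : ∑ c : G, a c = f * A.card := by
    rw [ha, sum_comm]
    have : ∀ h : H, ∑ c : G, ind A (c * (h : G)) = A.card := by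
      intro h
      rw [← sum_ind]
      exact Fintype.sum_equiv (Equiv.mulRight (h : G)) _ _ (fun c => rfl)
    rw [sum_congr rfl fun h _ => this h, sum_const, card_univ, nsmul_eq_mul, hf]
  have h2 : ∑ c : G, a c ^ 2 = f * ∑ h : H, (MM A (h : G) : ℤ) := by
    have e1 : ∀ c : G, a c ^ 2 = ∑ h : H, ∑ h' : H,
        ind A (c * (h : G)) * ind A (c * (h' : G)) := by
      intro c; rw [sq, ha]; simp only; rw [sum_mul_sum]
    rw [sum_congr rfl fun c _ => e1 c, sum_comm]
    have e2 : ∀ h : H, ∑ c : G, ∑ h' : H,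
        ind A (c * (h : G)) * ind A (c * (h' : G)) = ∑ k : H, (MM A (k : G) : ℤ) := by
      intro h
      rw [sum_comm]
      refine (Fintype.sum_equiv (Equiv.mulLeft h) (fun k : H => (MM A (k : G) : ℤ)) _
        fun k => ?_).symm
      rw [MM_sum]
      refine Fintype.sum_equiv (Equiv.mulRight (h : G)⁻¹) _ _ fun c => ?_
      have e3 : (Equiv.mulRight (h : G)⁻¹) c = c * (h : G)⁻¹ := rfl
      have e4 : (((Equiv.mulLeft h) k : H) : G) = (h : G) * (k : G) := rfl
      rw [e3, e4, inv_mul_cancel_right, ← mul_assoc, inv_mul_cancel_right]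
    rw [sum_congr rfl fun h _ => e2 h, sum_const, card_univ, nsmul_eq_mul, hf]
  have h3 : ∀ c : G, (1 : ℤ) ≤ (2 * a c - f) ^ 2 := by
    intro c
    have hne : 2 * a c - f ≠ 0 := by
      intro h0
      obtain ⟨m, hm⟩ := hodd
      rw [hf, hm] at h0
      push_cast at h0
      omega
    have := Int.one_le_abs hne
    rw [← sq_abs]; nlinarith
  have h4 : (Fintype.card G : ℤ) ≤ ∑ c : G, (2 * a c - f) ^ 2 := by
    have := sum_le_sum fun c (_ : c ∈ (univ : Finset G)) => h3 c
    rwa [sum_const, card_univ, nsmul_eq_mul, mul_one] at this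
  have h5 : ∑ c : G, (2 * a c - f) ^ 2 =
      4 * ∑ c : G, a c ^ 2 - 4 * f * ∑ c : G, a c + f ^ 2 * Fintype.card G := by
    rw [mul_sum, mul_sum, ← sum_sub_distrib]
    have e3 : f ^ 2 * (Fintype.card G : ℤ) = ∑ _c : G, f ^ 2 := by
      rw [sum_const, card_univ, nsmul_eq_mul, mul_comm]
    rw [e3, ← sum_add_distrib]
    refine sum_congr rfl fun c _ => by ring
  rw [h5, h1, h2] at h4
  have hA' : (2 : ℤ) * A.card = Fintype.card G := by exact_mod_cast hA
  nlinarith

/-- some non-trivial element has a large intersection -/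
theorem exists_large (A : Finset G) (hA : 2 * A.card = Fintype.card G) (H : Subgroup G)
    [Fintype H] (hodd : Odd (Fintype.card H)) (h1 : Fintype.card H ≠ 1) :
    ∃ h : G, h ∈ H ∧ h ≠ 1 ∧
      Fintype.card G * (Fintype.card H - 1) ≤ 4 * Fintype.card H * MM A h := by
  classical
  by_contra hcon
  push Not at hcon
  have hc := count A hA H hodd
  have hf1 : 1 ≤ Fintype.card H := Fintype.card_pos
  set f : ℤ := (Fintype.card H : ℤ) with hf
  have hf2 : 2 ≤ f := by rw [hf]; exact_mod_cast (by omega : 2 ≤ Fintype.card H)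
  have hsplit : ∑ h : H, (MM A (h : G) : ℤ) =
      A.card + ∑ h ∈ univ.erase (1 : H), (MM A (h : G) : ℤ) := by
    rw [← add_sum_erase univ _ (mem_univ (1 : H)), Subgroup.coe_one, MM_one]
  have hlt : ∀ h ∈ univ.erase (1 : H),
      4 * f * (MM A (h : G) : ℤ) ≤ (Fintype.card G : ℤ) * (f - 1) - 1 := by
    intro h hh
    have hne : (h : G) ≠ 1 := fun e => (mem_erase.1 hh).1 (Subtype.ext e)
    have h2 := hcon (h : G) h.2 hne
    have h3 : (4 * Fintype.card H * MM A (h : G) : ℤ) <
        (Fintype.card G : ℤ) * ((Fintype.card H - 1 : ℕ) : ℤ) := by exact_mod_cast h2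
    rw [Nat.cast_sub hf1, Nat.cast_one] at h3
    rw [hf]; linarith
  have hsum : 4 * f * ∑ h ∈ univ.erase (1 : H), (MM A (h : G) : ℤ) ≤
      (f - 1) * ((Fintype.card G : ℤ) * (f - 1) - 1) := by
    rw [mul_sum]
    refine (sum_le_sum hlt).trans ?_
    rw [sum_const, card_erase_of_mem (mem_univ _), card_univ, nsmul_eq_mul, Nat.cast_sub hf1,
      Nat.cast_one]
  have hA' : (2 : ℤ) * A.card = Fintype.card G := by exact_mod_cast hA
  rw [hsplit] at hc
  have : (Fintype.card G : ℤ) * (f ^ 2 + 1) ≤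
      2 * f * Fintype.card G + (f - 1) * ((Fintype.card G : ℤ) * (f - 1) - 1) := by
    calc (Fintype.card G : ℤ) * (f ^ 2 + 1)
        ≤ 4 * f * (A.card + ∑ h ∈ univ.erase (1 : H), (MM A (h : G) : ℤ)) := hc
      _ = 2 * f * (2 * A.card) + 4 * f * ∑ h ∈ univ.erase (1 : H), (MM A (h : G) : ℤ) := by ring
      _ ≤ _ := by rw [hA']; linarith
  nlinarith

end count

end Pool.Agent.Edg
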