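import Mathlib

/-!
Cyclotomic field of prime order `n`: automorphisms, Frobenius congruence, norm inequalities.
-/

namespace Pool.Agent.Edg

open NumberField Ideal

noncomputable section

section general

variable {K : Type*} [Field K] [NumberField K]

/-- absolute norm of an integer as a natural number -/
def N (x : 𝓞 K) : ℕ := absNorm (span {x})

lemma N_mul (x y : 𝓞 K) : N (x * y) = N x * N y := by
  rw [N, ← span_singleton_mul_span_singleton, map_mul]; rfl

lemma N_one : N (1 : 𝓞 K) = 1 := by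
  rw [N, span_singleton_one, absNorm_top]

lemma N_pow (x : 𝓞 K) (k : ℕ) : N (x ^ k) = N x ^ k := by
  induction k with
  | zero => rw [pow_zero, pow_zero, N_one]
  | succ k ih => rw [pow_succ, N_mul, ih, pow_succ]

lemma N_natCast (m : ℕ) : N (m : 𝓞 K) = m ^ Module.finrank ℚ K := by
  rw [N, absNorm_span_natCast, RingOfIntegers.rank]

lemma N_pos {x : 𝓞 K} (hx : x ≠ 0) : 0 < N x := by
  rw [Nat.pos_iff_ne_zero, N, Ne, absNorm_eq_zero_iff, span_singleton_eq_bot]
  exact hx

lemma N_eq_prod (x : 𝓞 K) : (N x : ℝ) = ∏ φ : K →+* ℂ, ‖φ (x : K)‖ := by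
  have h1 : (N x : ℝ) = |((Algebra.norm ℚ (x : K) : ℚ) : ℝ)| := by
    rw [N, absNorm_span_singleton, Nat.cast_natAbs, ← Algebra.coe_norm_int]
    simp
  have h2 := congrArg (‖·‖) (Algebra.norm_eq_prod_embeddings ℚ ℂ (x : K))
  rw [h1, Fintype.prod_equiv (RingHom.equivRatAlgHom K ℂ) (fun φ => ‖φ (x : K)‖)
      (fun f => ‖f (x : K)‖) fun _ => by simp [RingHom.equivRatAlgHom_apply]]
  simp only [norm_prod] at h2
  rw [← h2, eq_ratCast, ← Complex.ofReal_ratCast, Complex.norm_real, Real.norm_eq_abs]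

lemma card_emb : Fintype.card (K →+* ℂ) = Module.finrank ℚ K :=
  NumberField.Embeddings.card K ℂ

/-- the main size inequality -/
lemma size {q : ℕ} {A B : 𝓞 K} {I : Ideal (𝓞 K)} (hne : A ≠ B)
    (hdvd : span {A - B} ≤ span {(q : 𝓞 K)} * I)
    (habs : ∀ φ : K →+* ℂ, ‖φ (A : K)‖ = ‖φ (B : K)‖) :
    q ^ Module.finrank ℚ K * absNorm I ≤ 2 ^ Module.finrank ℚ K * N A := by
  have h1 : q ^ Module.finrank ℚ K * absNorm I ∣ N (A - B) := by
    have := absNorm_dvd_absNorm_of_le hdvd
    rwa [map_mul, absNorm_span_natCast, RingOfIntegers.rank] at this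
  have h2 : q ^ Module.finrank ℚ K * absNorm I ≤ N (A - B) :=
    Nat.le_of_dvd (N_pos (sub_ne_zero.2 hne)) h1
  refine h2.trans ?_
  have h3 : (N (A - B) : ℝ) ≤ 2 ^ Module.finrank ℚ K * N A := by
    rw [N_eq_prod, N_eq_prod, ← card_emb (K := K), ← Finset.card_univ, ← Finset.prod_const,
      ← Finset.prod_mul_distrib]
    refine Finset.prod_le_prod (fun _ _ => norm_nonneg _) fun φ _ => ?_
    rw [show ((A - B : 𝓞 K) : K) = (A : K) - (B : K) from map_sub (algebraMap (𝓞 K) K) A B,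
      map_sub]
    refine (norm_sub_le _ _).trans ?_
    rw [← habs φ, two_mul]
  exact_mod_cast h3

end general

section cyc

variable (n : ℕ) [hn : Fact n.Prime] (K : Type*) [Field K] [NumberField K]
  [hK : IsCyclotomicExtension {n} ℚ K]

instance : NeZero n := ⟨hn.out.ne_zero⟩

/-- the primitive root of unity -/
def z : 𝓞 K := (IsCyclotomicExtension.zeta_spec n ℚ K).toInteger

lemma z_prim : IsPrimitiveRoot (z n K) n :=
  (IsCyclotomicExtension.zeta_spec n ℚ K).toInteger_isPrimitiveRoot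

lemma z_pow : z n K ^ n = 1 := (z_prim n K).pow_eq_one

lemma finrank_K : Module.finrank ℚ K = n - 1 := by
  rw [IsCyclotomicExtension.Rat.finrank n K, Nat.totient_prime hn.out]

lemma mem_adjoin (x : 𝓞 K) : x ∈ Algebra.adjoin ℤ {z n K} := by
  have h := (IsCyclotomicExtension.zeta_spec n ℚ K).integralPowerBasis.adjoin_gen_eq_top
  rw [IsPrimitiveRoot.integralPowerBasis_gen] at h
  change Algebra.adjoin ℤ {z n K} = ⊤ at h
  rw [h]; trivial

/-- ring homs out of `𝓞 K` agree when they agree on `z` -/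
lemma hom_ext {A : Type*} [CommRing A] {f g : 𝓞 K →+* A} (h : f (z n K) = g (z n K)) : f = g := by
  ext x
  have hx := mem_adjoin n K x
  induction hx using Algebra.adjoin_induction with
  | mem y hy => rw [Set.mem_singleton_iff.1 hy, h]
  | algebraMap r => simp
  | add a b _ _ ha hb => rw [map_add, map_add, ha, hb]
  | mul a b _ _ ha hb => rw [map_mul, map_mul, ha, hb]

/-- the automorphism `z ↦ z ^ c` -/
def sg (c : (ZMod n)ˣ) : 𝓞 K →+* 𝓞 K :=
  MulSemiringAction.toRingHom _ (𝓞 K) ((IsCyclotomicExtension.Rat.galEquivZMod n K).symm c)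

lemma sg_apply (c : (ZMod n)ˣ) (x : 𝓞 K) :
    sg n K c x = (IsCyclotomicExtension.Rat.galEquivZMod n K).symm c • x := rfl

lemma sg_z (c : (ZMod n)ˣ) : sg n K c (z n K) = z n K ^ (c : ZMod n).val := by
  rw [sg_apply, IsCyclotomicExtension.Rat.galEquivZMod_smul_of_pow_eq n K _ (z_pow n K),
    MulEquiv.apply_symm_apply]

lemma sg_coe (c : (ZMod n)ˣ) (x : 𝓞 K) :
    ((sg n K c x : 𝓞 K) : K) = (IsCyclotomicExtension.Rat.galEquivZMod n K).symm c (x : K) := rfl

lemma sg_injective (c : (ZMod n)ˣ) : Function.Injective (sg n K c) :=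
  MulAction.injective _

lemma sg_mul (a b : (ZMod n)ˣ) (x : 𝓞 K) : sg n K (a * b) x = sg n K a (sg n K b x) := by
  rw [sg_apply, map_mul, mul_smul]; rfl

lemma sg_one (x : 𝓞 K) : sg n K 1 x = x := by
  rw [sg_apply, map_one, one_smul]

lemma z_pow_val_natCast (a : ℕ) : z n K ^ (a : ZMod n).val = z n K ^ a := by
  rw [ZMod.val_natCast]
  have h := pow_mod_orderOf (z n K) a
  rwa [← (z_prim n K).eq_orderOf] at h

lemma N_sg (c : (ZMod n)ˣ) (x : 𝓞 K) : N (sg n K c x) = N x := by
  have h : (N (sg n K c x) : ℝ) = N x := by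
    rw [N_eq_prod, N_eq_prod]
    set τ := (IsCyclotomicExtension.Rat.galEquivZMod n K).symm c
    refine Fintype.prod_bijective (fun φ : K →+* ℂ => φ.comp (τ : K →+* K)) ?_ _ _ ?_
    · refine (Fintype.bijective_iff_injective_and_card _).2 ⟨fun a b hab => ?_, rfl⟩
      ext y
      have := congrArg (fun f : K →+* ℂ => f (τ.symm y)) hab
      simpa using this
    · intro φ
      rw [sg_coe]; rfl
  exact_mod_cast h

/-- Frobenius congruence -/
lemma frob {q : ℕ} (hq : q.Prime) (hqn : IsUnit (q : ZMod n)) (x : 𝓞 K) :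
    (q : 𝓞 K) ∣ sg n K hqn.unit x - x ^ q := by
  have : Fact q.Prime := ⟨hq⟩
  have : CharP (𝓞 K ⧸ span {(q : 𝓞 K)}) q := by
    refine CharP.quotient (𝓞 K) q ?_
    intro hu
    have h1 : N (q : 𝓞 K) = 1 := by
      rw [N, absNorm_eq_one_iff, span_singleton_eq_top]; exact hu
    rw [N_natCast, finrank_K n K] at h1
    have h2 : n - 1 ≠ 0 := by have := hn.out.one_lt; omega
    exact hq.one_lt.ne' ((Nat.pow_eq_one.1 h1).resolve_right h2)
  have key : (Ideal.Quotient.mk (span {(q : 𝓞 K)})).comp (sg n K hqn.unit) =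
      (frobenius (𝓞 K ⧸ span {(q : 𝓞 K)}) q).comp (Ideal.Quotient.mk (span {(q : 𝓞 K)})) := by
    refine hom_ext n K ?_
    rw [RingHom.comp_apply, RingHom.comp_apply, sg_z, frobenius_def, ← map_pow]
    congr 1
    rw [IsUnit.unit_spec, z_pow_val_natCast]
  have h1 := congrArg (fun f => f x) key
  simp only [RingHom.comp_apply, frobenius_def, ← map_pow] at h1
  rwa [Ideal.Quotient.eq, mem_span_singleton] at h1

end cyc

end

end Pool.Agent.Edg
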