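import Pool.Agent.Edg.Jac

/-!
The conjugate primes and the factorisation of the Jacobi sums.
-/

namespace Pool.Agent.Edg

open NumberField Ideal Polynomial

noncomputable section

variable {n : ℕ} [hn : Fact n.Prime] (K : Type*) [Field K] [NumberField K]
  [hK : IsCyclotomicExtension {n} ℚ K] {p q : ℕ}

/-- the conjugate prime: `x ∈ PPc c ↔ sg c x ∈ PP` -/
def PPc [Fact p.Prime] (D : Dat n p q) (c : (ZMod n)ˣ) : Ideal (𝓞 K) :=
  RingHom.ker ((res K D).comp (sg n K c))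

lemma mem_PPc [Fact p.Prime] (D : Dat n p q) (c : (ZMod n)ˣ) (x : 𝓞 K) :
    x ∈ PPc K D c ↔ res K D (sg n K c x) = 0 := Iff.rfl

lemma resc_surj [Fact p.Prime] (D : Dat n p q) (c : (ZMod n)ˣ) :
    Function.Surjective ((res K D).comp (sg n K c)) := fun a => by
  refine ⟨(a.val : 𝓞 K), ?_⟩
  rw [map_natCast, ZMod.natCast_zmod_val]

lemma absNorm_PPc [Fact p.Prime] (D : Dat n p q) (c : (ZMod n)ˣ) :
    absNorm (PPc K D c) = p := by
  rw [absNorm_apply, PPc]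
  have e := RingHom.quotientKerEquivOfSurjective (resc_surj K D c)
  rw [Submodule.cardQuot_apply, Nat.card_congr e.toEquiv, Nat.card_zmod]

instance PPc_max [Fact p.Prime] (D : Dat n p q) (c : (ZMod n)ˣ) : (PPc K D c).IsMaximal :=
  RingHom.ker_isMaximal_of_surjective _ (resc_surj K D c)

/-- the conjugate of `q - z` in `PPc c` -/
def qz (n : ℕ) [hn : Fact n.Prime] (K : Type*) [Field K] [NumberField K]
    [hK : IsCyclotomicExtension {n} ℚ K] (q : ℕ) (c : (ZMod n)ˣ) : 𝓞 K :=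
  sg n K c⁻¹ ((q : 𝓞 K) - z n K)

lemma sg_qz (q : ℕ) (c d : (ZMod n)ˣ) :
    sg n K c (qz n K q d) = sg n K (c * d⁻¹) ((q : 𝓞 K) - z n K) := by
  rw [qz, ← sg_mul]

lemma qz_mem_PPc [Fact p.Prime] (D : Dat n p q) (c d : (ZMod n)ˣ) :
    qz n K q d ∈ PPc K D c ↔ c = d := by
  rw [mem_PPc, sg_qz]
  constructor
  · intro h
    have := res_sg_sub K D h
    rwa [mul_inv_eq_one] at this
  · rintro rfl
    rw [mul_inv_cancel, sg_one]; exact res_sub K D

lemma PPc_injective [Fact p.Prime] (D : Dat n p q) : Function.Injective (PPc K D) := by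
  intro c d h
  have h1 : qz n K q c ∈ PPc K D c := (qz_mem_PPc K D c c).2 rfl
  rw [h, qz_mem_PPc] at h1
  exact h1.symm

lemma PPc_coprime [Fact p.Prime] (D : Dat n p q) {c d : (ZMod n)ˣ} (h : c ≠ d) :
    IsCoprime (PPc K D c) (PPc K D d) := by
  rw [Ideal.isCoprime_iff_sup_eq]
  exact (PPc_max K D c).coprime_of_ne (PPc_max K D d) fun h' => h (PPc_injective K D h')

lemma prod_PPc_le [Fact p.Prime] (D : Dat n p q) (A : Finset (ZMod n)ˣ) (t : ℕ)
    {I : Ideal (𝓞 K)} (h : ∀ c ∈ A, I ≤ PPc K D c ^ t) : I ≤ ∏ c ∈ A, PPc K D c ^ t := by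
  rw [← dvd_iff_le]
  refine Finset.prod_dvd_of_coprime ?_ fun c hc => dvd_iff_le.2 (h c hc)
  intro c _ d _ hcd
  exact (PPc_coprime K D hcd).pow

lemma absNorm_prod_PPc [Fact p.Prime] (D : Dat n p q) (A : Finset (ZMod n)ˣ) (t : ℕ) :
    absNorm (∏ c ∈ A, PPc K D c ^ t) = (p ^ t) ^ A.card := by
  rw [map_prod, Finset.prod_congr rfl fun c _ => by rw [map_pow, absNorm_PPc],
    Finset.prod_const]

lemma N_qz (c : (ZMod n)ˣ) : N (qz n K q c) = R q n := by
  rw [qz, N_sg, N_sub]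

/-- equality of ideals from divisibility and norms -/
lemma eq_of_le_of_absNorm {I J : Ideal (𝓞 K)} (h : I ≤ J) (hN : absNorm I = absNorm J)
    (h0 : absNorm J ≠ 0) : I = J := by
  obtain ⟨L, hL⟩ := dvd_iff_le.2 h
  have h1 := congrArg absNorm hL
  rw [map_mul, hN] at h1
  have h2 : absNorm L = 1 := by
    have : absNorm J * absNorm L = absNorm J * 1 := by rw [mul_one]; exact h1.symm
    exact Nat.eq_of_mul_eq_mul_left (Nat.pos_of_ne_zero h0) this
  rw [hL, absNorm_eq_one_iff.1 h2, mul_top]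

/-- `(q - z^{1/c}) = PPc c ^ y` -/
lemma span_qz [Fact p.Prime] (D : Dat n p q) {y : ℕ} (hy : R q n = p ^ y) (c : (ZMod n)ˣ) :
    span {qz n K q c} = PPc K D c ^ y := by
  have h1 : PPc K D c ^ y ≤ comap (sg n K c) (PP K D ^ y) := by
    have : PPc K D c = comap (sg n K c) (PP K D) := by
      ext x; rw [mem_PPc, mem_comap, mem_PP]
    rw [this]
    exact le_comap_pow _ _
  have h2 : comap (sg n K c) (PP K D ^ y) = span {qz n K q c} := by
    ext x
    rw [mem_comap, ← span_sub K D hy, mem_span_singleton, mem_span_singleton]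
    constructor
    · rintro ⟨w, hw⟩
      refine ⟨sg n K c⁻¹ w, ?_⟩
      have := congrArg (sg n K c⁻¹) hw
      rw [← sg_mul, inv_mul_cancel, sg_one, map_mul] at this
      exact this
    · rintro ⟨w, hw⟩
      refine ⟨sg n K c w, ?_⟩
      rw [hw, map_mul, qz, ← sg_mul, mul_inv_cancel, sg_one]
  rw [h2] at h1
  refine (eq_of_le_of_absNorm K h1 ?_ ?_).symm
  · rw [map_pow, absNorm_PPc]
    change _ = N (qz n K q c)
    rw [N_qz, hy]
  · change N (qz n K q c) ≠ 0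
    rw [N_qz, hy]; exact pow_ne_zero _ D.hp.ne_zero

/-- the set `A_i` -/
def AA (n : ℕ) [hn : Fact n.Prime] (i : ℕ) : Finset (ZMod n)ˣ :=
  Finset.univ.filter fun c => (c : ZMod n).val + ((i : ZMod n) * (c : ZMod n)).val < n

lemma mem_AA {i : ℕ} {c : (ZMod n)ˣ} :
    c ∈ AA n i ↔ (c : ZMod n).val + ((i : ZMod n) * (c : ZMod n)).val < n := by
  rw [AA, Finset.mem_filter]; simp

lemma val_neg_add {a : ZMod n} (ha : a ≠ 0) : (-a).val + a.val = n := by
  have : NeZero a := ⟨ha⟩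
  rw [ZMod.val_neg_of_ne_zero]
  have := ZMod.val_lt a
  omega

/-- complement -/
lemma neg_mem_AA {i : ℕ} (hi : ¬ n ∣ i) (hi1 : ¬ n ∣ i + 1) (c : (ZMod n)ˣ) :
    -c ∈ AA n i ↔ c ∉ AA n i := by
  have hi' : (i : ZMod n) ≠ 0 := fun h => hi ((ZMod.natCast_eq_zero_iff _ _).1 h)
  have hi1' : (i : ZMod n) + 1 ≠ 0 := fun h => hi1 (by
    rw [← ZMod.natCast_eq_zero_iff]; push_cast; exact h)
  have hc : (c : ZMod n) ≠ 0 := c.ne_zero
  rw [mem_AA, mem_AA, Units.val_neg, mul_neg]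
  have h1 := val_neg_add hc
  have h2 := val_neg_add (mul_ne_zero hi' hc)
  have h3 : (c : ZMod n).val + ((i : ZMod n) * (c : ZMod n)).val ≠ n := by
    intro h
    have h4 := congrArg (fun m : ℕ => (m : ZMod n)) h
    simp only [Nat.cast_add, ZMod.natCast_zmod_val, ZMod.natCast_self] at h4
    have h5 : ((i : ZMod n) + 1) * (c : ZMod n) = 0 := by linear_combination h4
    rcases mul_eq_zero.1 h5 with h6 | h6
    · exact hi1' h6
    · exact hc h6
  omega

lemma card_AA {i : ℕ} (hi : ¬ n ∣ i) (hi1 : ¬ n ∣ i + 1) : 2 * (AA n i).card = n - 1 := by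
  have h1 : (AA n i).card = (Finset.univ \ AA n i).card := by
    refine Finset.card_bij (fun c _ => -c) ?_ ?_ ?_
    · intro c hc
      rw [Finset.mem_sdiff]
      refine ⟨Finset.mem_univ _, fun h => ?_⟩
      exact ((neg_mem_AA hi hi1 c).1 h) hc
    · intro a _ b _ h; exact neg_injective h
    · intro c hc
      rw [Finset.mem_sdiff] at hc
      exact ⟨-c, (neg_mem_AA hi hi1 c).2 hc.2, neg_neg c⟩
  have h2 : (Finset.univ \ AA n i).card + (AA n i).card = n - 1 := by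
    rw [Finset.card_sdiff_add_card_eq_card (Finset.subset_univ _), Finset.card_univ,
      ZMod.card_units_eq_totient, Nat.totient_prime hn.out]
  omega

/-- `J_i` -/
def JJ [Fact p.Prime] (χ : MulChar (ZMod p) (𝓞 K)) (i : ℕ) : 𝓞 K := jac χ 1 i

variable {K}

lemma sg_JJ [Fact p.Prime] {D : Dat n p q} {χ : MulChar (ZMod p) (𝓞 K)}
    (C : Chr K D χ) (c : (ZMod n)ˣ) (i : ℕ) :
    sg n K c (JJ K χ i) = jac χ (c : ZMod n).val ((i : ZMod n) * (c : ZMod n)).val := by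
  rw [JJ, sg_jac C, one_mul, ← jac_mod C, ← jac_mod C (c : ZMod n).val]
  congr 1
  rw [ZMod.val_mul, ZMod.val_natCast, Nat.mod_mod, Nat.mod_mul_mod]

lemma JJ_mul_br [Fact p.Prime] {D : Dat n p q} {χ : MulChar (ZMod p) (𝓞 K)}
    (C : Chr K D χ) {i : ℕ} (hi : ¬ n ∣ i) (hi1 : ¬ n ∣ i + 1) :
    JJ K χ i * br n K (JJ K χ i) = p := by
  refine jac_mul_br C ?_ hi ?_
  · intro h; exact hn.out.one_lt.ne' (Nat.dvd_one.1 h)
  · rwa [add_comm]

lemma JJ_mem [Fact p.Prime] {D : Dat n p q} {χ : MulChar (ZMod p) (𝓞 K)}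
    (C : Chr K D χ) {i : ℕ} (hi : ¬ n ∣ i) {c : (ZMod n)ˣ} (hc : c ∈ AA n i) :
    JJ K χ i ∈ PPc K D c := by
  have hi' : (i : ZMod n) ≠ 0 := fun h => hi ((ZMod.natCast_eq_zero_iff _ _).1 h)
  rw [mem_AA] at hc
  rw [mem_PPc, sg_JJ C]
  refine res_jac C ?_ ?_ hc
  · exact Nat.one_le_iff_ne_zero.2 ((ZMod.val_ne_zero _).2 c.ne_zero)
  · exact Nat.one_le_iff_ne_zero.2 ((ZMod.val_ne_zero _).2 (mul_ne_zero hi' c.ne_zero))

lemma N_JJ [Fact p.Prime] {D : Dat n p q} {χ : MulChar (ZMod p) (𝓞 K)}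
    (C : Chr K D χ) {i : ℕ} (hi : ¬ n ∣ i) (hi1 : ¬ n ∣ i + 1) :
    N (JJ K χ i) = p ^ (AA n i).card := by
  have h1 := congrArg N (JJ_mul_br C hi hi1)
  rw [N_mul, N_br, N_natCast, finrank_K n K, ← card_AA hi hi1, pow_mul', ← sq] at h1
  exact Nat.pow_left_injective two_ne_zero h1

/-- Stickelberger for `J_i` -/
theorem span_JJ [Fact p.Prime] {D : Dat n p q} {χ : MulChar (ZMod p) (𝓞 K)}
    (C : Chr K D χ) {i : ℕ} (hi : ¬ n ∣ i) (hi1 : ¬ n ∣ i + 1) :
    span {JJ K χ i} = ∏ c ∈ AA n i, PPc K D c := by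
  have h1 : span {JJ K χ i} ≤ ∏ c ∈ AA n i, PPc K D c ^ 1 :=
    prod_PPc_le K D _ 1 fun c hc => by
      rw [pow_one, span_singleton_le_iff_mem]; exact JJ_mem C hi hc
  have h2 : absNorm (∏ c ∈ AA n i, PPc K D c ^ 1) = p ^ (AA n i).card := by
    rw [absNorm_prod_PPc, pow_one]
  have h3 := eq_of_le_of_absNorm K h1 (by rw [h2]; exact N_JJ C hi hi1)
    (by rw [h2]; exact pow_ne_zero _ D.hp.ne_zero)
  rw [h3]
  refine Finset.prod_congr rfl fun c _ => pow_one _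

end

end Pool.Agent.Edg
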