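import Pool.Agent.Edg.Sz3

/-!
The final form of the size theorem.
-/

namespace Pool.Agent.Edg

open NumberField Ideal Polynomial

noncomputable section

lemma mem_AA2_five [hn : Fact (Nat.Prime 5)] : (AA 5 1 \ AA 5 2) = {ZMod.unitOfCoprime 2 (by norm_num)} := by
  decide +revert

theorem size_all {p q x y d : ℕ} (hp : p.Prime) (hp2 : p ≠ 2) (hq : q.Prime)
    (hx : 5 ≤ x) (hy : 2 ≤ y) (h : R q x = p ^ y)
    (hd : Odd d) (hdy : d ∣ y) (hdq : d ∣ q - 1) :
    (Odd (orderOf (q : ZMod x)) → q ^ (4 * orderOf (q : ZMod x)) ≤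
      2 ^ (4 * orderOf (q : ZMod x)) * (p ^ (y / d)) ^ (orderOf (q : ZMod x) + 1)) ∧
    (¬ Odd (orderOf (q : ZMod x)) → 7 ≤ x → q ^ (x - 1) ≤ 2 ^ (x - 1) * (p ^ (y / d)) ^ NN x) ∧
    q ^ 3 ≤ 8 * p ^ (y / d) := by
  obtain ⟨hxp, hord, hxp1, hxq⟩ := basic hp hp2 hq (by omega) hy h
  have : Fact x.Prime := ⟨hxp⟩
  have : Fact p.Prime := ⟨hp⟩
  have D : Dat x p q := ⟨hp, hq, hord⟩
  have hx2 : x ≠ 2 := by omega
  have hxodd : Odd x := hxp.eq_two_or_odd'.resolve_left hx2
  have hpq : p ≠ q := by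
    rintro rfl
    have := not_dvd_base hp (by omega) h dvd_rfl
    omega
  have hd0 : d ≠ 0 := by rintro rfl; simp at hd
  obtain ⟨t, rfl⟩ := hdy
  have ht : d * t / d = t := Nat.mul_div_cancel_left _ (Nat.pos_of_ne_zero hd0)
  rw [ht]
  have ht0 : t ≠ 0 := by rintro rfl; omega
  have hyt : R q x = p ^ (t * d) := by rw [mul_comm]; exact h
  have hdx : d.Coprime (2 * x) := by
    refine Nat.Coprime.mul_right ((Nat.coprime_two_right).2 hd) ?_
    rw [Nat.coprime_comm, Nat.Prime.coprime_iff_not_dvd hxp]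
    exact fun hh => hxq (hh.trans hdq)
  have hunit : (q : ZMod x) ≠ 0 → IsUnit (q : ZMod x) := fun h0 => isUnit_iff_ne_zero.2 h0
  have hordu : ∀ hqn : IsUnit (q : ZMod x), orderOf hqn.unit = orderOf (q : ZMod x) := by
    intro hqn; rw [← orderOf_units]; rfl
  have hone : ∀ hqn : IsUnit (q : ZMod x), orderOf hqn.unit ≠ 1 := by
    intro hqn h1
    rw [hordu, orderOf_eq_one_iff] at h1
    apply hxq
    rw [← ZMod.natCast_eq_zero_iff, Nat.cast_sub hq.one_lt.le, h1]
    simp
  have K0 : IsCyclotomicExtension {x} ℚ (CyclotomicField x ℚ) :=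
    CyclotomicField.isCyclotomicExtension x ℚ
  have hodd : ∀ hqn : IsUnit (q : ZMod x), Odd (orderOf hqn.unit) →
      q ^ (4 * orderOf hqn.unit) ≤
      2 ^ (4 * orderOf hqn.unit) * (p ^ t) ^ (orderOf hqn.unit + 1) := by
    intro hqn ho
    obtain ⟨χ, h1, h3, h4⟩ := exists_char (CyclotomicField x ℚ) D hxp1
    have C : Chr (CyclotomicField x ℚ) D χ := ⟨hxp1, h1, h3, h4⟩
    exact size_odd C hx hpq hqn ht0 hdx hdq hyt ho (hone hqn)
  -- not odd: `q = x` or `-1` is a power
  have hcase : ¬ Odd (orderOf (q : ZMod x)) →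
      q = x ∨ ∃ hqn : IsUnit (q : ZMod x), ∃ k, hqn.unit ^ k = -1 := by
    intro hno
    by_cases h0 : (q : ZMod x) = 0
    · left
      rw [ZMod.natCast_eq_zero_iff] at h0
      exact ((Nat.prime_dvd_prime_iff_eq hxp hq).1 h0).symm
    · right
      refine ⟨hunit h0, exists_neg_one (hunit h0) ?_⟩
      rwa [hordu]
  have heven : ¬ Odd (orderOf (q : ZMod x)) → 7 ≤ x →
      q ^ (x - 1) ≤ 2 ^ (x - 1) * (p ^ t) ^ NN x := by
    intro hno h7
    have hnd : ∀ m : ℕ, 1 ≤ m → m < x → ¬ x ∣ m := fun m h1 h2 h3 => by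
      have := Nat.le_of_dvd (by omega) h3; omega
    have hcard := card_AA13 h7
    have hne : (AA x 1 \ AA x 3).Nonempty := by
      rw [← Finset.card_ne_zero, hcard]
      have := NN_pos h7; omega
    have := size_two (CyclotomicField x ℚ) D hxp1 hpq hx2 ht0 hd hdx hdq hyt (hcase hno)
      (i := 1) (j := 3) (hnd 1 (by omega) (by omega)) (hnd 2 (by omega) (by omega))
      (hnd 3 (by omega) (by omega)) (hnd 4 (by omega) (by omega)) hne
    rwa [hcard] at this
  refine ⟨fun ho => ?_, heven, ?_⟩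
  · have h0 : (q : ZMod x) ≠ 0 := by
      intro h0
      rw [h0, orderOf_zero] at ho
      exact absurd ho (by decide)
    have := hodd (hunit h0) (by rwa [hordu])
    rwa [hordu] at this
  · by_cases ho : Odd (orderOf (q : ZMod x))
    · have h0 : (q : ZMod x) ≠ 0 := by
        intro h0
        rw [h0, orderOf_zero] at ho
        exact absurd ho (by decide)
      have ho' : Odd (orderOf (hunit h0).unit) := by rwa [hordu]
      have h1 := hodd (hunit h0) ho'
      have h2 := hone (hunit h0)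
      have h3 : 3 ≤ orderOf (hunit h0).unit := by
        obtain ⟨m, hm⟩ := ho'; omega
      exact num_uniform_even hq.two_le (N := orderOf (hunit h0).unit + 1) (by omega) (by omega) h1
    · rcases Nat.lt_or_ge x 7 with h7 | h7
      · have hx5 : x = 5 := by
          rcases Nat.lt_or_ge 5 x with h8 | h8
          · have : x = 6 := by omega
            rw [this] at hxp; exact absurd hxp (by decide)
          · omega
        subst hx5
        have hne : (AA 5 1 \ AA 5 2).Nonempty := by
          rw [mem_AA2_five]; exact Finset.singleton_nonempty _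
        have h9 := size_two (CyclotomicField 5 ℚ) D hxp1 hpq hx2 ht0 hd hdx hdq hyt (hcase ho)
          (i := 1) (j := 2) (by norm_num) (by norm_num) (by norm_num) (by norm_num) hne
        rw [mem_AA2_five, Finset.card_singleton] at h9
        exact num_uniform_even hq.two_le le_rfl (by norm_num) h9
      · exact num_uniform_even hq.two_le (NN_pos h7) (NN_le x) (heven ho h7)

end

end Pool.Agent.Edg
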