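import Pool.Agent.Edg.Sz4
import Pool.Agent.Edg.Cn

/-!
The final form of the sharper size theorem.
-/

namespace Pool.Agent.Edg

open NumberField Ideal Polynomial

noncomputable section

lemma NN_eq (x : ℕ) : NN x = (x - 1) / 3 - x / 4 := by
  have h : (Finset.range x).filter (fun c => x < 4 * c ∧ 3 * c < x) =
      Finset.Icc (x / 4 + 1) ((x - 1) / 3) := by
    ext c
    rw [Finset.mem_filter, Finset.mem_range, Finset.mem_Icc]
    omega
  rw [NN, h, Nat.card_Icc]
  omega

theorem size_all2 {p q x y d : ℕ} (hp : p.Prime) (hp2 : p ≠ 2) (hq : q.Prime)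
    (hx : 5 ≤ x) (hy : 2 ≤ y) (h : R q x = p ^ y)
    (hd : Odd d) (hd1 : 1 < d) (hdy : d ∣ y) (hdq : d ∣ q - 1) :
    q ^ (x - 1) ≤ 2 ^ (x - 1) * (p ^ (y / d)) ^ (2 * ((x - 1) / 3 - x / 4)) ∧
    (¬ Odd (orderOf (q : ZMod x)) →
      q ^ (x - 1) ≤ 2 ^ (x - 1) * (p ^ (y / d)) ^ ((x - 1) / 3 - x / 4)) := by
  obtain ⟨hxp, hord, hxp1, hxq⟩ := basic hp hp2 hq (by omega) hy h
  have hF : Fact x.Prime := ⟨hxp⟩
  have hFp : Fact p.Prime := ⟨hp⟩
  have D : Dat x p q := ⟨hp, hq, hord⟩
  have hx2 : x ≠ 2 := by omega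
  have hpq : p ≠ q := by
    rintro rfl
    have := not_dvd_base hp (by omega) h dvd_rfl
    omega
  have hd0 : d ≠ 0 := by omega
  obtain ⟨-, hev, -⟩ := size_all hp hp2 hq hx hy h hd hdy hdq
  obtain ⟨t, rfl⟩ := hdy
  have ht : d * t / d = t := Nat.mul_div_cancel_left _ (Nat.pos_of_ne_zero hd0)
  rw [ht] at hev ⊢
  have ht0 : t ≠ 0 := by rintro rfl; omega
  have hyt : R q x = p ^ (t * d) := by rw [mul_comm]; exact h
  have hdx : d.Coprime (2 * x) := by
    refine Nat.Coprime.mul_right ((Nat.coprime_two_right).2 hd) ?_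
    rw [Nat.coprime_comm, Nat.Prime.coprime_iff_not_dvd hxp]
    exact fun hh => hxq (hh.trans hdq)
  rw [← NN_eq]
  have hordu : ∀ hqn : IsUnit (q : ZMod x), orderOf hqn.unit = orderOf (q : ZMod x) := by
    intro hqn; rw [← orderOf_units]; rfl
  have K0 : IsCyclotomicExtension {x} ℚ (CyclotomicField x ℚ) :=
    CyclotomicField.isCyclotomicExtension x ℚ
  have hPP : 1 ≤ p ^ t := Nat.one_le_pow _ _ hp.pos
  rcases Nat.lt_or_ge x 7 with h7 | h7
  · exfalso
    have hx5 : x = 5 := by
      rcases Nat.lt_or_ge 5 x with h8 | h8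
      · have : x = 6 := by omega
        rw [this] at hxp; exact absurd hxp (by decide)
      · omega
    subst hx5
    have hne : (AA 5 1 \ AA 5 2).Nonempty := by
      rw [mem_AA2_five]; exact Finset.singleton_nonempty _
    have hcase : q = 5 ∨ ∃ hqn : IsUnit (q : ZMod 5), ∃ k, hqn.unit ^ k = -1 := by
      by_cases h0 : (q : ZMod 5) = 0
      · left
        rw [ZMod.natCast_eq_zero_iff] at h0
        exact ((Nat.prime_dvd_prime_iff_eq hxp hq).1 h0).symm
      · right
        have hu : IsUnit (q : ZMod 5) := isUnit_iff_ne_zero.2 h0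
        refine ⟨hu, exists_neg_one hu ?_⟩
        intro hodd
        have h1 : orderOf hu.unit ∣ 4 := by
          have := orderOf_dvd_card (x := hu.unit)
          rwa [ZMod.card_units_eq_totient, Nat.totient_prime hxp] at this
        have h2 : orderOf hu.unit = 1 := by
          have h3 : (orderOf hu.unit).Coprime (2 ^ 2) :=
            (Nat.coprime_two_right.2 hodd).pow_right 2
          exact Nat.Coprime.eq_one_of_dvd h3 (by simpa using h1)
        rw [hordu, orderOf_eq_one_iff] at h2
        apply hxq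
        rw [← ZMod.natCast_eq_zero_iff, Nat.cast_sub hq.one_lt.le, h2]
        simp
    have h9 := size_two (CyclotomicField 5 ℚ) D hxp1 hpq hx2 ht0 hd hdx hdq hyt hcase
      (i := 1) (j := 2) (by norm_num) (by norm_num) (by norm_num) (by norm_num) hne
    rw [mem_AA2_five, Finset.card_singleton, pow_one] at h9
    have hd3 : 3 ≤ d := by obtain ⟨m, hm⟩ := hd; omega
    have hq5 : 5 ≤ q := by
      have h10 : d ≤ q - 1 := Nat.le_of_dvd (by have := hq.one_lt; omega) hdq
      rcases Nat.lt_or_ge q 5 with h11 | h11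
      · have : q = 4 := by omega
        rw [this] at hq; exact absurd hq (by decide)
      · exact h11
    exact size_contra1 (l := d) (by norm_num) hq5 hd3 (by rw [← pow_mul, hyt]) h9
  · have hmain : ¬ Odd (orderOf (q : ZMod x)) → q ^ (x - 1) ≤ 2 ^ (x - 1) * (p ^ t) ^ NN x :=
      fun hno => hev hno h7
    refine ⟨?_, hmain⟩
    by_cases ho : Odd (orderOf (q : ZMod x))
    · have h0 : (q : ZMod x) ≠ 0 := by
        intro h0
        rw [h0, orderOf_zero] at ho
        exact absurd ho (by decide)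
      have hu : IsUnit (q : ZMod x) := isUnit_iff_ne_zero.2 h0
      have hu1 : hu.unit ≠ 1 := by
        intro h1
        apply hxq
        have h2 : (q : ZMod x) = 1 := by
          have := congrArg Units.val h1
          rwa [IsUnit.unit_spec, Units.val_one] at this
        rw [← ZMod.natCast_eq_zero_iff, Nat.cast_sub hq.one_lt.le, h2]
        simp
      obtain ⟨χ, h1, h3, h4⟩ := exists_char (CyclotomicField x ℚ) D hxp1
      have C : Chr (CyclotomicField x ℚ) D χ := ⟨hxp1, h1, h3, h4⟩
      have hnd : ∀ m : ℕ, 1 ≤ m → m < x → ¬ x ∣ m := fun m h1 h2 h3 => by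
        have := Nat.le_of_dvd (by omega) h3; omega
      have h5 := size_quot C hpq hu ht0 hdx hdq hyt hx2 (i := 1) (j := 3)
        (hnd 1 (by omega) (by omega)) (hnd 2 (by omega) (by omega))
        (hnd 3 (by omega) (by omega)) (hnd 4 (by omega) (by omega)) (k := 1) (u := hu.unit)
        (pow_one _) (B_not_inv h7 hu1)
      rwa [card_AA13 h7] at h5
    · refine (hmain ho).trans (Nat.mul_le_mul_left _ (Nat.pow_le_pow_right hPP ?_))
      omega

end

end Pool.Agent.Edg
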