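import Pool.Agent.Edg.Cls

/-!
The `n`-th power residue character and its Jacobi sums modulo the prime `PP`.
-/

namespace Pool.Agent.Edg

open NumberField Ideal Polynomial

noncomputable section

variable {n : ℕ} [hn : Fact n.Prime] (K : Type*) [Field K] [NumberField K]
  [hK : IsCyclotomicExtension {n} ℚ K] {p q : ℕ}

/-- the character -/
lemma exists_char [Fact p.Prime] (D : Dat n p q) (hpn : n ∣ p - 1) :
    ∃ χ : MulChar (ZMod p) (𝓞 K), χ ^ n = 1 ∧
      (∀ a, res K D (χ a) = a ^ ((p - 1) / n)) ∧ χ ≠ 1 := by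
  obtain ⟨m, hm⟩ := hpn
  have hm' : (p - 1) / n = m := by rw [hm, Nat.mul_div_cancel_left _ hn.out.pos]
  rw [hm']
  have hp1 : p - 1 ≠ 0 := by have := D.hp.one_lt; omega
  have hm0 : m ≠ 0 := by rintro rfl; simp at hm; omega
  obtain ⟨g, hg⟩ := IsCyclic.exists_generator (α := (ZMod p)ˣ)
  have hog : orderOf g = p - 1 := by
    rw [orderOf_eq_card_of_forall_mem_zpowers hg, Nat.card_eq_fintype_card,
      ZMod.card_units_eq_totient, Nat.totient_prime D.hp]
  have hprim : IsPrimitiveRoot (q : ZMod p) n := by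
    rw [← D.ord]; exact IsPrimitiveRoot.orderOf _
  have hgm : ((g : ZMod p) ^ m) ^ n = 1 := by
    rw [← pow_mul, mul_comm, ← hm, ← hog, ← Units.val_pow_eq_pow_val, pow_orderOf_eq_one,
      Units.val_one]
  obtain ⟨e, he, hqe⟩ := hprim.eq_pow_of_pow_eq_one hgm
  have hz : z n K ^ e * z n K ^ (n * e - e) = 1 := by
    rw [← pow_add, Nat.add_sub_cancel' (Nat.le_mul_of_pos_left _ hn.out.pos), pow_mul, z_pow,
      one_pow]
  let μ : (𝓞 K)ˣ := Units.mkOfMulEqOne _ _ hz
  have hμ : μ ∈ rootsOfUnity (Fintype.card (ZMod p)ˣ) (𝓞 K) := by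
    rw [mem_rootsOfUnity, ZMod.card_units_eq_totient, Nat.totient_prime D.hp]
    apply Units.ext
    rw [Units.val_pow_eq_pow_val, Units.val_one]
    change (z n K ^ e) ^ (p - 1) = 1
    rw [hm, ← pow_mul, mul_left_comm, pow_mul, z_pow, one_pow]
  set χ := MulChar.ofRootOfUnity hμ hg with hχ
  have hχg : χ g = z n K ^ e := MulChar.ofRootOfUnity_spec hμ hg
  refine ⟨χ, ?_, ?_, ?_⟩
  · rw [MulChar.eq_iff hg, MulChar.pow_apply_coe, hχg, MulChar.one_apply_coe, ← pow_mul,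
      mul_comm, pow_mul, z_pow, one_pow]
  · intro a
    by_cases ha : a = 0
    · rw [ha, MulChar.map_nonunit _ not_isUnit_zero, map_zero, zero_pow hm0]
    · obtain ⟨k, hk⟩ := Subgroup.mem_zpowers_iff.1 (hg (Units.mk0 a ha))
      have : Finite (ZMod p)ˣ := inferInstance
      obtain ⟨k, hk⟩ := (mem_powers_iff_mem_zpowers).2 (hg (Units.mk0 a ha))
      have hk' : (g : ZMod p) ^ k = a := by
        have := congrArg Units.val hk
        simpa using this
      rw [← hk', map_pow, map_pow, hχg, map_pow, res_z, hqe, ← pow_mul, ← pow_mul, mul_comm]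
  · intro h1
    have h2 : χ g = 1 := by rw [h1, MulChar.one_apply_coe]
    rw [hχg] at h2
    have h3 := congrArg (res K D) h2
    rw [map_pow, res_z, map_one, hqe] at h3
    have h4 : g ^ m = 1 := by apply Units.ext; push_cast; exact h3
    have h5 := orderOf_dvd_of_pow_eq_one h4
    rw [hog, hm] at h5
    have h6 := Nat.le_of_dvd (Nat.pos_of_ne_zero hm0) h5
    have := hn.out.two_le
    nlinarith [Nat.pos_of_ne_zero hm0]

/-- the data of the character -/
structure Chr [Fact p.Prime] (D : Dat n p q) (χ : MulChar (ZMod p) (𝓞 K)) : Prop where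
  hpn : n ∣ p - 1
  pow : χ ^ n = 1
  res : ∀ a, Edg.res K D (χ a) = a ^ ((p - 1) / n)
  ne : χ ≠ 1

variable {K}

lemma Chr.orderOf [Fact p.Prime] {D : Dat n p q} {χ : MulChar (ZMod p) (𝓞 K)}
    (C : Chr K D χ) : _root_.orderOf χ = n :=
  orderOf_eq_prime C.pow C.ne

lemma Chr.apply_pow [Fact p.Prime] {D : Dat n p q} {χ : MulChar (ZMod p) (𝓞 K)}
    (C : Chr K D χ) {a : ZMod p} (ha : a ≠ 0) : χ a ^ n = 1 := by
  have h1 : (χ ^ n) a = χ a ^ n := MulChar.pow_apply' χ hn.out.ne_zero a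
  rw [← h1, C.pow, MulChar.one_apply (isUnit_iff_ne_zero.2 ha)]

/-- the Jacobi sum `J(χ^a, χ^b)` -/
def jac [Fact p.Prime] (χ : MulChar (ZMod p) (𝓞 K)) (a b : ℕ) : 𝓞 K :=
  jacobiSum (χ ^ a) (χ ^ b)

lemma jac_mod [Fact p.Prime] {D : Dat n p q} {χ : MulChar (ZMod p) (𝓞 K)}
    (C : Chr K D χ) (a b : ℕ) : jac χ (a % n) (b % n) = jac χ a b := by
  have h : ∀ a : ℕ, χ ^ (a % n) = χ ^ a := fun a => by
    have := pow_mod_orderOf χ a
    rwa [C.orderOf] at this
  rw [jac, h, h, jac]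

/-- the automorphism acts on the exponents -/
lemma sg_jac [Fact p.Prime] {D : Dat n p q} {χ : MulChar (ZMod p) (𝓞 K)}
    (C : Chr K D χ) (c : (ZMod n)ˣ) (a b : ℕ) :
    sg n K c (jac χ a b) = jac χ (a * (c : ZMod n).val) (b * (c : ZMod n).val) := by
  have hsg : ∀ x : ZMod p, sg n K c (χ x) = (χ ^ (c : ZMod n).val) x := by
    intro x
    by_cases hx : x = 0
    · rw [hx, MulChar.map_nonunit _ not_isUnit_zero, MulChar.map_nonunit _ not_isUnit_zero,
        map_zero]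
    · obtain ⟨i, -, hi⟩ := (z_prim n K).eq_pow_of_pow_eq_one (C.apply_pow hx)
      rw [MulChar.pow_apply' _ (by
        rw [Ne, ZMod.val_eq_zero]; exact c.ne_zero), ← hi, map_pow, sg_z, ← pow_mul, ← pow_mul,
        mul_comm]
  have hchar : χ.ringHomComp (sg n K c) = χ ^ (c : ZMod n).val :=
    MulChar.ext' fun x => hsg x
  rw [jac, ← jacobiSum_ringHomComp, ← MulChar.ringHomComp_pow, ← MulChar.ringHomComp_pow, hchar,
    ← pow_mul, ← pow_mul, jac, mul_comm a, mul_comm b]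

/-- the Jacobi sum lies in `PP` when `a + b < n` -/
lemma res_jac [Fact p.Prime] {D : Dat n p q} {χ : MulChar (ZMod p) (𝓞 K)}
    (C : Chr K D χ) {a b : ℕ} (ha : 1 ≤ a) (hb : 1 ≤ b) (hab : a + b < n) :
    res K D (jac χ a b) = 0 := by
  obtain ⟨m, hm⟩ := C.hpn
  have hm' : (p - 1) / n = m := by rw [hm, Nat.mul_div_cancel_left _ hn.out.pos]
  have hr : ∀ (x : ZMod p) (c : ℕ), 1 ≤ c → res K D ((χ ^ c) x) = x ^ (m * c) := by
    intro x c hc
    rw [MulChar.pow_apply' _ (by omega), map_pow, C.res, hm', pow_mul]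
  rw [jac, jacobiSum, map_sum]
  have h1 : ∀ x : ZMod p, res K D ((χ ^ a) x * (χ ^ b) (1 - x)) =
      ∑ k ∈ Finset.range (m * b + 1), (-1) ^ k * ((m * b).choose k : ZMod p) *
        x ^ (m * a + k) := by
    intro x
    rw [map_mul, hr x a ha, hr (1 - x) b hb, sub_eq_neg_add, add_pow, Finset.mul_sum]
    refine Finset.sum_congr rfl fun k _ => ?_
    rw [one_pow, neg_pow, pow_add]; ring
  simp_rw [h1]
  rw [Finset.sum_comm]
  refine Finset.sum_eq_zero fun k hk => ?_
  rw [← Finset.mul_sum, FiniteField.sum_pow_lt_card_sub_one, mul_zero]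
  rw [ZMod.card, hm]
  have hk' : k ≤ m * b := by rw [Finset.mem_range] at hk; omega
  have hm0 : 0 < m := by
    rcases Nat.eq_zero_or_pos m with h0 | h0
    · rw [h0, mul_zero] at hm
      have := D.hp.one_lt; omega
    · exact h0
  calc m * a + k ≤ m * (a + b) := by rw [mul_add]; omega
    _ < m * n := Nat.mul_lt_mul_of_pos_left hab hm0
    _ = n * m := mul_comm _ _

/-- `J * conj J = p` -/
lemma jac_mul_br [Fact p.Prime] {D : Dat n p q} {χ : MulChar (ZMod p) (𝓞 K)}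
    (C : Chr K D χ) {a b : ℕ} (ha : ¬ n ∣ a) (hb : ¬ n ∣ b) (hab : ¬ n ∣ a + b) :
    jac χ a b * br n K (jac χ a b) = p := by
  have hord : ∀ c : ℕ, ¬ n ∣ c → χ ^ c ≠ 1 := fun c hc h => by
    apply hc; rw [← C.orderOf]; exact orderOf_dvd_of_pow_eq_one h
  have hinv : ∀ c : ℕ, χ ^ (c * ((-1 : (ZMod n)ˣ) : ZMod n).val) = (χ ^ c)⁻¹ := by
    intro c
    rw [eq_inv_iff_mul_eq_one, ← pow_add]
    have h1 : n ∣ c * ((-1 : (ZMod n)ˣ) : ZMod n).val + c := by
      rw [← ZMod.natCast_eq_zero_iff]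
      push_cast
      rw [ZMod.natCast_zmod_val]; ring
    obtain ⟨d, hd⟩ := h1
    rw [hd, pow_mul, C.pow, one_pow]
  rw [br, sg_jac C, jac, jac, hinv, hinv]
  have hinj : Function.Injective (algebraMap (𝓞 K) K) := RingOfIntegers.coe_injective
  apply hinj
  rw [map_mul, map_natCast, ← jacobiSum_ringHomComp, ← jacobiSum_ringHomComp,
    ← MulChar.ringHomComp_inv, ← MulChar.ringHomComp_inv,
    jacobiSum_mul_jacobiSum_inv, ZMod.card]
  · rw [ringChar.eq_zero, ZMod.ringChar_zmod_n]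
    exact D.hp.ne_zero.symm
  · rw [MulChar.ringHomComp_ne_one_iff hinj]; exact hord a ha
  · rw [MulChar.ringHomComp_ne_one_iff hinj]; exact hord b hb
  · rw [← MulChar.ringHomComp_mul, MulChar.ringHomComp_ne_one_iff hinj, ← pow_add]
    exact hord _ hab

end

end Pool.Agent.Edg
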