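import Pool.Agent.Edg.Fac

/-!
The normalised power of the Jacobi sum is `1` modulo `q` after raising to the power `d`.
-/

namespace Pool.Agent.Edg

open NumberField Ideal Polynomial

noncomputable section

variable {n : ℕ} [hn : Fact n.Prime] {K : Type*} [Field K] [NumberField K]
  [hK : IsCyclotomicExtension {n} ℚ K] {p q : ℕ}

omit [NumberField K] in
lemma emb_mul (φ : K →+* ℂ) (x y : 𝓞 K) : φ ((x * y : 𝓞 K) : K) = φ (x : K) * φ (y : K) := by
  rw [show ((x * y : 𝓞 K) : K) = (x : K) * (y : K) from map_mul (algebraMap (𝓞 K) K) _ _,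
    map_mul]

/-- `‖φ x‖² = m` if `x * conj x = m` -/
lemma norm_sq_of_mul_br {x : 𝓞 K} {m : ℕ} (h : x * br n K x = m) (φ : K →+* ℂ) :
    ‖φ (x : K)‖ ^ 2 = m := by
  have h1 := congrArg (fun w : 𝓞 K => φ (w : K)) h
  simp only [emb_mul, emb_br] at h1
  rw [Complex.mul_conj, Complex.normSq_eq_norm_sq] at h1
  have h2 : φ (((m : 𝓞 K)) : K) = (m : ℂ) := by
    rw [show (((m : 𝓞 K)) : K) = (m : K) from map_natCast (algebraMap (𝓞 K) K) m, map_natCast]
  rw [h2] at h1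
  exact_mod_cast h1

/-- `br (qz c) = qz (-c)` -/
lemma br_qz (q : ℕ) (c : (ZMod n)ˣ) : br n K (qz n K q c) = qz n K q (-c) := by
  rw [br, qz, ← sg_mul, qz, inv_neg, neg_mul, one_mul]

/-- `W_i` -/
def WW (n : ℕ) [hn : Fact n.Prime] (K : Type*) [Field K] [NumberField K]
    [hK : IsCyclotomicExtension {n} ℚ K] (q i : ℕ) : 𝓞 K := ∏ c ∈ AA n i, qz n K q c

lemma prod_qz (q : ℕ) : ∏ c : (ZMod n)ˣ, qz n K q c = (R q n : 𝓞 K) := by
  rw [← prod_conj n K q]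
  refine Fintype.prod_equiv (Equiv.inv _) _ _ fun c => ?_
  rw [qz, sg_sub]; rfl

lemma WW_mul_br {i : ℕ} (hi : ¬ n ∣ i) (hi1 : ¬ n ∣ i + 1) :
    WW n K q i * br n K (WW n K q i) = (R q n : ℕ) := by
  have h1 : br n K (WW n K q i) = ∏ c ∈ Finset.univ \ AA n i, qz n K q c := by
    rw [WW, map_prod]
    refine Finset.prod_bij (fun c _ => -c) ?_ ?_ ?_ ?_
    · intro c hc
      rw [Finset.mem_sdiff]
      refine ⟨Finset.mem_univ _, fun h => ?_⟩
      exact ((neg_mem_AA hi hi1 c).1 h) hc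
    · intro a _ b _ h; exact neg_injective h
    · intro c hc
      rw [Finset.mem_sdiff] at hc
      exact ⟨-c, (neg_mem_AA hi hi1 c).2 hc.2, neg_neg c⟩
    · intro c _; exact br_qz q c
  rw [h1, WW, mul_comm, Finset.prod_sdiff (Finset.subset_univ _), prod_qz]

/-- congruence of `W_i` to a root of unity -/
lemma WW_cong (q i : ℕ) :
    ∃ w : 𝓞 K, w ^ (2 * n) = 1 ∧ (q : 𝓞 K) ∣ WW n K q i - w := by
  refine ⟨∏ c ∈ AA n i, (-sg n K c⁻¹ (z n K)), ?_, ?_⟩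
  · rw [← Finset.prod_pow]
    refine Finset.prod_eq_one fun c _ => ?_
    rw [pow_mul, neg_sq, ← pow_mul, mul_comm 2 n, pow_mul, ← map_pow, z_pow, map_one, one_pow]
  · rw [WW]
    generalize AA n i = A
    classical
    induction A using Finset.induction_on with
    | empty => simp
    | insert a s ha ih =>
      rw [Finset.prod_insert ha, Finset.prod_insert ha]
      have h1 : (q : 𝓞 K) ∣ qz n K q a - (-sg n K a⁻¹ (z n K)) := by
        rw [qz, map_sub, map_natCast]; exact ⟨1, by ring⟩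
      have h3 := dvd_add (h1.mul_right (∏ c ∈ s, qz n K q c))
        (ih.mul_left (-sg n K a⁻¹ (z n K)))
      convert h3 using 1; ring

lemma span_WW [Fact p.Prime] {D : Dat n p q} {χ : MulChar (ZMod p) (𝓞 K)}
    (C : Chr K D χ) {i y : ℕ} (hi : ¬ n ∣ i) (hi1 : ¬ n ∣ i + 1) (hy : R q n = p ^ y) :
    span {WW n K q i} = span {JJ K χ i ^ y} := by
  rw [← span_singleton_pow, span_JJ C hi hi1, ← Finset.prod_pow, WW]
  have h : ∀ A : Finset (ZMod n)ˣ, span {∏ c ∈ A, qz n K q c} = ∏ c ∈ A, span {qz n K q c} := by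
    classical
    intro A
    induction A using Finset.induction_on with
    | empty => rw [Finset.prod_empty, Finset.prod_empty, span_singleton_one, one_eq_top]
    | insert a s ha ih =>
      rw [Finset.prod_insert ha, Finset.prod_insert ha, ← ih, span_singleton_mul_span_singleton]
  rw [h]
  exact Finset.prod_congr rfl fun c _ => span_qz K D hy c

/-- the normalised power -/
theorem jnorm [Fact p.Prime] {D : Dat n p q} {χ : MulChar (ZMod p) (𝓞 K)}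
    (C : Chr K D χ) (h2 : n ≠ 2) {i t d : ℕ} (hi : ¬ n ∣ i) (hi1 : ¬ n ∣ i + 1)
    (hdn : d.Coprime (2 * n)) (hy : R q n = p ^ (t * d)) :
    ∃ ρ : 𝓞 K, ρ ^ (2 * n) = 1 ∧ (q : 𝓞 K) ∣ (ρ * JJ K χ i ^ t) ^ d - 1 := by
  have h2n : 2 * n ≠ 0 := mul_ne_zero two_ne_zero hn.out.ne_zero
  obtain ⟨w, hw, hWw⟩ := WW_cong (n := n) (K := K) q i
  obtain ⟨ε, hε⟩ := (span_singleton_eq_span_singleton.1 (span_WW C hi hi1 hy)).symm
  -- `ε` is a root of unity
  have hε1 : (ε : 𝓞 K) ^ (2 * n) = 1 := by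
    refine root_of_norm h2 fun φ => ?_
    have e1 := norm_sq_of_mul_br (WW_mul_br (K := K) (q := q) hi hi1) φ
    have e2 := norm_sq_of_mul_br (JJ_mul_br C hi hi1) φ
    rw [← hε, emb_mul, norm_mul, mul_pow] at e1
    have e3 : ‖φ ((JJ K χ i ^ (t * d) : 𝓞 K) : K)‖ ^ 2 = (p : ℝ) ^ (t * d) := by
      rw [show ((JJ K χ i ^ (t * d) : 𝓞 K) : K) = (JJ K χ i : K) ^ (t * d) from
        map_pow (algebraMap (𝓞 K) K) _ _, map_pow, norm_pow, ← pow_mul, mul_comm, pow_mul, e2]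
    rw [e3, hy] at e1
    push_cast at e1
    have hp0 : (p : ℝ) ^ (t * d) ≠ 0 := pow_ne_zero _ (Nat.cast_ne_zero.2 D.hp.ne_zero)
    have e4 : ‖φ ((ε : 𝓞 K) : K)‖ ^ 2 = 1 := mul_left_cancel₀ hp0 (by rw [e1, mul_one])
    exact (pow_eq_one_iff_of_nonneg (norm_nonneg _) two_ne_zero).1 e4
  obtain ⟨ε', hε'⟩ := ε.isUnit.exists_right_inv
  have hε'1 : ε' ^ (2 * n) = 1 := by
    have : ((ε : 𝓞 K) * ε') ^ (2 * n) = 1 := by rw [hε', one_pow]
    rwa [mul_pow, hε1, one_mul] at this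
  set θ : 𝓞 K := w * ε' with hθ
  have hθ1 : θ ^ (2 * n) = 1 := by rw [hθ, mul_pow, hw, hε'1, one_mul]
  have hc : (q : 𝓞 K) ∣ JJ K χ i ^ (t * d) - θ := by
    have := hWw.mul_right ε'
    convert this using 1
    rw [← hε, hθ]
    linear_combination (-JJ K χ i ^ (t * d)) * hε'
  obtain ⟨s, hs⟩ : ∃ s : ℕ, 2 * n ∣ d * s + 1 := by
    have h1 : IsUnit (d : ZMod (2 * n)) := (ZMod.isUnit_iff_coprime d (2 * n)).2 hdn
    obtain ⟨u, hu⟩ := h1.exists_right_inv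
    have : NeZero (2 * n) := ⟨h2n⟩
    refine ⟨(-u).val, ?_⟩
    rw [← ZMod.natCast_eq_zero_iff]
    push_cast
    rw [ZMod.natCast_zmod_val, mul_neg, hu, neg_add_cancel]
  refine ⟨θ ^ s, ?_, ?_⟩
  · rw [← pow_mul, mul_comm, pow_mul, hθ1, one_pow]
  · obtain ⟨v, hv⟩ := hs
    have e1 : θ ^ (d * s) * θ = 1 := by rw [← pow_succ, hv, pow_mul, hθ1, one_pow]
    have hd3 := hc.mul_left (θ ^ (d * s))
    convert hd3 using 1
    rw [mul_pow, ← pow_mul, mul_comm s d, ← pow_mul]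
    linear_combination e1

/-- Frobenius invariance modulo `q` -/
lemma frob_inv {q d : ℕ} (hq : q.Prime) (hqn : IsUnit (q : ZMod n)) (hdq : d ∣ q - 1) (k : ℕ)
    {a : 𝓞 K} (ha : (q : 𝓞 K) ∣ a ^ d - 1) :
    (q : 𝓞 K) ∣ sg n K (hqn.unit ^ k) a - a := by
  have hd : d ∣ q ^ k - 1 := hdq.trans (by
    have := Nat.sub_dvd_pow_sub_pow q 1 k
    rwa [one_pow] at this)
  obtain ⟨m, hm⟩ := hd
  have h1 : (q : 𝓞 K) ∣ a ^ (q ^ k - 1) - 1 := by
    rw [hm, pow_mul]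
    have := sub_dvd_pow_sub_pow (a ^ d) 1 m
    rw [one_pow] at this
    exact ha.trans this
  have h3 := dvd_add (frob_pow hq hqn k a) (h1.mul_right a)
  convert h3 using 1
  have h2 : q ^ k = q ^ k - 1 + 1 := by
    have := Nat.one_le_pow k q hq.pos; omega
  conv_rhs => rw [h2, Nat.add_sub_cancel, pow_succ]
  ring

/-- size with common primes -/
lemma size_common [Fact p.Prime] (D : Dat n p q) (hpq : p ≠ q) {X Y : 𝓞 K} {t : ℕ}
    (S : Finset (ZMod n)ˣ) (hX : ∀ c ∈ S, X ∈ PPc K D c ^ t) (hY : ∀ c ∈ S, Y ∈ PPc K D c ^ t)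
    (hXY : (q : 𝓞 K) ∣ X - Y) (hne : X ≠ Y)
    (habs : ∀ φ : K →+* ℂ, ‖φ (X : K)‖ = ‖φ (Y : K)‖) :
    q ^ (n - 1) * (p ^ t) ^ S.card ≤ 2 ^ (n - 1) * N X := by
  have h1 : span {X - Y} ≤ ∏ c ∈ S, PPc K D c ^ t := prod_PPc_le K D S t fun c hc => by
    rw [span_singleton_le_iff_mem]; exact Ideal.sub_mem _ (hX c hc) (hY c hc)
  have h2 : span {X - Y} ≤ span {(q : 𝓞 K)} := by
    rw [span_singleton_le_span_singleton]; exact hXY
  have hcop : IsCoprime (span {(q : 𝓞 K)}) (∏ c ∈ S, PPc K D c ^ t) := by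
    rw [Ideal.isCoprime_iff_sup_eq, eq_top_iff_one]
    have h3 : (((p ^ t) ^ S.card : ℕ) : 𝓞 K) ∈ ∏ c ∈ S, PPc K D c ^ t := by
      have := absNorm_mem (∏ c ∈ S, PPc K D c ^ t)
      rwa [absNorm_prod_PPc] at this
    have h4 : Nat.Coprime q ((p ^ t) ^ S.card) :=
      (((Nat.coprime_primes D.hq D.hp).2 (Ne.symm hpq)).pow_right _).pow_right _
    obtain ⟨a, b, hab⟩ := Nat.isCoprime_iff_coprime.2 h4
    have h5 : (1 : 𝓞 K) = (a : 𝓞 K) * (q : 𝓞 K) + b * (((p ^ t) ^ S.card : ℕ) : 𝓞 K) := by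
      have := congrArg (Int.cast : ℤ → 𝓞 K) hab
      push_cast at this ⊢
      exact this.symm
    rw [h5]
    exact Submodule.add_mem_sup (Ideal.mul_mem_left _ _ (mem_span_singleton_self _))
      (Ideal.mul_mem_left _ _ h3)
  have h6 : span {X - Y} ≤ span {(q : 𝓞 K)} * ∏ c ∈ S, PPc K D c ^ t := by
    rw [Ideal.mul_eq_inf_of_coprime (Ideal.isCoprime_iff_sup_eq.1 hcop)]
    exact le_inf h2 h1
  have h7 := size hne h6 habs
  rwa [finrank_K n K, absNorm_prod_PPc] at h7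

/-- which conjugate primes contain `J_i` -/
lemma JJ_mem_iff [Fact p.Prime] {D : Dat n p q} {χ : MulChar (ZMod p) (𝓞 K)}
    (C : Chr K D χ) {i : ℕ} (hi : ¬ n ∣ i) (hi1 : ¬ n ∣ i + 1) (c : (ZMod n)ˣ) :
    JJ K χ i ∈ PPc K D c ↔ c ∈ AA n i := by
  refine ⟨fun h => ?_, JJ_mem C hi⟩
  rw [← span_singleton_le_iff_mem, span_JJ C hi hi1] at h
  have hpr : (PPc K D c).IsPrime := (PPc_max K D c).isPrime
  obtain ⟨d, hd, hle⟩ := (hpr.prod_le).1 h
  have := (PPc_max K D d).eq_of_le hpr.ne_top hle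
  rw [← PPc_injective K D this]; exact hd

end

end Pool.Agent.Edg
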