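import Pool.Agent.Edg.Tor5

/-!
The minus part: normalised generators.
-/

namespace Pool.Agent.Edg

open NumberField Ideal Polynomial

noncomputable section

variable {n : ℕ} [hn : Fact n.Prime] {K : Type*} [Field K] [NumberField K]
  [hK : IsCyclotomicExtension {n} ℚ K] {p q : ℕ}

/-- the size inequality for a modulus prime to `p` -/
lemma size_IIM [Fact p.Prime] (D : Dat n p q) {M : ℕ} (hM : M.Coprime p) {X Y : 𝓞 K}
    {v w : (ZMod n)ˣ → ℕ} (hX : span {X} = II K D v) (hY : span {Y} = II K D w) (hvw : v ≠ w)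
    (hXY : (M : 𝓞 K) ∣ X - Y) (habs : ∀ φ : K →+* ℂ, ‖φ (X : K)‖ = ‖φ (Y : K)‖) :
    M ^ (n - 1) ≤ 2 ^ (n - 1) * p ^ ∑ c, (v c - w c) := by
  have hne : X ≠ Y := by
    intro he
    rw [he, hY] at hX
    exact hvw (II_inj D hX).symm
  set m : (ZMod n)ˣ → ℕ := fun c => min (v c) (w c) with hm
  have hXI : X ∈ II K D m := by
    rw [← span_singleton_le_iff_mem, hX]; exact II_mono D fun c => min_le_left _ _
  have hYI : Y ∈ II K D m := by
    rw [← span_singleton_le_iff_mem, hY]; exact II_mono D fun c => min_le_right _ _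
  have hcop : IsCoprime (span {(M : 𝓞 K)}) (II K D m) := by
    rw [Ideal.isCoprime_iff_sup_eq, eq_top_iff_one]
    have h3 : ((absNorm (II K D m) : ℕ) : 𝓞 K) ∈ II K D m := absNorm_mem _
    rw [absNorm_II] at h3
    have h4 : Nat.Coprime M (p ^ ∑ c, m c) := hM.pow_right _
    obtain ⟨a', b', hab⟩ := Nat.isCoprime_iff_coprime.2 h4
    have h5 : (1 : 𝓞 K) = (a' : 𝓞 K) * (M : 𝓞 K) + b' * ((p ^ ∑ c, m c : ℕ) : 𝓞 K) := by
      have := congrArg (Int.cast : ℤ → 𝓞 K) hab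
      push_cast at this ⊢
      exact this.symm
    rw [h5]
    exact Submodule.add_mem_sup (Ideal.mul_mem_left _ _ (mem_span_singleton_self _))
      (Ideal.mul_mem_left _ _ h3)
  have h6 : span {X - Y} ≤ span {(M : 𝓞 K)} * II K D m := by
    rw [Ideal.mul_eq_inf_of_coprime (Ideal.isCoprime_iff_sup_eq.1 hcop)]
    refine le_inf ?_ ?_
    · rw [span_singleton_le_span_singleton]; exact hXY
    · rw [span_singleton_le_iff_mem]; exact Ideal.sub_mem _ hXI hYI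
  have h7 := size hne h6 habs
  have hNX : N X = p ^ ∑ c, v c := by rw [N, hX, absNorm_II]
  rw [finrank_K n K, absNorm_II, hNX] at h7
  have hsum : ∑ c, v c = ∑ c, (v c - w c) + ∑ c, m c := by
    rw [← Finset.sum_add_distrib]
    refine Finset.sum_congr rfl fun c _ => ?_
    rw [hm]; simp only; omega
  rw [hsum, pow_add, ← mul_assoc] at h7
  exact Nat.le_of_mul_le_mul_right h7 (Nat.pow_pos D.hp.pos)

/-- the size inequality when the difference of the exponents is a multiple `t F` -/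
lemma size_F [Fact p.Prime] (D : Dat n p q) {M t : ℕ} (ht : t ≠ 0) (hM : M.Coprime p)
    {X Y : 𝓞 K} {v w : (ZMod n)ˣ → ℕ} {F : (ZMod n)ˣ → ℤ} (hX : span {X} = II K D v)
    (hY : span {Y} = II K D w) (hF : ∀ c, (v c : ℤ) - (w c : ℤ) = t * F c)
    {c₀ : (ZMod n)ˣ} (hF0 : F c₀ ≠ 0)
    (hXY : (M : 𝓞 K) ∣ X - Y) (habs : ∀ φ : K →+* ℂ, ‖φ (X : K)‖ = ‖φ (Y : K)‖) :
    M ^ (n - 1) ≤ 2 ^ (n - 1) * p ^ (t * ∑ c, (F c).toNat) := by
  have hsz := size_IIM D hM hX hY (by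
    intro he
    have h5 := hF c₀
    rw [he, sub_self] at h5
    rcases mul_eq_zero.1 h5.symm with h7 | h7
    · exact ht (by exact_mod_cast h7)
    · exact hF0 h7) hXY habs
  refine hsz.trans (Nat.mul_le_mul_left _ (Nat.pow_le_pow_right D.hp.pos ?_))
  rw [Finset.mul_sum]
  refine Finset.sum_le_sum fun c _ => ?_
  have h5 := hF c
  zify
  rcases le_total (F c) 0 with h6 | h6
  · have h7 : (t : ℤ) * F c ≤ 0 := mul_nonpos_of_nonneg_of_nonpos (Int.natCast_nonneg _) h6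
    have h8 : v c - w c = 0 := by omega
    rw [h8]; positivity
  · rw [Int.toNat_of_nonneg h6]
    have h7 : 0 ≤ (t : ℤ) * F c := mul_nonneg (Int.natCast_nonneg _) h6
    omega

/-- `g` -/
def gg (n : ℕ) [hn : Fact n.Prime] (K : Type*) [Field K] [NumberField K]
    [hK : IsCyclotomicExtension {n} ℚ K] (q : ℕ) (w : (ZMod n)ˣ → ℤ) : 𝓞 K :=
  QQ n K q (fun c => (w c).natAbs)

lemma br_QQ (q : ℕ) (m : (ZMod n)ˣ → ℕ) : br n K (QQ n K q m) = QQ n K q (fun c => m (-c)) := by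
  rw [QQ, map_prod, QQ]
  refine Fintype.prod_equiv (Equiv.neg _) _ _ fun c => ?_
  rw [map_pow, br_qz, Equiv.neg_apply, neg_neg]

lemma QQ_add (q : ℕ) (m m' : (ZMod n)ˣ → ℕ) :
    QQ n K q m * QQ n K q m' = QQ n K q (fun c => m c + m' c) := by
  rw [QQ, QQ, QQ, ← Finset.prod_mul_distrib]
  exact Finset.prod_congr rfl fun c _ => (pow_add _ _ _).symm

lemma QQ_pow (q k : ℕ) (m : (ZMod n)ˣ → ℕ) :
    QQ n K q m ^ k = QQ n K q (fun c => m c * k) := by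
  rw [QQ, QQ, ← Finset.prod_pow]
  exact Finset.prod_congr rfl fun c _ => (pow_mul _ _ _).symm

lemma mv_add {d : ℕ} (hd : 1 ≤ d) {w : (ZMod n)ˣ → ℤ} (hw : ∀ c, w (-c) = -w c)
    (c : (ZMod n)ˣ) : mv d w c + mv d w (-c) = (w c).natAbs * (2 * d) := by
  zify
  rw [mv_eq hd, mv_eq hd, hw, Int.natAbs_neg, ← Int.natCast_natAbs]
  push_cast; ring

lemma WWb {d : ℕ} (hd : 1 ≤ d) {w : (ZMod n)ˣ → ℤ} (hw : ∀ c, w (-c) = -w c) (q : ℕ) :
    QQ n K q (mv d w) * br n K (QQ n K q (mv d w)) = gg n K q w ^ (2 * d) := by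
  rw [br_QQ, QQ_add, gg, QQ_pow]
  congr 1
  funext c
  exact mv_add hd hw c

/-- normalised generator -/
lemma normalised [Fact p.Prime] (D : Dat n p q) (h2 : n ≠ 2) {d t : ℕ} (hdo : Odd d)
    (hR : R q n = p ^ (d * t)) {w : (ZMod n)ˣ → ℤ} (hw : ∀ c, w (-c) = -w c) {α : 𝓞 K}
    (hα : span {α} = II K D (fun c => t * mv d w c)) :
    ∃ β ρ : 𝓞 K, span {β} = II K D (fun c => t * mv d w c) ∧
      (∀ φ : K →+* ℂ, ‖φ (β : K)‖ = ‖φ (gg n K q w : K)‖) ∧ ρ ^ (2 * n) = 1 ∧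
      QQ n K q (mv d w) = ρ * β ^ d := by
  have hd1 : 1 ≤ d := hdo.pos
  have hg : span {gg n K q w} = II K D (fun c => d * t * (w c).natAbs) := span_QQ D hR _
  -- `ε`
  have h1 : span {QQ n K q (mv d w)} = span {α ^ d} := by
    rw [span_QQ D hR, ← span_singleton_pow, hα, II, II, ← Finset.prod_pow]
    refine Finset.prod_congr rfl fun c _ => ?_
    rw [← pow_mul]; congr 1; ring
  obtain ⟨ε, hε⟩ := (span_singleton_eq_span_singleton.1 h1).symm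
  -- `η`
  have h3 : span {gg n K q w ^ 2} = span {α * br n K α} := by
    have h4 : span {br n K α} = II K D (fun c => t * mv d w (c * -1)) := span_sg_II D hα (-1)
    rw [← span_singleton_mul_span_singleton, hα, h4, ← II_add, ← span_singleton_pow, hg, II, II,
      ← Finset.prod_pow]
    refine Finset.prod_congr rfl fun c _ => ?_
    rw [← pow_mul]; congr 1
    rw [← mul_add, mul_neg_one, mv_add hd1 hw]; ring
  obtain ⟨η, hη⟩ := (span_singleton_eq_span_singleton.1 h3)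
  -- hη : g ^ 2 * η = α * br α
  obtain ⟨e, he⟩ := hdo
  set ε' : (𝓞 K)ˣ := ε * η ^ (e + 1) with hε'
  have hpos : ∀ (φ : K →+* ℂ) (u : (𝓞 K)ˣ), 0 < ‖φ ((u : 𝓞 K) : K)‖ := by
    intro φ u
    rw [norm_pos_iff]
    intro h
    have h5 : ((u : 𝓞 K) : K) = 0 := (map_eq_zero φ).1 h
    exact u.ne_zero (RingOfIntegers.coe_injective (h5.trans (map_zero (algebraMap (𝓞 K) K)).symm))
  have hα0 : α ≠ 0 := by
    intro h0
    have := II_ne_zero (K := K) D (fun c => t * mv d w c)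
    rw [← hα, h0, Ideal.zero_eq_bot, Ne, span_singleton_eq_bot] at this
    exact this rfl
  have hcoe0 : ∀ {x : 𝓞 K}, x ≠ 0 → ∀ φ : K →+* ℂ, 0 < ‖φ (x : K)‖ := by
    intro x hx φ
    rw [norm_pos_iff]
    intro h
    have h5 : (x : K) = 0 := (map_eq_zero φ).1 h
    exact hx (RingOfIntegers.coe_injective (h5.trans (map_zero (algebraMap (𝓞 K) K)).symm))
  have hg0 : gg n K q w ≠ 0 := by
    intro h0
    have := II_ne_zero (K := K) D (fun c => d * t * (w c).natAbs)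
    rw [← hg, h0, Ideal.zero_eq_bot, Ne, span_singleton_eq_bot] at this
    exact this rfl
  have hemb_pow : ∀ (φ : K →+* ℂ) (x : 𝓞 K) (k : ℕ),
      ‖φ ((x ^ k : 𝓞 K) : K)‖ = ‖φ (x : K)‖ ^ k := fun φ x k => by
    rw [show ((x ^ k : 𝓞 K) : K) = (x : K) ^ k from map_pow (algebraMap (𝓞 K) K) _ _, map_pow,
      norm_pow]
  -- absolute values
  have n1 : ∀ φ : K →+* ℂ, ‖φ (gg n K q w : K)‖ ^ 2 * ‖φ ((η : 𝓞 K) : K)‖ =
      ‖φ (α : K)‖ ^ 2 := by
    intro φ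
    have := congrArg (fun x : 𝓞 K => ‖φ (x : K)‖) hη
    rw [emb_mul φ (gg n K q w ^ 2), norm_mul, hemb_pow, emb_mul φ α, norm_mul, norm_emb_br] at this
    rw [this]; ring
  have n2 : ∀ φ : K →+* ℂ, ‖φ (α : K)‖ ^ d * ‖φ ((ε : 𝓞 K) : K)‖ =
      ‖φ (gg n K q w : K)‖ ^ d := by
    intro φ
    have h4 := congrArg (fun x : 𝓞 K => ‖φ (x : K)‖) (WWb (K := K) hd1 hw q)
    rw [emb_mul φ (QQ n K q (mv d w)), norm_mul, norm_emb_br, hemb_pow, ← hε,
      emb_mul φ (α ^ d), norm_mul, hemb_pow] at h4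
    have h5 : (‖φ (α : K)‖ ^ d * ‖φ ((ε : 𝓞 K) : K)‖) ^ 2 =
        (‖φ (gg n K q w : K)‖ ^ d) ^ 2 := by
      rw [← pow_mul, mul_comm d 2, ← h4]; ring
    exact (pow_left_inj₀ (by positivity) (by positivity) two_ne_zero).1 h5
  have n3 : ∀ φ : K →+* ℂ, ‖φ ((ε' : 𝓞 K) : K)‖ ^ 2 = ‖φ ((η : 𝓞 K) : K)‖ := by
    intro φ
    have hx := hcoe0 hg0 φ
    have hy := hpos φ η
    have hz := hpos φ ε
    have ha := hcoe0 hα0 φ
    have e1 : ‖φ ((ε' : 𝓞 K) : K)‖ = ‖φ ((ε : 𝓞 K) : K)‖ * ‖φ ((η : 𝓞 K) : K)‖ ^ (e + 1) := by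
      rw [hε', Units.val_mul, Units.val_pow_eq_pow_val, emb_mul, norm_mul, hemb_pow]
    rw [e1]
    have m1 := n1 φ
    have m2 := n2 φ
    set G := ‖φ (gg n K q w : K)‖
    set H := ‖φ ((η : 𝓞 K) : K)‖
    set E := ‖φ ((ε : 𝓞 K) : K)‖
    set B := ‖φ (α : K)‖
    -- B^d E = G^d, G^2 H = B^2 : E^2 H^d = 1
    have m3 : (G ^ 2) ^ d * (E ^ 2 * H ^ d) = (G ^ 2) ^ d * 1 := by
      calc (G ^ 2) ^ d * (E ^ 2 * H ^ d) = (G ^ 2 * H) ^ d * E ^ 2 := by rw [mul_pow]; ring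
        _ = (B ^ d * E) ^ 2 := by rw [m1]; ring
        _ = (G ^ 2) ^ d * 1 := by rw [m2]; ring
    have m4 : E ^ 2 * H ^ d = 1 := mul_left_cancel₀ (by positivity) m3
    calc (E * H ^ (e + 1)) ^ 2 = (E ^ 2 * H ^ d) * H := by rw [he]; ring
      _ = H := by rw [m4, one_mul]
  set β : 𝓞 K := α * ((ε'⁻¹ : (𝓞 K)ˣ) : 𝓞 K) with hβ
  have hαβ : α = β * (ε' : 𝓞 K) := by
    rw [hβ, mul_assoc, ← Units.val_mul, inv_mul_cancel, Units.val_one, mul_one]
  have n4 : ∀ φ : K →+* ℂ, ‖φ (β : K)‖ = ‖φ (gg n K q w : K)‖ := by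
    intro φ
    have m1 := n1 φ
    rw [hαβ, emb_mul φ β, norm_mul, mul_pow, n3] at m1
    have m2 : ‖φ (β : K)‖ ^ 2 = ‖φ (gg n K q w : K)‖ ^ 2 :=
      (mul_right_cancel₀ (hpos φ η).ne' m1).symm
    exact (pow_left_inj₀ (norm_nonneg _) (norm_nonneg _) two_ne_zero).1 m2
  refine ⟨β, (ε : 𝓞 K) * (ε' : 𝓞 K) ^ d, ?_, n4, ?_, ?_⟩
  · rw [← hα, hβ]
    exact span_singleton_mul_right_unit (ε'⁻¹).isUnit α
  · refine root_of_norm h2 fun φ => ?_
    have m1 := n2 φ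
    have hx := hcoe0 hg0 φ
    rw [hαβ, emb_mul φ β, norm_mul, n4, mul_pow] at m1
    rw [emb_mul, norm_mul, hemb_pow]
    have m2 : ‖φ (gg n K q w : K)‖ ^ d * (‖φ ((ε : 𝓞 K) : K)‖ * ‖φ ((ε' : 𝓞 K) : K)‖ ^ d) =
        ‖φ (gg n K q w : K)‖ ^ d * 1 := by rw [mul_one]; linear_combination m1
    exact mul_left_cancel₀ (by positivity) m2
  · rw [← hε]
    conv_lhs => rw [hαβ]
    rw [mul_pow]; ring

end

end Pool.Agent.Edg
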