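import Pool.Agent.Edg.Mi

/-!
The minus part: the key inequalities.
-/

namespace Pool.Agent.Edg

open NumberField Ideal Polynomial

noncomputable section

variable {n : ℕ} [hn : Fact n.Prime] {K : Type*} [Field K] [NumberField K]
  [hK : IsCyclotomicExtension {n} ℚ K] {p q : ℕ}

omit [NumberField K] hK in
/-- roots of unity have `d`-th roots -/
lemma root_fix {θ : 𝓞 K} {d : ℕ} (hθ : θ ^ (2 * n) = 1) (hdn : d.Coprime (2 * n)) :
    ∃ τ : 𝓞 K, τ ^ (2 * n) = 1 ∧ τ ^ d * θ = 1 := by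
  have h2n : 2 * n ≠ 0 := mul_ne_zero two_ne_zero hn.out.ne_zero
  obtain ⟨s, hs⟩ : ∃ s : ℕ, 2 * n ∣ d * s + 1 := by
    have h1 : IsUnit (d : ZMod (2 * n)) := (ZMod.isUnit_iff_coprime d (2 * n)).2 hdn
    obtain ⟨u, hu⟩ := h1.exists_right_inv
    have : NeZero (2 * n) := ⟨h2n⟩
    refine ⟨(-u).val, ?_⟩
    rw [← ZMod.natCast_eq_zero_iff]
    push_cast
    rw [ZMod.natCast_zmod_val, mul_neg, hu, neg_add_cancel]
  refine ⟨θ ^ s, ?_, ?_⟩
  · rw [← pow_mul, mul_comm, pow_mul, hθ, one_pow]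
  · obtain ⟨v, hv⟩ := hs
    rw [← pow_mul, mul_comm s d, ← pow_succ, hv, pow_mul, hθ, one_pow]

/-- normalised generator, congruent to `1` modulo `q` after raising to the power `d` -/
lemma normalised2 [Fact p.Prime] (D : Dat n p q) (h2 : n ≠ 2) {d t : ℕ} (hdo : Odd d)
    (hdn : d.Coprime (2 * n))
    (hR : R q n = p ^ (d * t)) {w : (ZMod n)ˣ → ℤ} (hw : ∀ c, w (-c) = -w c)
    (hPH : PH K D t w = 1) :
    ∃ β : 𝓞 K, span {β} = II K D (fun c => t * mv d w c) ∧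
      (∀ φ : K →+* ℂ, ‖φ (β : K)‖ = ‖φ (gg n K q w : K)‖) ∧
      (q : 𝓞 K) ∣ β ^ d - 1 := by
  have h2n : 2 * n ≠ 0 := mul_ne_zero two_ne_zero hn.out.ne_zero
  obtain ⟨α, hα⟩ := PH_one D hdo.pos hR hPH
  obtain ⟨β, ρ, h1, h3, hρ, h4⟩ := normalised D h2 hdo hR hw hα
  obtain ⟨s, hs, hQs⟩ := QQ_cong (K := K) q (mv d w)
  have hρb := root_mul_br hρ
  have hbρ : (br n K ρ) ^ (2 * n) = 1 := by rw [← map_pow, hρ, map_one]
  obtain ⟨τ, hτ, hτθ⟩ := root_fix (K := K) (θ := br n K ρ * s) (d := d)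
    (by rw [mul_pow, hbρ, hs, one_mul]) hdn
  have hτu : IsUnit τ := isUnit_of_root K h2n hτ
  refine ⟨τ * β, ?_, ?_, ?_⟩
  · rw [span_mul_root hτu, h1]
  · intro φ
    rw [emb_mul, norm_mul, norm_root h2n hτ, one_mul, h3]
  · rw [h4] at hQs
    have h5 := hQs.mul_left (τ ^ d * br n K ρ)
    convert h5 using 1
    rw [mul_pow]
    linear_combination (-(τ ^ d * β ^ d)) * hρb + hτθ

lemma br_gg (q : ℕ) {w : (ZMod n)ˣ → ℤ} (hw : ∀ c, w (-c) = -w c) :
    br n K (gg n K q w) = gg n K q w := by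
  rw [gg, br_QQ]
  congr 1
  funext c
  rw [hw, Int.natAbs_neg]

/-- the inequality in the general case -/
theorem key_minus_gen [Fact p.Prime] (D : Dat n p q) (h2 : n ≠ 2) (hpq : p ≠ q)
    (hqn : IsUnit (q : ZMod n)) {d t : ℕ} (hdo : Odd d) (ht : t ≠ 0)
    (hdn : d.Coprime (2 * n)) (hdq : d ∣ q - 1)
    (hR : R q n = p ^ (d * t)) {w : (ZMod n)ˣ → ℤ} (hw : ∀ c, w (-c) = -w c)
    (hPH : PH K D t w = 1) {F : (ZMod n)ˣ → ℤ} (hF : ∀ c, F c = w (c * hqn.unit) - w c)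
    {c₀ : (ZMod n)ˣ} (hF0 : F c₀ ≠ 0) :
    q ^ (n - 1) ≤ 2 ^ (n - 1) * p ^ (t * ∑ c, (F c).toNat) := by
  have h2n : 2 * n ≠ 0 := mul_ne_zero two_ne_zero hn.out.ne_zero
  have hd1 : 1 ≤ d := hdo.pos
  obtain ⟨β, hβ, hβn, hβ1⟩ := normalised2 D h2 hdo hdn hR hw hPH
  have hfr := frob_inv D.hq hqn hdq 1 hβ1
  rw [pow_one] at hfr
  set u := hqn.unit with hu
  set g := gg n K q w with hg
  have hgs : span {g} = II K D (fun c => d * t * (w c).natAbs) := span_QQ D hR _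
  obtain ⟨s, hs, hgq⟩ := QQ_cong (K := K) q (fun c => (w c).natAbs)
  have hsb := root_mul_br hs
  have hgq2 : (q : 𝓞 K) ∣ sg n K u g - sg n K u s := by
    have := map_dvd (sg n K u) hgq
    rwa [map_natCast, map_sub] at this
  set κ : 𝓞 K := s * sg n K u (br n K s) with hκ
  have hκ1 : κ ^ (2 * n) = 1 := by
    rw [hκ, mul_pow, hs, ← map_pow, ← map_pow, hs, map_one, map_one, one_mul]
  have hG : (q : 𝓞 K) ∣ g - κ * sg n K u g := by
    have e3 := dvd_sub hgq (hgq2.mul_left κ)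
    have hsu : sg n K u s * sg n K u (br n K s) = 1 := by rw [← map_mul, hsb, map_one]
    convert e3 using 1
    rw [hκ, hg, gg]
    linear_combination (-s) * hsu
  have hXY : (q : 𝓞 K) ∣ sg n K u β * g - κ * (sg n K u g * β) := by
    have := dvd_add (hfr.mul_right g) (hG.mul_left β)
    convert this using 1; ring
  have habs : ∀ φ : K →+* ℂ, ‖φ ((sg n K u β * g : 𝓞 K) : K)‖ =
      ‖φ ((κ * (sg n K u g * β) : 𝓞 K) : K)‖ := by
    intro φ
    rw [emb_mul φ (sg n K u β), norm_mul, emb_mul φ κ, norm_mul, emb_mul φ (sg n K u g),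
      norm_mul, norm_root h2n hκ1, one_mul, hβn φ, norm_emb_sg_eq hβn φ]
  have hm1 : ∀ x : (ZMod n)ˣ, span {sg n K x β} = II K D (fun c => t * mv d w (c * x)) :=
    fun x => span_sg_II D hβ x
  have hg1 : ∀ x : (ZMod n)ˣ, span {sg n K x g} = II K D (fun c => d * t * (w (c * x)).natAbs) :=
    fun x => span_sg_II D hgs x
  have hκu : IsUnit κ := isUnit_of_root K h2n hκ1
  have hX : span {sg n K u β * g} = II K D (fun c => t * mv d w (c * u) +
      d * t * (w c).natAbs) := by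
    rw [II_add, ← hm1, ← hgs, span_singleton_mul_span_singleton]
  have hY : span {κ * (sg n K u g * β)} = II K D (fun c => d * t * (w (c * u)).natAbs +
      t * mv d w c) := by
    rw [II_add, ← hg1, ← hβ, span_singleton_mul_span_singleton, span_mul_root hκu]
  have hdiff : ∀ c, ((t * mv d w (c * u) + d * t * (w c).natAbs : ℕ) : ℤ) -
      ((d * t * (w (c * u)).natAbs + t * mv d w c : ℕ) : ℤ) = t * F c := by
    intro c
    rw [hF]
    push_cast
    rw [mv_eq hd1, mv_eq hd1]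
    push_cast
    ring
  exact size_F D ht ((Nat.coprime_primes D.hq D.hp).2 (Ne.symm hpq)) hX hY hdiff hF0 hXY habs

/-- `q = n`: powers -/
lemma pow_cong_N {x : 𝓞 K} {a : ℤ} (h : (1 - z n K) ∣ x - (a : 𝓞 K)) :
    (n : 𝓞 K) ∣ x ^ n - (a : 𝓞 K) ^ n := by
  obtain ⟨w, hw⟩ := h
  have : CharP (𝓞 K ⧸ span {(n : 𝓞 K)}) n := by
    refine CharP.quotient (𝓞 K) n ?_
    intro hu
    have h1 : N (n : 𝓞 K) = 1 := by
      rw [N, absNorm_eq_one_iff, span_singleton_eq_top]; exact hu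
    rw [N_natCast, finrank_K n K] at h1
    have h2 : n - 1 ≠ 0 := by have := hn.out.one_lt; omega
    exact hn.out.one_lt.ne' ((Nat.pow_eq_one.1 h1).resolve_right h2)
  rw [← mem_span_singleton, ← Ideal.Quotient.eq]
  have h1 : x = (a : 𝓞 K) + (1 - z n K) * w := by rw [← hw]; ring
  have h3 := congrArg (Ideal.Quotient.mk (span {(n : 𝓞 K)})) h1
  have h4 : (Ideal.Quotient.mk (span {(n : 𝓞 K)}) x) ^ n =
      (Ideal.Quotient.mk (span {(n : 𝓞 K)}) (a : 𝓞 K)) ^ n := by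
    have hz : (Ideal.Quotient.mk (span {(n : 𝓞 K)}) (z n K)) ^ n = 1 := by
      rw [← map_pow, z_pow, map_one]
    rw [h3, map_add, add_pow_char, map_mul, mul_pow, map_sub, sub_pow_char, hz, map_one,
      one_pow, sub_self, zero_mul, add_zero]
  rw [map_pow, map_pow]; exact h4

/-- `conj β = β` modulo `q` -/
lemma conj_cong (D : Dat n p q)
    (hcase : q = n ∨ ∃ hqn : IsUnit (q : ZMod n), ∃ j, hqn.unit ^ j = -1)
    {d : ℕ} (hdq : d ∣ q - 1) {β : 𝓞 K} (hβ : (q : 𝓞 K) ∣ β ^ d - 1) :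
    (q : 𝓞 K) ∣ br n K β - β := by
  rcases hcase with rfl | ⟨hqn, j, hj⟩
  · obtain ⟨A, hA⟩ := exists_int q K 1 β
    rw [Nat.cast_one] at hA
    have h1 := pow_cong_N hA
    have hfer : (q : 𝓞 K) ∣ (A : 𝓞 K) ^ q - A := by
      have h1 : (q : ℤ) ∣ A ^ q - A := by
        rw [← ZMod.intCast_zmod_eq_zero_iff_dvd]
        push_cast
        rw [ZMod.pow_card, sub_self]
      have h3 := map_dvd (Int.castRingHom (𝓞 K)) h1
      simpa using h3
    obtain ⟨m, hm⟩ := hdq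
    have h3 : (q : 𝓞 K) ∣ β ^ q - β := by
      have h4 : (q : 𝓞 K) ∣ β ^ (q - 1) - 1 := by
        rw [hm, pow_mul]
        have := sub_dvd_pow_sub_pow (β ^ d) 1 m
        rw [one_pow] at this
        exact hβ.trans this
      have h5 := h4.mul_right β
      convert h5 using 1
      have e : β ^ q = β ^ (q - 1) * β := by
        rw [← pow_succ, Nat.sub_add_cancel hn.out.one_lt.le]
      rw [e]; ring
    have h4 : (q : 𝓞 K) ∣ β - A := by
      have := dvd_add (dvd_sub h1 h3) hfer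
      convert this using 1; ring
    have h5 := map_dvd (br q K) h4
    rw [map_natCast, map_sub, map_intCast] at h5
    have := dvd_sub h5 h4
    convert this using 1; ring
  · have := frob_inv D.hq hqn hdq j hβ
    rwa [hj] at this

/-- the inequality in the even case -/
theorem key_minus_even [Fact p.Prime] (D : Dat n p q) (h2 : n ≠ 2) (hpq : p ≠ q)
    (hcase : q = n ∨ ∃ hqn : IsUnit (q : ZMod n), ∃ j, hqn.unit ^ j = -1)
    {d t : ℕ} (hdo : Odd d) (ht : t ≠ 0)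
    (hdn : d.Coprime (2 * n)) (hdq : d ∣ q - 1)
    (hR : R q n = p ^ (d * t)) {w : (ZMod n)ˣ → ℤ} (hw : ∀ c, w (-c) = -w c)
    (hPH : PH K D t w = 1) {c₀ : (ZMod n)ˣ} (hw0 : w c₀ ≠ 0) :
    q ^ (n - 1) ≤ 2 ^ (n - 1) * p ^ (t * ∑ c, (w c).toNat) := by
  have h2n : 2 * n ≠ 0 := mul_ne_zero two_ne_zero hn.out.ne_zero
  have hd1 : 1 ≤ d := hdo.pos
  obtain ⟨β, hβ, hβn, hβ1⟩ := normalised2 D h2 hdo hdn hR hw hPH
  have hbr := conj_cong D hcase hdq hβ1
  set g := gg n K q w with hg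
  have hgs : span {g} = II K D (fun c => d * t * (w c).natAbs) := span_QQ D hR _
  obtain ⟨s, hs, hgq⟩ := QQ_cong (K := K) q (fun c => (w c).natAbs)
  have hsb := root_mul_br hs
  have hgg : br n K g = g := br_gg q hw
  -- `β * conj β = g ^ 2`
  have hββ : β * br n K β = g ^ 2 := by
    obtain ⟨φ⟩ : Nonempty (K →+* ℂ) := inferInstance
    have h1 : φ ((β * br n K β : 𝓞 K) : K) = φ ((g * br n K g : 𝓞 K) : K) := by
      rw [emb_mul, emb_mul, emb_br, emb_br, Complex.mul_conj, Complex.mul_conj,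
        Complex.normSq_eq_norm_sq, Complex.normSq_eq_norm_sq, hβn]
    have h3 := RingOfIntegers.coe_injective (φ.injective h1)
    rw [h3, hgg, sq]
  obtain ⟨e, he⟩ := hdo
  -- `β s^(2e) = 1`
  have h3 : (q : 𝓞 K) ∣ β ^ 2 - s ^ 2 := by
    have e1 : (q : 𝓞 K) ∣ g - s := hgq
    have e2 := (e1.mul_right (g + s))
    have e3 := hbr.mul_left β
    have e4 := dvd_sub e2 e3
    convert e4 using 1
    linear_combination hββ
  have h4 : (q : 𝓞 K) ∣ β * s ^ (2 * e) - 1 := by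
    have h5 : (q : 𝓞 K) ∣ (β ^ 2) ^ e - (s ^ 2) ^ e := h3.trans (sub_dvd_pow_sub_pow _ _ _)
    have h6 := dvd_sub hβ1 (h5.mul_left β)
    convert h6 using 1
    rw [he, pow_succ, pow_mul, pow_mul]; ring
  have hsp : (s ^ (2 * e)) ^ (2 * n) = 1 := by rw [← pow_mul, mul_comm, pow_mul, hs, one_pow]
  have hbs : (br n K s) ^ (2 * n) = 1 := by rw [← map_pow, hs, map_one]
  have hXY : (q : 𝓞 K) ∣ s ^ (2 * e) * β - br n K s * g := by
    have e1 := dvd_sub h4 (hgq.mul_left (br n K s))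
    convert e1 using 1
    rw [hg, gg]
    linear_combination (-1 : 𝓞 K) * hsb
  have habs : ∀ φ : K →+* ℂ, ‖φ ((s ^ (2 * e) * β : 𝓞 K) : K)‖ =
      ‖φ ((br n K s * g : 𝓞 K) : K)‖ := by
    intro φ
    rw [emb_mul φ (s ^ (2 * e)), norm_mul, emb_mul φ (br n K s), norm_mul, norm_root h2n hsp,
      norm_root h2n hbs, hβn φ]
  have hX : span {s ^ (2 * e) * β} = II K D (fun c => t * mv d w c) := by
    rw [span_mul_root (isUnit_of_root K h2n hsp), hβ]
  have hY : span {br n K s * g} = II K D (fun c => d * t * (w c).natAbs) := by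
    rw [span_mul_root (isUnit_of_root K h2n hbs), hgs]
  have hdiff : ∀ c, ((t * mv d w c : ℕ) : ℤ) - ((d * t * (w c).natAbs : ℕ) : ℤ) =
      t * w c := by
    intro c
    push_cast
    rw [mv_eq hd1]
    push_cast
    ring
  exact size_F D ht ((Nat.coprime_primes D.hq D.hp).2 (Ne.symm hpq)) hX hY hdiff hw0 hXY habs

end

end Pool.Agent.Edg
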