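import Pool.Agent.Edg.Mi2

/-!
The minus part: the case `(3, 7)`, and the group of classes `c` with `c * conj c = 1`.
-/

namespace Pool.Agent.Edg

open NumberField Ideal Polynomial

noncomputable section

variable {n : ℕ} [hn : Fact n.Prime] {K : Type*} [Field K] [NumberField K]
  [hK : IsCyclotomicExtension {n} ℚ K] {p q : ℕ}

/-- the exponent vector `(1 - j) c` -/
def w1 (n : ℕ) (c : (ZMod n)ˣ) : ℤ := (if c = 1 then 1 else 0) - (if c = -1 then 1 else 0)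

lemma w1_neg (c : (ZMod n)ˣ) : w1 n (-c) = -w1 n c := by
  have h1 : (-c = 1) ↔ (c = -1) := neg_eq_iff_eq_neg
  have h3 : (-c = -1) ↔ (c = 1) := neg_inj
  simp only [w1, h1, h3]; ring

lemma w1_one (h2 : n ≠ 2) : w1 n (1 : (ZMod n)ˣ) = 1 := by
  have : (1 : (ZMod n)ˣ) ≠ -1 := (neg_one_ne_one h2).symm
  simp [w1, this]

lemma w1_le (c : (ZMod n)ˣ) : w1 n c ≤ (if c = 1 then 1 else 0) := by
  rw [w1]; split_ifs <;> omega

/-- the case `(3, 7)` -/
lemma minus73 [Fact p.Prime] (D : Dat n p 7) (hp2 : p ≠ 2) (h5 : 5 ≤ n) {t : ℕ} (ht : t ≠ 0)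
    (h3n : (3 : ℕ).Coprime (2 * n))
    (hR : R 7 n = p ^ (3 * t)) (hPH : PH K D t (w1 n) = 1) :
    8 ^ (n - 1) ≤ 2 ^ (n - 1) * (p ^ t) ^ 2 := by
  have h2 : n ≠ 2 := by omega
  have h2n : 2 * n ≠ 0 := mul_ne_zero two_ne_zero hn.out.ne_zero
  have hu2 : IsUnit ((2 : ℕ) : ZMod n) := by
    rw [ZMod.isUnit_iff_coprime]
    exact (Nat.coprime_primes Nat.prime_two hn.out).2 (Ne.symm h2)
  obtain ⟨α, hα⟩ := PH_one D (by norm_num) hR hPH
  obtain ⟨β, ρ, hβ, hβn, hρ, hW⟩ := normalised D h2 (by decide) hR w1_neg hα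
  set g := gg n K 7 (w1 n) with hg
  have hgs : span {g} = II K D (fun c => 3 * t * (w1 n c).natAbs) := span_QQ D hR _
  have hρb := root_mul_br hρ
  -- the values of `W` and `g`
  have hne : (1 : (ZMod n)ˣ) ≠ -1 := (neg_one_ne_one h2).symm
  have hQ : ∀ m : (ZMod n)ˣ → ℕ, (∀ c, c ≠ 1 → c ≠ -1 → m c = 0) →
      QQ n K 7 m = qz n K 7 1 ^ m 1 * qz n K 7 (-1) ^ m (-1) := by
    intro m hm
    rw [QQ, ← Finset.prod_subset (Finset.subset_univ {1, -1}), Finset.prod_pair hne]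
    intro c _ hc
    rw [Finset.mem_insert, Finset.mem_singleton, not_or] at hc
    rw [hm c hc.1 hc.2, pow_zero]
  have hw0 : ∀ c : (ZMod n)ˣ, c ≠ 1 → c ≠ -1 → w1 n c = 0 := fun c h1 h3 => by simp [w1, h1, h3]
  have hw1 : w1 n (1 : (ZMod n)ˣ) = 1 := w1_one h2
  have hwm : w1 n (-1 : (ZMod n)ˣ) = -1 := by rw [w1_neg, hw1]
  set a0 := qz n K 7 1 with ha0
  set b0 := qz n K 7 (-1) with hb0
  have hWv : QQ n K 7 (mv 3 (w1 n)) = a0 ^ 4 * b0 ^ 2 := by
    have e1 : mv 3 (w1 n) (1 : (ZMod n)ˣ) = 4 := by rw [mv, hw1]; rfl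
    have e2 : mv 3 (w1 n) (-1 : (ZMod n)ˣ) = 2 := by rw [mv, hwm]; rfl
    rw [hQ _ fun c h1 h3 => by rw [mv, hw0 c h1 h3]; rfl, e1, e2]
  have hgv : g = a0 * b0 := by
    rw [hg, gg, hQ _ fun c h1 h3 => by rw [hw0 c h1 h3]; rfl, hw1, hwm]
    norm_num
  have hb0' : b0 = br n K a0 := by rw [hb0, ha0, br_qz]
  have ha0' : a0 = 7 - z n K := by
    rw [ha0, qz, inv_one, sg_one]; push_cast; ring
  have hb0'' : b0 = 7 - br n K (z n K) := by rw [hb0', ha0', map_sub, map_ofNat]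
  have hzb := br_z_mul n K
  -- `W = z g ^ 3` modulo `8`
  have hW8 : (8 : 𝓞 K) ∣ ρ * β ^ 3 - z n K * g ^ 3 := by
    rw [← hW, hWv, hgv]
    have e1 : (8 : 𝓞 K) ∣ a0 - z n K * b0 := by
      refine ⟨1 - z n K, ?_⟩
      rw [ha0', hb0'']
      linear_combination hzb
    have e3 := e1.mul_left (a0 ^ 3 * b0 ^ 2)
    convert e3 using 1; ring
  have hz2 : (z n K) ^ (2 * n) = 1 := by rw [mul_comm, pow_mul, z_pow, one_pow]
  have hzbr := root_mul_br hz2
  have hbρ : (br n K ρ) ^ (2 * n) = 1 := by rw [← map_pow, hρ, map_one]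
  have hbz : (br n K (z n K)) ^ (2 * n) = 1 := by rw [← map_pow, hz2, map_one]
  -- `τ^3 * z * br ρ = 1`
  obtain ⟨τ, hτ, hτθ⟩ := root_fix (K := K) (θ := ρ * br n K (z n K)) (d := 3)
    (by rw [mul_pow, hρ, hbz, one_mul]) h3n
  -- now `τ⁻¹ β` ...
  have hτb := root_mul_br hτ
  have hbτ : (br n K τ) ^ (2 * n) = 1 := by rw [← map_pow, hτ, map_one]
  set a : 𝓞 K := br n K τ * β with ha
  have hd : (8 : 𝓞 K) ∣ a ^ 3 - g ^ 3 := by
    have e1 := hW8.mul_left (br n K (z n K))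
    have hτ3 : τ ^ 3 * br n K τ ^ 3 = 1 := by rw [← mul_pow, hτb, one_pow]
    convert e1 using 1
    rw [ha, mul_pow]
    linear_combination (g ^ 3) * hzb - (β ^ 3 * br n K τ ^ 3) * hτθ +
      (β ^ 3 * ρ * br n K (z n K)) * hτ3
  have han : ∀ φ : K →+* ℂ, ‖φ (a : K)‖ = ‖φ (g : K)‖ := fun φ => by
    rw [ha, emb_mul, norm_mul, norm_root h2n hbτ, one_mul, hβn]
  have has : span {a} = II K D (fun c => t * mv 3 (w1 n) c) := by
    rw [ha, span_mul_root (isUnit_of_root K h2n hbτ), hβ]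
  -- Frobenius at `2`
  set u := hu2.unit with hu
  set τ2 := sg n K u with hτ2
  have hf : ∀ x : 𝓞 K, (2 : 𝓞 K) ∣ τ2 x - x ^ 2 := fun x => by
    have := frob n K Nat.prime_two hu2 x
    simpa using this
  set X : 𝓞 K := τ2 a * a with hX
  set Y : 𝓞 K := τ2 g * g with hY
  have h28 : (2 : 𝓞 K) ∣ 8 := ⟨4, by norm_num⟩
  obtain ⟨v1, hv1⟩ : (2 : 𝓞 K) ∣ X - Y := by
    have h1 := (hf a).mul_right a
    have h3 := (hf g).mul_right g
    have h4 := dvd_add (dvd_sub h1 h3) (h28.trans hd)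
    convert h4 using 1
    rw [hX, hY]; ring
  have hc : (8 : 𝓞 K) ∣ X ^ 3 - Y ^ 3 := by
    have h1 : (8 : 𝓞 K) ∣ τ2 (a ^ 3) - τ2 (g ^ 3) := by
      have := map_dvd τ2 hd
      rwa [map_sub, map_ofNat] at this
    have h3 := dvd_add (hd.mul_right (τ2 (a ^ 3))) (h1.mul_right (g ^ 3))
    convert h3 using 1
    rw [hX, hY, map_pow, map_pow]; ring
  obtain ⟨Y', hY'⟩ := exists_N_mul K Y
  have hg1 : ∀ x : (ZMod n)ˣ, span {sg n K x g} =
      II K D (fun c => 3 * t * (w1 n (c * x)).natAbs) := fun x => span_sg_II D hgs x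
  have ha1 : ∀ x : (ZMod n)ˣ, span {sg n K x a} =
      II K D (fun c => t * mv 3 (w1 n) (c * x)) := fun x => span_sg_II D has x
  have hYs : span {Y} = II K D (fun c => 3 * t * (w1 n (c * u)).natAbs +
      3 * t * (w1 n c).natAbs) := by
    rw [II_add, ← hg1, ← hgs, span_singleton_mul_span_singleton]
  have hXs : span {X} = II K D (fun c => t * mv 3 (w1 n) (c * u) + t * mv 3 (w1 n) c) := by
    rw [II_add, ← ha1, ← has, span_singleton_mul_span_singleton]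
  have hodd : Odd (N Y) := by
    rw [N, hYs, absNorm_II]
    exact (D.hp.eq_two_or_odd'.resolve_left hp2).pow
  obtain ⟨j, hj⟩ := hodd
  have hYY : Y * Y' = 1 + 2 * (j : 𝓞 K) := by
    rw [← hY', hj]; push_cast; ring
  have hdiv : (8 : 𝓞 K) ∣ X - Y := by
    obtain ⟨s, hs⟩ : ∃ s : 𝓞 K, (X ^ 2 + X * Y + Y ^ 2) * Y' ^ 2 = 1 + 2 * s := by
      refine ⟨(2 * v1 ^ 2 + 3 * v1 * Y + Y ^ 2) * Y' ^ 2 + 2 * j ^ 2 + 2 * j, ?_⟩
      have hXv : X = Y + 2 * v1 := by linear_combination hv1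
      rw [hXv]
      linear_combination (Y * Y' + 1 + 2 * (j : 𝓞 K)) * hYY
    have h1 := hc.mul_right (Y' ^ 2 * (1 + 2 * s) ^ 3)
    have h3 : (8 : 𝓞 K) ∣ (X - Y) * (1 + 2 * s) ^ 4 := by
      convert h1 using 1
      linear_combination (-(X - Y) * (1 + 2 * s) ^ 3) * hs
    have h4 : (8 : 𝓞 K) ∣ (X - Y) * (8 * (s + 3 * s ^ 2 + 4 * s ^ 3 + 2 * s ^ 4)) :=
      (dvd_mul_right _ _).mul_left _
    have h6 := dvd_sub h3 h4
    convert h6 using 1
    ring
  have habs : ∀ φ : K →+* ℂ, ‖φ (X : K)‖ = ‖φ (Y : K)‖ := by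
    intro φ
    have f2 : ‖φ (τ2 a : K)‖ = ‖φ (τ2 g : K)‖ := norm_emb_sg_eq han φ
    rw [hX, hY, emb_mul φ (τ2 a), norm_mul, emb_mul φ (τ2 g), norm_mul, f2, han]
  -- the exponents
  set F : (ZMod n)ˣ → ℤ := fun c => w1 n (c * u) + w1 n c with hF
  have hu1 : u ≠ 1 := by
    intro h
    have h7 : ((2 : ℕ) : ZMod n) = 1 := by
      have := congrArg Units.val h
      rwa [hu, IsUnit.unit_spec, Units.val_one] at this
    have h8 : ((1 : ℕ) : ZMod n) = 0 := by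
      push_cast at h7 ⊢
      linear_combination h7
    rw [ZMod.natCast_eq_zero_iff] at h8
    have := Nat.le_of_dvd one_pos h8
    omega
  have hum : u ≠ -1 := by
    intro h
    have h7 : ((2 : ℕ) : ZMod n) = -1 := by
      have := congrArg Units.val h
      rwa [hu, IsUnit.unit_spec, Units.val_neg, Units.val_one] at this
    have h8 : ((3 : ℕ) : ZMod n) = 0 := by
      push_cast at h7 ⊢
      linear_combination h7
    rw [ZMod.natCast_eq_zero_iff] at h8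
    have := Nat.le_of_dvd three_pos h8
    omega
  have hF1 : F 1 ≠ 0 := by
    rw [hF]
    simp only [one_mul]
    rw [hw0 u hu1 hum, hw1]; norm_num
  have hdiff : ∀ c, ((t * mv 3 (w1 n) (c * u) + t * mv 3 (w1 n) c : ℕ) : ℤ) -
      ((3 * t * (w1 n (c * u)).natAbs + 3 * t * (w1 n c).natAbs : ℕ) : ℤ) = t * F c := by
    intro c
    rw [hF]
    push_cast
    rw [mv_eq (by norm_num), mv_eq (by norm_num)]
    push_cast
    ring
  have hcop : (8 : ℕ).Coprime p := by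
    have : (2 : ℕ).Coprime p := (Nat.coprime_primes Nat.prime_two D.hp).2 (Ne.symm hp2)
    exact Nat.Coprime.pow_left 3 this
  have h9 := size_F D ht hcop hXs hYs hdiff hF1 (by simpa using hdiv) habs
  refine h9.trans (Nat.mul_le_mul_left _ ?_)
  rw [← pow_mul]
  refine Nat.pow_le_pow_right D.hp.pos (Nat.mul_le_mul_left _ ?_)
  have h10 : ∀ c, (F c).toNat ≤ (if c = u⁻¹ then 1 else 0) + (if c = 1 then 1 else 0) := by
    intro c
    have h11 := w1_le (n := n) (c * u)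
    have h12 := w1_le (n := n) c
    have h13 : (c * u = 1) ↔ (c = u⁻¹) := mul_eq_one_iff_eq_inv
    simp only [h13] at h11
    rw [hF]
    simp only
    split_ifs at h11 h12 ⊢ <;> omega
  calc ∑ c, (F c).toNat ≤ ∑ c, ((if c = u⁻¹ then 1 else 0) + (if c = 1 then 1 else 0)) :=
        Finset.sum_le_sum fun c _ => h10 c
    _ = 2 := by rw [Finset.sum_add_distrib]; simp

end

end Pool.Agent.Edg
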