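import Pool.Agent.Edg.Mi3

/-!
The minus part: the group of classes `c` with `c * conj c = 1`, and the theorems.
-/

namespace Pool.Agent.Edg

open NumberField Ideal Polynomial

noncomputable section

variable {n : ℕ} [hn : Fact n.Prime] {K : Type*} [Field K] [NumberField K]
  [hK : IsCyclotomicExtension {n} ℚ K] {p q : ℕ}

/-- the classes `c` with `c * conj c = 1` -/
def CO (K : Type*) [Field K] [NumberField K] (σ : 𝓞 K ≃+* 𝓞 K) : Subgroup (ClassGroup (𝓞 K)) :=
  let M : Submonoid (ClassGroup (𝓞 K)) :=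
    { carrier := {c | ∃ I : nonZeroDivisors (Ideal (𝓞 K)), ClassGroup.mk0 I = c ∧
        ((I : Ideal (𝓞 K)) * (I : Ideal (𝓞 K)).map σ).IsPrincipal}
      mul_mem' := by
        rintro a b ⟨I, hI, hI'⟩ ⟨J, hJ, hJ'⟩
        refine ⟨I * J, by rw [map_mul, hI, hJ], ?_⟩
        obtain ⟨x, hx⟩ := hI'.principal
        obtain ⟨y, hy⟩ := hJ'.principal
        refine ⟨x * y, ?_⟩
        change (I : Ideal (𝓞 K)) * (I : Ideal (𝓞 K)).map σ = span {x} at hx
        change (J : Ideal (𝓞 K)) * (J : Ideal (𝓞 K)).map σ = span {y} at hy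
        change _ = span {x * y}
        rw [← span_singleton_mul_span_singleton, ← hx, ← hy, Submonoid.coe_mul, Ideal.map_mul]
        ring
      one_mem' := ⟨1, map_one _, by
        rw [Submonoid.coe_one, Ideal.one_eq_top, Ideal.map_top, Ideal.mul_top]
        exact ⟨1, by rw [← Ideal.span_singleton_one]⟩⟩ }
  { M with
    inv_mem' := by
      intro a ha
      have h1 : a⁻¹ = a ^ (orderOf a - 1) := by
        rw [inv_eq_iff_mul_eq_one, ← pow_succ', Nat.sub_add_cancel (orderOf_pos a),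
          pow_orderOf_eq_one]
      change a⁻¹ ∈ M
      rw [h1]
      exact Submonoid.pow_mem M ha _ }

lemma mem_CO {σ : 𝓞 K ≃+* 𝓞 K} {c : ClassGroup (𝓞 K)} : c ∈ CO K σ ↔
    ∃ I : nonZeroDivisors (Ideal (𝓞 K)), ClassGroup.mk0 I = c ∧
        ((I : Ideal (𝓞 K)) * (I : Ideal (𝓞 K)).map σ).IsPrincipal := Iff.rfl

lemma sigma_eq {σ : 𝓞 K ≃+* 𝓞 K}
    (hσ : ∀ (φ : K →+* ℂ) (a : 𝓞 K), φ (σ a : K) = starRingEnd ℂ (φ (a : K))) (a : 𝓞 K) :
    σ a = br n K a := by
  obtain ⟨φ⟩ : Nonempty (K →+* ℂ) := inferInstance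
  apply RingOfIntegers.coe_injective
  apply φ.injective
  exact (hσ φ a).trans (emb_br φ a).symm

lemma map_PPc [Fact p.Prime] (D : Dat n p q) {σ : 𝓞 K ≃+* 𝓞 K}
    (hσ : ∀ (φ : K →+* ℂ) (a : 𝓞 K), φ (σ a : K) = starRingEnd ℂ (φ (a : K)))
    (c : (ZMod n)ˣ) : (PPc K D c).map σ = PPc K D (-c) := by
  rw [← Ideal.comap_symm]
  ext x
  rw [Ideal.mem_comap, mem_PPc, mem_PPc]
  have h1 : σ.symm x = br n K x := by
    rw [RingEquiv.symm_apply_eq, sigma_eq (n := n) hσ, br_br]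
  rw [h1, br, ← sg_mul, mul_neg_one]

lemma map_II [Fact p.Prime] (D : Dat n p q) {σ : 𝓞 K ≃+* 𝓞 K}
    (hσ : ∀ (φ : K →+* ℂ) (a : 𝓞 K), φ (σ a : K) = starRingEnd ℂ (φ (a : K)))
    (m : (ZMod n)ˣ → ℕ) : (II K D m).map σ = II K D (fun c => m (-c)) := by
  change Ideal.mapHom σ (∏ c, PPc K D c ^ m c) = ∏ c, PPc K D c ^ m (-c)
  rw [map_prod]
  refine Fintype.prod_equiv (Equiv.neg _) _ _ fun c => ?_
  rw [map_pow, Equiv.neg_apply, neg_neg]
  congr 1
  exact map_PPc D hσ c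

lemma PH_eq [Fact p.Prime] (D : Dat n p q) {d t : ℕ} (hd1 : 1 ≤ d)
    (hR : R q n = p ^ (d * t)) (v : (ZMod n)ˣ → ℤ) :
    PH K D t v = ClassGroup.mk0 ⟨II K D (fun c => t * mv d v c),
      mem_nonZeroDivisors_of_ne_zero (II_ne_zero D _)⟩ := by
  rw [← prod_CC, PH]
  refine Finset.prod_congr rfl fun c _ => ?_
  rw [← zpow_natCast, mv_eq hd1, zpow_add, zpow_mul, zpow_natCast, zpow_natCast,
    CC_pow D hR, one_pow, mul_one]

lemma PH_mem [Fact p.Prime] (D : Dat n p q) {d t : ℕ} (hd1 : 1 ≤ d)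
    (hR : R q n = p ^ (d * t)) {w : (ZMod n)ˣ → ℤ} (hw : ∀ c, w (-c) = -w c)
    {σ : 𝓞 K ≃+* 𝓞 K}
    (hσ : ∀ (φ : K →+* ℂ) (a : 𝓞 K), φ (σ a : K) = starRingEnd ℂ (φ (a : K))) :
    PH K D t w ∈ CO K σ := by
  rw [mem_CO]
  refine ⟨_, (PH_eq D hd1 hR w).symm, ?_⟩
  refine ⟨gg n K q w ^ 2, ?_⟩
  change II K D (fun c => t * mv d w c) * (II K D (fun c => t * mv d w c)).map σ =
    span {gg n K q w ^ 2}
  have hg : span {gg n K q w} = II K D (fun c => d * t * (w c).natAbs) := span_QQ D hR _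
  rw [map_II D hσ, ← II_add, ← span_singleton_pow, hg, II, II, ← Finset.prod_pow]
  refine Finset.prod_congr rfl fun c _ => ?_
  rw [← pow_mul]; congr 1
  rw [← mul_add, mv_add hd1 hw]; ring

lemma CC_one_pow [Fact p.Prime] (D : Dat n p q) (t : ℕ) (c : (ZMod n)ˣ) :
    CC K D t c = CC K D 1 c ^ t := by
  rw [CC, CC, ← map_pow]
  congr 1
  apply Subtype.ext
  rw [SubmonoidClass.coe_pow]
  change II K D (fun e => if e = c then t else 0) = II K D (fun e => if e = c then 1 else 0) ^ t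
  rw [II_single, II_single, pow_one]

lemma PH_one_pow [Fact p.Prime] (D : Dat n p q) (t : ℕ) (v : (ZMod n)ˣ → ℤ) :
    PH K D t v = PH K D 1 v ^ t := by
  rw [PH, PH, ← Finset.prod_pow]
  refine Finset.prod_congr rfl fun c _ => ?_
  rw [CC_one_pow, ← zpow_natCast, ← zpow_natCast, zpow_comm]

/-- the class of `(1 - j) PP` raised to the power `t` is not trivial -/
theorem PH_w1_ne [Fact p.Prime] (D : Dat n p q) (h5 : 5 ≤ n) (hp2 : p ≠ 2) (hq2 : q ≠ 2)
    (hpn : n ∣ p - 1) (hnq : ¬ n ∣ q - 1) {l t : ℕ} (hl : 3 ≤ l) (hlodd : Odd l)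
    (hlq : l ∣ q - 1) (hR : R q n = p ^ (l * t)) : PH K D t (w1 n) ≠ 1 := by
  intro hPH
  have hqo : Odd q := D.hq.eq_two_or_odd'.resolve_left hq2
  have hln : l.Coprime n := by
    rw [Nat.coprime_comm, Nat.Prime.coprime_iff_not_dvd hn.out]
    exact fun h => hnq (h.trans hlq)
  have h2 : n ≠ 2 := by omega
  have hl2 : l.Coprime (2 * n) := Nat.Coprime.mul_right ((Nat.coprime_two_right).2 hlodd) hln
  have hpq : p ≠ q := by
    rintro rfl
    have h1 : R p n = p ^ (l * t) := hR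
    rcases Nat.eq_zero_or_pos (l * t) with h0 | h0
    · rw [h0, pow_zero] at h1
      have := one_lt_R (q := p) D.hq.one_lt.le (x := n) (by omega)
      omega
    · have := not_dvd_base D.hp (by omega) h1 dvd_rfl
      omega
  have ht : t ≠ 0 := by
    rintro rfl
    rw [mul_zero, pow_zero] at hR
    have := one_lt_R (q := q) D.hq.one_lt.le (x := n) (by omega)
    omega
  have hP : (p ^ t) ^ l = R q n := by rw [hR, ← pow_mul, mul_comm]
  have hq5 : 5 ≤ q := by
    rcases Nat.lt_or_ge q 5 with h | h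
    · exfalso
      have h3 := Nat.le_of_dvd (by have := D.hq.one_lt; omega) hlq
      have : q = 4 := by omega
      rw [this] at hqo; exact absurd hqo (by decide)
    · exact h
  have heven : (q = n ∨ ∃ hqn : IsUnit (q : ZMod n), ∃ j, hqn.unit ^ j = -1) → False := by
    intro hcase
    have h3 := key_minus_even D h2 hpq hcase hlodd ht hl2 hlq hR w1_neg hPH (c₀ := 1)
      (by rw [w1_one h2]; norm_num)
    have h4 : ∑ c, (w1 n c).toNat ≤ 1 := by
      calc ∑ c, (w1 n c).toNat ≤ ∑ c : (ZMod n)ˣ, (if c = 1 then 1 else 0) :=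
            Finset.sum_le_sum fun c _ => by
              have := w1_le (n := n) c
              split_ifs at this ⊢ <;> omega
        _ = 1 := by simp
    have h6 : p ^ (t * ∑ c, (w1 n c).toNat) ≤ p ^ t :=
      Nat.pow_le_pow_right D.hp.pos (by
        calc t * ∑ c, (w1 n c).toNat ≤ t * 1 := Nat.mul_le_mul_left _ h4
          _ = t := mul_one t)
    exact size_contra1 (l := l) h5 hq5 hl hP (h3.trans (Nat.mul_le_mul_left _ h6))
  by_cases hqn0 : q = n
  · exact heven (Or.inl hqn0)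
  have hqn : IsUnit (q : ZMod n) := by
    rw [ZMod.isUnit_iff_coprime]
    exact (Nat.coprime_primes D.hq hn.out).2 hqn0
  have hu1 : hqn.unit ≠ 1 := by
    intro h
    apply hnq
    have h1 : (q : ZMod n) = 1 := by
      have := congrArg Units.val h
      rwa [IsUnit.unit_spec, Units.val_one] at this
    rw [← ZMod.natCast_eq_zero_iff, Nat.cast_sub D.hq.one_lt.le, h1]
    simp
  by_cases hex : l = 3 ∧ q = 7
  · obtain ⟨rfl, rfl⟩ := hex
    exact size_contra73 h5 hP (minus73 D hp2 h5 ht hl2 hR hPH)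
  · obtain ⟨hineq, -⟩ := pow_ineq hl hlodd hqo D.hq.one_lt.ne' hlq hex
    set v : (ZMod n)ˣ → ℤ := fun c => if c = 1 then 1 else 0 with hv
    set F : (ZMod n)ˣ → ℤ := fun c => w1 n (c * hqn.unit) - w1 n c with hF
    have hF1 : F 1 ≠ 0 := by
      rw [hF]
      simp only [one_mul]
      have h3 := w1_le (n := n) hqn.unit
      rw [if_neg hu1] at h3
      rw [w1_one h2]; omega
    have h3 := key_minus_gen D h2 hpq hqn hlodd ht hl2 hlq hR w1_neg hPH (F := F)
      (fun c => rfl) hF1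
    have hvF : ∀ c, F c = v (c * hqn.unit) - v (-(c * hqn.unit)) - v c + v (-c) := by
      intro c
      have e1 : ∀ a : (ZMod n)ˣ, (-a = 1) ↔ (a = -1) := fun a => neg_eq_iff_eq_neg
      rw [hF, hv]
      simp only [w1, e1]
      ring
    have h4 := cost_gen hqn.unit v F hvF
    have h7 : ∑ c, (v c).natAbs = 1 := by
      rw [hv, Finset.sum_eq_single 1]
      · simp
      · intro b _ hb; simp [hb]
      · intro h; exact absurd (Finset.mem_univ _) h
    rw [h7] at h4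
    have h6 : p ^ (t * ∑ c, (F c).toNat) ≤ (p ^ t) ^ 2 := by
      rw [← pow_mul]
      exact Nat.pow_le_pow_right D.hp.pos (Nat.mul_le_mul_left _ (by omega))
    exact size_contra h5 (by omega) hl hineq hP (h3.trans (Nat.mul_le_mul_left _ h6))

/-- the full `l`-part of `y` divides the relative class number -/
theorem pow_dvd_rel [Fact p.Prime] (D : Dat n p q) (h5 : 5 ≤ n) (hp2 : p ≠ 2) (hq2 : q ≠ 2)
    (hpn : n ∣ p - 1) (hnq : ¬ n ∣ q - 1) {y l : ℕ} (hl : l.Prime) (hl2 : l ≠ 2)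
    (hlq : l ∣ q - 1) (hR : R q n = p ^ y) {σ : 𝓞 K ≃+* 𝓞 K}
    (hσ : ∀ (φ : K →+* ℂ) (a : 𝓞 K), φ (σ a : K) = starRingEnd ℂ (φ (a : K))) :
    l ^ padicValNat l y ∣ Nat.card (CO K σ) := by
  set c := PH K D 1 (w1 n) with hc
  have hR1 : R q n = p ^ (y * 1) := by rw [mul_one]; exact hR
  have hR2 : R q n = p ^ (1 * y) := by rw [one_mul]; exact hR
  have hy0 : y ≠ 0 := by
    rintro rfl
    rw [pow_zero] at hR
    have := one_lt_R (q := q) D.hq.one_lt.le (x := n) (by omega)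
    omega
  have hcm : c ∈ CO K σ := PH_mem D (Nat.one_le_iff_ne_zero.2 hy0) hR1 w1_neg hσ
  have h1 : orderOf c ∣ y := orderOf_dvd_of_pow_eq_one (PH_pow D hR1 _)
  obtain ⟨m, hm⟩ := h1
  have h2 : ¬ l ∣ m := by
    rintro ⟨m', rfl⟩
    have h3 : c ^ (orderOf c * m') = 1 := by rw [pow_mul, pow_orderOf_eq_one, one_pow]
    rw [hc, ← PH_one_pow] at h3
    have h4 : R q n = p ^ (l * (orderOf c * m')) := by rw [hR]; congr 1; rw [hm]; ring
    have hl3 : 3 ≤ l := by have := hl.two_le; omega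
    exact PH_w1_ne D h5 hp2 hq2 hpn hnq hl3 (hl.eq_two_or_odd'.resolve_left hl2) hlq h4 h3
  have h3 : l ^ padicValNat l y ∣ orderOf c * m := by
    rw [← hm]; exact pow_padicValNat_dvd
  have h4 : l ^ padicValNat l y ∣ orderOf c :=
    (Nat.Coprime.pow_left _ ((Nat.Prime.coprime_iff_not_dvd hl).2 h2)).dvd_of_dvd_mul_right h3
  exact h4.trans (Subgroup.orderOf_dvd_natCard _ hcm)

end

end Pool.Agent.Edg
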