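import Pool.Agent.Edg.Mi4

/-!
Counting ideal classes `c` with `c^d = 1` and `c * conj c = 1`.
-/

namespace Pool.Agent.Edg

open NumberField Ideal Polynomial

noncomputable section

variable {n : ℕ} [hn : Fact n.Prime] {K : Type*} [Field K] [NumberField K]
  [hK : IsCyclotomicExtension {n} ℚ K] {p q : ℕ}

/-- counting in the minus part -/
lemma count_minus [Fact p.Prime] (D : Dat n p q) {d t N k : ℕ} (hd1 : 1 ≤ d)
    (hR : R q n = p ^ (d * t)) {σ : 𝓞 K ≃+* 𝓞 K}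
    (hσ : ∀ (φ : K →+* ℂ) (a : 𝓞 K), φ (σ a : K) = starRingEnd ℂ (φ (a : K)))
    (ι : Fin N → (ZMod n)ˣ) (hι : Function.Injective ι)
    (hno : ∀ w : (ZMod n)ˣ → ℤ, (∀ c, c ∉ Set.range ι → w c = 0) → (∃ c, w c ≠ 0) →
      ∑ c, (w c).natAbs ≤ 2 * k → PH K D t (fun c => w c - w (-c)) ≠ 1) :
    Nat.card {v : Fin N → ℤ // ∑ i, (v i).natAbs ≤ k} ≤
      Nat.card {c : ClassGroup (𝓞 K) // c ^ d = 1 ∧
        ∃ I : nonZeroDivisors (Ideal (𝓞 K)), ClassGroup.mk0 I = c ∧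
          ((I : Ideal (𝓞 K)) * (I : Ideal (𝓞 K)).map σ).IsPrincipal} := by
  have : Finite {c : ClassGroup (𝓞 K) // c ^ d = 1 ∧
        ∃ I : nonZeroDivisors (Ideal (𝓞 K)), ClassGroup.mk0 I = c ∧
          ((I : Ideal (𝓞 K)) * (I : Ideal (𝓞 K)).map σ).IsPrincipal} := inferInstance
  set E : (Fin N → ℤ) → ((ZMod n)ˣ → ℤ) := fun v => Function.extend ι v (fun _ => 0) with hE
  have hE1 : ∀ v i, E v (ι i) = v i := fun v i => hι.extend_apply _ _ _
  have hE2 : ∀ v c, c ∉ Set.range ι → E v c = 0 := fun v c hc =>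
    Function.extend_apply' _ _ _ (fun ⟨i, hi⟩ => hc ⟨i, hi⟩)
  refine Nat.card_le_card_of_injective
    (fun v => ⟨PH K D t (fun c => E v.1 c - E v.1 (-c)), PH_pow D hR _, ?_⟩) ?_
  · exact mem_CO.1 (PH_mem D hd1 hR (fun c => by rw [neg_neg]; ring) hσ)
  intro v w hvw
  by_contra hne
  have h1 : PH K D t (fun c => E v.1 c - E v.1 (-c)) =
      PH K D t (fun c => E w.1 c - E w.1 (-c)) := congrArg Subtype.val hvw
  have h2 : PH K D t (fun c => (E v.1 c - E w.1 c) - (E v.1 (-c) - E w.1 (-c))) = 1 := by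
    have e1 : (fun c => (E v.1 c - E w.1 c) - (E v.1 (-c) - E w.1 (-c))) =
        fun c => (E v.1 c - E v.1 (-c)) - (E w.1 c - E w.1 (-c)) := by
      funext c; ring
    rw [e1, PH_sub D t (fun c => E v.1 c - E v.1 (-c)), h1, div_self']
  refine hno (fun c => E v.1 c - E w.1 c) ?_ ?_ ?_ h2
  · intro c hc
    rw [hE2 _ c hc, hE2 _ c hc, sub_zero]
  · by_contra h3
    push Not at h3
    apply hne
    apply Subtype.ext
    funext i
    have h4 := h3 (ι i)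
    rw [hE1, hE1] at h4
    exact sub_eq_zero.1 h4
  · have hs : ∀ v : Fin N → ℤ, ∑ c, (E v c).natAbs = ∑ i, (v i).natAbs := fun v =>
      (Fintype.sum_of_injective ι hι (fun i => (v i).natAbs) (fun c => (E v c).natAbs)
        (fun c hc => by rw [hE2 v c hc]; rfl) (fun i => by rw [hE1])).symm
    calc ∑ c, (E v.1 c - E w.1 c).natAbs ≤ ∑ c, ((E v.1 c).natAbs + (E w.1 c).natAbs) :=
          Finset.sum_le_sum fun c _ => Int.natAbs_sub_le _ _
      _ = ∑ i, (v.1 i).natAbs + ∑ i, (w.1 i).natAbs := by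
          rw [Finset.sum_add_distrib, hs, hs]
      _ ≤ 2 * k := by have := v.2; have := w.2; omega

theorem part_even_m [Fact p.Prime] (D : Dat n p q) (h5 : 5 ≤ n) (hpq : p ≠ q)
    (hcase : q = n ∨ ∃ hqn : IsUnit (q : ZMod n), ∃ j, hqn.unit ^ j = -1)
    {d t k N : ℕ} (hdo : Odd d) (ht : t ≠ 0)
    (hdn : d.Coprime (2 * n)) (hdq : d ∣ q - 1) (hqd : 2 * d + 1 ≤ q)
    (hR : R q n = p ^ (d * t)) {σ : 𝓞 K ≃+* 𝓞 K}
    (hσ : ∀ (φ : K →+* ℂ) (a : 𝓞 K), φ (σ a : K) = starRingEnd ℂ (φ (a : K)))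
    (hkd : 2 * k ≤ d) (hnum : 5 * 2 ^ d ≤ 4 * q ^ (d - 2 * k)) (hN : N ≤ (n - 1) / 2) :
    Nat.card {v : Fin N → ℤ // ∑ i, (v i).natAbs ≤ k} ≤
      Nat.card {c : ClassGroup (𝓞 K) // c ^ d = 1 ∧
        ∃ I : nonZeroDivisors (Ideal (𝓞 K)), ClassGroup.mk0 I = c ∧
          ((I : Ideal (𝓞 K)) * (I : Ideal (𝓞 K)).map σ).IsPrincipal} := by
  have h2 : n ≠ 2 := by omega
  have hi : ¬ n ∣ 1 := fun h => hn.out.one_lt.ne' (Nat.dvd_one.1 h)
  have hi1 : ¬ n ∣ 1 + 1 := fun h => by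
    have := Nat.le_of_dvd two_pos h; omega
  have hcard := card_AA (n := n) hi hi1
  obtain ⟨ι, hι, hιS⟩ := exists_enum (AA n 1) (N := N) (by omega)
  refine count_minus (k := k) D hdo.pos hR hσ ι hι ?_
  rintro w hw ⟨c₀, hc₀⟩ hsum hPH
  have hodd' : ∀ c : (ZMod n)ˣ, w (-c) - w (- -c) = -(w c - w (-c)) := fun c => by
    rw [neg_neg]; ring
  have hcS : c₀ ∈ AA n 1 := by
    by_contra h
    exact hc₀ (hw c₀ fun h' => h (hιS _ h'))
  have hcS' : -c₀ ∉ AA n 1 := fun h => (neg_mem_AA hi hi1 c₀).1 h hcS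
  have hwn : w (-c₀) = 0 := hw _ fun h => hcS' (hιS _ h)
  have h3 := key_minus_even D h2 hpq hcase hdo ht hdn hdq hR (w := fun c => w c - w (-c))
    hodd' hPH (c₀ := c₀) (by rw [hwn, sub_zero]; exact hc₀)
  have h4 := cost_even w (fun c => w c - w (-c)) (fun c => rfl)
  have h6 : p ^ (t * ∑ c, (w c - w (-c)).toNat) ≤ (p ^ t) ^ (2 * k) := by
    rw [← pow_mul]
    exact Nat.pow_le_pow_right D.hp.pos (Nat.mul_le_mul_left _ (h4.trans hsum))
  have h7 := h3.trans (Nat.mul_le_mul_left _ h6)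
  exact num_contra (m := 2 * k) (P := p ^ t) h5 hkd (by omega)
    (by have := hdo.pos; omega) (by rw [hR, ← pow_mul, mul_comm]) hnum h7

theorem part_odd_m [Fact p.Prime] (D : Dat n p q) (h5 : 5 ≤ n) (hpq : p ≠ q)
    (hqn : IsUnit (q : ZMod n)) (hodd : Odd (orderOf hqn.unit)) (hu1 : hqn.unit ≠ 1)
    {d t k N : ℕ} (hdo : Odd d) (ht : t ≠ 0)
    (hdn : d.Coprime (2 * n)) (hdq : d ∣ q - 1) (hqd : 2 * d + 1 ≤ q)
    (hR : R q n = p ^ (d * t)) {σ : 𝓞 K ≃+* 𝓞 K}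
    (hσ : ∀ (φ : K →+* ℂ) (a : 𝓞 K), φ (σ a : K) = starRingEnd ℂ (φ (a : K)))
    (hkd : 4 * k ≤ d) (hnum : 5 * 2 ^ d ≤ 4 * q ^ (d - 4 * k)) (hN : N ≤ (n - 1) / 3) :
    Nat.card {v : Fin N → ℤ // ∑ i, (v i).natAbs ≤ k} ≤
      Nat.card {c : ClassGroup (𝓞 K) // c ^ d = 1 ∧
        ∃ I : nonZeroDivisors (Ideal (𝓞 K)), ClassGroup.mk0 I = c ∧
          ((I : Ideal (𝓞 K)) * (I : Ideal (𝓞 K)).map σ).IsPrincipal} := by
  have h2 : n ≠ 2 := by omega
  obtain ⟨S, hS, hSn, hSi⟩ := exists_S h2 hodd hu1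
  obtain ⟨ι, hι, hιS⟩ := exists_enum S (N := N) (by omega)
  refine count_minus (k := k) D hdo.pos hR hσ ι hι ?_
  rintro w hw ⟨c₀, hc₀⟩ hsum hPH
  have hodd' : ∀ c : (ZMod n)ˣ, w (-c) - w (- -c) = -(w c - w (-c)) := fun c => by
    rw [neg_neg]; ring
  have hw' : ∀ c, c ∉ S → w c = 0 := fun c hc => hw c fun h => hc (hιS _ h)
  have hcS : c₀ ∈ S := by
    by_contra h
    exact hc₀ (hw' c₀ h)
  have hwn : w (-c₀) = 0 := hw' _ (hSn _ hcS)
  set F : (ZMod n)ˣ → ℤ := fun c => w (c * hqn.unit) - w (-(c * hqn.unit)) - w c + w (-c) with hF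
  obtain ⟨c₁, hc₁⟩ : ∃ c, F c ≠ 0 := by
    by_contra hcon
    push Not at hcon
    obtain ⟨i, hi1, hi2⟩ := hSi c₀ hcS
    have h3 : ∀ j : ℕ, w (c₀ * hqn.unit ^ j) - w (-(c₀ * hqn.unit ^ j)) = w c₀ := by
      intro j
      induction j with
      | zero => rw [pow_zero, mul_one, hwn, sub_zero]
      | succ j ih =>
        have h4 := hcon (c₀ * hqn.unit ^ j)
        rw [hF] at h4
        simp only at h4
        rw [pow_succ, ← mul_assoc, ← ih]
        linarith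
    have h4 := h3 i
    rw [hw' _ hi1, hw' _ hi2, sub_zero] at h4
    exact hc₀ h4.symm
  have h3 := key_minus_gen D h2 hpq hqn hdo ht hdn hdq hR (w := fun c => w c - w (-c))
    hodd' hPH (F := F) (fun c => by rw [hF]; ring) hc₁
  have h4 := cost_gen hqn.unit w F (fun c => rfl)
  have h6 : p ^ (t * ∑ c, (F c).toNat) ≤ (p ^ t) ^ (4 * k) := by
    rw [← pow_mul]
    refine Nat.pow_le_pow_right D.hp.pos (Nat.mul_le_mul_left _ (h4.trans ?_))
    omega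
  have h7 := h3.trans (Nat.mul_le_mul_left _ h6)
  exact num_contra (m := 4 * k) (P := p ^ t) h5 hkd (by omega)
    (by have := hdo.pos; omega) (by rw [hR, ← pow_mul, mul_comm]) hnum h7

end

end Pool.Agent.Edg
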