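import Pool.Agent.Edg.Mi5

/-!
The relative class number: final form.
-/

namespace Pool.Agent.Edg

open NumberField Ideal Polynomial

theorem rel_class {p q x y l : ℕ} (hp : p.Prime) (hp2 : p ≠ 2) (hq : q.Prime)
    (hq2 : q ≠ 2) (hx : 5 ≤ x) (hy : 2 ≤ y) (h : R q x = p ^ y)
    (hl : l.Prime) (hl2 : l ≠ 2) (hlq : l ∣ q - 1)
    (K : Type*) [Field K] [NumberField K] [IsCyclotomicExtension {x} ℚ K] (σ : 𝓞 K ≃+* 𝓞 K)
    (hσ : ∀ (φ : K →+* ℂ) (a : 𝓞 K), φ (σ a : K) = starRingEnd ℂ (φ (a : K))) :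
    l ^ padicValNat l y ∣ Nat.card {c : ClassGroup (𝓞 K) //
        ∃ I : nonZeroDivisors (Ideal (𝓞 K)), ClassGroup.mk0 I = c ∧
          ((I : Ideal (𝓞 K)) * (I : Ideal (𝓞 K)).map σ).IsPrincipal} ∧
    Nat.card {c : ClassGroup (𝓞 K) //
        ∃ I : nonZeroDivisors (Ideal (𝓞 K)), ClassGroup.mk0 I = c ∧
          ((I : Ideal (𝓞 K)) * (I : Ideal (𝓞 K)).map σ).IsPrincipal} ∣ classNumber K := by
  obtain ⟨hxp, hord, hxp1, hxq⟩ := basic hp hp2 hq (by omega) hy h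
  have : Fact x.Prime := ⟨hxp⟩
  have : Fact p.Prime := ⟨hp⟩
  refine ⟨pow_dvd_rel ⟨hp, hq, hord⟩ hx hp2 hq2 hxp1 hxq hl hl2 hlq h hσ, ?_⟩
  rw [classNumber, ← Nat.card_eq_fintype_card]
  exact Subgroup.card_subgroup_dvd_card (CO K σ)

end Pool.Agent.Edg
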