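import Pool.Agent.Edg.Mi6

/-!
The general counting theorem: odd functions with prescribed orbit sums.
-/

namespace Pool.Agent.Edg

open NumberField Ideal Polynomial

noncomputable section

variable {n : ℕ} [hn : Fact n.Prime] {p q : ℕ}

/-- solving `F = (σ - 1) v` for odd functions -/
lemma exists_v {u : (ZMod n)ˣ} (h2 : n ≠ 2) (hodd : Odd (orderOf u)) {F : (ZMod n)ˣ → ℤ}
    (hF : ∀ c, F (-c) = -F c)
    (hsum : ∀ c, ∑ i ∈ Finset.range (orderOf u), F (c * u ^ i) = 0) :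
    ∃ v : (ZMod n)ˣ → ℤ, (∀ c, v (-c) = -v c) ∧ ∀ c, F c = v (c * u) - v c := by
  classical
  set H := Subgroup.zpowers u with hH
  set L := pmSub H with hL
  have hcardH : Nat.card H = orderOf u := Nat.card_zpowers u
  have hneg : (-1 : (ZMod n)ˣ) ∉ H := by
    intro h
    have h3 := Subgroup.orderOf_dvd_natCard H h
    rw [neg_one_order h2, hcardH] at h3
    exact (Nat.not_even_iff_odd.2 hodd) (even_iff_two_dvd.2 h3)
  have hneg' : ∀ a : (ZMod n)ˣ, a ∈ H → -a ∈ H → False := by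
    intro a ha hb
    apply hneg
    have := H.mul_mem (H.inv_mem ha) hb
    rwa [mul_neg, inv_mul_cancel] at this
  have hLneg : (-1 : (ZMod n)ˣ) ∈ L := Or.inr (by rw [neg_neg]; exact H.one_mem)
  have huH : u ∈ H := Subgroup.mem_zpowers u
  have hLu : u ∈ L := Or.inl huH
  set a : (ZMod n)ˣ → (ZMod n)ˣ := fun c => (QuotientGroup.mk c : (ZMod n)ˣ ⧸ L).out with ha
  have ha1 : ∀ c, (a c)⁻¹ * c ∈ H ∨ -((a c)⁻¹ * c) ∈ H := by
    intro c
    obtain ⟨h, hh⟩ := QuotientGroup.mk_out_eq_mul L c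
    have h3 : a c = c * h := hh
    have h4 : (a c)⁻¹ * c = (h : (ZMod n)ˣ)⁻¹ := by
      rw [h3, mul_inv_rev, mul_assoc, inv_mul_cancel, mul_one]
    rw [h4]
    exact L.inv_mem h.2
  have han : ∀ c, a (-c) = a c := fun c => by
    change (QuotientGroup.mk (-c) : (ZMod n)ˣ ⧸ L).out = (QuotientGroup.mk c : (ZMod n)ˣ ⧸ L).out
    congr 1
    rw [QuotientGroup.eq]
    have : (-c)⁻¹ * c = -1 := by rw [inv_neg, neg_mul, inv_mul_cancel]
    rw [this]; exact hLneg
  have hau : ∀ c, a (c * u) = a c := fun c => by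
    change (QuotientGroup.mk (c * u) : (ZMod n)ˣ ⧸ L).out =
      (QuotientGroup.mk c : (ZMod n)ˣ ⧸ L).out
    congr 1
    rw [QuotientGroup.eq]
    have : (c * u)⁻¹ * c = u⁻¹ := by rw [mul_inv_rev, mul_assoc, inv_mul_cancel, mul_one]
    rw [this]; exact L.inv_mem hLu
  set r : (ZMod n)ˣ → (ZMod n)ˣ := fun c => if (a c)⁻¹ * c ∈ H then a c else -a c with hr
  have hr1 : ∀ c, (r c)⁻¹ * c ∈ H := by
    intro c
    by_cases h : (a c)⁻¹ * c ∈ H
    · rw [hr]; simp only [if_pos h]; exact h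
    · rw [hr]; simp only [if_neg h]
      rw [inv_neg, neg_mul]
      exact (ha1 c).resolve_left h
  have hrn : ∀ c, r (-c) = -r c := by
    intro c
    have e1 : (a c)⁻¹ * -c = -((a c)⁻¹ * c) := by rw [mul_neg]
    by_cases h : (a c)⁻¹ * c ∈ H
    · have h3 : ¬ (a c)⁻¹ * -c ∈ H := by
        rw [e1]; exact fun h4 => hneg' _ h h4
      rw [hr]; simp only [if_pos h, han, if_neg h3]
    · have h3 : (a c)⁻¹ * -c ∈ H := by
        rw [e1]; exact (ha1 c).resolve_left h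
      rw [hr]; simp only [if_neg h, han, if_pos h3, neg_neg]
  have hru : ∀ c, r (c * u) = r c := by
    intro c
    have h3 : (a c)⁻¹ * (c * u) ∈ H ↔ (a c)⁻¹ * c ∈ H := by
      rw [← mul_assoc]; exact H.mul_mem_cancel_right huH
    rw [hr]; simp only [hau, h3]
  have hind : ∀ c, ∃ i : ℕ, u ^ i = (r c)⁻¹ * c := fun c =>
    (mem_powers_iff_mem_zpowers).2 (hr1 c)
  choose ind hind using hind
  -- partial sums
  set S : (ZMod n)ˣ → ℕ → ℤ := fun c i => ∑ j ∈ Finset.range i, F (c * u ^ j) with hS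
  have hper1 : ∀ c i, S c (i + orderOf u) = S c i := by
    intro c i
    rw [hS]
    simp only
    rw [Finset.sum_range_add]
    have : ∑ x ∈ Finset.range (orderOf u), F (c * u ^ (i + x)) = 0 := by
      have := hsum (c * u ^ i)
      rw [← this]
      refine Finset.sum_congr rfl fun j _ => ?_
      rw [pow_add, mul_assoc]
    rw [this, add_zero]
  have hper2 : ∀ c m i, S c (i + m * orderOf u) = S c i := by
    intro c m i
    induction m with
    | zero => rw [Nat.zero_mul, add_zero]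
    | succ m ih => rw [Nat.succ_mul, ← add_assoc, hper1, ih]
  have hper : ∀ c i j, u ^ i = u ^ j → S c i = S c j := by
    intro c i j hij
    have h3 : i % orderOf u = j % orderOf u := (pow_eq_pow_iff_modEq).1 hij
    have e1 : ∀ i, S c i = S c (i % orderOf u) := by
      intro i
      conv_lhs => rw [← Nat.mod_add_div' i (orderOf u)]
      exact hper2 _ _ _
    rw [e1 i, e1 j, h3]
  refine ⟨fun c => S (r c) (ind c), ?_, ?_⟩
  · intro c
    simp only
    have e1 : u ^ ind (-c) = u ^ ind c := by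
      rw [hind, hind, hrn, inv_neg, neg_mul_neg]
    rw [hper _ _ _ e1, hrn, hS]
    simp only
    rw [← Finset.sum_neg_distrib]
    refine Finset.sum_congr rfl fun j _ => ?_
    rw [neg_mul, hF]
  · intro c
    simp only
    have e1 : u ^ ind (c * u) = u ^ (ind c + 1) := by
      rw [hind, hru, pow_succ, hind, mul_assoc]
    rw [hru, hper _ _ _ e1, hS]
    simp only
    rw [Finset.sum_range_succ, hind, mul_inv_cancel_left]
    ring

lemma sum_odd {F : (ZMod n)ˣ → ℤ} (hF : ∀ c, F (-c) = -F c) : ∑ c, F c = 0 := by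
  have h1 := sum_neg F
  simp only [hF] at h1
  rw [Finset.sum_neg_distrib] at h1
  linarith

lemma cost_odd {F w w' : (ZMod n)ˣ → ℤ} (hF : ∀ c, F (-c) = -F c) (hFw : ∀ c, F c = w c - w' c)
    {k : ℕ} (hw : ∑ c, |w c| ≤ 2 * k) (hw' : ∑ c, |w' c| ≤ 2 * k) :
    ∑ c, (F c).toNat ≤ 2 * k := by
  have h2 : (2 : ℤ) * ∑ c, ((F c).toNat : ℤ) = ∑ c, |F c| := by
    rw [Finset.mul_sum, Finset.sum_congr rfl fun c _ => two_mul_toNat (F c),
      Finset.sum_add_distrib, sum_odd hF, add_zero]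
  have h3 : ∑ c, |F c| ≤ ∑ c, (|w c| + |w' c|) := by
    refine Finset.sum_le_sum fun c _ => ?_
    rw [hFw]
    exact abs_sub _ _
  rw [Finset.sum_add_distrib] at h3
  zify
  linarith

lemma ineq52 {q d k : ℕ} (hdo : Odd d) (hdq : d ∣ q - 1) (hqo : Odd q) (hkd : 5 * k < 2 * d)
    (hq : 2 * d + 1 ≤ q) (hex : ¬ (d = 3 ∧ q = 7)) (hk : 1 ≤ k) :
    5 * 2 ^ d ≤ 4 * q ^ (d - 2 * k) := by
  rcases Nat.lt_or_ge d 5 with h5 | h5
  · have hd3 : d = 3 := by obtain ⟨r, hr⟩ := hdo; omega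
    subst hd3
    have hk1 : k = 1 := by omega
    subst hk1
    have hq13 : 13 ≤ q := by
      obtain ⟨a, ha⟩ := hdq
      obtain ⟨b, hb⟩ := hqo
      omega
    norm_num; omega
  · obtain ⟨e, he⟩ : ∃ e, d = e + 2 * k := ⟨d - 2 * k, by omega⟩
    have he' : d - 2 * k = e := by omega
    rw [he']
    have h5e : d + 2 ≤ 5 * e := by omega
    rcases Nat.lt_or_ge d 9 with h9 | h9
    · have he3 : 3 ≤ e := by obtain ⟨r, hr⟩ := hdo; omega
      have h3 : (2 * d + 1) ^ 3 ≤ q ^ e :=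
        (Nat.pow_le_pow_left hq 3).trans (Nat.pow_le_pow_right (by omega) he3)
      refine le_trans ?_ (Nat.mul_le_mul_left _ h3)
      clear h3 he3 h5e he' he hkd hdo hdq hex hq
      interval_cases d <;> norm_num
    · have h1 : (5 * 2 ^ d) ^ 5 ≤ (4 * q ^ e) ^ 5 := by
        have h2 : (4 * q ^ e) ^ 5 = 1024 * q ^ (5 * e) := by
          rw [mul_pow, ← pow_mul, mul_comm e]; norm_num
        have h3 : (5 * 2 ^ d) ^ 5 = 3125 * 32 ^ d := by
          rw [mul_pow, ← pow_mul, mul_comm d, pow_mul]; norm_num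
        rw [h2, h3]
        have h4 : q ^ (d + 2) ≤ q ^ (5 * e) := Nat.pow_le_pow_right (by omega) h5e
        refine le_trans ?_ (Nat.mul_le_mul_left _ h4)
        have h6 : (2 * d + 1) ^ (d + 2) ≤ q ^ (d + 2) := Nat.pow_le_pow_left hq _
        refine le_trans ?_ (Nat.mul_le_mul_left _ h6)
        clear h6 h4 h3 h2 h5e he' he hkd hdo hdq hex hq
        rcases Nat.lt_or_ge d 16 with h7 | h7
        · interval_cases d <;> norm_num
        · have h8 : 32 ^ (d + 2) ≤ (2 * d + 1) ^ (d + 2) := Nat.pow_le_pow_left (by omega) _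
          refine le_trans ?_ (Nat.mul_le_mul_left _ h8)
          rw [pow_add]
          have : 0 < 32 ^ d := by positivity
          omega
      exact (Nat.pow_le_pow_iff_left (by norm_num)).1 h1

variable {K : Type*} [Field K] [NumberField K] [hK : IsCyclotomicExtension {n} ℚ K]

/-- the general counting theorem, odd order -/
theorem gen_odd [Fact p.Prime] (D : Dat n p q) (h5 : 5 ≤ n) (hpq : p ≠ q)
    (hqn : IsUnit (q : ZMod n)) (hodd : Odd (orderOf hqn.unit))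
    {d t k : ℕ} (hdo : Odd d) (ht : t ≠ 0)
    (hdn : d.Coprime (2 * n)) (hdq : d ∣ q - 1) (hqd : 2 * d + 1 ≤ q)
    (hR : R q n = p ^ (d * t)) {σ : 𝓞 K ≃+* 𝓞 K}
    (hσ : ∀ (φ : K →+* ℂ) (a : 𝓞 K), φ (σ a : K) = starRingEnd ℂ (φ (a : K)))
    (hkd : 2 * k ≤ d) (hnum : 5 * 2 ^ d ≤ 4 * q ^ (d - 2 * k)) (s : (ZMod n)ˣ → ℤ) :
    Nat.card {w : (ZMod n)ˣ → ℤ // (∀ c, w (-c) = -w c) ∧ ∑ c, |w c| ≤ 2 * k ∧
        ∀ c, ∑ i ∈ Finset.range (orderOf hqn.unit), w (c * hqn.unit ^ i) =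
          ∑ i ∈ Finset.range (orderOf hqn.unit), s (c * hqn.unit ^ i)} ≤
      Nat.card {c : ClassGroup (𝓞 K) // c ^ d = 1 ∧
        ∃ I : nonZeroDivisors (Ideal (𝓞 K)), ClassGroup.mk0 I = c ∧
          ((I : Ideal (𝓞 K)) * (I : Ideal (𝓞 K)).map σ).IsPrincipal} := by
  have h2 : n ≠ 2 := by omega
  set W := {w : (ZMod n)ˣ → ℤ // (∀ c, w (-c) = -w c) ∧ ∑ c, |w c| ≤ 2 * k ∧
        ∀ c, ∑ i ∈ Finset.range (orderOf hqn.unit), w (c * hqn.unit ^ i) =
          ∑ i ∈ Finset.range (orderOf hqn.unit), s (c * hqn.unit ^ i)} with hW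
  rcases isEmpty_or_nonempty W with hE | ⟨⟨w0⟩⟩
  · rw [Nat.card_of_isEmpty]; exact Nat.zero_le _
  have hex : ∀ w : W, ∃ v : (ZMod n)ˣ → ℤ, (∀ c, v (-c) = -v c) ∧
      ∀ c, w.1 c - w0.1 c = v (c * hqn.unit) - v c := by
    intro w
    refine exists_v h2 hodd (F := fun c => w.1 c - w0.1 c) ?_ ?_
    · intro c
      rw [w.2.1, w0.2.1]; ring
    · intro c
      rw [Finset.sum_sub_distrib, w.2.2.2, w0.2.2.2, sub_self]
  choose v hv1 hv2 using hex
  have : Finite {c : ClassGroup (𝓞 K) // c ^ d = 1 ∧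
        ∃ I : nonZeroDivisors (Ideal (𝓞 K)), ClassGroup.mk0 I = c ∧
          ((I : Ideal (𝓞 K)) * (I : Ideal (𝓞 K)).map σ).IsPrincipal} := inferInstance
  refine Nat.card_le_card_of_injective
    (fun w : W => ⟨PH K D t (v w), PH_pow D hR _, mem_CO.1 (PH_mem D hdo.pos hR (hv1 w) hσ)⟩) ?_
  intro w w' hww
  by_contra hne
  have h1 : PH K D t (v w) = PH K D t (v w') := congrArg Subtype.val hww
  have hPH : PH K D t (fun c => v w c - v w' c) = 1 := by rw [PH_sub, h1, div_self']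
  have hvo : ∀ c, (fun c => v w c - v w' c) (-c) = -(fun c => v w c - v w' c) c := by
    intro c; simp only; rw [hv1, hv1]; ring
  obtain ⟨c₀, hc₀⟩ : ∃ c, w.1 c - w'.1 c ≠ 0 := by
    by_contra h3
    push Not at h3
    apply hne
    apply Subtype.ext
    funext c
    exact sub_eq_zero.1 (h3 c)
  have h3 := key_minus_gen D h2 hpq hqn hdo ht hdn hdq hR (w := fun c => v w c - v w' c)
    hvo hPH (F := fun c => w.1 c - w'.1 c) (fun c => by
      have e1 := hv2 w c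
      have e2 := hv2 w' c
      linarith) hc₀
  have h4 := cost_odd (F := fun c => w.1 c - w'.1 c) (fun c => by
    rw [w.2.1, w'.2.1]; ring) (fun c => rfl) w.2.2.1 w'.2.2.1
  have h6 : p ^ (t * ∑ c, (w.1 c - w'.1 c).toNat) ≤ (p ^ t) ^ (2 * k) := by
    rw [← pow_mul]
    exact Nat.pow_le_pow_right D.hp.pos (Nat.mul_le_mul_left _ h4)
  have h7 := h3.trans (Nat.mul_le_mul_left _ h6)
  exact num_contra (m := 2 * k) (P := p ^ t) h5 hkd (by omega)
    (by have := hdo.pos; omega) (by rw [hR, ← pow_mul, mul_comm]) hnum h7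

/-- the general counting theorem, even order or `q = n` -/
theorem gen_even [Fact p.Prime] (D : Dat n p q) (h5 : 5 ≤ n) (hpq : p ≠ q)
    (hcase : q = n ∨ ∃ hqn : IsUnit (q : ZMod n), ∃ j, hqn.unit ^ j = -1)
    {d t k : ℕ} (hdo : Odd d) (ht : t ≠ 0)
    (hdn : d.Coprime (2 * n)) (hdq : d ∣ q - 1) (hqd : 2 * d + 1 ≤ q)
    (hR : R q n = p ^ (d * t)) {σ : 𝓞 K ≃+* 𝓞 K}
    (hσ : ∀ (φ : K →+* ℂ) (a : 𝓞 K), φ (σ a : K) = starRingEnd ℂ (φ (a : K)))
    (hkd : 2 * k ≤ d) (hnum : 5 * 2 ^ d ≤ 4 * q ^ (d - 2 * k)) (P : ((ZMod n)ˣ → ℤ) → Prop) :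
    Nat.card {w : (ZMod n)ˣ → ℤ // (∀ c, w (-c) = -w c) ∧ ∑ c, |w c| ≤ 2 * k ∧ P w} ≤
      Nat.card {c : ClassGroup (𝓞 K) // c ^ d = 1 ∧
        ∃ I : nonZeroDivisors (Ideal (𝓞 K)), ClassGroup.mk0 I = c ∧
          ((I : Ideal (𝓞 K)) * (I : Ideal (𝓞 K)).map σ).IsPrincipal} := by
  have h2 : n ≠ 2 := by omega
  have : Finite {c : ClassGroup (𝓞 K) // c ^ d = 1 ∧
        ∃ I : nonZeroDivisors (Ideal (𝓞 K)), ClassGroup.mk0 I = c ∧
          ((I : Ideal (𝓞 K)) * (I : Ideal (𝓞 K)).map σ).IsPrincipal} := inferInstance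
  refine Nat.card_le_card_of_injective
    (fun w => ⟨PH K D t w.1, PH_pow D hR _, mem_CO.1 (PH_mem D hdo.pos hR w.2.1 hσ)⟩) ?_
  intro w w' hww
  by_contra hne
  have h1 : PH K D t w.1 = PH K D t w'.1 := congrArg Subtype.val hww
  have hPH : PH K D t (fun c => w.1 c - w'.1 c) = 1 := by rw [PH_sub, h1, div_self']
  have hvo : ∀ c, (fun c => w.1 c - w'.1 c) (-c) = -(fun c => w.1 c - w'.1 c) c := by
    intro c; simp only; rw [w.2.1, w'.2.1]; ring
  obtain ⟨c₀, hc₀⟩ : ∃ c, w.1 c - w'.1 c ≠ 0 := by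
    by_contra h3
    push Not at h3
    apply hne
    apply Subtype.ext
    funext c
    exact sub_eq_zero.1 (h3 c)
  have h3 := key_minus_even D h2 hpq hcase hdo ht hdn hdq hR (w := fun c => w.1 c - w'.1 c)
    hvo hPH hc₀
  have h4 := cost_odd (F := fun c => w.1 c - w'.1 c) hvo (fun c => rfl) w.2.2.1 w'.2.2.1
  have h6 : p ^ (t * ∑ c, (w.1 c - w'.1 c).toNat) ≤ (p ^ t) ^ (2 * k) := by
    rw [← pow_mul]
    exact Nat.pow_le_pow_right D.hp.pos (Nat.mul_le_mul_left _ h4)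
  have h7 := h3.trans (Nat.mul_le_mul_left _ h6)
  exact num_contra (m := 2 * k) (P := p ^ t) h5 hkd (by omega)
    (by have := hdo.pos; omega) (by rw [hR, ← pow_mul, mul_comm]) hnum h7

end

end Pool.Agent.Edg
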