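import Pool.Agent.Edg.Mi7

/-!
The counting theorem: final form.
-/

namespace Pool.Agent.Edg

open NumberField Ideal Polynomial

noncomputable section

variable {n : ℕ} [hn : Fact n.Prime]

lemma period_shift (u : (ZMod n)ˣ) (g : (ZMod n)ˣ → ℤ) (i : ℕ) (c : (ZMod n)ˣ) :
    ∑ j ∈ Finset.range (orderOf u), g (c * u ^ i * u ^ j) =
      ∑ j ∈ Finset.range (orderOf u), g (c * u ^ j) := by
  induction i with
  | zero => simp
  | succ i ih =>
    rw [← ih]
    have h1 := Finset.sum_range_succ (fun j => g (c * u ^ i * u ^ j)) (orderOf u)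
    have h2 := Finset.sum_range_succ' (fun j => g (c * u ^ i * u ^ j)) (orderOf u)
    have h3 : ∑ j ∈ Finset.range (orderOf u), g (c * u ^ (i + 1) * u ^ j) =
        ∑ j ∈ Finset.range (orderOf u), g (c * u ^ i * u ^ (j + 1)) := by
      refine Finset.sum_congr rfl fun j _ => ?_
      congr 1
      rw [mul_assoc, mul_assoc, ← pow_add, ← pow_add]
      congr 2; ring
    rw [h3]
    rw [h1] at h2
    rw [pow_orderOf_eq_one, mul_one, pow_zero, mul_one] at h2
    linarith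

omit hn in
lemma card_le_one_of {α : Type*} (h : ∀ a b : α, a = b) : Nat.card α ≤ 1 := by
  have h1 : Subsingleton α := ⟨h⟩
  have h2 : Finite α := Finite.of_subsingleton
  exact Finite.card_le_one_iff_subsingleton.2 h1

lemma w1_eq_one {c : (ZMod n)ˣ} (h : w1 n c = 1) : c = 1 := by
  by_contra hc
  have := w1_le (n := n) c
  rw [if_neg hc] at this
  omega

lemma sum_abs_w1 : ∑ c : (ZMod n)ˣ, |w1 n c| ≤ 2 := by
  have h3 : ∀ c : (ZMod n)ˣ, |w1 n c| ≤ (if c = 1 then 1 else 0) + (if c = -1 then 1 else 0) := by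
    intro c
    rw [w1, abs_le]
    split_ifs <;> constructor <;> norm_num
  refine (Finset.sum_le_sum fun c _ => h3 c).trans ?_
  rw [Finset.sum_add_distrib]; simp

/-- there are `f` translates -/
lemma card_translates (h2 : n ≠ 2) (u : (ZMod n)ˣ) {k : ℕ} (hk : 1 ≤ k)
    (hfin : Finite {w : (ZMod n)ˣ → ℤ // (∀ c, w (-c) = -w c) ∧ ∑ c, |w c| ≤ 2 * k ∧
        ∀ c, ∑ i ∈ Finset.range (orderOf u), w (c * u ^ i) =
          ∑ i ∈ Finset.range (orderOf u), w1 n (c * u ^ i)}) :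
    orderOf u ≤ Nat.card {w : (ZMod n)ˣ → ℤ // (∀ c, w (-c) = -w c) ∧ ∑ c, |w c| ≤ 2 * k ∧
        ∀ c, ∑ i ∈ Finset.range (orderOf u), w (c * u ^ i) =
          ∑ i ∈ Finset.range (orderOf u), w1 n (c * u ^ i)} := by
  have h3 : orderOf u = Nat.card (Fin (orderOf u)) := (Nat.card_fin _).symm
  conv_lhs => rw [h3]
  refine Nat.card_le_card_of_injective (fun i => ⟨fun c => w1 n (c * u ^ (i : ℕ)), ?_, ?_, ?_⟩) ?_
  · intro c
    change w1 n (-c * u ^ (i : ℕ)) = -w1 n (c * u ^ (i : ℕ))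
    rw [neg_mul, w1_neg]
  · rw [sum_shift (u ^ (i : ℕ)) (fun c => |w1 n c|)]
    refine sum_abs_w1.trans ?_
    have : (1 : ℤ) ≤ k := by exact_mod_cast hk
    linarith
  · intro c
    rw [← period_shift u (w1 n) i c]
    refine Finset.sum_congr rfl fun j _ => ?_
    change w1 n (c * u ^ j * u ^ (i : ℕ)) = w1 n (c * u ^ (i : ℕ) * u ^ j)
    rw [mul_right_comm]
  · intro i j hij
    have h4 := congrFun (congrArg Subtype.val hij) ((u ^ (i : ℕ))⁻¹)
    simp only [inv_mul_cancel] at h4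
    rw [w1_one h2] at h4
    have h6 := w1_eq_one h4.symm
    have h7 : u ^ (j : ℕ) = u ^ (i : ℕ) := by
      rw [inv_mul_eq_one] at h6; exact h6.symm
    have h8 := (pow_eq_pow_iff_modEq).1 h7
    have h9 : (j : ℕ) = i := by
      have := Nat.ModEq.eq_of_lt_of_lt h8 j.2 i.2
      exact this
    exact Fin.ext h9.symm

theorem final {p q x y d k : ℕ} [NeZero x] (hp : p.Prime) (hp2 : p ≠ 2) (hq : q.Prime)
    (hx : 5 ≤ x) (hy : 2 ≤ y) (h : R q x = p ^ y)
    (hd : Odd d) (hdy : d ∣ y) (hdq : d ∣ q - 1)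
    (hk : (2 * k ≤ d ∧ 5 * 2 ^ d ≤ 4 * q ^ (d - 2 * k)) ∨ (5 * k < 2 * d ∧ ¬ (d = 3 ∧ q = 7)))
    (K : Type*) [Field K] [NumberField K] [IsCyclotomicExtension {x} ℚ K]
    (σ : 𝓞 K ≃+* 𝓞 K)
    (hσ : ∀ (φ : K →+* ℂ) (a : 𝓞 K), φ (σ a : K) = starRingEnd ℂ (φ (a : K)))
    (H : ℕ) (hH : H = Nat.card {c : ClassGroup (𝓞 K) // c ^ d = 1 ∧
        ∃ I : nonZeroDivisors (Ideal (𝓞 K)), ClassGroup.mk0 I = c ∧
          ((I : Ideal (𝓞 K)) * (I : Ideal (𝓞 K)).map σ).IsPrincipal}) :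
    (∀ (u : (ZMod x)ˣ) (s : (ZMod x)ˣ → ℤ), (u : ZMod x) = q →
      Nat.card {w : (ZMod x)ˣ → ℤ // (∀ c, w (-c) = -w c) ∧ ∑ c, |w c| ≤ 2 * k ∧
        ∀ c, ∑ i ∈ Finset.range (orderOf u), w (c * u ^ i) =
          ∑ i ∈ Finset.range (orderOf u), s (c * u ^ i)} ≤ H) ∧
    (1 ≤ k → orderOf (q : ZMod x) ≤ H) ∧
    (¬ Odd (orderOf (q : ZMod x)) →
      Nat.card {v : Fin ((x - 1) / 2) → ℤ // ∑ i, |v i| ≤ k} ≤ H) ∧
    (∀ j : ℕ, 2 * j ≤ k → Nat.card {v : Fin ((x - 1) / 3) → ℤ // ∑ i, |v i| ≤ j} ≤ H) := by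
  obtain ⟨hxp, hord, hxp1, hxq⟩ := basic hp hp2 hq (by omega) hy h
  have hF : Fact x.Prime := ⟨hxp⟩
  have hFp : Fact p.Prime := ⟨hp⟩
  have D : Dat x p q := ⟨hp, hq, hord⟩
  have hx2 : x ≠ 2 := by omega
  have hpq : p ≠ q := by
    rintro rfl
    have := not_dvd_base hp (by omega) h dvd_rfl
    omega
  have hd0 : d ≠ 0 := by rintro rfl; simp at hd
  obtain ⟨t, rfl⟩ := hdy
  have ht0 : t ≠ 0 := by rintro rfl; omega
  have hdx : d.Coprime (2 * x) := by
    refine Nat.Coprime.mul_right ((Nat.coprime_two_right).2 hd) ?_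
    rw [Nat.coprime_comm, Nat.Prime.coprime_iff_not_dvd hxp]
    exact fun hh => hxq (hh.trans hdq)
  have hordu : ∀ hqn : IsUnit (q : ZMod x), orderOf hqn.unit = orderOf (q : ZMod x) := by
    intro hqn; rw [← orderOf_units]; rfl
  have hcase : ¬ Odd (orderOf (q : ZMod x)) →
      q = x ∨ ∃ hqn : IsUnit (q : ZMod x), ∃ k, hqn.unit ^ k = -1 := by
    intro hno
    by_cases h0 : (q : ZMod x) = 0
    · left
      rw [ZMod.natCast_eq_zero_iff] at h0
      exact ((Nat.prime_dvd_prime_iff_eq hxp hq).1 h0).symm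
    · right
      have hu : IsUnit (q : ZMod x) := isUnit_iff_ne_zero.2 h0
      refine ⟨hu, exists_neg_one hu ?_⟩
      rwa [hordu]
  have hH1 : 1 ≤ H := by
    rw [hH]
    have : Nonempty {c : ClassGroup (𝓞 K) // c ^ d = 1 ∧
        ∃ I : nonZeroDivisors (Ideal (𝓞 K)), ClassGroup.mk0 I = c ∧
          ((I : Ideal (𝓞 K)) * (I : Ideal (𝓞 K)).map σ).IsPrincipal} :=
      ⟨⟨1, one_pow d, mem_CO.1 (CO K σ).one_mem⟩⟩
    exact Nat.card_pos
  -- the trivial case `k = 0`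
  rcases Nat.eq_zero_or_pos k with hk0 | hk1
  · subst hk0
    have habs : ∀ {ι : Type} [Fintype ι] (v : ι → ℤ), ∑ i, |v i| ≤ 0 → ∀ i, v i = 0 := by
      intro ι _ v hv i
      have h1 : |v i| ≤ ∑ i, |v i| :=
        Finset.single_le_sum (f := fun i => |v i|) (fun _ _ => abs_nonneg _) (Finset.mem_univ i)
      exact abs_nonpos_iff.1 (h1.trans hv)
    refine ⟨fun u s _ => ?_, fun h1 => by omega, fun _ => ?_, fun j hj => ?_⟩
    · refine le_trans (card_le_one_of fun a b => ?_) hH1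
      apply Subtype.ext; funext c
      rw [habs a.1 (by simpa using a.2.2.1) c, habs b.1 (by simpa using b.2.2.1) c]
    · refine le_trans (card_le_one_of fun a b => ?_) hH1
      apply Subtype.ext; funext c
      rw [habs a.1 (by simpa using a.2) c, habs b.1 (by simpa using b.2) c]
    · have hj0 : j = 0 := by omega
      subst hj0
      refine le_trans (card_le_one_of fun a b => ?_) hH1
      apply Subtype.ext; funext c
      rw [habs a.1 (by simpa using a.2) c, habs b.1 (by simpa using b.2) c]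
  have hd1 : 1 < d := by
    obtain ⟨m, hm⟩ := hd
    rcases hk with hk | hk <;> omega
  have hq2 : q ≠ 2 := by
    rintro rfl
    have := Nat.le_of_dvd (by norm_num) hdq
    omega
  have hqo : Odd q := hq.eq_two_or_odd'.resolve_left hq2
  have hqd : 2 * d + 1 ≤ q := by
    have h3 : 2 ∣ q - 1 := by obtain ⟨m, hm⟩ := hqo; exact ⟨m, by omega⟩
    have h4 := ((Nat.coprime_two_left).2 hd).mul_dvd_of_dvd_of_dvd h3 hdq
    have h5 := Nat.le_of_dvd (by have := hq.one_lt; omega) h4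
    have := hq.one_lt
    omega
  obtain ⟨hkd, hnum⟩ : 2 * k ≤ d ∧ 5 * 2 ^ d ≤ 4 * q ^ (d - 2 * k) := by
    rcases hk with hk | hk
    · exact hk
    · exact ⟨by omega, ineq52 hd hdq hqo hk.1 hqd hk.2 hk1⟩
  have hu1 : ∀ u : (ZMod x)ˣ, (u : ZMod x) = q → u ≠ 1 := by
    rintro u hu rfl
    apply hxq
    rw [Units.val_one] at hu
    rw [← ZMod.natCast_eq_zero_iff, Nat.cast_sub hq.one_lt.le, ← hu]
    simp
  -- part (a)
  have ha : ∀ (u : (ZMod x)ˣ) (s : (ZMod x)ˣ → ℤ), (u : ZMod x) = q →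
      Finite {w : (ZMod x)ˣ → ℤ // (∀ c, w (-c) = -w c) ∧ ∑ c, |w c| ≤ 2 * k ∧
        ∀ c, ∑ i ∈ Finset.range (orderOf u), w (c * u ^ i) =
          ∑ i ∈ Finset.range (orderOf u), s (c * u ^ i)} ∧
      Nat.card {w : (ZMod x)ˣ → ℤ // (∀ c, w (-c) = -w c) ∧ ∑ c, |w c| ≤ 2 * k ∧
        ∀ c, ∑ i ∈ Finset.range (orderOf u), w (c * u ^ i) =
          ∑ i ∈ Finset.range (orderOf u), s (c * u ^ i)} ≤ H := by
    intro u s hu
    constructor
    · have hb : ∀ w : {w : (ZMod x)ˣ → ℤ // (∀ c, w (-c) = -w c) ∧ ∑ c, |w c| ≤ 2 * k ∧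
          ∀ c, ∑ i ∈ Finset.range (orderOf u), w (c * u ^ i) =
            ∑ i ∈ Finset.range (orderOf u), s (c * u ^ i)}, ∀ c,
          w.1 c ∈ Set.Icc (-(2 * k : ℤ)) (2 * k) := by
        intro w c
        have h1 : |w.1 c| ≤ ∑ c, |w.1 c| :=
          Finset.single_le_sum (f := fun c => |w.1 c|) (fun _ _ => abs_nonneg _)
            (Finset.mem_univ c)
        exact abs_le.1 (h1.trans w.2.2.1)
      refine Finite.of_injective (fun w => fun c => (⟨w.1 c, hb w c⟩ :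
        Set.Icc (-(2 * k : ℤ)) (2 * k))) ?_
      intro w w' hw
      apply Subtype.ext; funext c
      exact congrArg Subtype.val (congrFun hw c)
    · have hqn : IsUnit (q : ZMod x) := ⟨u, hu⟩
      have hun : u = hqn.unit := Units.ext hu
      subst hun
      rw [hH]
      by_cases ho : Odd (orderOf hqn.unit)
      · exact gen_odd D hx hpq hqn ho hd ht0 hdx hdq hqd h hσ hkd hnum s
      · exact gen_even D hx hpq (Or.inr ⟨hqn, exists_neg_one hqn ho⟩) hd ht0 hdx hdq hqd h hσ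
          hkd hnum _
  have hconv : ∀ {N m : ℕ}, Nat.card {v : Fin N → ℤ // ∑ i, |v i| ≤ m} =
      Nat.card {v : Fin N → ℤ // ∑ i, (v i).natAbs ≤ m} := by
    intro N m
    refine Nat.card_congr (Equiv.subtypeEquivRight fun v => ?_)
    rw [← Int.ofNat_le]
    push_cast
    rfl
  refine ⟨fun u s hu => (ha u s hu).2, fun _ => ?_, fun hno => ?_, fun j hj => ?_⟩
  · by_cases h0 : (q : ZMod x) = 0
    · rw [h0, orderOf_zero]; exact Nat.zero_le _
    · have hqn : IsUnit (q : ZMod x) := isUnit_iff_ne_zero.2 h0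
      rw [← hordu hqn]
      obtain ⟨hfin, hle⟩ := ha hqn.unit (w1 x) rfl
      exact (card_translates hx2 hqn.unit hk1 hfin).trans hle
  · rw [hconv, hH]
    exact part_even_m D hx hpq (hcase hno) hd ht0 hdx hdq hqd h hσ hkd hnum le_rfl
  · rw [hconv, hH]
    have hnum' : 5 * 2 ^ d ≤ 4 * q ^ (d - 4 * j) :=
      hnum.trans (Nat.mul_le_mul_left _ (Nat.pow_le_pow_right hq.pos (by omega)))
    by_cases ho : Odd (orderOf (q : ZMod x))
    · have h0 : (q : ZMod x) ≠ 0 := by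
        intro h0
        rw [h0, orderOf_zero] at ho
        exact absurd ho (by decide)
      have hu : IsUnit (q : ZMod x) := isUnit_iff_ne_zero.2 h0
      exact part_odd_m D hx hpq hu (by rwa [hordu]) (hu1 _ rfl) hd ht0 hdx hdq hqd h hσ
        (by omega) hnum' le_rfl
    · have hnum2 : 5 * 2 ^ d ≤ 4 * q ^ (d - 2 * j) :=
        hnum.trans (Nat.mul_le_mul_left _ (Nat.pow_le_pow_right hq.pos (by omega)))
      exact part_even_m D hx hpq (hcase ho) hd ht0 hdx hdq hqd h hσ (by omega) hnum2 (by omega)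

end

end Pool.Agent.Edg
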