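import Mathlib

/-!
Elementary facts on `1 + q + ... + q^(x-1) = p^y`, with `p`, `q` odd primes.
-/

namespace Pool.Agent.Edg

open Finset

/-- the repunit sum -/
def R (q x : ℕ) : ℕ := ∑ i ∈ range x, q ^ i

lemma R_zero (q : ℕ) : R q 0 = 0 := by simp [R]

lemma R_one (q : ℕ) : R q 1 = 1 := by simp [R]

lemma R_succ (q x : ℕ) : R q (x + 1) = R q x + q ^ x := by
  simp [R, sum_range_succ]

lemma R_succ' (q x : ℕ) : R q (x + 1) = 1 + q * R q x := by
  simp only [R, sum_range_succ', mul_sum, pow_zero]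
  rw [add_comm]
  congr 1
  refine sum_congr rfl fun i _ => ?_
  ring

lemma R_mul (q a b : ℕ) : R q (a * b) = R q a * R (q ^ a) b := by
  induction b with
  | zero => simp [R]
  | succ b ih =>
    have h1 : R q (a * b + a) = R q (a * b) + q ^ (a * b) * R q a := by
      simp only [R, sum_range_add, mul_sum, pow_add]
    rw [Nat.mul_succ, h1, ih, R_succ, ← pow_mul]
    ring

lemma R_dvd {q a b : ℕ} (h : a ∣ b) : R q a ∣ R q b := by
  obtain ⟨c, rfl⟩ := h
  exact ⟨_, R_mul q a c⟩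

lemma sub_mul_R {q : ℕ} (hq : 1 ≤ q) (x : ℕ) : (q - 1) * R q x = q ^ x - 1 := by
  rw [R, mul_comm]
  exact geom_sum_mul_of_one_le hq x

lemma R_mono {q a b : ℕ} (h : a ≤ b) : R q a ≤ R q b :=
  sum_le_sum_of_subset (range_subset_range.2 h)

lemma R_pos {q x : ℕ} (hx : 1 ≤ x) : 1 ≤ R q x := by
  have := R_mono (q := q) hx
  rwa [R_one] at this

lemma one_lt_R {q x : ℕ} (hq : 1 ≤ q) (hx : 2 ≤ x) : 1 < R q x := by
  have h2 := R_mono (q := q) hx
  have : R q 2 = 1 + q := by simp [R, sum_range_succ]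
  omega

lemma lt_R {q x : ℕ} (hq : 2 ≤ q) (hx : 2 ≤ x) : x < R q x := by
  induction x, hx using Nat.le_induction with
  | base => simp [R, sum_range_succ]; omega
  | succ x hx ih =>
    rw [R_succ]
    have : 1 ≤ q ^ x := Nat.one_le_pow _ _ (by omega)
    omega

lemma R_cast_of_eq_one {A : Type*} [CommRing A] {q x : ℕ} (h : (q : A) = 1) :
    ((R q x : ℕ) : A) = x := by
  simp [R, h]

lemma not_dvd_base {p q x y : ℕ} (hp : p.Prime) (hx : 1 ≤ x)
    (h : R q x = p ^ y) (hpq : p ∣ q) : y = 0 := by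
  obtain ⟨z, rfl⟩ : ∃ z, x = z + 1 := ⟨x - 1, by omega⟩
  rw [R_succ'] at h
  by_contra hy
  have h1 : p ∣ 1 + q * R q z := by rw [h]; exact dvd_pow_self p hy
  have h2 : p ∣ q * R q z := hpq.mul_right _
  have := (Nat.dvd_add_left h2).1 h1
  exact hp.one_lt.ne' (Nat.dvd_one.1 this)

lemma pow_eq_one_of_dvd_R {p q x : ℕ} (hq : 1 ≤ q) (h : p ∣ R q x) :
    (q : ZMod p) ^ x = 1 := by
  have h1 : p ∣ q ^ x - 1 := by
    rw [← sub_mul_R hq]; exact h.mul_left _
  have h2 : ((q ^ x - 1 : ℕ) : ZMod p) = 0 := (ZMod.natCast_eq_zero_iff _ _).2 h1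
  rw [Nat.cast_sub (Nat.one_le_pow _ _ (by omega))] at h2
  push_cast at h2
  exact sub_eq_zero.1 h2

/-- Step 0 -/
theorem basic {p q x y : ℕ} (hp : p.Prime) (hp2 : p ≠ 2) (hq : q.Prime)
    (hx : 3 ≤ x) (hy : 2 ≤ y) (h : R q x = p ^ y) :
    x.Prime ∧ orderOf (q : ZMod p) = x ∧ x ∣ p - 1 ∧ ¬ x ∣ q - 1 := by
  have : Fact p.Prime := ⟨hp⟩
  have hq1 : 1 ≤ q := hq.one_lt.le
  have hpq : ¬ p ∣ q := fun hh => by
    have := not_dvd_base hp (by omega) h hh
    omega
  have hq0 : (q : ZMod p) ≠ 0 := fun hh => hpq ((ZMod.natCast_eq_zero_iff _ _).1 hh)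
  have hpR : p ∣ R q x := by rw [h]; exact dvd_pow_self p (by omega)
  have key : ∀ d : ℕ, d ∣ x → 1 < d → p ∣ R q d := by
    intro d hd hd1
    have h1 : R q d ∣ p ^ y := h ▸ R_dvd hd
    obtain ⟨k, -, hk⟩ := (Nat.dvd_prime_pow hp).1 h1
    have h2 : 1 < R q d := one_lt_R hq1 hd1
    have hk0 : k ≠ 0 := by rintro rfl; simp at hk; omega
    rw [hk]; exact dvd_pow_self p hk0
  set e := orderOf (q : ZMod p) with he
  have key2 : ∀ d : ℕ, d ∣ x → 1 < d → e ∣ d := fun d hd hd1 =>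
    orderOf_dvd_of_pow_eq_one (pow_eq_one_of_dvd_R hq1 (key d hd hd1))
  have he1 : e ≠ 1 := by
    intro he1
    have h1 : (q : ZMod p) = 1 := orderOf_eq_one_iff.1 (he ▸ he1)
    have h2 : p ∣ x := by
      have := R_cast_of_eq_one (x := x) h1
      rw [(ZMod.natCast_eq_zero_iff _ _).2 hpR] at this
      exact (ZMod.natCast_eq_zero_iff _ _).1 this.symm
    have h3 : p ∣ q - 1 := by
      have : ((q - 1 : ℕ) : ZMod p) = 0 := by
        rw [Nat.cast_sub hq1, h1]; simp
      exact (ZMod.natCast_eq_zero_iff _ _).1 this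
    have h4 : padicValNat p (q ^ x - 1 ^ x) = padicValNat p (q - 1) + padicValNat p x :=
      padicValNat.pow_sub_pow (hp.eq_two_or_odd'.resolve_left hp2) hq.one_lt h3 hpq (by omega)
    rw [one_pow, ← sub_mul_R hq1] at h4
    have hqs : q - 1 ≠ 0 := by have := hq.one_lt; omega
    have hR0 : R q x ≠ 0 := by have := R_pos (q := q) (show 1 ≤ x by omega); omega
    rw [padicValNat.mul hqs hR0] at h4
    have h5 : padicValNat p (R q x) = padicValNat p x := by omega
    rw [h, padicValNat.prime_pow] at h5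
    have h6 : p ^ y ∣ x := by rw [h5]; exact pow_padicValNat_dvd
    have h7 := Nat.le_of_dvd (by omega) h6
    have h8 := lt_R hq.two_le (show 2 ≤ x by omega)
    omega
  have hx1 : x ≠ 1 := by omega
  set r := x.minFac with hr
  have hrp : r.Prime := Nat.minFac_prime hx1
  have hrx : r ∣ x := Nat.minFac_dvd x
  have her : e = r := by
    rcases (Nat.dvd_prime hrp).1 (key2 r hrx hrp.one_lt) with h1 | h1
    · exact absurd h1 he1
    · exact h1
  have hep : e ∣ p - 1 := ZMod.orderOf_dvd_card_sub_one hq0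
  have hxr : x = r := by
    obtain ⟨m, hm⟩ := hrx
    by_contra hne
    have hm1 : 1 < m := by
      rcases Nat.lt_or_ge 1 m with h1 | h1
      · exact h1
      · interval_cases m
        · omega
        · exact absurd (by omega) hne
    have h1 : R (q ^ r) m ∣ p ^ y := by
      rw [← h]
      conv_rhs => rw [hm]
      rw [R_mul]
      exact dvd_mul_left _ _
    obtain ⟨k, -, hk⟩ := (Nat.dvd_prime_pow hp).1 h1
    have h2 : 1 < R (q ^ r) m := one_lt_R (Nat.one_le_pow _ _ hq1) hm1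
    have hk0 : k ≠ 0 := by rintro rfl; simp at hk; omega
    have h3 : p ∣ R (q ^ r) m := by rw [hk]; exact dvd_pow_self p hk0
    have h4 : ((q ^ r : ℕ) : ZMod p) = 1 := by
      push_cast
      rw [← her, he]
      exact pow_orderOf_eq_one _
    have h5 : p ∣ m := by
      have := R_cast_of_eq_one (x := m) h4
      rw [(ZMod.natCast_eq_zero_iff _ _).2 h3] at this
      exact (ZMod.natCast_eq_zero_iff _ _).1 this.symm
    have h6 : p ∣ x := h5.trans ⟨r, by rw [hm]; ring⟩
    have h7 : e ∣ p := key2 p h6 hp.one_lt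
    have h8 : e = p := by
      rcases (Nat.dvd_prime hp).1 h7 with h9 | h9
      · exact absurd h9 he1
      · exact h9
    have h9 : p ≤ p - 1 := Nat.le_of_dvd (by have := hp.one_lt; omega) (h8 ▸ hep)
    have := hp.one_lt
    omega
  refine ⟨hxr ▸ hrp, by rw [hxr, ← her], by rw [hxr, ← her]; exact hep, ?_⟩
  intro hxq
  have h1 : (q : ZMod x) = 1 := by
    have : ((q - 1 : ℕ) : ZMod x) = 0 := (ZMod.natCast_eq_zero_iff _ _).2 hxq
    rw [Nat.cast_sub hq1, sub_eq_zero] at this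
    simpa using this
  have h2 : x ∣ R q x := by
    have := R_cast_of_eq_one (x := x) h1
    rw [ZMod.natCast_self] at this
    exact (ZMod.natCast_eq_zero_iff _ _).1 this
  have hxp : x.Prime := hxr ▸ hrp
  rw [h] at h2
  have h3 : x = p := (Nat.prime_dvd_prime_iff_eq hxp hp).1 (hxp.dvd_of_dvd_pow h2)
  have h4 : x ∣ p - 1 := by rw [hxr, ← her]; exact hep
  have h5 := Nat.le_of_dvd (by have := hp.one_lt; omega) h4
  have := hp.one_lt
  omega

end Pool.Agent.Edg
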