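import Pool.Agent.Edg.Cyc
import Pool.Agent.Edg.Nt

/-!
The element `q - z` in the `n`-th cyclotomic field, the prime `PP` above `p` with `z ≡ q`, and
the factorisation `(q - z) = PP ^ y` when `R q n = p ^ y`.
-/

namespace Pool.Agent.Edg

open NumberField Ideal Polynomial

noncomputable section

variable (n : ℕ) [hn : Fact n.Prime] (K : Type*) [Field K] [NumberField K]
  [hK : IsCyclotomicExtension {n} ℚ K]

lemma z_pow_val_add (a b : ZMod n) : z n K ^ a.val * z n K ^ b.val = z n K ^ (a + b).val := by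
  rw [← pow_add, ZMod.val_add]
  have h := pow_mod_orderOf (z n K) (a.val + b.val)
  rw [← (z_prim n K).eq_orderOf] at h
  exact h.symm

lemma z_pow_val_mul (a b : ZMod n) : (z n K ^ a.val) ^ b.val = z n K ^ (a * b).val := by
  rw [← pow_mul, ZMod.val_mul]
  have h := pow_mod_orderOf (z n K) (a.val * b.val)
  rw [← (z_prim n K).eq_orderOf] at h
  exact h.symm

/-- the product over all conjugates -/
lemma prod_conj (q : ℕ) :
    ∏ c : (ZMod n)ˣ, ((q : 𝓞 K) - z n K ^ (c : ZMod n).val) = (R q n : 𝓞 K) := by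
  have h1 := congrArg (eval (q : 𝓞 K))
    (cyclotomic_eq_prod_X_sub_primitiveRoots (z_prim n K))
  rw [eval_prod, cyclotomic_prime] at h1
  simp only [eval_geom_sum, eval_sub, eval_X, eval_C] at h1
  rw [R, Nat.cast_sum]
  push_cast
  rw [h1]
  refine Finset.prod_bij (fun c _ => z n K ^ (c : ZMod n).val) ?_ ?_ ?_ ?_
  · intro c _
    rw [mem_primitiveRoots hn.out.pos]
    exact (z_prim n K).pow_of_coprime _ (ZMod.val_coe_unit_coprime c)
  · intro a _ b _ hab
    have := (z_prim n K).pow_inj (ZMod.val_lt _) (ZMod.val_lt _) hab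
    exact Units.ext (ZMod.val_injective n this)
  · intro μ hμ
    rw [mem_primitiveRoots hn.out.pos] at hμ
    obtain ⟨i, hi, hic, rfl⟩ := (z_prim n K).isPrimitiveRoot_iff.1 hμ
    refine ⟨ZMod.unitOfCoprime i hic, Finset.mem_univ _, ?_⟩
    rw [ZMod.coe_unitOfCoprime, z_pow_val_natCast]
  · intro c _; rfl

lemma sg_sub (c : (ZMod n)ˣ) (q : ℕ) :
    sg n K c ((q : 𝓞 K) - z n K) = (q : 𝓞 K) - z n K ^ (c : ZMod n).val := by
  rw [map_sub, map_natCast, sg_z]

lemma N_sub (q : ℕ) : N ((q : 𝓞 K) - z n K) = R q n := by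
  have h1 : N (∏ c : (ZMod n)ˣ, ((q : 𝓞 K) - z n K ^ (c : ZMod n).val)) =
      ∏ c : (ZMod n)ˣ, N ((q : 𝓞 K) - z n K) := by
    have h2 : ∀ s : Finset (ZMod n)ˣ, N (∏ c ∈ s, ((q : 𝓞 K) - z n K ^ (c : ZMod n).val)) =
        ∏ c ∈ s, N ((q : 𝓞 K) - z n K) := by
      classical
      intro s
      induction s using Finset.induction_on with
      | empty => simp [N_one]
      | insert a s ha ih =>
        rw [Finset.prod_insert ha, Finset.prod_insert ha, N_mul, ih, ← sg_sub, N_sg]
    exact h2 _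
  rw [prod_conj, Finset.prod_const, Finset.card_univ, ZMod.card_units_eq_totient,
    Nat.totient_prime hn.out, N_natCast, finrank_K n K] at h1
  exact (Nat.pow_left_injective (n := n - 1) (by have := hn.out.one_lt; omega) h1).symm

/-- every integer is congruent to a rational integer modulo `q - z` -/
lemma exists_int (q : ℕ) (x : 𝓞 K) : ∃ a : ℤ, ((q : 𝓞 K) - z n K) ∣ x - (a : 𝓞 K) := by
  have hx := mem_adjoin n K x
  induction hx using Algebra.adjoin_induction with
  | mem y hy =>
    refine ⟨q, -1, ?_⟩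
    rw [Set.mem_singleton_iff.1 hy]; push_cast; ring
  | algebraMap r => exact ⟨r, by simp⟩
  | add a b _ _ ha hb =>
    obtain ⟨u, hu⟩ := ha
    obtain ⟨v, hv⟩ := hb
    refine ⟨u + v, ?_⟩
    have := dvd_add hu hv
    convert this using 1
    push_cast; ring
  | mul a b _ _ ha hb =>
    obtain ⟨u, hu⟩ := ha
    obtain ⟨v, hv⟩ := hb
    refine ⟨u * v, ?_⟩
    have := dvd_add (hu.mul_right b) (hv.mul_left (u : 𝓞 K))
    convert this using 1
    push_cast; ring

/-- the data: `p`, `q` with `q` of order `n` modulo `p` -/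
structure Dat (p q : ℕ) : Prop where
  hp : p.Prime
  hq : q.Prime
  ord : orderOf (q : ZMod p) = n

variable {n} {p q : ℕ}

lemma Dat.root [Fact p.Prime] (D : Dat n p q) : (cyclotomic n (ZMod p)).eval (q : ZMod p) = 0 := by
  have h1 : ((q : ZMod p)) ^ n = 1 := by
    have := pow_orderOf_eq_one (q : ZMod p)
    rwa [D.ord] at this
  have h2 : (q : ZMod p) ≠ 1 := by
    intro h
    have := D.ord
    rw [h, orderOf_one] at this
    exact hn.out.one_lt.ne this
  rw [cyclotomic_prime, eval_geom_sum]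
  have h3 := geom_sum_mul (q : ZMod p) n
  rw [h1, sub_self] at h3
  exact (mul_eq_zero.1 h3).resolve_right (sub_ne_zero.2 h2)

lemma Dat.aev [Fact p.Prime] (D : Dat n p q) : aeval (q : ZMod p)
    (minpoly ℤ (IsCyclotomicExtension.zeta_spec n ℚ K).integralPowerBasis.gen) = 0 := by
  rw [IsPrimitiveRoot.integralPowerBasis_gen, ← RingOfIntegers.minpoly_coe]
  have h : minpoly ℤ ((IsCyclotomicExtension.zeta_spec n ℚ K).toInteger : K) =
      cyclotomic n ℤ :=
    (cyclotomic_eq_minpoly (IsCyclotomicExtension.zeta_spec n ℚ K) hn.out.pos).symm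
  rw [h, aeval_def, ← eval_map, map_cyclotomic]
  exact D.root

/-- the residue map `z ↦ q` -/
def res [Fact p.Prime] (D : Dat n p q) : 𝓞 K →+* ZMod p :=
  ((IsCyclotomicExtension.zeta_spec n ℚ K).integralPowerBasis.lift (q : ZMod p)
    (D.aev K)).toRingHom

lemma res_z [Fact p.Prime] (D : Dat n p q) : res K D (z n K) = q := by
  have := (IsCyclotomicExtension.zeta_spec n ℚ K).integralPowerBasis.lift_gen (q : ZMod p)
    (D.aev K)
  rw [IsPrimitiveRoot.integralPowerBasis_gen] at this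
  exact this

/-- the prime above `p` -/
def PP [Fact p.Prime] (D : Dat n p q) : Ideal (𝓞 K) := RingHom.ker (res K D)

lemma mem_PP [Fact p.Prime] (D : Dat n p q) (x : 𝓞 K) : x ∈ PP K D ↔ res K D x = 0 := Iff.rfl

lemma res_surj [Fact p.Prime] (D : Dat n p q) : Function.Surjective (res K D) := fun a => by
  refine ⟨(a.val : 𝓞 K), ?_⟩
  rw [map_natCast, ZMod.natCast_zmod_val]

lemma absNorm_PP [Fact p.Prime] (D : Dat n p q) : absNorm (PP K D) = p := by
  rw [absNorm_apply, PP]
  have e := RingHom.quotientKerEquivOfSurjective (res_surj K D)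
  rw [Submodule.cardQuot_apply, Nat.card_congr e.toEquiv, Nat.card_zmod]

instance PP_max [Fact p.Prime] (D : Dat n p q) : (PP K D).IsMaximal :=
  RingHom.ker_isMaximal_of_surjective _ (res_surj K D)

lemma res_sub [Fact p.Prime] (D : Dat n p q) : res K D ((q : 𝓞 K) - z n K) = 0 := by
  rw [map_sub, map_natCast, res_z, sub_self]

lemma PP_ne_bot [Fact p.Prime] (D : Dat n p q) : PP K D ≠ ⊥ := by
  intro h
  have h1 := absNorm_PP K D
  rw [h, absNorm_bot] at h1
  exact D.hp.ne_zero h1.symm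

lemma unique_prime [Fact p.Prime] (D : Dat n p q) {y : ℕ} (hy : R q n = p ^ y)
    (Q : Ideal (𝓞 K)) [hQ : Q.IsPrime] (h : (q : 𝓞 K) - z n K ∈ Q) : Q = PP K D := by
  have hpQ : (p : 𝓞 K) ∈ Q := by
    have h1 := absNorm_mem (span {(q : 𝓞 K) - z n K})
    have h2 : absNorm (span {(q : 𝓞 K) - z n K}) = p ^ y := by
      rw [← hy, ← N_sub n K q]; rfl
    rw [h2] at h1
    have h3 : ((p ^ y : ℕ) : 𝓞 K) ∈ Q := (span_singleton_le_iff_mem Q).2 h h1
    push_cast at h3
    exact hQ.mem_of_pow_mem _ h3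
  have hle : PP K D ≤ Q := by
    intro x hx
    obtain ⟨a, ha⟩ := exists_int n K q x
    have h1 : x - (a : 𝓞 K) ∈ Q := Q.mem_of_dvd ha h
    have h2 : (a : 𝓞 K) ∈ PP K D := by
      have h3 : x - (a : 𝓞 K) ∈ PP K D := (PP K D).mem_of_dvd ha (res_sub K D)
      have := (PP K D).sub_mem hx h3
      rwa [sub_sub_cancel] at this
    rw [mem_PP, map_intCast, ZMod.intCast_zmod_eq_zero_iff_dvd] at h2
    obtain ⟨b, rfl⟩ := h2
    have h4 : ((p * b : ℤ) : 𝓞 K) ∈ Q := by
      push_cast
      exact Q.mul_mem_right _ hpQ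
    have := Q.add_mem h1 h4
    rwa [sub_add_cancel] at this
  exact ((PP_max K D).eq_of_le hQ.ne_top hle).symm

lemma sub_ne_zero' (q : ℕ) (hR : R q n ≠ 0) : (q : 𝓞 K) - z n K ≠ 0 := by
  intro h
  have := N_sub n K q
  rw [h, N, span_singleton_eq_bot.2 rfl, absNorm_bot] at this
  exact hR this.symm

/-- the factorisation of `q - z` -/
theorem span_sub [Fact p.Prime] (D : Dat n p q) {y : ℕ} (hy : R q n = p ^ y) :
    span {(q : 𝓞 K) - z n K} = PP K D ^ y := by
  classical
  have hR : R q n ≠ 0 := by rw [hy]; exact pow_ne_zero _ D.hp.ne_zero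
  have h0 : span {(q : 𝓞 K) - z n K} ≠ ⊥ := by
    rw [Ne, span_singleton_eq_bot]; exact sub_ne_zero' K q hR
  have h1 : UniqueFactorizationMonoid.normalizedFactors (span {(q : 𝓞 K) - z n K}) =
      Multiset.replicate
        (Multiset.card (UniqueFactorizationMonoid.normalizedFactors
          (span {(q : 𝓞 K) - z n K}))) (PP K D) := by
    rw [Multiset.eq_replicate]
    refine ⟨rfl, fun Q hQ => ?_⟩
    have hQp : Prime Q := UniqueFactorizationMonoid.prime_of_normalized_factor Q hQ
    have : Q.IsPrime := isPrime_of_prime hQp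
    refine unique_prime K D hy Q ?_
    have := dvd_iff_le.1 (UniqueFactorizationMonoid.dvd_of_mem_normalizedFactors hQ)
    exact (span_singleton_le_iff_mem Q).1 this
  have h2 := Ideal.prod_normalizedFactors_eq_self h0
  rw [h1, Multiset.prod_replicate] at h2
  have h3 := congrArg absNorm h2
  rw [map_pow, absNorm_PP] at h3
  have h4 : absNorm (span {(q : 𝓞 K) - z n K}) = p ^ y := by
    rw [← hy, ← N_sub n K q]; rfl
  rw [h4] at h3
  have h5 := Nat.pow_right_injective D.hp.two_le h3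
  rw [← h2, h5]

end

end Pool.Agent.Edg
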