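import Pool.Agent.Edg.Cls

/-!
Special cases: `q = n`, `l` prime to `q ^ f - 1`, and `(l, q) = (3, 7)`.
-/

namespace Pool.Agent.Edg

open NumberField Ideal Polynomial

noncomputable section

variable {n : ℕ} [hn : Fact n.Prime] (K : Type*) [Field K] [NumberField K]
  [hK : IsCyclotomicExtension {n} ℚ K] {p q : ℕ}

/-- size for `ρ α` against `± conj α` -/
lemma size1 {M : ℕ} {a b : 𝓞 K} (hab : ∀ φ : K →+* ℂ, ‖φ (a : K)‖ = ‖φ (b : K)‖)
    (hd : (M : 𝓞 K) ∣ a - b) (hne : a ≠ b) : M ^ (n - 1) ≤ 2 ^ (n - 1) * N a := by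
  have h4 := size (K := K) (q := M) (I := ⊤) hne (by
    rw [mul_top, span_singleton_le_span_singleton]; exact hd) hab
  rwa [finrank_K n K, absNorm_top, mul_one] at h4

lemma norm_rho {ρ α : 𝓞 K} (hρ : ρ ^ (2 * n) = 1) (φ : K →+* ℂ) :
    ‖φ ((ρ * α : 𝓞 K) : K)‖ = ‖φ (br n K α : K)‖ := by
  have h2n : 2 * n ≠ 0 := mul_ne_zero two_ne_zero hn.out.ne_zero
  rw [show ((ρ * α : 𝓞 K) : K) = (ρ : K) * (α : K) from map_mul (algebraMap (𝓞 K) K) _ _,
    map_mul, norm_mul, norm_root h2n hρ, one_mul, norm_emb_br]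

omit hK in
lemma N_rho {ρ α : 𝓞 K} (hρ : ρ ^ (2 * n) = 1) : N (ρ * α) = N α := by
  have h2n : 2 * n ≠ 0 := mul_ne_zero two_ne_zero hn.out.ne_zero
  have : N ρ ^ (2 * n) = 1 := by rw [← N_pow, hρ, N_one]
  rw [N_mul, (Nat.pow_eq_one.1 this).resolve_right h2n, one_mul]

lemma neg_one_ne_one (h2 : n ≠ 2) : (-1 : (ZMod n)ˣ) ≠ 1 := by
  intro h4
  have h5 : (-1 : ZMod n) = 1 := congrArg Units.val h4
  have h6 : ((2 : ℕ) : ZMod n) = 0 := by
    push_cast
    linear_combination (-1 : ZMod n) * h5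
  rw [ZMod.natCast_eq_zero_iff] at h6
  have h7 := Nat.le_of_dvd two_pos h6
  have := hn.out.two_le
  omega

lemma res_br_ne [Fact p.Prime] (D : Dat n p q) (h2 : n ≠ 2) {a ε : 𝓞 K} {l : ℕ} (hl : l ≠ 0)
    (h : (q : 𝓞 K) - z n K = ε * a ^ l) : res K D (br n K a) ≠ 0 := fun h3 =>
  neg_one_ne_one h2 (res_sg_root K D hl h (-1) h3)

/-- `l` is prime to `q ^ f - 1` where `q ^ f ≡ 1 mod n` -/
lemma caseII [Fact p.Prime] (D : Dat n p q) (h2 : n ≠ 2) (hqn : IsUnit (q : ZMod n))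
    {l f : ℕ} (hl : l ≠ 0) (hf : hqn.unit ^ f = 1) (hlf : l.Coprime (q ^ f - 1))
    {α ε ρ : 𝓞 K} (hε : IsUnit ε) (hW : (q : 𝓞 K) - z n K = ε * α ^ l)
    (hρ : ρ ^ (2 * n) = 1) (hd : (q : 𝓞 K) ∣ (ρ * α) ^ l - (br n K α) ^ l) :
    q ^ (n - 1) ≤ 2 ^ (n - 1) * N α := by
  have hfr : ∀ x : 𝓞 K, ∀ r : ℕ, (q : 𝓞 K) ∣ x ^ (1 + (q ^ f - 1) * r) - x := by
    intro x r
    have h1 : q ^ f = 1 + (q ^ f - 1) := by
      have := Nat.one_le_pow f q D.hq.pos; omega
    have h0 := frob_pow D.hq hqn f x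
    rw [hf, sg_one] at h0
    induction r with
    | zero => rw [mul_zero, add_zero, pow_one, sub_self]; exact dvd_zero _
    | succ r ih =>
      have e1 : x ^ (1 + (q ^ f - 1) * (r + 1)) = x ^ (1 + (q ^ f - 1) * r) * x ^ (q ^ f - 1) := by
        rw [← pow_add]; congr 1; ring
      have h3 := ih.mul_right (x ^ (q ^ f - 1))
      have h4 := dvd_sub h3 h0
      convert h4 using 1
      rw [e1]
      conv_rhs => rw [h1]
      rw [show 1 + (q ^ f - 1) - 1 = q ^ f - 1 by omega, pow_add, pow_one]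
      ring
  obtain ⟨s, r, hsr⟩ : ∃ s r : ℕ, l * s = 1 + (q ^ f - 1) * r := by
    rcases Nat.eq_zero_or_pos (q ^ f - 1) with h0 | h0
    · rw [h0, Nat.coprime_zero_right] at hlf
      exact ⟨1, 0, by rw [hlf]; ring⟩
    · have : NeZero (q ^ f - 1) := ⟨by omega⟩
      obtain ⟨u, hu⟩ := ((ZMod.isUnit_iff_coprime l (q ^ f - 1)).2 hlf).exists_right_inv
      have h2 : 1 ≡ l * (u.val + (q ^ f - 1)) [MOD (q ^ f - 1)] := by
        rw [← ZMod.natCast_eq_natCast_iff]
        push_cast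
        rw [ZMod.natCast_self, add_zero, ZMod.natCast_zmod_val, hu]
      have h3 : 1 ≤ l * (u.val + (q ^ f - 1)) :=
        Nat.one_le_iff_ne_zero.2 (mul_ne_zero hl (by omega))
      obtain ⟨r, hr⟩ := (Nat.modEq_iff_dvd' h3).1 h2
      exact ⟨u.val + (q ^ f - 1), r, by omega⟩
  have h1 : (q : 𝓞 K) ∣ (ρ * α) ^ (l * s) - (br n K α) ^ (l * s) := by
    rw [pow_mul, pow_mul]; exact hd.trans (sub_dvd_pow_sub_pow _ _ _)
  rw [hsr] at h1
  have h3 : (q : 𝓞 K) ∣ ρ * α - br n K α := by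
    have := dvd_add (dvd_sub h1 (hfr (ρ * α) r)) (hfr (br n K α) r)
    convert this using 1; ring
  have h5 := size1 K (n := n) (norm_rho K hρ) h3 (fun he => by
    refine res_br_ne K D h2 hl hW ?_
    rw [← he, map_mul, res_root K D hl hε hW, mul_zero])
  rwa [N_rho K hρ] at h5


/-- the case `q = n` -/
lemma caseN [Fact p.Prime] (D : Dat n p n) (h2 : n ≠ 2) (hpn : p ≠ n)
    {l t : ℕ} (hl : l ≠ 0) (hl1 : l ∣ n - 1) {α ε ρ : 𝓞 K} (hNα : N α = p ^ t)
    (hε : IsUnit ε) (hW : (n : 𝓞 K) - z n K = ε * α ^ l)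
    (hρ : ρ ^ (2 * n) = 1) (hd : (n : 𝓞 K) ∣ (ρ * α) ^ l - (br n K α) ^ l) :
    n ^ (n - 1) ≤ 2 ^ (n - 1) * N α := by
  -- reduction to rational integers
  have hpow : ∀ (x : 𝓞 K) (a : ℤ), (1 - z n K) ∣ x - (a : 𝓞 K) →
      (n : 𝓞 K) ∣ x ^ n - (a : 𝓞 K) ^ n := by
    intro x a ⟨w, hw⟩
    have : CharP (𝓞 K ⧸ span {(n : 𝓞 K)}) n := by
      refine CharP.quotient (𝓞 K) n ?_
      intro hu
      have h1 : N (n : 𝓞 K) = 1 := by
        rw [N, absNorm_eq_one_iff, span_singleton_eq_top]; exact hu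
      rw [N_natCast, finrank_K n K] at h1
      have h2 : n - 1 ≠ 0 := by have := hn.out.one_lt; omega
      exact hn.out.one_lt.ne' ((Nat.pow_eq_one.1 h1).resolve_right h2)
    rw [← mem_span_singleton, ← Ideal.Quotient.eq]
    have h1 : x = (a : 𝓞 K) + (1 - z n K) * w := by rw [← hw]; ring
    have h3 := congrArg (Ideal.Quotient.mk (span {(n : 𝓞 K)})) h1
    have h4 : (Ideal.Quotient.mk (span {(n : 𝓞 K)}) x) ^ n =
        (Ideal.Quotient.mk (span {(n : 𝓞 K)}) (a : 𝓞 K)) ^ n := by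
      have hz : (Ideal.Quotient.mk (span {(n : 𝓞 K)}) (z n K)) ^ n = 1 := by
        rw [← map_pow, z_pow, map_one]
      rw [h3, map_add, add_pow_char, map_mul, mul_pow, map_sub, sub_pow_char, hz, map_one,
        one_pow, sub_self, zero_mul, add_zero]
    rw [map_pow, map_pow]; exact h4
  have hNz : N (1 - z n K) = n := by
    have h := N_sub n K 1
    rw [Nat.cast_one] at h
    rw [h]; simp [R]
  have hint : ∀ m : ℤ, (1 - z n K) ∣ (m : 𝓞 K) → (n : ℤ) ∣ m := by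
    intro m hm
    have h1 : N (1 - z n K) ∣ N (m : 𝓞 K) := by
      obtain ⟨c, hc⟩ := hm
      rw [hc, N_mul]; exact dvd_mul_right _ _
    have h3 : N (m : 𝓞 K) = m.natAbs ^ (n - 1) := by
      have h4 : N (m : 𝓞 K) = N ((m.natAbs : ℕ) : 𝓞 K) := by
        rw [N, N]
        rcases Int.natAbs_eq m with h5 | h5
        · conv_lhs => rw [h5]
          rw [Int.cast_natCast]
        · conv_lhs => rw [h5]
          rw [Int.cast_neg, Int.cast_natCast, span_singleton_neg]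
      rw [h4, N_natCast, finrank_K n K]
    rw [hNz, h3] at h1
    exact Int.natCast_dvd.2 (hn.out.dvd_of_dvd_pow h1)
  set a : 𝓞 K := ρ * α with ha
  set b : 𝓞 K := br n K α with hb
  obtain ⟨A, hA⟩ := exists_int n K 1 a
  obtain ⟨B, hB⟩ := exists_int n K 1 b
  rw [Nat.cast_one] at hA hB
  have hz1 : ∀ i : ℕ, (1 - z n K) ∣ z n K ^ i - 1 := by
    intro i
    have h := sub_dvd_pow_sub_pow (z n K) 1 i
    rw [one_pow] at h
    have h' := neg_dvd.2 h
    rwa [neg_sub] at h'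
  have hρ2 : (1 - z n K) ∣ ρ ^ 2 - 1 := by
    have h1 : (ρ ^ 2) ^ n = 1 := by rw [← pow_mul, hρ]
    obtain ⟨i, -, hi⟩ := (z_prim n K).eq_pow_of_pow_eq_one h1
    rw [← hi]; exact hz1 i
  have hbr : (1 - z n K) ∣ b - α := by
    have key : (Ideal.Quotient.mk (span {1 - z n K})).comp (br n K) =
        Ideal.Quotient.mk (span {1 - z n K}) := by
      refine hom_ext n K ?_
      rw [RingHom.comp_apply, br, sg_z, Ideal.Quotient.eq, mem_span_singleton]
      have h := dvd_sub (hz1 ((-1 : (ZMod n)ˣ) : ZMod n).val) (hz1 1)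
      rw [pow_one] at h
      convert h using 1; ring
    have h1 := congrArg (fun f => f α) key
    simp only [RingHom.comp_apply] at h1
    rwa [Ideal.Quotient.eq, mem_span_singleton] at h1
  have hAB : (n : ℤ) ∣ A ^ 2 - B ^ 2 := by
    apply hint
    have e1 : ((A ^ 2 - B ^ 2 : ℤ) : 𝓞 K) = -((a - A) * (a + A)) + (b - B) * (b + B) +
        ((ρ ^ 2 - 1) * α ^ 2 - (b - α) * (b + α)) := by
      rw [ha]; push_cast; ring
    rw [e1]
    exact dvd_add (dvd_add ((hA.mul_right _).neg_right) (hB.mul_right _))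
      (dvd_sub (hρ2.mul_right _) (hbr.mul_right _))
  have hfer : ∀ m : ℤ, (n : 𝓞 K) ∣ (m : 𝓞 K) ^ n - m := by
    intro m
    have h1 : (n : ℤ) ∣ m ^ n - m := by
      rw [← ZMod.intCast_zmod_eq_zero_iff_dvd]
      push_cast
      rw [ZMod.pow_card, sub_self]
    have h3 := map_dvd (Int.castRingHom (𝓞 K)) h1
    simpa using h3
  have h3 : (n : 𝓞 K) ∣ a ^ n * b - b ^ n * a := by
    obtain ⟨m, hm⟩ := hl1
    have h1 : (n : 𝓞 K) ∣ a ^ (n - 1) - b ^ (n - 1) := by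
      rw [hm, pow_mul, pow_mul]
      exact hd.trans (sub_dvd_pow_sub_pow _ _ _)
    have h5 := h1.mul_right (a * b)
    convert h5 using 1
    have e : ∀ x : 𝓞 K, x ^ n = x ^ (n - 1) * x := fun x => by
      rw [← pow_succ, Nat.sub_add_cancel hn.out.one_lt.le]
    rw [e, e]; ring
  have h4 : (n : 𝓞 K) ∣ (A : 𝓞 K) * b - B * a := by
    have h5 := dvd_sub h3 ((hpow a A hA).mul_right b)
    have h6 := dvd_add h5 ((hpow b B hB).mul_right a)
    have h7 := dvd_sub h6 ((hfer A).mul_right b)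
    have h8 := dvd_add h7 ((hfer B).mul_right a)
    convert h8 using 1; ring
  have hNb : N b = p ^ t := by rw [hb, N_br, hNα]
  have hBn : ¬ (n : ℤ) ∣ B := by
    intro h5
    have h6 : (1 - z n K) ∣ b := by
      obtain ⟨c, rfl⟩ := h5
      have h7 : (1 - z n K) ∣ (n : 𝓞 K) := by
        have h8 := prod_conj n K 1
        rw [show R 1 n = n by simp [R]] at h8
        rw [← h8, Nat.cast_one]
        refine (dvd_of_eq ?_).trans (Finset.dvd_prod_of_mem _ (Finset.mem_univ (1 : (ZMod n)ˣ)))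
        rw [Units.val_one, z_pow_one_val]
      have h9 := dvd_add hB (h7.mul_right (c : 𝓞 K))
      convert h9 using 1
      push_cast; ring
    have h7 : N (1 - z n K) ∣ N b := by
      obtain ⟨c, hc⟩ := h6
      rw [hc, N_mul]; exact dvd_mul_right _ _
    rw [hNz, hNb] at h7
    exact hpn ((Nat.prime_dvd_prime_iff_eq hn.out D.hp).1 (hn.out.dvd_of_dvd_pow h7)).symm
  obtain ⟨B', hB'⟩ : ∃ B' : ℤ, (n : ℤ) ∣ B * B' - 1 := by
    have h5 : IsUnit (B : ZMod n) := by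
      rw [isUnit_iff_ne_zero, Ne, ZMod.intCast_zmod_eq_zero_iff_dvd]; exact hBn
    obtain ⟨u, hu⟩ := h5.exists_right_inv
    refine ⟨(u.val : ℤ), ?_⟩
    rw [← ZMod.intCast_zmod_eq_zero_iff_dvd]
    push_cast
    rw [ZMod.natCast_zmod_val, hu, sub_self]
  have hB'O : (n : 𝓞 K) ∣ (B : 𝓞 K) * B' - 1 := by
    have h5 := map_dvd (Int.castRingHom (𝓞 K)) hB'
    simpa using h5
  have hnorm := norm_rho K (α := α) hρ
  have hra : res K D a = 0 := by rw [ha, map_mul, res_root K D hl hε hW, mul_zero]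
  have hrb : res K D b ≠ 0 := res_br_ne K D h2 hl hW
  have hfac : (n : ℤ) ∣ (A - B) * (A + B) := by
    have : A ^ 2 - B ^ 2 = (A - B) * (A + B) := by ring
    rwa [← this]
  rcases (Nat.prime_iff_prime_int.1 hn.out).dvd_or_dvd hfac with h5 | h5
  · have h6 := map_dvd (Int.castRingHom (𝓞 K)) h5
    simp only [map_natCast, map_sub, eq_intCast] at h6
    have h7 : (n : 𝓞 K) ∣ a - b := by
      have h8 := (dvd_sub (h6.mul_right b) h4).mul_left (B' : 𝓞 K)
      have h9 := dvd_sub h8 (hB'O.mul_right (a - b))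
      convert h9 using 1; ring
    have h8 := size1 K (n := n) hnorm h7 (fun he =>
      hrb ((congrArg (res K D) he).symm.trans hra))
    rwa [N_rho K hρ] at h8
  · have h6 := map_dvd (Int.castRingHom (𝓞 K)) h5
    simp only [map_natCast, map_add, eq_intCast] at h6
    have h7 : (n : 𝓞 K) ∣ a - -b := by
      have h8 := (dvd_sub (h6.mul_right b) h4).mul_left (B' : 𝓞 K)
      have h9 := dvd_sub h8 (hB'O.mul_right (a + b))
      convert h9 using 1; ring
    have h8 := size1 K (n := n) (b := -b) (fun φ => by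
      rw [hnorm φ, show ((-b : 𝓞 K) : K) = -(b : K) from map_neg (algebraMap (𝓞 K) K) _,
        map_neg, norm_neg]) h7 (fun he => hrb (by
          have h10 := congrArg (res K D) he
          rw [hra, map_neg] at h10
          exact neg_eq_zero.1 h10.symm))
    rwa [N_rho K hρ] at h8

end

end Pool.Agent.Edg
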