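import Pool.Agent.Edg.Spec

/-!
The special case `(l, q) = (3, 7)`: the modulus `8 = q + 1` and Frobenius at `2`.
-/

namespace Pool.Agent.Edg

open NumberField Ideal Polynomial

noncomputable section

variable {n : ℕ} [hn : Fact n.Prime] (K : Type*) [Field K] [NumberField K]
  [hK : IsCyclotomicExtension {n} ℚ K] {p : ℕ}

lemma exists_N_mul (x : 𝓞 K) : ∃ x' : 𝓞 K, (N x : 𝓞 K) = x * x' := by
  have := absNorm_mem (span {x})
  rw [mem_span_singleton] at this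
  obtain ⟨c, hc⟩ := this
  exact ⟨c, hc⟩

lemma case73 [Fact p.Prime] (D : Dat n p 7) (hp2 : p ≠ 2) (h5 : 5 ≤ n) {t : ℕ}
    {α ε ρ : 𝓞 K} (hNα : N α = p ^ t)
    (hε : IsUnit ε) (hW : ((7 : ℕ) : 𝓞 K) - z n K = ε * α ^ 3)
    (hρ : ρ ^ (2 * n) = 1) (hd : (8 : 𝓞 K) ∣ (ρ * α) ^ 3 - (br n K α) ^ 3) :
    8 ^ (n - 1) ≤ 2 ^ (n - 1) * N α ^ 2 := by
  have h2n : 2 * n ≠ 0 := mul_ne_zero two_ne_zero hn.out.ne_zero
  have h2 : n ≠ 2 := by omega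
  have hu2 : IsUnit ((2 : ℕ) : ZMod n) := by
    rw [ZMod.isUnit_iff_coprime]
    exact (Nat.coprime_primes Nat.prime_two hn.out).2 (Ne.symm h2)
  set a : 𝓞 K := ρ * α with ha
  set b : 𝓞 K := br n K α with hb
  set τ := sg n K hu2.unit with hτ
  have hf : ∀ x : 𝓞 K, (2 : 𝓞 K) ∣ τ x - x ^ 2 := fun x => by
    have := frob n K Nat.prime_two hu2 x
    simpa using this
  set X : 𝓞 K := τ a * a with hX
  set Y : 𝓞 K := τ b * b with hY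
  have h28 : (2 : 𝓞 K) ∣ 8 := ⟨4, by norm_num⟩
  -- X ≡ Y mod 2
  obtain ⟨v1, hv1⟩ : (2 : 𝓞 K) ∣ X - Y := by
    have h1 := (hf a).mul_right a
    have h3 := (hf b).mul_right b
    have h4 := dvd_add (dvd_sub h1 h3) (h28.trans hd)
    convert h4 using 1
    rw [hX, hY]; ring
  -- X^3 ≡ Y^3 mod 8
  have hc : (8 : 𝓞 K) ∣ X ^ 3 - Y ^ 3 := by
    have h1 : (8 : 𝓞 K) ∣ τ (a ^ 3) - τ (b ^ 3) := by
      have := map_dvd τ hd
      rwa [map_sub, map_ofNat] at this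
    have h3 := dvd_add (hd.mul_right (τ (a ^ 3))) (h1.mul_right (b ^ 3))
    convert h3 using 1
    rw [hX, hY, map_pow, map_pow]; ring
  -- Y is prime to 2
  obtain ⟨Y', hY'⟩ := exists_N_mul K Y
  have hNY : N Y = (p ^ t) ^ 2 := by
    rw [hY, N_mul, hτ, N_sg, hb, N_br, hNα, sq]
  have hodd : Odd ((p ^ t) ^ 2) := ((D.hp.eq_two_or_odd'.resolve_left hp2).pow).pow
  obtain ⟨j, hj⟩ := hodd
  have hYY : Y * Y' = 1 + 2 * (j : 𝓞 K) := by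
    rw [← hY', hNY, hj]; push_cast; ring
  have hdiv : (8 : 𝓞 K) ∣ X - Y := by
    -- U = X^2 + X Y + Y^2, U Y'^2 = 1 + 2 s
    obtain ⟨s, hs⟩ : ∃ s : 𝓞 K, (X ^ 2 + X * Y + Y ^ 2) * Y' ^ 2 = 1 + 2 * s := by
      refine ⟨(2 * v1 ^ 2 + 3 * v1 * Y + Y ^ 2) * Y' ^ 2 + 2 * j ^ 2 + 2 * j, ?_⟩
      have hXv : X = Y + 2 * v1 := by linear_combination hv1
      rw [hXv]
      linear_combination (Y * Y' + 1 + 2 * (j : 𝓞 K)) * hYY
    have h1 := hc.mul_right (Y' ^ 2 * (1 + 2 * s) ^ 3)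
    have h3 : (8 : 𝓞 K) ∣ (X - Y) * (1 + 2 * s) ^ 4 := by
      convert h1 using 1
      linear_combination (-(X - Y) * (1 + 2 * s) ^ 3) * hs
    have h4 : (8 : 𝓞 K) ∣ (X - Y) * (8 * (s + 3 * s ^ 2 + 4 * s ^ 3 + 2 * s ^ 4)) :=
      (dvd_mul_right _ _).mul_left _
    have h6 := dvd_sub h3 h4
    convert h6 using 1
    ring
  have hnorm := norm_rho K (α := α) hρ
  have hra : res K D a = 0 := by rw [ha, map_mul, res_root K D three_ne_zero hε hW, mul_zero]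
  have hne : X ≠ Y := by
    intro he
    have h3 := congrArg (res K D) he
    rw [hX, hY, map_mul, hra, mul_zero, map_mul] at h3
    rcases mul_eq_zero.1 h3.symm with h4 | h4
    · rw [hτ, hb, br, ← sg_mul] at h4
      have h6 := res_sg_root K D three_ne_zero hW _ h4
      have h7 : ((2 : ℕ) : ZMod n) * (-1) = 1 := congrArg Units.val h6
      have h8 : ((3 : ℕ) : ZMod n) = 0 := by
        push_cast at h7 ⊢
        linear_combination (-1 : ZMod n) * h7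
      rw [ZMod.natCast_eq_zero_iff] at h8
      have := Nat.le_of_dvd three_pos h8
      omega
    · exact res_br_ne K D h2 three_ne_zero hW h4
  have h6 := size1 K (n := n) (M := 8) (a := X) (b := Y) (fun φ => by
    have e1 : ∀ x y : 𝓞 K, φ ((x * y : 𝓞 K) : K) = φ (x : K) * φ (y : K) := fun x y => by
      rw [show ((x * y : 𝓞 K) : K) = (x : K) * (y : K) from map_mul (algebraMap (𝓞 K) K) _ _,
        map_mul]
    have f1 : ‖φ (a : K)‖ = ‖φ (b : K)‖ := hnorm φ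
    have f2 : ‖φ (τ a : K)‖ = ‖φ (τ b : K)‖ := norm_emb_sg_eq hnorm φ
    have f3 : ‖φ (X : K)‖ = ‖φ (τ a : K)‖ * ‖φ (a : K)‖ := by
      rw [← norm_mul, ← e1]
    have f4 : ‖φ (Y : K)‖ = ‖φ (τ b : K)‖ * ‖φ (b : K)‖ := by
      rw [← norm_mul, ← e1]
    rw [f3, f4, f1, f2])
    (by simpa using hdiv) hne
  rw [hX, N_mul, hτ, N_sg, ha, N_rho K hρ] at h6
  rw [sq]; exact h6

lemma size_contra73 {n P : ℕ} (hn : 5 ≤ n) (hP : P ^ 3 = R 7 n)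
    (h : 8 ^ (n - 1) ≤ 2 ^ (n - 1) * P ^ 2) : False := by
  obtain ⟨m, rfl⟩ : ∃ m, n = m + 5 := ⟨n - 5, by omega⟩
  rw [show m + 5 - 1 = m + 4 by omega] at h
  have h1 : (8 ^ (m + 4)) ^ 3 ≤ (2 ^ (m + 4)) ^ 3 * (R 7 (m + 5)) ^ 2 := by
    have e0 : (2 ^ (m + 4)) ^ 3 * (P ^ 3) ^ 2 = (2 ^ (m + 4) * P ^ 2) ^ 3 := by ring
    rw [← hP, e0]
    exact Nat.pow_le_pow_left h _
  have h2 : 6 * R 7 (m + 5) < 7 ^ (m + 5) := by
    have := sub_mul_R (q := 7) (by norm_num) (m + 5)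
    have h3 := Nat.one_le_pow (m + 5) 7 (by norm_num)
    omega
  have h3 : (8 ^ (m + 4)) ^ 3 * 36 < (2 ^ (m + 4)) ^ 3 * (7 ^ (m + 5)) ^ 2 := by
    calc (8 ^ (m + 4)) ^ 3 * 36 ≤ ((2 ^ (m + 4)) ^ 3 * (R 7 (m + 5)) ^ 2) * 36 :=
          Nat.mul_le_mul_right _ h1
      _ = (2 ^ (m + 4)) ^ 3 * (6 * R 7 (m + 5)) ^ 2 := by ring
      _ < (2 ^ (m + 4)) ^ 3 * (7 ^ (m + 5)) ^ 2 :=
          Nat.mul_lt_mul_of_pos_left (Nat.pow_lt_pow_left h2 two_ne_zero) (by positivity)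
  have e1 : (8 ^ (m + 4)) ^ 3 = (2 ^ (m + 4)) ^ 3 * 64 ^ (m + 4) := by
    rw [← pow_mul, ← pow_mul, mul_comm (m + 4) 3, pow_mul, pow_mul, ← mul_pow]
    norm_num
  rw [e1, mul_assoc] at h3
  have h4 : 64 ^ (m + 4) * 36 < (7 ^ (m + 5)) ^ 2 := Nat.lt_of_mul_lt_mul_left h3
  have e2 : (7 ^ (m + 5)) ^ 2 = 49 ^ m * 49 ^ 5 := by
    rw [← pow_mul, mul_comm, pow_mul, ← pow_add]; norm_num
  have e3 : 64 ^ (m + 4) = 64 ^ m * 64 ^ 4 := by rw [pow_add]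
  rw [e2, e3] at h4
  have h5 : 49 ^ m ≤ 64 ^ m := Nat.pow_le_pow_left (by norm_num) _
  have h6 : 49 ^ m * 49 ^ 5 ≤ 64 ^ m * 64 ^ 4 * 36 := by
    rw [mul_assoc]
    exact Nat.mul_le_mul h5 (by norm_num)
  omega

end

end Pool.Agent.Edg
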