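import Pool.Agent.Edg.Jc
import Pool.Agent.Edg.Cnt
import Pool.Agent.Edg.Spec

/-!
The size theorem.
-/

namespace Pool.Agent.Edg

open NumberField Ideal Polynomial

noncomputable section

variable {n : ℕ} [hn : Fact n.Prime] {K : Type*} [Field K] [NumberField K]
  [hK : IsCyclotomicExtension {n} ℚ K] {p q : ℕ}

lemma mem_AA1 {c : (ZMod n)ˣ} : c ∈ AA n 1 ↔ 2 * (c : ZMod n).val < n := by
  rw [mem_AA, Nat.cast_one, one_mul, two_mul]

lemma AA1_not_inv (h5 : 5 ≤ n) {u : (ZMod n)ˣ} (hu : u ≠ 1) :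
    ∃ c ∈ AA n 1, c * u ∉ AA n 1 := by
  set v := (u : ZMod n).val with hv
  have hv0 : v ≠ 0 := (ZMod.val_ne_zero _).2 u.ne_zero
  have hv1 : v ≠ 1 := by
    intro h
    apply hu
    apply Units.ext
    apply ZMod.val_injective n
    rw [← hv, h, Units.val_one, ZMod.val_one'' (by omega)]
  have hvn : v < n := ZMod.val_lt _
  by_cases h2 : 2 * v < n
  · set k := n / (2 * v) with hk
    have hk1 : 2 * v * k ≤ n := Nat.mul_div_le _ _
    have hk2 : n < 2 * v * (k + 1) := Nat.lt_mul_div_succ n (by omega)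
    have hv2 : 2 ≤ v := by omega
    have h4k : 4 * k ≤ n :=
      (Nat.mul_le_mul_right k (Nat.mul_le_mul_left 2 hv2)).trans hk1
    have hm : k + 1 < n := by omega
    have hmn : (k + 1).Coprime n := by
      rw [Nat.coprime_comm]
      exact (Nat.Prime.coprime_iff_not_dvd hn.out).2 fun h => by
        have := Nat.le_of_dvd (by omega) h; omega
    refine ⟨ZMod.unitOfCoprime (k + 1) hmn, ?_, ?_⟩
    · rw [mem_AA1, ZMod.coe_unitOfCoprime, ZMod.val_natCast, Nat.mod_eq_of_lt hm]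
      omega
    · rw [mem_AA1, Units.val_mul, ZMod.coe_unitOfCoprime, ZMod.val_mul, ZMod.val_natCast,
        Nat.mod_eq_of_lt hm, ← hv, Nat.mod_eq_of_lt (by nlinarith)]
      nlinarith
  · refine ⟨1, ?_, ?_⟩
    · rw [mem_AA1, Units.val_one, ZMod.val_one'' (by omega)]; omega
    · rw [one_mul, mem_AA1]; exact h2

/-- the normalised power of `J_i` lies in the conjugate primes -/
lemma J1_mem [Fact p.Prime] {D : Dat n p q} {χ : MulChar (ZMod p) (𝓞 K)}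
    (C : Chr K D χ) {i t : ℕ} (hi : ¬ n ∣ i) (ρ : 𝓞 K) {c : (ZMod n)ˣ}
    (hc : c ∈ AA n i) : ρ * JJ K χ i ^ t ∈ PPc K D c ^ t :=
  Ideal.mul_mem_left _ _ (Ideal.pow_mem_pow (JJ_mem C hi hc) t)

lemma sg_mem_pow [Fact p.Prime] (D : Dat n p q) {x : 𝓞 K} {t : ℕ} (c h : (ZMod n)ˣ)
    (hx : x ∈ PPc K D (c * h) ^ t) : sg n K h x ∈ PPc K D c ^ t := by
  have h1 : PPc K D (c * h) = comap (sg n K h) (PPc K D c) := by
    ext y; rw [mem_PPc, mem_comap, mem_PPc, sg_mul]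
  rw [h1] at hx
  have h2 : sg n K h x ∈ map (sg n K h) (comap (sg n K h) (PPc K D c) ^ t) :=
    mem_map_of_mem _ hx
  rw [Ideal.map_pow] at h2
  exact Ideal.pow_right_mono map_comap_le t h2

lemma J1_mem_iff [Fact p.Prime] {D : Dat n p q} {χ : MulChar (ZMod p) (𝓞 K)}
    (C : Chr K D χ) {i t : ℕ} (hi : ¬ n ∣ i) (hi1 : ¬ n ∣ i + 1) (ht : t ≠ 0) {ρ : 𝓞 K}
    (hρ : ρ ^ (2 * n) = 1) (c : (ZMod n)ˣ) :
    ρ * JJ K χ i ^ t ∈ PPc K D c ↔ c ∈ AA n i := by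
  have h2n : 2 * n ≠ 0 := mul_ne_zero two_ne_zero hn.out.ne_zero
  constructor
  · intro h
    have hpr : (PPc K D c).IsPrime := (PPc_max K D c).isPrime
    rcases hpr.mem_or_mem h with h1 | h1
    · exact absurd ((PPc K D c).eq_top_of_isUnit_mem h1 (isUnit_of_root K h2n hρ)) hpr.ne_top
    · exact (JJ_mem_iff C hi hi1 c).1 (hpr.mem_of_pow_mem _ h1)
  · intro h
    exact Ideal.pow_le_self ht (J1_mem C hi ρ h)

lemma norm_J1 [Fact p.Prime] {D : Dat n p q} {χ : MulChar (ZMod p) (𝓞 K)}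
    (C : Chr K D χ) {i t : ℕ} (hi : ¬ n ∣ i) (hi1 : ¬ n ∣ i + 1) {ρ : 𝓞 K}
    (hρ : ρ ^ (2 * n) = 1) (φ : K →+* ℂ) :
    ‖φ ((ρ * JJ K χ i ^ t : 𝓞 K) : K)‖ = Real.sqrt p ^ t := by
  have h2n : 2 * n ≠ 0 := mul_ne_zero two_ne_zero hn.out.ne_zero
  have e2 := norm_sq_of_mul_br (JJ_mul_br C hi hi1) φ
  rw [emb_mul, norm_mul, norm_root h2n hρ, one_mul,
    show ((JJ K χ i ^ t : 𝓞 K) : K) = (JJ K χ i : K) ^ t from
      map_pow (algebraMap (𝓞 K) K) _ _, map_pow, norm_pow]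
  congr 1
  rw [← e2, Real.sqrt_sq (norm_nonneg _)]

lemma N_J1 [Fact p.Prime] {D : Dat n p q} {χ : MulChar (ZMod p) (𝓞 K)}
    (C : Chr K D χ) {i t : ℕ} (hi : ¬ n ∣ i) (hi1 : ¬ n ∣ i + 1) {ρ : 𝓞 K}
    (hρ : ρ ^ (2 * n) = 1) : N (ρ * JJ K χ i ^ t) = (p ^ t) ^ (AA n i).card := by
  have h2n : 2 * n ≠ 0 := mul_ne_zero two_ne_zero hn.out.ne_zero
  have : N ρ ^ (2 * n) = 1 := by rw [← N_pow, hρ, N_one]
  rw [N_mul, (Nat.pow_eq_one.1 this).resolve_right h2n, one_mul, N_pow, N_JJ C hi hi1,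
    ← pow_mul, ← pow_mul, mul_comm]

lemma num_odd {q P m f M a : ℕ} (hP : 1 ≤ P) (hf : 1 ≤ f) (hm : m ≠ 0) (ha : 2 * a = m)
    (hM : m * (f - 1) ≤ 4 * f * M) (hsz : q ^ m * P ^ M ≤ 2 ^ m * P ^ a) :
    q ^ (4 * f) ≤ 2 ^ (4 * f) * P ^ (f + 1) := by
  have h9 : (q ^ (4 * f) * P ^ (f - 1)) ^ m ≤ (2 ^ (4 * f) * P ^ (2 * f)) ^ m := by
    calc (q ^ (4 * f) * P ^ (f - 1)) ^ m
        = (q ^ m) ^ (4 * f) * P ^ (m * (f - 1)) := by
          rw [mul_pow, ← pow_mul, ← pow_mul, ← pow_mul, mul_comm (4 * f), mul_comm (f - 1)]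
      _ ≤ (q ^ m) ^ (4 * f) * P ^ (4 * f * M) :=
          Nat.mul_le_mul_left _ (Nat.pow_le_pow_right hP hM)
      _ = (q ^ m * P ^ M) ^ (4 * f) := by
          rw [mul_pow, ← pow_mul P, mul_comm (4 * f)]
      _ ≤ (2 ^ m * P ^ a) ^ (4 * f) := Nat.pow_le_pow_left hsz _
      _ = (2 ^ (4 * f) * P ^ (2 * f)) ^ m := by
          rw [mul_pow, mul_pow, ← pow_mul, ← pow_mul, ← pow_mul, ← pow_mul, mul_comm m]
          congr 2
          rw [← ha]; ring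
  have h10 : q ^ (4 * f) * P ^ (f - 1) ≤ 2 ^ (4 * f) * P ^ (2 * f) :=
    (Nat.pow_le_pow_iff_left hm).1 h9
  have h11 : 2 * f = (f + 1) + (f - 1) := by omega
  rw [h11, pow_add, ← mul_assoc] at h10
  exact Nat.le_of_mul_le_mul_right h10 (Nat.pow_pos hP)

/-- part (a) -/
theorem size_odd [Fact p.Prime] {D : Dat n p q} {χ : MulChar (ZMod p) (𝓞 K)}
    (C : Chr K D χ) (h5 : 5 ≤ n) (hpq : p ≠ q) (hqn : IsUnit (q : ZMod n)) {t d : ℕ}
    (ht : t ≠ 0) (hdn : d.Coprime (2 * n)) (hdq : d ∣ q - 1) (hy : R q n = p ^ (t * d))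
    (hodd : Odd (orderOf hqn.unit)) (hne : orderOf hqn.unit ≠ 1) :
    q ^ (4 * orderOf hqn.unit) ≤
      2 ^ (4 * orderOf hqn.unit) * (p ^ t) ^ (orderOf hqn.unit + 1) := by
  classical
  have hi : ¬ n ∣ 1 := fun h => hn.out.one_lt.ne' (Nat.dvd_one.1 h)
  have hi1 : ¬ n ∣ 1 + 1 := fun h => by
    have := Nat.le_of_dvd (by norm_num) h; omega
  have h2 : n ≠ 2 := by omega
  set f := orderOf hqn.unit with hf
  have hcardG : Fintype.card (ZMod n)ˣ = n - 1 := by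
    rw [ZMod.card_units_eq_totient, Nat.totient_prime hn.out]
  have hA : 2 * (AA n 1).card = Fintype.card (ZMod n)ˣ := by rw [hcardG, card_AA hi hi1]
  have hcardH : Fintype.card (Subgroup.zpowers hqn.unit) = f := by
    rw [Fintype.card_zpowers]
  obtain ⟨h, hH, hh1, hM⟩ := exists_large (AA n 1) hA (Subgroup.zpowers hqn.unit)
    (by rw [hcardH]; exact hodd) (by rw [hcardH]; exact hne)
  rw [hcardG, hcardH] at hM
  obtain ⟨k, hk⟩ := (mem_powers_iff_mem_zpowers).2 hH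
  simp only at hk
  obtain ⟨ρ, hρ, hd⟩ := jnorm C h2 hi hi1 hdn hy
  set J1 : 𝓞 K := ρ * JJ K χ 1 ^ t with hJ1
  have hcong : (q : 𝓞 K) ∣ sg n K h J1 - J1 := by
    rw [← hk]; exact frob_inv D.hq hqn hdq k hd
  have hne' : sg n K h J1 ≠ J1 := by
    intro he
    obtain ⟨c, hc, hc'⟩ := AA1_not_inv h5 hh1
    apply hc'
    have h6 : J1 ∈ PPc K D c := (J1_mem_iff C hi hi1 ht hρ c).2 hc
    rw [← he] at h6
    rw [← J1_mem_iff C hi hi1 ht hρ (c * h), mem_PPc, sg_mul]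
    exact h6
  have hX : ∀ c ∈ (AA n 1).filter (fun c => c * h ∈ AA n 1), sg n K h J1 ∈ PPc K D c ^ t := by
    intro c hc
    exact sg_mem_pow D c h (J1_mem C hi ρ (Finset.mem_filter.1 hc).2)
  have hY : ∀ c ∈ (AA n 1).filter (fun c => c * h ∈ AA n 1), J1 ∈ PPc K D c ^ t := by
    intro c hc
    exact J1_mem C hi ρ (Finset.mem_filter.1 hc).1
  have hsz := size_common D hpq _ hX hY hcong hne' (fun φ => by
    have h7 := norm_J1 (t := t) C hi hi1 hρ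
      (φ.comp (((IsCyclotomicExtension.Rat.galEquivZMod n K).symm h : K ≃ₐ[ℚ] K) : K →+* K))
    have h8 := norm_J1 (t := t) C hi hi1 hρ φ
    rw [h8, ← h7]; rfl)
  rw [N_sg, N_J1 C hi hi1 hρ] at hsz
  change q ^ (n - 1) * (p ^ t) ^ MM (AA n 1) h ≤ 2 ^ (n - 1) * (p ^ t) ^ (AA n 1).card at hsz
  exact num_odd (Nat.one_le_pow _ _ D.hp.pos) hodd.pos (by omega) (card_AA hi hi1) hM hsz

end

end Pool.Agent.Edg
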