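import Pool.Agent.Edg.Sz

/-!
The size theorem when `-1` is a power of `q` modulo `n`, or `q = n`.
-/

namespace Pool.Agent.Edg

open NumberField Ideal Polynomial

noncomputable section

variable {n : ℕ} [hn : Fact n.Prime] {K : Type*} [Field K] [NumberField K]
  [hK : IsCyclotomicExtension {n} ℚ K] {p q : ℕ}

lemma J1_mul_br [Fact p.Prime] {D : Dat n p q} {χ : MulChar (ZMod p) (𝓞 K)}
    (C : Chr K D χ) {i t : ℕ} (hi : ¬ n ∣ i) (hi1 : ¬ n ∣ i + 1) {ρ : 𝓞 K}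
    (hρ : ρ ^ (2 * n) = 1) :
    (ρ * JJ K χ i ^ t) * br n K (ρ * JJ K χ i ^ t) = ((p ^ t : ℕ) : 𝓞 K) := by
  have h2n : 2 * n ≠ 0 := mul_ne_zero two_ne_zero hn.out.ne_zero
  have hbρ : ρ * br n K ρ = 1 := by
    apply RingOfIntegers.coe_injective
    rw [map_mul, map_one]
    obtain ⟨φ⟩ : Nonempty (K →+* ℂ) := inferInstance
    apply φ.injective
    rw [map_mul, map_one]
    change φ (ρ : K) * φ (br n K ρ : K) = 1
    rw [emb_br, Complex.mul_conj, Complex.normSq_eq_norm_sq, norm_root h2n hρ]; simp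
  rw [map_mul, map_pow]
  have e : ρ * JJ K χ i ^ t * (br n K ρ * br n K (JJ K χ i) ^ t) =
      (ρ * br n K ρ) * (JJ K χ i * br n K (JJ K χ i)) ^ t := by
    rw [mul_pow]; ring
  rw [e, hbρ, JJ_mul_br C hi hi1, one_mul]; push_cast; rfl

/-- `f` even: the common value modulo `q` -/
lemma common_even [Fact p.Prime] {D : Dat n p q} {χ : MulChar (ZMod p) (𝓞 K)}
    (C : Chr K D χ) (hqn : IsUnit (q : ZMod n)) {i t d : ℕ} (hdodd : Odd d)
    (hi : ¬ n ∣ i) (hi1 : ¬ n ∣ i + 1) (hdq : d ∣ q - 1) {k : ℕ}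
    (hk : hqn.unit ^ k = -1) {ρ : 𝓞 K} (hρ : ρ ^ (2 * n) = 1)
    (hd : (q : 𝓞 K) ∣ (ρ * JJ K χ i ^ t) ^ d - 1) :
    (q : 𝓞 K) ∣ ρ * JJ K χ i ^ t - ((p ^ t : ℕ) : 𝓞 K) ^ ((d + 1) / 2) := by
  have h1 := frob_inv D.hq hqn hdq k hd
  rw [hk] at h1
  have h2 := J1_mul_br (t := t) C hi hi1 hρ
  set x : 𝓞 K := ρ * JJ K χ i ^ t with hx
  change (q : 𝓞 K) ∣ br n K x - x at h1
  have h3 : (q : 𝓞 K) ∣ x ^ 2 - ((p ^ t : ℕ) : 𝓞 K) := by
    rw [← h2]
    have := (h1.mul_right x).neg_right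
    convert this using 1; ring
  obtain ⟨m, rfl⟩ := hdodd
  have e : (2 * m + 1 + 1) / 2 = m + 1 := by omega
  rw [e]
  have h4 : (q : 𝓞 K) ∣ (x ^ 2) ^ (m + 1) - ((p ^ t : ℕ) : 𝓞 K) ^ (m + 1) :=
    h3.trans (sub_dvd_pow_sub_pow _ _ _)
  have h5 := dvd_sub h4 (hd.mul_right x)
  convert h5 using 1
  rw [← pow_mul]; ring

lemma pow_n_cong {x : 𝓞 K} {a : ℤ} (h : (1 - z n K) ∣ x - (a : 𝓞 K)) :
    (n : 𝓞 K) ∣ x ^ n - (a : 𝓞 K) := by
  obtain ⟨w, hw⟩ := h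
  have : CharP (𝓞 K ⧸ span {(n : 𝓞 K)}) n := by
    refine CharP.quotient (𝓞 K) n ?_
    intro hu
    have h1 : N (n : 𝓞 K) = 1 := by
      rw [N, absNorm_eq_one_iff, span_singleton_eq_top]; exact hu
    rw [N_natCast, finrank_K n K] at h1
    have h2 : n - 1 ≠ 0 := by have := hn.out.one_lt; omega
    exact hn.out.one_lt.ne' ((Nat.pow_eq_one.1 h1).resolve_right h2)
  have h6 : (n : 𝓞 K) ∣ x ^ n - (a : 𝓞 K) ^ n := by
    rw [← mem_span_singleton, ← Ideal.Quotient.eq]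
    have h1 : x = (a : 𝓞 K) + (1 - z n K) * w := by rw [← hw]; ring
    have h3 := congrArg (Ideal.Quotient.mk (span {(n : 𝓞 K)})) h1
    have hz : (Ideal.Quotient.mk (span {(n : 𝓞 K)}) (z n K)) ^ n = 1 := by
      rw [← map_pow, z_pow, map_one]
    rw [map_pow, map_pow, h3, map_add, add_pow_char, map_mul, mul_pow, map_sub, sub_pow_char,
      hz, map_one, one_pow, sub_self, zero_mul, add_zero]
  have h7 : (n : 𝓞 K) ∣ (a : 𝓞 K) ^ n - a := by
    have h1 : (n : ℤ) ∣ a ^ n - a := by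
      rw [← ZMod.intCast_zmod_eq_zero_iff_dvd]
      push_cast
      rw [ZMod.pow_card, sub_self]
    have h3 := map_dvd (Int.castRingHom (𝓞 K)) h1
    simpa using h3
  have h8 := dvd_add h6 h7
  rwa [sub_add_sub_cancel] at h8

lemma N_one_sub : N (1 - z n K) = n := by
  have h := N_sub n K 1
  rw [Nat.cast_one] at h
  rw [h]; simp [R]

lemma int_of_dvd {m : ℤ} (hm : (1 - z n K) ∣ (m : 𝓞 K)) : (n : ℤ) ∣ m := by
  have h1 : N (1 - z n K) ∣ N (m : 𝓞 K) := by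
    obtain ⟨c, hc⟩ := hm
    rw [hc, N_mul]; exact dvd_mul_right _ _
  have h3 : N (m : 𝓞 K) = m.natAbs ^ (n - 1) := by
    have h4 : N (m : 𝓞 K) = N ((m.natAbs : ℕ) : 𝓞 K) := by
      rw [N, N]
      rcases Int.natAbs_eq m with h5 | h5
      · conv_lhs => rw [h5]
        rw [Int.cast_natCast]
      · conv_lhs => rw [h5]
        rw [Int.cast_neg, Int.cast_natCast, span_singleton_neg]
    rw [h4, N_natCast, finrank_K n K]
  rw [N_one_sub, h3] at h1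
  exact Int.natCast_dvd.2 (hn.out.dvd_of_dvd_pow h1)

lemma one_sub_dvd_pow (i : ℕ) : (1 - z n K) ∣ z n K ^ i - 1 := by
  have h := sub_dvd_pow_sub_pow (z n K) 1 i
  rw [one_pow] at h
  have h' := neg_dvd.2 h
  rwa [neg_sub] at h'

lemma one_sub_dvd_n : (1 - z n K) ∣ (n : 𝓞 K) := by
  have h8 := prod_conj n K 1
  rw [show R 1 n = n by simp [R]] at h8
  rw [← h8, Nat.cast_one]
  refine (dvd_of_eq ?_).trans (Finset.dvd_prod_of_mem _ (Finset.mem_univ (1 : (ZMod n)ˣ)))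
  rw [Units.val_one, z_pow_one_val]

lemma one_sub_dvd_br (x : 𝓞 K) : (1 - z n K) ∣ br n K x - x := by
  have key : (Ideal.Quotient.mk (span {1 - z n K})).comp (br n K) =
      Ideal.Quotient.mk (span {1 - z n K}) := by
    refine hom_ext n K ?_
    rw [RingHom.comp_apply, br, sg_z, Ideal.Quotient.eq, mem_span_singleton]
    have h := dvd_sub (one_sub_dvd_pow (K := K) ((-1 : (ZMod n)ˣ) : ZMod n).val)
      (one_sub_dvd_pow (n := n) (K := K) 1)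
    rw [pow_one] at h
    convert h using 1; ring
  have h1 := congrArg (fun f => f x) key
  simp only [RingHom.comp_apply] at h1
  rwa [Ideal.Quotient.eq, mem_span_singleton] at h1

/-- `q = n`: the common value is `1` -/
lemma common_n [Fact p.Prime] {D : Dat n p n} {χ : MulChar (ZMod p) (𝓞 K)}
    (C : Chr K D χ) {i t d : ℕ} (hdodd : Odd d)
    (hi : ¬ n ∣ i) (hi1 : ¬ n ∣ i + 1) (hdq : d ∣ n - 1) {ρ : 𝓞 K} (hρ : ρ ^ (2 * n) = 1)
    (hd : (n : 𝓞 K) ∣ (ρ * JJ K χ i ^ t) ^ d - 1) :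
    (n : 𝓞 K) ∣ ρ * JJ K χ i ^ t - 1 := by
  have h2 := J1_mul_br (t := t) C hi hi1 hρ
  set x : 𝓞 K := ρ * JJ K χ i ^ t with hx
  obtain ⟨a, ha⟩ := exists_int n K 1 x
  rw [Nat.cast_one] at ha
  -- x ^ n ≡ x
  have h3 : (n : 𝓞 K) ∣ x ^ n - x := by
    obtain ⟨m, hm⟩ := hdq
    have h4 : (n : 𝓞 K) ∣ x ^ (n - 1) - 1 := by
      rw [hm, pow_mul]
      have := sub_dvd_pow_sub_pow (x ^ d) 1 m
      rw [one_pow] at this
      exact hd.trans this
    have h5 := h4.mul_right x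
    convert h5 using 1
    have e : x ^ n = x ^ (n - 1) * x := by
      rw [← pow_succ, Nat.sub_add_cancel hn.out.one_lt.le]
    rw [e]; ring
  have h4 : (n : 𝓞 K) ∣ x - (a : 𝓞 K) := by
    have := dvd_sub (pow_n_cong ha) h3
    rwa [sub_sub_sub_cancel_left] at this
  -- a ^ 2 ≡ 1 mod n
  have h5 : (n : ℤ) ∣ a ^ 2 - 1 := by
    apply int_of_dvd (K := K)
    have hp1 : (1 - z n K) ∣ ((p ^ t : ℕ) : 𝓞 K) - 1 := by
      refine one_sub_dvd_n.trans ?_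
      have h6 : n ∣ p ^ t - 1 := C.hpn.trans (by
        have := Nat.sub_dvd_pow_sub_pow p 1 t
        rwa [one_pow] at this)
      have h7 : (n : 𝓞 K) ∣ ((p ^ t - 1 : ℕ) : 𝓞 K) := Nat.cast_dvd_cast h6
      rwa [Nat.cast_sub (Nat.one_le_pow _ _ D.hp.pos), Nat.cast_one] at h7
    have e : ((a ^ 2 - 1 : ℤ) : 𝓞 K) = -((x - a) * (x + a)) - (br n K x - x) * x +
        (((p ^ t : ℕ) : 𝓞 K) - 1) := by
      rw [← h2]; push_cast; ring
    rw [e]
    exact dvd_add (dvd_sub (ha.mul_right _).neg_right ((one_sub_dvd_br x).mul_right _)) hp1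
  -- a ^ d ≡ 1 mod n
  have h6 : (n : ℤ) ∣ a ^ d - 1 := by
    apply int_of_dvd (K := K)
    have h7 : (1 - z n K) ∣ x ^ d - (a : 𝓞 K) ^ d := ha.trans (sub_dvd_pow_sub_pow _ _ _)
    have h8 := dvd_sub (one_sub_dvd_n.trans hd) h7
    convert h8 using 1
    push_cast; ring
  have h7 : (n : ℤ) ∣ a - 1 := by
    obtain ⟨m, rfl⟩ := hdodd
    have h8 : (n : ℤ) ∣ (a ^ 2) ^ m - 1 := by
      have := sub_dvd_pow_sub_pow (a ^ 2) 1 m
      rw [one_pow] at this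
      exact h5.trans this
    have h9 := dvd_sub h6 (h8.mul_right a)
    have e : a - 1 = a ^ (2 * m + 1) - 1 - ((a ^ 2) ^ m - 1) * a := by rw [← pow_mul]; ring
    rw [e]; exact h9
  have h8 : (n : 𝓞 K) ∣ (a : 𝓞 K) - 1 := by
    have := map_dvd (Int.castRingHom (𝓞 K)) h7
    simpa using this
  have h9 := dvd_add h4 h8
  rwa [sub_add_sub_cancel] at h9

/-- the bound from two different Jacobi sums with the same value modulo `q` -/
theorem size_pair [Fact p.Prime] {D : Dat n p q} {χ : MulChar (ZMod p) (𝓞 K)}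
    (C : Chr K D χ) (hpq : p ≠ q) {i j t : ℕ} (ht : t ≠ 0)
    (hi : ¬ n ∣ i) (hi1 : ¬ n ∣ i + 1) (hj : ¬ n ∣ j) (hj1 : ¬ n ∣ j + 1)
    {ρ ρ' : 𝓞 K} (hρ : ρ ^ (2 * n) = 1) (hρ' : ρ' ^ (2 * n) = 1)
    (hc : (q : 𝓞 K) ∣ ρ * JJ K χ i ^ t - ρ' * JJ K χ j ^ t)
    (hne : (AA n i \ AA n j).Nonempty) :
    q ^ (n - 1) ≤ 2 ^ (n - 1) * (p ^ t) ^ (AA n i \ AA n j).card := by
  have hXY : ρ * JJ K χ i ^ t ≠ ρ' * JJ K χ j ^ t := by
    intro he
    obtain ⟨c, hcc⟩ := hne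
    rw [Finset.mem_sdiff] at hcc
    apply hcc.2
    rw [← J1_mem_iff C hj hj1 ht hρ' c, ← he, J1_mem_iff C hi hi1 ht hρ c]
    exact hcc.1
  have hsz := size_common D hpq (AA n i ∩ AA n j)
    (fun c h => J1_mem C hi ρ (Finset.mem_inter.1 h).1)
    (fun c h => J1_mem C hj ρ' (Finset.mem_inter.1 h).2) hc hXY
    (fun φ => by rw [norm_J1 C hi hi1 hρ, norm_J1 C hj hj1 hρ'])
  rw [N_J1 C hi hi1 hρ] at hsz
  have hcard : (AA n i).card = (AA n i \ AA n j).card + (AA n i ∩ AA n j).card := by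
    rw [Finset.card_sdiff_add_card_inter]
  rw [hcard, pow_add, ← mul_assoc] at hsz
  exact Nat.le_of_mul_le_mul_right hsz (Nat.pow_pos (Nat.pow_pos D.hp.pos))

end

end Pool.Agent.Edg
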