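import Pool.Agent.Edg.Sz2

/-!
Assembly of the size theorem.
-/

namespace Pool.Agent.Edg

open NumberField Ideal Polynomial

noncomputable section

variable {n : ℕ} [hn : Fact n.Prime] {p q : ℕ}

/-- `#{c : n / 4 < c < n / 3}` -/
def NN (n : ℕ) : ℕ := ((Finset.range n).filter fun c => n < 4 * c ∧ 3 * c < n).card

lemma mem_AA3 (h7 : 7 ≤ n) {c : (ZMod n)ˣ} : c ∈ AA n 1 \ AA n 3 ↔
    n < 4 * (c : ZMod n).val ∧ 3 * (c : ZMod n).val < n := by
  rw [Finset.mem_sdiff, mem_AA1, mem_AA]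
  have hval : (((3 : ℕ) : ZMod n) * (c : ZMod n)).val = (3 * (c : ZMod n).val) % n := by
    rw [ZMod.val_mul, ZMod.val_natCast, Nat.mod_eq_of_lt (show 3 < n by omega)]
  rw [hval]
  set v := (c : ZMod n).val with hv
  have hodd : n % 2 = 1 := Nat.odd_iff.1 (hn.out.eq_two_or_odd'.resolve_left (by omega))
  by_cases h3 : 3 * v < n
  · rw [Nat.mod_eq_of_lt h3]; omega
  · constructor
    · rintro ⟨h1, h2⟩
      exfalso
      apply h2
      have : 3 * v % n = 3 * v - n := by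
        rw [Nat.mod_eq_sub_mod (by omega), Nat.mod_eq_of_lt (by omega)]
      rw [this]; omega
    · rintro ⟨h1, h2⟩; omega

lemma card_AA13 (h7 : 7 ≤ n) : (AA n 1 \ AA n 3).card = NN n := by
  refine Finset.card_bij (fun c _ => (c : ZMod n).val) ?_ ?_ ?_
  · intro c hc
    rw [mem_AA3 h7] at hc
    rw [Finset.mem_filter, Finset.mem_range]
    exact ⟨ZMod.val_lt _, hc⟩
  · intro a _ b _ h
    exact Units.ext (ZMod.val_injective n h)
  · intro v hv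
    rw [Finset.mem_filter, Finset.mem_range] at hv
    obtain ⟨h1, h2, h3⟩ := hv
    have hcop : v.Coprime n := by
      rw [Nat.coprime_comm]
      exact (Nat.Prime.coprime_iff_not_dvd hn.out).2 fun h => by
        have := Nat.le_of_dvd (by omega) h; omega
    refine ⟨ZMod.unitOfCoprime v hcop, ?_, ?_⟩
    · rw [mem_AA3 h7, ZMod.coe_unitOfCoprime, ZMod.val_natCast, Nat.mod_eq_of_lt h1]
      exact ⟨h2, h3⟩
    · rw [ZMod.coe_unitOfCoprime, ZMod.val_natCast, Nat.mod_eq_of_lt h1]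

lemma NN_pos (h7 : 7 ≤ n) : 1 ≤ NN n := by
  rw [NN, Nat.one_le_iff_ne_zero, Finset.card_ne_zero]
  have hodd : n % 2 = 1 := Nat.odd_iff.1 (hn.out.eq_two_or_odd'.resolve_left (by omega))
  have h9 : n ≠ 9 := fun h => by
    have := hn.out; rw [h] at this; revert this; decide
  refine ⟨n / 4 + 1, ?_⟩
  rw [Finset.mem_filter, Finset.mem_range]
  omega

lemma NN_le (n : ℕ) : 3 * NN n ≤ n - 1 := by
  have h : NN n ≤ (Finset.Icc (n / 4 + 1) ((n - 1) / 3)).card := by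
    refine Finset.card_le_card fun c hc => ?_
    rw [Finset.mem_filter, Finset.mem_range] at hc
    rw [Finset.mem_Icc]; omega
  rw [Nat.card_Icc] at h
  omega

lemma exists_neg_one (hqn : IsUnit (q : ZMod n)) (he : ¬ Odd (orderOf hqn.unit)) :
    ∃ k, hqn.unit ^ k = -1 := by
  rw [Nat.not_odd_iff_even] at he
  obtain ⟨k, hk⟩ := he
  have hpos : 0 < orderOf hqn.unit := orderOf_pos _
  refine ⟨k, ?_⟩
  have h1 : (hqn.unit ^ k) ^ 2 = 1 := by
    rw [← pow_mul, mul_two, ← hk, pow_orderOf_eq_one]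
  have h2 : ((hqn.unit ^ k : (ZMod n)ˣ) : ZMod n) * ((hqn.unit ^ k : (ZMod n)ˣ) : ZMod n) = 1 := by
    rw [← sq, ← Units.val_pow_eq_pow_val, h1, Units.val_one]
  rcases mul_self_eq_one_iff.1 h2 with h3 | h3
  · exfalso
    have h4 : hqn.unit ^ k = 1 := Units.ext h3
    have h5 := Nat.le_of_dvd (by omega) (orderOf_dvd_of_pow_eq_one h4)
    omega
  · exact Units.ext h3

variable (K : Type*) [Field K] [NumberField K] [hK : IsCyclotomicExtension {n} ℚ K]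

include K hK in
/-- the pair bound -/
theorem size_two [Fact p.Prime] (D : Dat n p q) (hpn : n ∣ p - 1) (hpq : p ≠ q)
    (h2 : n ≠ 2) {i j t d : ℕ}
    (ht : t ≠ 0) (hdodd : Odd d) (hdn : d.Coprime (2 * n)) (hdq : d ∣ q - 1)
    (hy : R q n = p ^ (t * d))
    (hcase : q = n ∨ ∃ hqn : IsUnit (q : ZMod n), ∃ k, hqn.unit ^ k = -1)
    (hi : ¬ n ∣ i) (hi1 : ¬ n ∣ i + 1) (hj : ¬ n ∣ j) (hj1 : ¬ n ∣ j + 1)
    (hne : (AA n i \ AA n j).Nonempty) :
    q ^ (n - 1) ≤ 2 ^ (n - 1) * (p ^ t) ^ (AA n i \ AA n j).card := by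
  obtain ⟨χ, h1, h3, h4⟩ := exists_char K D hpn
  have C : Chr K D χ := ⟨hpn, h1, h3, h4⟩
  obtain ⟨ρ, hρ, hd⟩ := jnorm C h2 hi hi1 hdn hy
  obtain ⟨ρ', hρ', hd'⟩ := jnorm C h2 hj hj1 hdn hy
  refine size_pair C hpq ht hi hi1 hj hj1 hρ hρ' ?_ hne
  rcases hcase with rfl | ⟨hqn, k, hk⟩
  · have e1 := common_n C hdodd hi hi1 hdq hρ hd
    have e2 := common_n C hdodd hj hj1 hdq hρ' hd'
    have := dvd_sub e1 e2
    rwa [sub_sub_sub_cancel_right] at this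
  · have e1 := common_even C hqn hdodd hi hi1 hdq hk hρ hd
    have e2 := common_even C hqn hdodd hj hj1 hdq hk hρ' hd'
    have := dvd_sub e1 e2
    rwa [sub_sub_sub_cancel_right] at this

omit hn in
lemma num_uniform_even {q P m N : ℕ} (hq : 2 ≤ q) (hN : 1 ≤ N) (hm : 3 * N ≤ m)
    (h : q ^ m ≤ 2 ^ m * P ^ N) : q ^ 3 ≤ 8 * P := by
  by_contra hcon
  push Not at hcon
  have h1 : (8 * P) ^ N < (q ^ 3) ^ N := Nat.pow_lt_pow_left hcon (by omega)
  obtain ⟨r, rfl⟩ : ∃ r, m = 3 * N + r := ⟨m - 3 * N, by omega⟩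
  have e8 : (2 : ℕ) ^ (3 * N) = 8 ^ N := by rw [pow_mul]; norm_num
  have h2 : q ^ r * ((q ^ 3) ^ N * 8 ^ N) ≤ 2 ^ r * (8 ^ N * (8 * P) ^ N) := by
    calc q ^ r * ((q ^ 3) ^ N * 8 ^ N) = q ^ (3 * N + r) * 8 ^ N := by
          rw [pow_add, pow_mul]; ring
      _ ≤ (2 ^ (3 * N + r) * P ^ N) * 8 ^ N := Nat.mul_le_mul_right _ h
      _ = 2 ^ r * (8 ^ N * (8 * P) ^ N) := by
          rw [pow_add, e8, mul_pow]; ring
  have h3 : 2 ^ r * (8 ^ N * (8 * P) ^ N) < q ^ r * ((q ^ 3) ^ N * 8 ^ N) := by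
    calc 2 ^ r * (8 ^ N * (8 * P) ^ N) ≤ q ^ r * (8 ^ N * (8 * P) ^ N) :=
          Nat.mul_le_mul_right _ (Nat.pow_le_pow_left hq _)
      _ < q ^ r * (8 ^ N * (q ^ 3) ^ N) :=
          Nat.mul_lt_mul_of_pos_left (Nat.mul_lt_mul_of_pos_left h1 (by positivity))
            (by positivity)
      _ = q ^ r * ((q ^ 3) ^ N * 8 ^ N) := by ring
  omega

end

end Pool.Agent.Edg
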