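import Pool.Agent.Edg.Fin

/-!
The sharper bound when the order of `q` modulo `n` is odd: the quotient of two Jacobi sums.
-/

namespace Pool.Agent.Edg

open NumberField Ideal Polynomial

noncomputable section

variable {n : ℕ} [hn : Fact n.Prime] {K : Type*} [Field K] [NumberField K]
  [hK : IsCyclotomicExtension {n} ℚ K] {p q : ℕ}

/-- the set `n / 4 < c < n / 3` is not invariant under multiplication by `u ≠ 1` -/
lemma B_not_inv (h7 : 7 ≤ n) {u : (ZMod n)ˣ} (hu : u ≠ 1) :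
    ∃ c ∈ AA n 1 \ AA n 3, c * u ∉ AA n 1 \ AA n 3 := by
  by_contra hcon
  push Not at hcon
  have hodd : n % 2 = 1 := Nat.odd_iff.1 (hn.out.eq_two_or_odd'.resolve_left (by omega))
  have hn9 : n ≠ 9 := fun h => by
    have := hn.out; rw [h] at this; revert this; decide
  set m := n / 4 + 1 with hm
  set M := (n - 1) / 3 with hM
  have hmM : m ≤ M := by omega
  -- `g v = (u * v).val`
  set g : ℕ → ℕ := fun v => ((v : ZMod n) * (u : ZMod n)).val with hg
  have hgB : ∀ v, m ≤ v → v ≤ M → m ≤ g v ∧ g v ≤ M := by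
    intro v h1 h2
    have hvn : v < n := by omega
    have hcop : v.Coprime n := by
      rw [Nat.coprime_comm]
      exact (Nat.Prime.coprime_iff_not_dvd hn.out).2 fun h => by
        have := Nat.le_of_dvd (by omega) h; omega
    have hval : ((ZMod.unitOfCoprime v hcop : (ZMod n)ˣ) : ZMod n).val = v := by
      rw [ZMod.coe_unitOfCoprime, ZMod.val_natCast, Nat.mod_eq_of_lt hvn]
    have hmem : ZMod.unitOfCoprime v hcop ∈ AA n 1 \ AA n 3 := by
      rw [mem_AA3 h7, hval]; omega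
    have h3 := hcon _ hmem
    rw [mem_AA3 h7, Units.val_mul, ZMod.coe_unitOfCoprime] at h3
    change n < 4 * g v ∧ 3 * g v < n at h3
    omega
  have hgc : ∀ v, ((g v : ℕ) : ZMod n) = (v : ZMod n) * (u : ZMod n) := by
    intro v; rw [hg]; exact ZMod.natCast_zmod_val _
  rcases Nat.lt_or_ge m M with hlt | hge
  · -- at least two elements
    have hstep : ∀ v, m ≤ v → v + 1 ≤ M →
        (g (v + 1) : ℤ) - g v = (g (m + 1) : ℤ) - g m := by
      intro v h1 h2
      have a1 := hgB v h1 (by omega)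
      have a2 := hgB (v + 1) (by omega) h2
      have a3 := hgB m le_rfl (by omega)
      have a4 := hgB (m + 1) (by omega) (by omega)
      have hdvd : (n : ℤ) ∣ ((g (v + 1) : ℤ) - g v) - ((g (m + 1) : ℤ) - g m) := by
        rw [← ZMod.intCast_zmod_eq_zero_iff_dvd]
        push_cast
        rw [hgc, hgc, hgc, hgc]
        push_cast; ring
      have habs : |((g (v + 1) : ℤ) - g v) - ((g (m + 1) : ℤ) - g m)| < n := by
        rw [abs_lt]; omega
      have := Int.eq_zero_of_abs_lt_dvd hdvd habs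
      omega
    set δ : ℤ := (g (m + 1) : ℤ) - g m with hδ
    have hlin : ∀ k : ℕ, m + k ≤ M → (g (m + k) : ℤ) = g m + k * δ := by
      intro k
      induction k with
      | zero => intro _; simp
      | succ k ih =>
        intro hk
        have h1 := ih (by omega)
        have h2 := hstep (m + k) (by omega) (by omega)
        rw [add_assoc] at h2
        push_cast
        linarith
    have hend := hlin (M - m) (by omega)
    rw [Nat.add_sub_cancel' hmM] at hend
    have a1 := hgB M hmM le_rfl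
    have a3 := hgB m le_rfl hmM
    have hL : (0 : ℤ) < ((M - m : ℕ) : ℤ) := by exact_mod_cast (by omega : 0 < M - m)
    have hb1 : (g M : ℤ) - g m ≤ ((M - m : ℕ) : ℤ) := by
      rw [Nat.cast_sub hmM]; omega
    have hb2 : -((M - m : ℕ) : ℤ) ≤ (g M : ℤ) - g m := by
      rw [Nat.cast_sub hmM]; omega
    have hδ1 : δ ≤ 1 := by
      by_contra hc
      push Not at hc
      nlinarith
    have hδ2 : -1 ≤ δ := by
      by_contra hc
      push Not at hc
      nlinarith
    have hδu : ((δ : ℤ) : ZMod n) = (u : ZMod n) := by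
      rw [hδ]; push_cast
      rw [hgc, hgc]; push_cast; ring
    have hcases : δ = -1 ∨ δ = 0 ∨ δ = 1 := by omega
    rcases hcases with h | h | h
    · -- u = -1
      rw [h] at hδu
      push_cast at hδu
      have h2 : ((g m + m : ℕ) : ZMod n) = 0 := by
        push_cast; rw [hgc, ← hδu]; ring
      rw [ZMod.natCast_eq_zero_iff] at h2
      have := Nat.le_of_dvd (by omega) h2
      omega
    · rw [h] at hδu
      push_cast at hδu
      exact u.ne_zero hδu.symm
    · rw [h] at hδu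
      push_cast at hδu
      exact hu (Units.ext hδu.symm)
  · -- exactly one element
    have hmM' : m = M := by omega
    have a3 := hgB m le_rfl hmM
    have hgm : g m = m := by omega
    have h1 := hgc m
    rw [hgm] at h1
    have hm0 : ((m : ℕ) : ZMod n) ≠ 0 := by
      rw [Ne, ZMod.natCast_eq_zero_iff]
      intro h; have := Nat.le_of_dvd (by omega) h; omega
    apply hu
    apply Units.ext
    rw [Units.val_one]
    exact mul_left_cancel₀ hm0 (by rw [mul_one]; exact h1.symm)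

/-- exact factorisation of the conjugates -/
lemma span_sg_J1 [Fact p.Prime] {D : Dat n p q} {χ : MulChar (ZMod p) (𝓞 K)}
    (C : Chr K D χ) {i t : ℕ} (hi : ¬ n ∣ i) (hi1 : ¬ n ∣ i + 1) {ρ : 𝓞 K}
    (hρ : ρ ^ (2 * n) = 1) (u : (ZMod n)ˣ) :
    span {sg n K u (ρ * JJ K χ i ^ t)} =
      ∏ c ∈ Finset.univ.filter (fun c => c * u ∈ AA n i), PPc K D c ^ t := by
  have hcard : (Finset.univ.filter (fun c => c * u ∈ AA n i)).card = (AA n i).card := by
    refine Finset.card_bij (fun c _ => c * u) ?_ ?_ ?_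
    · intro c hc; exact (Finset.mem_filter.1 hc).2
    · intro a _ b _ h; exact mul_right_cancel h
    · intro c hc
      exact ⟨c * u⁻¹, by rw [Finset.mem_filter]; simp [hc], by simp⟩
  have hle : span {sg n K u (ρ * JJ K χ i ^ t)} ≤
      ∏ c ∈ Finset.univ.filter (fun c => c * u ∈ AA n i), PPc K D c ^ t :=
    prod_PPc_le K D _ t fun c hc => by
      rw [span_singleton_le_iff_mem]
      exact sg_mem_pow D c u (J1_mem C hi ρ (Finset.mem_filter.1 hc).2)
  refine eq_of_le_of_absNorm K hle ?_ ?_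
  · rw [absNorm_prod_PPc, hcard]
    change N (sg n K u (ρ * JJ K χ i ^ t)) = _
    rw [N_sg, N_J1 C hi hi1 hρ]
  · rw [absNorm_prod_PPc]
    exact pow_ne_zero _ (pow_ne_zero _ D.hp.ne_zero)

lemma card_AA31 {i j : ℕ} (hi : ¬ n ∣ i) (hi1 : ¬ n ∣ i + 1) (hj : ¬ n ∣ j)
    (hj1 : ¬ n ∣ j + 1) : (AA n i).card = (AA n j).card := by
  have h1 := card_AA hi hi1
  have h2 := card_AA hj hj1
  omega

/-- the bound for the quotient of two Jacobi sums -/
theorem size_quot [Fact p.Prime] {D : Dat n p q} {χ : MulChar (ZMod p) (𝓞 K)}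
    (C : Chr K D χ) (hpq : p ≠ q) (hqn : IsUnit (q : ZMod n)) {i j t d : ℕ} (ht : t ≠ 0)
    (hdn : d.Coprime (2 * n)) (hdq : d ∣ q - 1) (hy : R q n = p ^ (t * d)) (h2 : n ≠ 2)
    (hi : ¬ n ∣ i) (hi1 : ¬ n ∣ i + 1) (hj : ¬ n ∣ j) (hj1 : ¬ n ∣ j + 1)
    {k : ℕ} {u : (ZMod n)ˣ} (hk : hqn.unit ^ k = u)
    (hninv : ∃ c ∈ AA n i \ AA n j, c * u ∉ AA n i \ AA n j) :
    q ^ (n - 1) ≤ 2 ^ (n - 1) * (p ^ t) ^ (2 * (AA n i \ AA n j).card) := by
  classical
  obtain ⟨ρ, hρ, hd⟩ := jnorm C h2 hi hi1 hdn hy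
  obtain ⟨ρ', hρ', hd'⟩ := jnorm C h2 hj hj1 hdn hy
  have h2n : 2 * n ≠ 0 := mul_ne_zero two_ne_zero hn.out.ne_zero
  set a : 𝓞 K := ρ * JJ K χ i ^ t with ha
  set b : 𝓞 K := ρ' * JJ K χ j ^ t with hb
  have ca : (q : 𝓞 K) ∣ sg n K u a - a := by rw [← hk]; exact frob_inv D.hq hqn hdq k hd
  have cb : (q : 𝓞 K) ∣ sg n K u b - b := by rw [← hk]; exact frob_inv D.hq hqn hdq k hd'
  set X : 𝓞 K := a * sg n K u b with hX
  set Y : 𝓞 K := b * sg n K u a with hY
  have hXY : (q : 𝓞 K) ∣ X - Y := by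
    have := dvd_sub (cb.mul_left a) (ca.mul_left b)
    convert this using 1
    rw [hX, hY]; ring
  -- exact factorisations
  have f1 : ∀ x : 𝓞 K, span {x} = span {sg n K 1 x} := fun x => by rw [sg_one]
  have sa : span {a} = ∏ c ∈ AA n i, PPc K D c ^ t := by
    rw [f1, ha, span_sg_J1 C hi hi1 hρ 1]
    refine Finset.prod_congr ?_ fun _ _ => rfl
    ext c; simp
  have sb : span {b} = ∏ c ∈ AA n j, PPc K D c ^ t := by
    rw [f1, hb, span_sg_J1 C hj hj1 hρ' 1]
    refine Finset.prod_congr ?_ fun _ _ => rfl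
    ext c; simp
  have sua := span_sg_J1 C hi hi1 (t := t) hρ u
  have sub := span_sg_J1 C hj hj1 (t := t) hρ' u
  rw [← ha] at sua
  rw [← hb] at sub
  set Fi := Finset.univ.filter (fun c => c * u ∈ AA n i) with hFi
  set Fj := Finset.univ.filter (fun c => c * u ∈ AA n j) with hFj
  have hprod0 : ∀ S : Finset (ZMod n)ˣ, ∏ c ∈ S, PPc K D c ^ t ≠ 0 := by
    intro S h
    have := absNorm_prod_PPc K D S t
    rw [h, zero_eq_bot, absNorm_bot] at this
    exact pow_ne_zero _ (pow_ne_zero _ D.hp.ne_zero) this.symm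
  have hsplit : ∀ S T : Finset (ZMod n)ˣ, ∏ c ∈ S, PPc K D c ^ t =
      (∏ c ∈ S ∩ T, PPc K D c ^ t) * ∏ c ∈ S \ T, PPc K D c ^ t := by
    intro S T
    rw [← Finset.prod_union (Finset.disjoint_of_subset_left Finset.inter_subset_right
      Finset.disjoint_sdiff)]
    congr 1
    ext c; simp only [Finset.mem_union, Finset.mem_inter, Finset.mem_sdiff]; tauto
  have hne : X ≠ Y := by
    intro he
    have h3 : span {a} * span {sg n K u b} = span {b} * span {sg n K u a} := by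
      rw [span_singleton_mul_span_singleton, span_singleton_mul_span_singleton]
      exact congrArg (fun w : 𝓞 K => (span {w} : Ideal (𝓞 K))) he
    rw [sa, sb, sua, sub, hsplit (AA n i) (AA n j), hsplit (AA n j) (AA n i), hsplit Fi Fj,
      hsplit Fj Fi, Finset.inter_comm (AA n j), Finset.inter_comm Fj] at h3
    have h4 : (∏ c ∈ AA n i \ AA n j, PPc K D c ^ t) * ∏ c ∈ Fj \ Fi, PPc K D c ^ t =
        (∏ c ∈ AA n j \ AA n i, PPc K D c ^ t) * ∏ c ∈ Fi \ Fj, PPc K D c ^ t := by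
      have e0 : (∏ c ∈ AA n i ∩ AA n j, PPc K D c ^ t) * (∏ c ∈ Fi ∩ Fj, PPc K D c ^ t) ≠ 0 :=
        mul_ne_zero (hprod0 _) (hprod0 _)
      refine mul_left_cancel₀ e0 ?_
      calc _ = ((∏ c ∈ AA n i ∩ AA n j, PPc K D c ^ t) * ∏ c ∈ AA n i \ AA n j, PPc K D c ^ t) *
            ((∏ c ∈ Fi ∩ Fj, PPc K D c ^ t) * ∏ c ∈ Fj \ Fi, PPc K D c ^ t) := by ring
        _ = ((∏ c ∈ AA n i ∩ AA n j, PPc K D c ^ t) * ∏ c ∈ AA n j \ AA n i, PPc K D c ^ t) *
            ((∏ c ∈ Fi ∩ Fj, PPc K D c ^ t) * ∏ c ∈ Fi \ Fj, PPc K D c ^ t) := h3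
        _ = _ := by ring
    obtain ⟨c, hc, hcu⟩ := hninv
    have hpr : (PPc K D c).IsPrime := (PPc_max K D c).isPrime
    have hle : (∏ c ∈ AA n j \ AA n i, PPc K D c ^ t) * ∏ c ∈ Fi \ Fj, PPc K D c ^ t ≤
        PPc K D c := by
      rw [← h4]
      refine (Ideal.mul_le_left).trans ?_
      rw [← dvd_iff_le]
      exact (dvd_pow_self _ ht).trans (Finset.dvd_prod_of_mem (fun c => PPc K D c ^ t) hc)
    have hkey : ∀ S : Finset (ZMod n)ˣ, ∏ c ∈ S, PPc K D c ^ t ≤ PPc K D c → c ∈ S := by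
      intro S hS
      obtain ⟨e, he', hle'⟩ := (hpr.prod_le).1 hS
      have h5 : PPc K D e ≤ PPc K D c := hpr.le_of_pow_le hle'
      have := (PPc_max K D e).eq_of_le hpr.ne_top h5
      rw [← PPc_injective K D this]; exact he'
    rcases (hpr.mul_le).1 hle with h5 | h5
    · have := hkey _ h5
      rw [Finset.mem_sdiff] at this hc
      exact hc.2 this.1
    · have h6 := hkey _ h5
      apply hcu
      rw [Finset.mem_sdiff, hFi, hFj, Finset.mem_filter, Finset.mem_filter] at h6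
      rw [Finset.mem_sdiff]
      exact ⟨h6.1.2, fun h7 => h6.2 ⟨Finset.mem_univ _, h7⟩⟩
  -- the common ideal
  set I1 := ∏ c ∈ AA n i ∩ AA n j, PPc K D c ^ t with hI1
  set I2 := ∏ c ∈ Fi ∩ Fj, PPc K D c ^ t with hI2
  have ma1 : a ∈ I1 := by
    rw [← span_singleton_le_iff_mem, sa, hsplit (AA n i) (AA n j)]; exact Ideal.mul_le_left
  have mb1 : b ∈ I1 := by
    rw [← span_singleton_le_iff_mem, sb, hsplit (AA n j) (AA n i), Finset.inter_comm]
    exact Ideal.mul_le_left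
  have ma2 : sg n K u a ∈ I2 := by
    rw [← span_singleton_le_iff_mem, sua, hsplit Fi Fj]; exact Ideal.mul_le_left
  have mb2 : sg n K u b ∈ I2 := by
    rw [← span_singleton_le_iff_mem, sub, hsplit Fj Fi, Finset.inter_comm]
    exact Ideal.mul_le_left
  have hXI : X ∈ I1 * I2 := Ideal.mul_mem_mul ma1 mb2
  have hYI : Y ∈ I1 * I2 := Ideal.mul_mem_mul mb1 ma2
  have hNI : absNorm (I1 * I2) = (p ^ t) ^ ((AA n i ∩ AA n j).card + (Fi ∩ Fj).card) := by
    rw [map_mul, hI1, hI2, absNorm_prod_PPc, absNorm_prod_PPc, pow_add]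
  have hcardF : (Fi ∩ Fj).card = (AA n i ∩ AA n j).card := by
    refine Finset.card_bij (fun c _ => c * u) ?_ ?_ ?_
    · intro c hc
      rw [Finset.mem_inter, hFi, hFj, Finset.mem_filter, Finset.mem_filter] at hc
      rw [Finset.mem_inter]; exact ⟨hc.1.2, hc.2.2⟩
    · intro a _ b _ h; exact mul_right_cancel h
    · intro c hc
      rw [Finset.mem_inter] at hc
      refine ⟨c * u⁻¹, ?_, by simp⟩
      rw [Finset.mem_inter, hFi, hFj, Finset.mem_filter, Finset.mem_filter]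
      simp [hc.1, hc.2]
  have hcop : IsCoprime (span {(q : 𝓞 K)}) (I1 * I2) := by
    rw [Ideal.isCoprime_iff_sup_eq, eq_top_iff_one]
    have h3 : ((absNorm (I1 * I2) : ℕ) : 𝓞 K) ∈ I1 * I2 := absNorm_mem _
    rw [hNI] at h3
    have h4 : Nat.Coprime q ((p ^ t) ^ ((AA n i ∩ AA n j).card + (Fi ∩ Fj).card)) :=
      (((Nat.coprime_primes D.hq D.hp).2 (Ne.symm hpq)).pow_right _).pow_right _
    obtain ⟨a', b', hab⟩ := Nat.isCoprime_iff_coprime.2 h4
    have h5 : (1 : 𝓞 K) = (a' : 𝓞 K) * (q : 𝓞 K) + b' *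
        (((p ^ t) ^ ((AA n i ∩ AA n j).card + (Fi ∩ Fj).card) : ℕ) : 𝓞 K) := by
      have := congrArg (Int.cast : ℤ → 𝓞 K) hab
      push_cast at this ⊢
      exact this.symm
    rw [h5]
    exact Submodule.add_mem_sup (Ideal.mul_mem_left _ _ (mem_span_singleton_self _))
      (Ideal.mul_mem_left _ _ h3)
  have h6 : span {X - Y} ≤ span {(q : 𝓞 K)} * (I1 * I2) := by
    rw [Ideal.mul_eq_inf_of_coprime (Ideal.isCoprime_iff_sup_eq.1 hcop)]
    refine le_inf ?_ ?_
    · rw [span_singleton_le_span_singleton]; exact hXY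
    · rw [span_singleton_le_iff_mem]; exact Ideal.sub_mem _ hXI hYI
  have h7 := size hne h6 (fun φ => by
    have e1 : ∀ w : 𝓞 K, ∀ s : ℝ, (∀ ψ : K →+* ℂ, ‖ψ (w : K)‖ = s) →
        ‖φ (sg n K u w : K)‖ = s := fun w s hw => hw
          (φ.comp (((IsCyclotomicExtension.Rat.galEquivZMod n K).symm u : K ≃ₐ[ℚ] K) : K →+* K))
    have e2 := norm_J1 (t := t) C hi hi1 hρ
    have e3 := norm_J1 (t := t) C hj hj1 hρ'
    have f3 : ‖φ (X : K)‖ = ‖φ (a : K)‖ * ‖φ (sg n K u b : K)‖ := by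
      rw [← norm_mul, ← emb_mul]
    have f4 : ‖φ (Y : K)‖ = ‖φ (b : K)‖ * ‖φ (sg n K u a : K)‖ := by
      rw [← norm_mul, ← emb_mul]
    have f5 : ‖φ (a : K)‖ = Real.sqrt p ^ t := e2 φ
    have f6 : ‖φ (b : K)‖ = Real.sqrt p ^ t := e3 φ
    have f7 : ‖φ (sg n K u a : K)‖ = Real.sqrt p ^ t := e1 a _ e2
    have f8 : ‖φ (sg n K u b : K)‖ = Real.sqrt p ^ t := e1 b _ e3
    rw [f3, f4, f5, f6, f7, f8])
  rw [finrank_K n K, hNI, hX, N_mul, N_sg, ha, hb, N_J1 C hi hi1 hρ, N_J1 C hj hj1 hρ',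
    ← pow_add, hcardF, ← card_AA31 hi hi1 hj hj1] at h7
  have hcard : (AA n i).card = (AA n i \ AA n j).card + (AA n i ∩ AA n j).card := by
    rw [Finset.card_sdiff_add_card_inter]
  have e4 : (AA n i).card + (AA n i).card =
      2 * (AA n i \ AA n j).card + ((AA n i ∩ AA n j).card + (AA n i ∩ AA n j).card) := by
    omega
  rw [e4, pow_add _ (2 * _), ← mul_assoc] at h7
  exact Nat.le_of_mul_le_mul_right h7 (Nat.pow_pos (Nat.pow_pos D.hp.pos))

end

end Pool.Agent.Edg
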