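import Pool.Agent.Edg.Sz4
import Pool.Agent.Edg.Cn

/-!
Many ideal classes of order dividing `l`.
-/

namespace Pool.Agent.Edg

open NumberField Ideal Polynomial

noncomputable section

variable {n : ℕ} [hn : Fact n.Prime] {K : Type*} [Field K] [NumberField K]
  [hK : IsCyclotomicExtension {n} ℚ K] {p q : ℕ}

/-- the ideal with exponent vector `v` -/
def II [Fact p.Prime] (K : Type*) [Field K] [NumberField K]
    [hK : IsCyclotomicExtension {n} ℚ K] (D : Dat n p q) (v : (ZMod n)ˣ → ℕ) : Ideal (𝓞 K) :=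
  ∏ c, PPc K D c ^ v c

lemma II_add [Fact p.Prime] (D : Dat n p q) (v w : (ZMod n)ˣ → ℕ) :
    II K D (fun c => v c + w c) = II K D v * II K D w := by
  rw [II, II, II, ← Finset.prod_mul_distrib]
  exact Finset.prod_congr rfl fun c _ => pow_add _ _ _

lemma absNorm_II [Fact p.Prime] (D : Dat n p q) (v : (ZMod n)ˣ → ℕ) :
    absNorm (II K D v) = p ^ ∑ c, v c := by
  rw [II, map_prod, Finset.prod_congr rfl fun c _ => by rw [map_pow, absNorm_PPc],
    Finset.prod_pow_eq_pow_sum]

lemma II_ne_zero [Fact p.Prime] (D : Dat n p q) (v : (ZMod n)ˣ → ℕ) : II K D v ≠ 0 := by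
  intro h
  have := absNorm_II (K := K) D v
  rw [h, zero_eq_bot, absNorm_bot] at this
  exact pow_ne_zero _ D.hp.ne_zero this.symm

lemma le_II [Fact p.Prime] (D : Dat n p q) {v : (ZMod n)ˣ → ℕ} {I : Ideal (𝓞 K)}
    (h : ∀ c, I ≤ PPc K D c ^ v c) : I ≤ II K D v := by
  rw [← dvd_iff_le, II]
  refine Finset.prod_dvd_of_coprime ?_ fun c _ => dvd_iff_le.2 (h c)
  intro c _ d _ hcd
  exact (PPc_coprime K D hcd).pow

lemma II_le [Fact p.Prime] (D : Dat n p q) (v : (ZMod n)ˣ → ℕ) (c : (ZMod n)ˣ) :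
    II K D v ≤ PPc K D c ^ v c := by
  rw [← dvd_iff_le, II]
  exact Finset.dvd_prod_of_mem (fun c => PPc K D c ^ v c) (Finset.mem_univ c)

lemma II_mono [Fact p.Prime] (D : Dat n p q) {v w : (ZMod n)ˣ → ℕ} (h : ∀ c, v c ≤ w c) :
    II K D w ≤ II K D v :=
  le_II D fun c => (II_le D w c).trans (Ideal.pow_le_pow_right (h c))

/-- unique factorisation: the exponents are determined -/
lemma II_le_iff [Fact p.Prime] (D : Dat n p q) {v w : (ZMod n)ˣ → ℕ}
    (h : II K D w ≤ II K D v) (c : (ZMod n)ˣ) : v c ≤ w c := by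
  classical
  by_contra hlt
  push Not at hlt
  -- split off `c`
  have hw : II K D w = PPc K D c ^ w c * ∏ e ∈ Finset.univ.erase c, PPc K D e ^ w e := by
    rw [II]
    exact (Finset.mul_prod_erase Finset.univ (fun e => PPc K D e ^ w e) (Finset.mem_univ c)).symm
  have h1 : II K D w ≤ PPc K D c ^ (w c + 1) :=
    h.trans ((II_le D v c).trans (Ideal.pow_le_pow_right hlt))
  rw [hw, pow_succ, ← dvd_iff_le] at h1
  have h0 : PPc K D c ^ w c ≠ 0 := by
    intro h0
    have := congrArg absNorm h0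
    rw [map_pow, absNorm_PPc, zero_eq_bot, absNorm_bot] at this
    exact pow_ne_zero _ D.hp.ne_zero this
  have h2 := (mul_dvd_mul_iff_left h0).1 h1
  rw [dvd_iff_le] at h2
  have hpr : (PPc K D c).IsPrime := (PPc_max K D c).isPrime
  obtain ⟨e, he, hle⟩ := (hpr.prod_le).1 h2
  have h5 : PPc K D e ≤ PPc K D c := hpr.le_of_pow_le hle
  have := (PPc_max K D e).eq_of_le hpr.ne_top h5
  exact (Finset.mem_erase.1 he).1 (PPc_injective K D this)

lemma II_inj [Fact p.Prime] (D : Dat n p q) {v w : (ZMod n)ˣ → ℕ}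
    (h : II K D v = II K D w) : v = w :=
  funext fun c => le_antisymm (II_le_iff D h.ge c) (II_le_iff D h.le c)

lemma II_single [Fact p.Prime] (D : Dat n p q) (c : (ZMod n)ˣ) (t : ℕ) :
    II K D (fun e => if e = c then t else 0) = PPc K D c ^ t := by
  classical
  rw [II, Finset.prod_eq_single c]
  · rw [if_pos rfl]
  · intro e _ he; rw [if_neg he, pow_zero]
  · intro h; exact absurd (Finset.mem_univ c) h

/-- action of the automorphisms on the exponents -/
lemma span_sg_II [Fact p.Prime] (D : Dat n p q) {x : 𝓞 K} {v : (ZMod n)ˣ → ℕ}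
    (hx : span {x} = II K D v) (u : (ZMod n)ˣ) :
    span {sg n K u x} = II K D (fun c => v (c * u)) := by
  have h1 : span {sg n K u x} ≤ II K D (fun c => v (c * u)) := le_II D fun c => by
    rw [span_singleton_le_iff_mem]
    refine sg_mem_pow D c u ?_
    rw [← span_singleton_le_iff_mem, hx]
    exact II_le D v (c * u)
  refine eq_of_le_of_absNorm K h1 ?_ ?_
  · have e1 : absNorm (span {sg n K u x}) = absNorm (span {x}) := N_sg n K u x
    rw [e1, hx, absNorm_II, absNorm_II]
    congr 1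
    exact (Fintype.sum_equiv (Equiv.mulRight u) (fun c => v (c * u)) v fun c => rfl).symm
  · rw [absNorm_II]; exact pow_ne_zero _ D.hp.ne_zero

/-- the size inequality in terms of exponents -/
lemma size_II [Fact p.Prime] (D : Dat n p q) (hpq : p ≠ q) {X Y : 𝓞 K}
    {v w : (ZMod n)ˣ → ℕ} (hX : span {X} = II K D v) (hY : span {Y} = II K D w) (hvw : v ≠ w)
    (hXY : (q : 𝓞 K) ∣ X - Y) (habs : ∀ φ : K →+* ℂ, ‖φ (X : K)‖ = ‖φ (Y : K)‖) :
    q ^ (n - 1) ≤ 2 ^ (n - 1) * p ^ ∑ c, (v c - w c) := by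
  have hne : X ≠ Y := by
    intro he
    rw [he, hY] at hX
    exact hvw (II_inj D hX).symm
  set m : (ZMod n)ˣ → ℕ := fun c => min (v c) (w c) with hm
  have hXI : X ∈ II K D m := by
    rw [← span_singleton_le_iff_mem, hX]; exact II_mono D fun c => min_le_left _ _
  have hYI : Y ∈ II K D m := by
    rw [← span_singleton_le_iff_mem, hY]; exact II_mono D fun c => min_le_right _ _
  have hcop : IsCoprime (span {(q : 𝓞 K)}) (II K D m) := by
    rw [Ideal.isCoprime_iff_sup_eq, eq_top_iff_one]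
    have h3 : ((absNorm (II K D m) : ℕ) : 𝓞 K) ∈ II K D m := absNorm_mem _
    rw [absNorm_II] at h3
    have h4 : Nat.Coprime q (p ^ ∑ c, m c) :=
      ((Nat.coprime_primes D.hq D.hp).2 (Ne.symm hpq)).pow_right _
    obtain ⟨a', b', hab⟩ := Nat.isCoprime_iff_coprime.2 h4
    have h5 : (1 : 𝓞 K) = (a' : 𝓞 K) * (q : 𝓞 K) + b' * ((p ^ ∑ c, m c : ℕ) : 𝓞 K) := by
      have := congrArg (Int.cast : ℤ → 𝓞 K) hab
      push_cast at this ⊢
      exact this.symm
    rw [h5]
    exact Submodule.add_mem_sup (Ideal.mul_mem_left _ _ (mem_span_singleton_self _))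
      (Ideal.mul_mem_left _ _ h3)
  have h6 : span {X - Y} ≤ span {(q : 𝓞 K)} * II K D m := by
    rw [Ideal.mul_eq_inf_of_coprime (Ideal.isCoprime_iff_sup_eq.1 hcop)]
    refine le_inf ?_ ?_
    · rw [span_singleton_le_span_singleton]; exact hXY
    · rw [span_singleton_le_iff_mem]; exact Ideal.sub_mem _ hXI hYI
  have h7 := size hne h6 habs
  have hNX : N X = p ^ ∑ c, v c := by rw [N, hX, absNorm_II]
  rw [finrank_K n K, absNorm_II, hNX] at h7
  have hsum : ∑ c, v c = ∑ c, (v c - w c) + ∑ c, m c := by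
    rw [← Finset.sum_add_distrib]
    refine Finset.sum_congr rfl fun c _ => ?_
    rw [hm]; simp only; omega
  rw [hsum, pow_add, ← mul_assoc] at h7
  exact Nat.le_of_mul_le_mul_right h7 (Nat.pow_pos D.hp.pos)

end

end Pool.Agent.Edg
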