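import Pool.Agent.Edg.Wie

/-!
The congruence modulo a power of `l`.
-/

namespace Pool.Agent.Edg

open NumberField Ideal Polynomial

noncomputable section

variable {n : ℕ} [hn : Fact n.Prime] {K : Type*} [Field K] [NumberField K]
  [hK : IsCyclotomicExtension {n} ℚ K] {p q : ℕ}

/-- `l`-th power congruences are injective: `l` is unramified -/
lemma dvd_of_dvd_pow_sub {l : ℕ} (hl : l.Prime) (hln : IsUnit (l : ZMod n)) (a : ℕ) {X Y : 𝓞 K}
    (h : (l : 𝓞 K) ∣ X ^ l ^ a - Y ^ l ^ a) : (l : 𝓞 K) ∣ X - Y := by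
  have h1 := frob_pow hl hln a X
  have h2 := frob_pow hl hln a Y
  have h3 := dvd_add (dvd_sub h1 h2) h
  have h4 : (l : 𝓞 K) ∣ sg n K (hln.unit ^ a) (X - Y) := by
    rw [map_sub]; convert h3 using 1; ring
  have h5 := map_dvd (sg n K (hln.unit ^ a)⁻¹) h4
  rwa [map_natCast, ← sg_mul, inv_mul_cancel, sg_one] at h5

/-- integer divisibility descends -/
lemma natCast_dvd_descent {k m : ℕ} (h : (k : 𝓞 K) ∣ (m : 𝓞 K)) : k ∣ m := by
  obtain ⟨w, hw⟩ := h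
  have h1 := congrArg N hw
  rw [N_mul, N_natCast, N_natCast] at h1
  exact (Nat.pow_dvd_pow_iff (Module.finrank_pos (R := ℚ) (M := K)).ne').1 ⟨_, h1⟩

omit [NumberField K] in
lemma dvd_of_dvd_natCast_mul {k m : ℕ} (hkm : k.Coprime m) {X : 𝓞 K}
    (h : (k : 𝓞 K) ∣ m * X) : (k : 𝓞 K) ∣ X := by
  obtain ⟨a, b, hab⟩ := Nat.isCoprime_iff_coprime.2 hkm
  have h5 : (1 : 𝓞 K) = (a : 𝓞 K) * (k : 𝓞 K) + b * (m : 𝓞 K) := by
    have := congrArg (Int.cast : ℤ → 𝓞 K) hab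
    push_cast at this ⊢
    exact this.symm
  have h6 : X = k * (a * X) + b * (m * X) := by linear_combination X * h5
  rw [h6]
  exact dvd_add (dvd_mul_right _ _) (h.mul_left _)

/-- `W = ε J ^ y`, `ε` a root of unity -/
lemma WW_eq [Fact p.Prime] {D : Dat n p q} {χ : MulChar (ZMod p) (𝓞 K)}
    (C : Chr K D χ) (h2 : n ≠ 2) {i y : ℕ} (hi : ¬ n ∣ i) (hi1 : ¬ n ∣ i + 1)
    (hy : R q n = p ^ y) :
    ∃ ε : 𝓞 K, ε ^ (2 * n) = 1 ∧ WW n K q i = ε * JJ K χ i ^ y := by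
  obtain ⟨ε, hε⟩ := (span_singleton_eq_span_singleton.1 (span_WW C hi hi1 hy)).symm
  refine ⟨ε, ?_, by rw [← hε, mul_comm]⟩
  refine root_of_norm h2 fun φ => ?_
  have e1 := norm_sq_of_mul_br (WW_mul_br (K := K) (q := q) hi hi1) φ
  have e2 := norm_sq_of_mul_br (JJ_mul_br C hi hi1) φ
  rw [← hε, emb_mul, norm_mul, mul_pow] at e1
  have e3 : ‖φ ((JJ K χ i ^ y : 𝓞 K) : K)‖ ^ 2 = (p : ℝ) ^ y := by
    rw [show ((JJ K χ i ^ y : 𝓞 K) : K) = (JJ K χ i : K) ^ y from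
      map_pow (algebraMap (𝓞 K) K) _ _, map_pow, norm_pow, ← pow_mul, mul_comm, pow_mul, e2]
  rw [e3, hy] at e1
  push_cast at e1
  have hp0 : (p : ℝ) ^ y ≠ 0 := pow_ne_zero _ (Nat.cast_ne_zero.2 D.hp.ne_zero)
  have e4 : ‖φ ((ε : 𝓞 K) : K)‖ ^ 2 = 1 := mul_left_cancel₀ hp0 (by rw [e1, mul_one])
  exact (pow_eq_one_iff_of_nonneg (norm_nonneg _) two_ne_zero).1 e4

/-- `ρ W(1) = conj W(1)` -/
lemma WW_one_br (i : ℕ) :
    ∃ ρ : 𝓞 K, ρ ^ (2 * n) = 1 ∧ ρ * WW n K 1 i = br n K (WW n K 1 i) := by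
  refine ⟨∏ c ∈ AA n i, (-br n K (sg n K c⁻¹ (z n K))), ?_, ?_⟩
  · rw [← Finset.prod_pow]
    refine Finset.prod_eq_one fun c _ => ?_
    have h : (br n K (sg n K c⁻¹ (z n K))) ^ n = 1 := by
      rw [← map_pow, ← map_pow, z_pow, map_one, map_one]
    rw [pow_mul, neg_sq, ← pow_mul, mul_comm 2 n, pow_mul, h, one_pow]
  · rw [WW, map_prod, ← Finset.prod_mul_distrib]
    refine Finset.prod_congr rfl fun c _ => ?_
    have h := congrArg (sg n K c⁻¹) (br_z_mul n K)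
    rw [map_mul, map_one, br, ← sg_mul, mul_comm c⁻¹, sg_mul] at h
    rw [qz, map_sub, map_natCast, Nat.cast_one, map_sub, map_one, br]
    linear_combination h

/-- Main local theorem: if `l ∤ n - 1` and `l ^ b` exactly divides `q - 1`, `b ≥ 1`, and the
exponent is divisible by `l ^ a`, then `a < b`. -/
theorem lt_of_pow [Fact p.Prime] (D : Dat n p q) (hpn : n ∣ p - 1) (h2 : n ≠ 2)
    {l a b t : ℕ} (hl : l.Prime) (hl2 : l ≠ 2) (hln : l ≠ n) (hln1 : ¬ l ∣ n - 1)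
    (hR : R q n = p ^ (t * l ^ a)) (hb : 1 ≤ b) (hbq : l ^ b ∣ q - 1)
    (hbq' : ¬ l ^ (b + 1) ∣ q - 1)
    (K : Type*) [Field K] [NumberField K] [hK : IsCyclotomicExtension {n} ℚ K] : a < b := by
  by_contra hab
  push Not at hab
  have hn1 := hn.out.one_lt
  have hq1 : 1 ≤ q := D.hq.one_lt.le
  obtain ⟨χ, h1, h3, h4⟩ := exists_char K D hpn
  have C : Chr K D χ := ⟨hpn, h1, h3, h4⟩
  have hi : ¬ n ∣ 1 := fun h => hn1.ne' (Nat.dvd_one.1 h)
  have hi1 : ¬ n ∣ 1 + 1 := fun h => by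
    have := Nat.le_of_dvd two_pos h; omega
  have hlu : IsUnit (l : ZMod n) := by
    rw [ZMod.isUnit_iff_coprime]; exact (Nat.coprime_primes hl hn.out).2 hln
  have h2n : 2 * n ≠ 0 := mul_ne_zero two_ne_zero hn.out.ne_zero
  obtain ⟨ε, hε, hW⟩ := WW_eq C h2 hi hi1 hR
  obtain ⟨ρ, hρ, hρW⟩ := WW_one_br (n := n) (K := K) 1
  set W := WW n K q 1 with hWdef
  set W1 := WW n K 1 1 with hW1def
  set J := JJ K χ 1 with hJdef
  set S := SS n K with hSdef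
  set Q : 𝓞 K := (q : 𝓞 K) - 1 with hQ
  set A := (AA n 1).card with hA
  have hQn : Q = ((q - 1 : ℕ) : 𝓞 K) := by rw [hQ, Nat.cast_sub hq1, Nat.cast_one]
  -- expansion of `W`
  have e1 : Q ^ 2 ∣ n ^ (A + 1) * W - W1 * (n ^ A * (n - Q * S)) := exp3 n K q (AA n 1)
  have e2 : Q ^ 2 ∣ n ^ (A + 1) * br n K W - br n K W1 * (n ^ A * (n - Q * br n K S)) := by
    have := map_dvd (br n K) e1
    simpa only [map_pow, map_sub, map_mul, map_natCast, hQ, map_one] using this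
  -- combine
  have e3 : Q ^ 2 ∣ n ^ (A + 1) * (ρ * W - br n K W) +
      br n K W1 * (n ^ A * (Q * (S - br n K S))) := by
    have h5 := dvd_sub (e1.mul_left ρ) e2
    convert h5 using 1
    linear_combination (n : 𝓞 K) ^ A * (n - Q * S) * hρW
  have hlQ : ((l ^ b : ℕ) : 𝓞 K) ∣ Q := by
    rw [hQn]; exact Nat.cast_dvd_cast hbq
  have hlQ2 : ((l ^ (b + 1) : ℕ) : 𝓞 K) ∣ Q ^ 2 := by
    have h5 : ((l ^ (b + 1) : ℕ) : 𝓞 K) ∣ ((l ^ b : ℕ) : 𝓞 K) * ((l ^ b : ℕ) : 𝓞 K) := by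
      rw [← Nat.cast_mul, ← pow_add]
      exact Nat.cast_dvd_cast (pow_dvd_pow _ (by omega))
    rw [sq]; exact h5.trans (mul_dvd_mul hlQ hlQ)
  have hcop : ∀ k m : ℕ, (l ^ k).Coprime (n ^ m) := fun k m =>
    ((Nat.coprime_primes hl hn.out).2 hln).pow k m
  -- `l ^ b` divides `ρ W - conj W`
  have e4 : ((l ^ b : ℕ) : 𝓞 K) ∣ ρ * W - br n K W := by
    have h5 : ((l ^ b : ℕ) : 𝓞 K) ∣ n ^ (A + 1) * (ρ * W - br n K W) := by
      have h6 : ((l ^ b : ℕ) : 𝓞 K) ∣ Q ^ 2 :=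
        (Nat.cast_dvd_cast (pow_dvd_pow l (Nat.le_succ b))).trans hlQ2
      have h7 := dvd_sub (h6.trans e3) (((hlQ.mul_right (S - br n K S)).mul_left
        ((n : 𝓞 K) ^ A)).mul_left (br n K W1))
      convert h7 using 1; ring
    rw [← Nat.cast_pow] at h5
    exact dvd_of_dvd_natCast_mul (hcop _ _) h5
  -- rewrite through `J`
  obtain ⟨s, hs⟩ : ∃ s : ℕ, ∃ r : ℕ, l ^ a * s = 1 + 2 * n * r := by
    have hl2n : (l ^ a).Coprime (2 * n) := by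
      apply Nat.Coprime.pow_left
      refine Nat.Coprime.mul_right ?_ ((Nat.coprime_primes hl hn.out).2 hln)
      exact (Nat.coprime_primes hl Nat.prime_two).2 hl2
    have h5 : IsUnit ((l ^ a : ℕ) : ZMod (2 * n)) := (ZMod.isUnit_iff_coprime _ _).2 hl2n
    obtain ⟨u, hu⟩ := h5.exists_right_inv
    have : NeZero (2 * n) := ⟨h2n⟩
    have h6 : (l ^ a * u.val) % (2 * n) = 1 % (2 * n) := by
      rw [← ZMod.natCast_eq_natCast_iff', Nat.cast_mul, ZMod.natCast_zmod_val, hu, Nat.cast_one]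
    have h7 : 1 % (2 * n) = 1 := Nat.mod_eq_of_lt (by omega)
    refine ⟨u.val, (l ^ a * u.val) / (2 * n), ?_⟩
    have h8 := Nat.mod_add_div (l ^ a * u.val) (2 * n)
    rw [h6, h7] at h8; exact h8.symm
  set η := br n K ε with hη
  have hη1 : η ^ (2 * n) = 1 := by rw [hη, ← map_pow, hε, map_one]
  set κ : 𝓞 K := ρ * ε * η ^ (2 * n - 1) with hκ
  have hκ1 : κ ^ (2 * n) = 1 := by
    rw [hκ, mul_pow, mul_pow, hρ, hε, ← pow_mul, mul_comm (2 * n - 1), pow_mul, hη1, one_pow,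
      mul_one, mul_one]
  have hκη : η * κ = ρ * ε := by
    have h5 : η * η ^ (2 * n - 1) = 1 := by
      rw [← pow_succ', Nat.sub_add_cancel (by omega), hη1]
    rw [hκ]; linear_combination ρ * ε * h5
  set β : 𝓞 K := κ ^ s * J ^ t with hβ
  set γ : 𝓞 K := br n K J ^ t with hγ
  have hβp : β ^ l ^ a = κ * J ^ (t * l ^ a) := by
    obtain ⟨r, hr⟩ := hs
    rw [hβ, mul_pow, ← pow_mul, mul_comm s, hr, pow_add, pow_one, pow_mul, hκ1, one_pow, mul_one,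
      ← pow_mul]
  have hγp : γ ^ l ^ a = br n K J ^ (t * l ^ a) := by rw [hγ, ← pow_mul]
  have e5 : ρ * W - br n K W = η * (β ^ l ^ a - γ ^ l ^ a) := by
    rw [hW, map_mul, map_pow, hβp, hγp, ← hη]
    linear_combination (-J ^ (t * l ^ a)) * hκη
  have hηu : IsUnit η := isUnit_of_root K h2n hη1
  have e6 : (l : 𝓞 K) ∣ β ^ l ^ a - γ ^ l ^ a := by
    rw [e5, hηu.dvd_mul_left] at e4
    refine dvd_trans ?_ e4
    exact Nat.cast_dvd_cast (dvd_pow_self l (by omega))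
  have e7 := dvd_of_dvd_pow_sub hl hlu a e6
  have e8 := dvd_sub_pow_of_dvd_sub e7 a
  have e9 : ((l ^ (b + 1) : ℕ) : 𝓞 K) ∣ ρ * W - br n K W := by
    rw [e5]
    refine Dvd.dvd.mul_left (dvd_trans ?_ e8) _
    rw [Nat.cast_pow]
    exact pow_dvd_pow _ (by omega)
  -- therefore `l ^ (b + 1)` divides the linear term
  have e10 : ((l ^ (b + 1) : ℕ) : 𝓞 K) ∣ br n K W1 * (n ^ A * (Q * (S - br n K S))) := by
    have h5 := dvd_sub (hlQ2.trans e3) (e9.mul_left ((n : 𝓞 K) ^ (A + 1)))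
    convert h5 using 1; ring
  have hWW : W1 * br n K W1 = (n : 𝓞 K) := by
    have h5 := WW_mul_br (n := n) (K := K) (q := 1) hi hi1
    rw [hW1def, h5]; simp [R]
  have e11 : ((l ^ (b + 1) : ℕ) : 𝓞 K) ∣ ((n ^ (A + 1) * (q - 1) : ℕ) : 𝓞 K) *
      ((S - br n K S) * z n K ^ (-(2 : ZMod n)).val) := by
    have h5 := (e10.mul_left W1).mul_right (z n K ^ (-(2 : ZMod n)).val)
    convert h5 using 1
    push_cast
    rw [← hQn, pow_succ]
    linear_combination (-(n : 𝓞 K) ^ A * Q * (S - br n K S) * z n K ^ (-(2 : ZMod n)).val) * hWW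
  have e12 : ((l ^ (b + 1) : ℕ) : 𝓞 K) ∣ ((n ^ (A + 1) * (q - 1) : ℕ) : 𝓞 K) *
      ((n : 𝓞 K) * (((n - 1) / 2 : ℕ) : 𝓞 K)) := by
    rw [← tr_SS n K h2, ← tr_natCast_mul]
    obtain ⟨w, hw⟩ := e11
    exact ⟨tr n K w, by rw [hw, tr_natCast_mul]⟩
  have e13 : l ^ (b + 1) ∣ (q - 1) * ((n - 1) / 2) * n ^ (A + 2) := by
    apply natCast_dvd_descent (K := K)
    convert e12 using 1
    push_cast; ring
  have e14 := (hcop (b + 1) (A + 2)).dvd_of_dvd_mul_right e13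
  have hodd : Odd n := hn.out.eq_two_or_odd'.resolve_left h2
  have h15 : (l ^ (b + 1)).Coprime ((n - 1) / 2) := by
    apply Nat.Coprime.pow_left
    rw [Nat.Prime.coprime_iff_not_dvd hl]
    intro h5
    apply hln1
    obtain ⟨m, hm⟩ := hodd
    have h6 : n - 1 = (n - 1) / 2 * 2 := by omega
    rw [h6]; exact h5.mul_right _
  exact hbq' (h15.dvd_of_dvd_mul_right e14)

end

end Pool.Agent.Edg
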