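import Pool.Agent.Edg.Tor
import Pool.Agent.Edg.Wie2

/-!
Principal ideals with small exponent vectors: the key inequality.
-/

namespace Pool.Agent.Edg

open NumberField Ideal Polynomial

noncomputable section

variable {n : ℕ} [hn : Fact n.Prime] {K : Type*} [Field K] [NumberField K]
  [hK : IsCyclotomicExtension {n} ℚ K] {p q : ℕ}

/-- product of powers of the conjugates of `q - z` -/
def QQ (n : ℕ) [hn : Fact n.Prime] (K : Type*) [Field K] [NumberField K]
    [hK : IsCyclotomicExtension {n} ℚ K] (q : ℕ) (m : (ZMod n)ˣ → ℕ) : 𝓞 K :=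
  ∏ c, qz n K q c ^ m c

omit [NumberField K] in
lemma span_prod' {ι : Type*} (A : Finset ι) (f : ι → 𝓞 K) :
    span {∏ c ∈ A, f c} = ∏ c ∈ A, span {f c} := by
  classical
  induction A using Finset.induction_on with
  | empty => rw [Finset.prod_empty, Finset.prod_empty, span_singleton_one, one_eq_top]
  | insert a s ha ih =>
    rw [Finset.prod_insert ha, Finset.prod_insert ha, ← ih, span_singleton_mul_span_singleton]

lemma span_QQ [Fact p.Prime] (D : Dat n p q) {y : ℕ} (hy : R q n = p ^ y)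
    (m : (ZMod n)ˣ → ℕ) : span {QQ n K q m} = II K D (fun c => y * m c) := by
  rw [QQ, span_prod', II]
  refine Finset.prod_congr rfl fun c _ => ?_
  rw [← span_singleton_pow, span_qz K D hy, ← pow_mul]

lemma root_mul_br {ρ : 𝓞 K} (hρ : ρ ^ (2 * n) = 1) : ρ * br n K ρ = 1 := by
  have h2n : 2 * n ≠ 0 := mul_ne_zero two_ne_zero hn.out.ne_zero
  obtain ⟨φ⟩ : Nonempty (K →+* ℂ) := inferInstance
  have h1 : φ ((ρ * br n K ρ : 𝓞 K) : K) = φ ((1 : 𝓞 K) : K) := by
    rw [emb_mul, emb_br, Complex.mul_conj, Complex.normSq_eq_norm_sq, norm_root h2n hρ]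
    simp
  exact RingOfIntegers.coe_injective (φ.injective h1)

omit [NumberField K] in
lemma prod_pow_cong {ι : Type*} (A : Finset ι) (f g : ι → 𝓞 K) (m : ι → ℕ) {M : 𝓞 K}
    (h : ∀ c ∈ A, M ∣ f c - g c) : M ∣ ∏ c ∈ A, f c ^ m c - ∏ c ∈ A, g c ^ m c := by
  classical
  induction A using Finset.induction_on with
  | empty => simp
  | insert a s ha ih =>
    rw [Finset.prod_insert ha, Finset.prod_insert ha]
    have h1 := ih fun c hc => h c (Finset.mem_insert_of_mem hc)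
    have h2 : M ∣ f a ^ m a - g a ^ m a :=
      (h a (Finset.mem_insert_self a s)).trans (sub_dvd_pow_sub_pow _ _ _)
    have h3 := dvd_add (h2.mul_right (∏ c ∈ s, f c ^ m c)) (h1.mul_left (g a ^ m a))
    convert h3 using 1; ring

lemma QQ_cong (q : ℕ) (m : (ZMod n)ˣ → ℕ) :
    ∃ s : 𝓞 K, s ^ (2 * n) = 1 ∧ (q : 𝓞 K) ∣ QQ n K q m - s := by
  refine ⟨∏ c, (-sg n K c⁻¹ (z n K)) ^ m c, ?_, ?_⟩
  · rw [← Finset.prod_pow]
    refine Finset.prod_eq_one fun c _ => ?_
    have h : (sg n K c⁻¹ (z n K)) ^ n = 1 := by rw [← map_pow, z_pow, map_one]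
    have h3 : (-sg n K c⁻¹ (z n K)) ^ (2 * n) = 1 := by
      rw [pow_mul, neg_sq, ← pow_mul, mul_comm 2 n, pow_mul, h, one_pow]
    rw [← pow_mul, mul_comm, pow_mul, h3, one_pow]
  · refine prod_pow_cong _ _ _ _ fun c _ => ?_
    rw [qz, map_sub, map_natCast]; exact ⟨1, by ring⟩

omit [NumberField K] in
lemma span_mul_root {s x : 𝓞 K} (hs : IsUnit s) : span {s * x} = span {x} :=
  (span_singleton_mul_left_unit hs x)

/-- the exponent vector attached to an integer vector -/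
def mv (d : ℕ) (v : (ZMod n)ˣ → ℤ) (c : (ZMod n)ˣ) : ℕ := (v c + d * |v c|).toNat

lemma mv_eq {d : ℕ} (hd : 1 ≤ d) (v : (ZMod n)ˣ → ℤ) (c : (ZMod n)ˣ) :
    (mv d v c : ℤ) = v c + d * (v c).natAbs := by
  rw [mv, Int.natCast_natAbs, Int.toNat_of_nonneg]
  have h1 := neg_abs_le (v c)
  have h2 := abs_nonneg (v c)
  have h3 : (1 : ℤ) ≤ d := by exact_mod_cast hd
  nlinarith

/-- first consequence of a principal ideal -/
lemma cong_first [Fact p.Prime] (D : Dat n p q) (h2 : n ≠ 2) {d t : ℕ}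
    (hdn : d.Coprime (2 * n)) (hR : R q n = p ^ (d * t)) {m : (ZMod n)ˣ → ℕ} {α : 𝓞 K}
    (hα : span {α} = II K D (fun c => t * m c)) :
    ∃ ρ : 𝓞 K, ρ ^ (2 * n) = 1 ∧ (q : 𝓞 K) ∣ (ρ * α) ^ d - (br n K α) ^ d := by
  have h1 : span {QQ n K q m} = span {α ^ d} := by
    rw [span_QQ D hR, ← span_singleton_pow, hα, II, II, ← Finset.prod_pow]
    refine Finset.prod_congr rfl fun c _ => ?_
    rw [← pow_mul]; congr 1; ring
  obtain ⟨ε, hε⟩ := (span_singleton_eq_span_singleton.1 h1).symm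
  have hW : QQ n K q m = (ε : 𝓞 K) * α ^ d := by rw [← hε, mul_comm]
  obtain ⟨s, hs, hQs⟩ := QQ_cong (K := K) q m
  have hsb := root_mul_br hs
  have hw : (s ^ 2) ^ (2 * n) = 1 := by rw [← pow_mul, mul_comm 2 (2 * n), pow_mul, hs, one_pow]
  have hWw : (q : 𝓞 K) ∣ QQ n K q m - s ^ 2 * br n K (QQ n K q m) := by
    have h3 := map_dvd (br n K) hQs
    rw [map_natCast, map_sub] at h3
    have h4 := dvd_sub hQs (h3.mul_left (s ^ 2))
    convert h4 using 1
    linear_combination (-s) * hsb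
  exact key1 h2 hdn ε.isUnit hW hw hWw

/-- the inequality in the general case -/
theorem key_gen [Fact p.Prime] (D : Dat n p q) (h2 : n ≠ 2) (hpq : p ≠ q)
    (hqn : IsUnit (q : ZMod n)) {d t : ℕ} (hd1 : 1 ≤ d) (ht : t ≠ 0)
    (hdn : d.Coprime (2 * n)) (hdq : d ∣ q - 1)
    (hR : R q n = p ^ (d * t)) {v : (ZMod n)ˣ → ℤ} {α : 𝓞 K}
    (hα : span {α} = II K D (fun c => t * mv d v c)) {F : (ZMod n)ˣ → ℤ}
    (hF : ∀ c, F c = v (c * hqn.unit) - v (-(c * hqn.unit)) - v c + v (-c)) {c₀ : (ZMod n)ˣ}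
    (hF0 : F c₀ ≠ 0) :
    q ^ (n - 1) ≤ 2 ^ (n - 1) * p ^ (t * ∑ c, (F c).toNat) := by
  have h2n : 2 * n ≠ 0 := mul_ne_zero two_ne_zero hn.out.ne_zero
  obtain ⟨ρ, hρ, hd⟩ := cong_first D h2 hdn hR hα
  have hk2 := key2 (k := 1) D.hq hqn (by rw [pow_one]; exact hdq) hd
  rw [pow_one] at hk2
  set u := hqn.unit with hu
  set kk : (ZMod n)ˣ → ℕ := fun c => (v c).natAbs with hkk
  set g : 𝓞 K := QQ n K q kk with hg
  have hgs : span {g} = II K D (fun c => d * t * kk c) := span_QQ D hR kk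
  obtain ⟨s, hs, hgq⟩ := QQ_cong (K := K) q kk
  have hsb := root_mul_br hs
  have hsu : sg n K u s * sg n K u (br n K s) = 1 := by rw [← map_mul, hsb, map_one]
  have hgq1 : (q : 𝓞 K) ∣ br n K g - br n K s := by
    have := map_dvd (br n K) hgq
    rwa [map_natCast, map_sub] at this
  have hgq2 : (q : 𝓞 K) ∣ sg n K u g - sg n K u s := by
    have := map_dvd (sg n K u) hgq
    rwa [map_natCast, map_sub] at this
  have hgq3 : (q : 𝓞 K) ∣ sg n K u (br n K g) - sg n K u (br n K s) := by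
    have := map_dvd (sg n K u) hgq1
    rwa [map_natCast, map_sub] at this
  set κ : 𝓞 K := (sg n K u (br n K s) * s) ^ 2 with hκ
  have hκ1 : κ ^ (2 * n) = 1 := by
    rw [hκ, ← pow_mul, mul_comm 2 (2 * n), pow_mul, mul_pow, ← map_pow, ← map_pow, hs, map_one,
      map_one, one_mul, one_pow]
  -- the two sides
  set A : 𝓞 K := sg n K u (ρ * α) * br n K α with hA
  set B : 𝓞 K := sg n K u (br n K α) * (ρ * α) with hB
  set G1 : 𝓞 K := sg n K u (br n K g) * g with hG1
  set G2 : 𝓞 K := sg n K u g * br n K g with hG2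
  have hG : (q : 𝓞 K) ∣ G1 - κ * G2 := by
    have e1 : (q : 𝓞 K) ∣ G1 - sg n K u (br n K s) * s := by
      have := dvd_add (hgq3.mul_right g) (hgq.mul_left (sg n K u (br n K s)))
      convert this using 1; ring
    have e2 : (q : 𝓞 K) ∣ G2 - sg n K u s * br n K s := by
      have := dvd_add (hgq2.mul_right (br n K g)) (hgq1.mul_left (sg n K u s))
      convert this using 1; ring
    have e3 := dvd_sub e1 (e2.mul_left κ)
    convert e3 using 1
    rw [hκ]
    linear_combination (-(sg n K u (br n K s)) * s ) *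
      ((sg n K u s * sg n K u (br n K s)) * hsb + hsu)
  have hXY : (q : 𝓞 K) ∣ A * G1 - κ * B * G2 := by
    have := dvd_add (hk2.mul_right G1) (hG.mul_left B)
    convert this using 1; ring
  -- absolute values
  have habs : ∀ φ : K →+* ℂ, ‖φ ((A * G1 : 𝓞 K) : K)‖ = ‖φ ((κ * B * G2 : 𝓞 K) : K)‖ := by
    intro φ
    have e1 : ‖φ (κ : K)‖ = 1 := norm_root h2n hκ1 φ
    have e2 : ∀ x : 𝓞 K, ‖φ (sg n K u (br n K x) : K)‖ = ‖φ (sg n K u x : K)‖ := fun x =>
      norm_emb_sg_eq (fun ψ => norm_emb_br ψ x) φ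
    have e3 : ‖φ (sg n K u (ρ * α) : K)‖ = ‖φ (sg n K u α : K)‖ := by
      rw [norm_emb_sg_eq (b := br n K α) (fun ψ => norm_rho K hρ ψ) φ, e2]
    have e4 : ‖φ ((ρ * α : 𝓞 K) : K)‖ = ‖φ (α : K)‖ := by
      rw [norm_rho K hρ, norm_emb_br]
    have eρ : ‖φ (ρ : K)‖ = 1 := norm_root h2n hρ φ
    have e5 : ‖φ (A : K)‖ = ‖φ (sg n K u α : K)‖ * ‖φ (α : K)‖ := by
      rw [hA, emb_mul, norm_mul, e3, norm_emb_br]
    have e6 : ‖φ (B : K)‖ = ‖φ (sg n K u α : K)‖ * ‖φ (α : K)‖ := by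
      rw [hB, emb_mul, norm_mul, e2, e4]
    have e7 : ‖φ (G1 : K)‖ = ‖φ (sg n K u g : K)‖ * ‖φ (g : K)‖ := by
      rw [hG1, emb_mul, norm_mul, e2]
    have e8 : ‖φ (G2 : K)‖ = ‖φ (sg n K u g : K)‖ * ‖φ (g : K)‖ := by
      rw [hG2, emb_mul, norm_mul, norm_emb_br]
    rw [emb_mul φ A G1, norm_mul, emb_mul φ (κ * B) G2, norm_mul, emb_mul φ κ B, norm_mul, e1,
      e5, e6, e7, e8, one_mul]
  -- ideals
  have hm1 : ∀ w : (ZMod n)ˣ, span {sg n K w α} = II K D (fun c => t * mv d v (c * w)) :=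
    fun w => span_sg_II D hα w
  have hg1 : ∀ w : (ZMod n)ˣ, span {sg n K w g} = II K D (fun c => d * t * kk (c * w)) :=
    fun w => span_sg_II D hgs w
  have hρu : IsUnit ρ := isUnit_of_root K h2n hρ
  have hκu : IsUnit κ := isUnit_of_root K h2n hκ1
  have hbs : ∀ x : 𝓞 K, sg n K u (br n K x) = sg n K (u * -1) x := fun x => by
    rw [br, ← sg_mul]
  have hX : span {A * G1} = II K D (fun c => (t * mv d v (c * u) + t * mv d v (c * -1)) +
      (d * t * kk (c * (u * -1)) + d * t * kk (c * 1))) := by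
    rw [II_add, II_add, II_add, ← hm1, ← hm1, ← hg1, ← hg1, span_singleton_mul_span_singleton,
      span_singleton_mul_span_singleton, span_singleton_mul_span_singleton, sg_one]
    have e5 : A * G1 = sg n K u ρ * (sg n K u α * sg n K (-1) α * (sg n K (u * -1) g * g)) := by
      rw [hA, hG1, map_mul, hbs g, br]; ring
    rw [e5, span_mul_root (hρu.map (sg n K u))]
  have hY : span {κ * B * G2} = II K D (fun c => (t * mv d v (c * (u * -1)) +
      t * mv d v (c * 1)) + (d * t * kk (c * u) + d * t * kk (c * -1))) := by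
    have e5 : κ * B * G2 = (κ * ρ) * ((sg n K (u * -1) α * α) * G2) := by
      rw [hB, hbs]; ring
    rw [II_add, II_add, II_add, ← hm1, ← hm1, ← hg1, ← hg1, span_singleton_mul_span_singleton,
      span_singleton_mul_span_singleton, span_singleton_mul_span_singleton, e5,
      span_mul_root (hκu.mul hρu), sg_one, hG2]
    rfl
  have hdiff : ∀ c, (((t * mv d v (c * u) + t * mv d v (c * -1)) +
      (d * t * kk (c * (u * -1)) + d * t * kk (c * 1)) : ℕ) : ℤ) -
      (((t * mv d v (c * (u * -1)) +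
      t * mv d v (c * 1)) + (d * t * kk (c * u) + d * t * kk (c * -1)) : ℕ) : ℤ) = t * F c := by
    intro c
    rw [hF, show c * (u * -1) = -(c * u) by rw [← mul_assoc, mul_neg_one], mul_one, mul_neg_one]
    push_cast
    rw [mv_eq hd1, mv_eq hd1, mv_eq hd1, mv_eq hd1]
    ring
  have hsz := size_II D hpq hX hY (by
    intro he
    have h5 := hdiff c₀
    have h6 := congrFun he c₀
    rw [h6, sub_self] at h5
    rcases mul_eq_zero.1 h5.symm with h7 | h7
    · exact ht (by exact_mod_cast h7)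
    · exact hF0 h7) hXY habs
  refine hsz.trans (Nat.mul_le_mul_left _ (Nat.pow_le_pow_right D.hp.pos ?_))
  rw [Finset.mul_sum]
  refine Finset.sum_le_sum fun c _ => ?_
  have h5 := hdiff c
  zify
  rcases le_total (F c) 0 with h6 | h6
  · have h7 : (t : ℤ) * F c ≤ 0 := mul_nonpos_of_nonneg_of_nonpos (Int.natCast_nonneg _) h6
    have h8 : ((t * mv d v (c * u) + t * mv d v (c * -1)) +
      (d * t * kk (c * (u * -1)) + d * t * kk (c * 1)) : ℕ) -
      ((t * mv d v (c * (u * -1)) +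
      t * mv d v (c * 1)) + (d * t * kk (c * u) + d * t * kk (c * -1)) : ℕ) = 0 := by omega
    rw [h8]; positivity
  · rw [Int.toNat_of_nonneg h6]
    have h7 : 0 ≤ (t : ℤ) * F c := mul_nonneg (Int.natCast_nonneg _) h6
    omega

end

end Pool.Agent.Edg
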