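import Pool.Agent.Edg.Tor2
import Pool.Agent.Edg.Spec7

/-!
The even case: `q = n` or `-1` is a power of `q` modulo `n`.
-/

namespace Pool.Agent.Edg

open NumberField Ideal Polynomial

noncomputable section

variable {n : ℕ} [hn : Fact n.Prime] {K : Type*} [Field K] [NumberField K]
  [hK : IsCyclotomicExtension {n} ℚ K] {p q : ℕ}

/-- the case `q = n`: the congruence descends -/
lemma cong_N (D : Dat n p n) (h2 : n ≠ 2) (hpn : p ≠ n)
    {l t : ℕ} (hlo : Odd l) (hl1 : l ∣ n - 1) {α ρ : 𝓞 K} (hNα : N α = p ^ t)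
    (hρ : ρ ^ (2 * n) = 1) (hd : (n : 𝓞 K) ∣ (ρ * α) ^ l - (br n K α) ^ l) :
    (n : 𝓞 K) ∣ ρ * α - br n K α := by
  -- reduction to rational integers
  have hpow : ∀ (x : 𝓞 K) (a : ℤ), (1 - z n K) ∣ x - (a : 𝓞 K) →
      (n : 𝓞 K) ∣ x ^ n - (a : 𝓞 K) ^ n := by
    intro x a ⟨w, hw⟩
    have : CharP (𝓞 K ⧸ span {(n : 𝓞 K)}) n := by
      refine CharP.quotient (𝓞 K) n ?_
      intro hu
      have h1 : N (n : 𝓞 K) = 1 := by
        rw [N, absNorm_eq_one_iff, span_singleton_eq_top]; exact hu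
      rw [N_natCast, finrank_K n K] at h1
      have h2 : n - 1 ≠ 0 := by have := hn.out.one_lt; omega
      exact hn.out.one_lt.ne' ((Nat.pow_eq_one.1 h1).resolve_right h2)
    rw [← mem_span_singleton, ← Ideal.Quotient.eq]
    have h1 : x = (a : 𝓞 K) + (1 - z n K) * w := by rw [← hw]; ring
    have h3 := congrArg (Ideal.Quotient.mk (span {(n : 𝓞 K)})) h1
    have h4 : (Ideal.Quotient.mk (span {(n : 𝓞 K)}) x) ^ n =
        (Ideal.Quotient.mk (span {(n : 𝓞 K)}) (a : 𝓞 K)) ^ n := by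
      have hz : (Ideal.Quotient.mk (span {(n : 𝓞 K)}) (z n K)) ^ n = 1 := by
        rw [← map_pow, z_pow, map_one]
      rw [h3, map_add, add_pow_char, map_mul, mul_pow, map_sub, sub_pow_char, hz, map_one,
        one_pow, sub_self, zero_mul, add_zero]
    rw [map_pow, map_pow]; exact h4
  have hNz : N (1 - z n K) = n := by
    have h := N_sub n K 1
    rw [Nat.cast_one] at h
    rw [h]; simp [R]
  have hint : ∀ m : ℤ, (1 - z n K) ∣ (m : 𝓞 K) → (n : ℤ) ∣ m := by
    intro m hm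
    have h1 : N (1 - z n K) ∣ N (m : 𝓞 K) := by
      obtain ⟨c, hc⟩ := hm
      rw [hc, N_mul]; exact dvd_mul_right _ _
    have h3 : N (m : 𝓞 K) = m.natAbs ^ (n - 1) := by
      have h4 : N (m : 𝓞 K) = N ((m.natAbs : ℕ) : 𝓞 K) := by
        rw [N, N]
        rcases Int.natAbs_eq m with h5 | h5
        · conv_lhs => rw [h5]
          rw [Int.cast_natCast]
        · conv_lhs => rw [h5]
          rw [Int.cast_neg, Int.cast_natCast, span_singleton_neg]
      rw [h4, N_natCast, finrank_K n K]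
    rw [hNz, h3] at h1
    exact Int.natCast_dvd.2 (hn.out.dvd_of_dvd_pow h1)
  set a : 𝓞 K := ρ * α with ha
  set b : 𝓞 K := br n K α with hb
  obtain ⟨A, hA⟩ := exists_int n K 1 a
  obtain ⟨B, hB⟩ := exists_int n K 1 b
  rw [Nat.cast_one] at hA hB
  have hz1 : ∀ i : ℕ, (1 - z n K) ∣ z n K ^ i - 1 := by
    intro i
    have h := sub_dvd_pow_sub_pow (z n K) 1 i
    rw [one_pow] at h
    have h' := neg_dvd.2 h
    rwa [neg_sub] at h'
  have hρ2 : (1 - z n K) ∣ ρ ^ 2 - 1 := by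
    have h1 : (ρ ^ 2) ^ n = 1 := by rw [← pow_mul, hρ]
    obtain ⟨i, -, hi⟩ := (z_prim n K).eq_pow_of_pow_eq_one h1
    rw [← hi]; exact hz1 i
  have hbr : (1 - z n K) ∣ b - α := by
    have key : (Ideal.Quotient.mk (span {1 - z n K})).comp (br n K) =
        Ideal.Quotient.mk (span {1 - z n K}) := by
      refine hom_ext n K ?_
      rw [RingHom.comp_apply, br, sg_z, Ideal.Quotient.eq, mem_span_singleton]
      have h := dvd_sub (hz1 ((-1 : (ZMod n)ˣ) : ZMod n).val) (hz1 1)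
      rw [pow_one] at h
      convert h using 1; ring
    have h1 := congrArg (fun f => f α) key
    simp only [RingHom.comp_apply] at h1
    rwa [Ideal.Quotient.eq, mem_span_singleton] at h1
  have hAB : (n : ℤ) ∣ A ^ 2 - B ^ 2 := by
    apply hint
    have e1 : ((A ^ 2 - B ^ 2 : ℤ) : 𝓞 K) = -((a - A) * (a + A)) + (b - B) * (b + B) +
        ((ρ ^ 2 - 1) * α ^ 2 - (b - α) * (b + α)) := by
      rw [ha]; push_cast; ring
    rw [e1]
    exact dvd_add (dvd_add ((hA.mul_right _).neg_right) (hB.mul_right _))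
      (dvd_sub (hρ2.mul_right _) (hbr.mul_right _))
  have hfer : ∀ m : ℤ, (n : 𝓞 K) ∣ (m : 𝓞 K) ^ n - m := by
    intro m
    have h1 : (n : ℤ) ∣ m ^ n - m := by
      rw [← ZMod.intCast_zmod_eq_zero_iff_dvd]
      push_cast
      rw [ZMod.pow_card, sub_self]
    have h3 := map_dvd (Int.castRingHom (𝓞 K)) h1
    simpa using h3
  have h3 : (n : 𝓞 K) ∣ a ^ n * b - b ^ n * a := by
    obtain ⟨m, hm⟩ := hl1
    have h1 : (n : 𝓞 K) ∣ a ^ (n - 1) - b ^ (n - 1) := by
      rw [hm, pow_mul, pow_mul]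
      exact hd.trans (sub_dvd_pow_sub_pow _ _ _)
    have h5 := h1.mul_right (a * b)
    convert h5 using 1
    have e : ∀ x : 𝓞 K, x ^ n = x ^ (n - 1) * x := fun x => by
      rw [← pow_succ, Nat.sub_add_cancel hn.out.one_lt.le]
    rw [e, e]; ring
  have h4 : (n : 𝓞 K) ∣ (A : 𝓞 K) * b - B * a := by
    have h5 := dvd_sub h3 ((hpow a A hA).mul_right b)
    have h6 := dvd_add h5 ((hpow b B hB).mul_right a)
    have h7 := dvd_sub h6 ((hfer A).mul_right b)
    have h8 := dvd_add h7 ((hfer B).mul_right a)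
    convert h8 using 1; ring
  have hNb : N b = p ^ t := by rw [hb, N_br, hNα]
  have hBn : ¬ (n : ℤ) ∣ B := by
    intro h5
    have h6 : (1 - z n K) ∣ b := by
      obtain ⟨c, rfl⟩ := h5
      have h7 : (1 - z n K) ∣ (n : 𝓞 K) := by
        have h8 := prod_conj n K 1
        rw [show R 1 n = n by simp [R]] at h8
        rw [← h8, Nat.cast_one]
        refine (dvd_of_eq ?_).trans (Finset.dvd_prod_of_mem _ (Finset.mem_univ (1 : (ZMod n)ˣ)))
        rw [Units.val_one, z_pow_one_val]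
      have h9 := dvd_add hB (h7.mul_right (c : 𝓞 K))
      convert h9 using 1
      push_cast; ring
    have h7 : N (1 - z n K) ∣ N b := by
      obtain ⟨c, hc⟩ := h6
      rw [hc, N_mul]; exact dvd_mul_right _ _
    rw [hNz, hNb] at h7
    exact hpn ((Nat.prime_dvd_prime_iff_eq hn.out D.hp).1 (hn.out.dvd_of_dvd_pow h7)).symm
  obtain ⟨B', hB'⟩ : ∃ B' : ℤ, (n : ℤ) ∣ B * B' - 1 := by
    have h5 : IsUnit (B : ZMod n) := by
      rw [isUnit_iff_ne_zero, Ne, ZMod.intCast_zmod_eq_zero_iff_dvd]; exact hBn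
    obtain ⟨u, hu⟩ := h5.exists_right_inv
    refine ⟨(u.val : ℤ), ?_⟩
    rw [← ZMod.intCast_zmod_eq_zero_iff_dvd]
    push_cast
    rw [ZMod.natCast_zmod_val, hu, sub_self]
  have hB'O : (n : 𝓞 K) ∣ (B : 𝓞 K) * B' - 1 := by
    have h5 := map_dvd (Int.castRingHom (𝓞 K)) hB'
    simpa using h5
  have hfac : (n : ℤ) ∣ (A - B) * (A + B) := by
    have : A ^ 2 - B ^ 2 = (A - B) * (A + B) := by ring
    rwa [← this]
  rcases (Nat.prime_iff_prime_int.1 hn.out).dvd_or_dvd hfac with h5 | h5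
  · have h6 := map_dvd (Int.castRingHom (𝓞 K)) h5
    simp only [map_natCast, map_sub, eq_intCast] at h6
    have h8 := (dvd_sub (h6.mul_right b) h4).mul_left (B' : 𝓞 K)
    have h9 := dvd_sub h8 (hB'O.mul_right (a - b))
    convert h9 using 1; ring
  · exfalso
    have h6 := map_dvd (Int.castRingHom (𝓞 K)) h5
    simp only [map_natCast, map_add, eq_intCast] at h6
    have h7 : (n : 𝓞 K) ∣ a - -b := by
      have h8 := (dvd_sub (h6.mul_right b) h4).mul_left (B' : 𝓞 K)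
      have h9 := dvd_sub h8 (hB'O.mul_right (a + b))
      convert h9 using 1; ring
    have h8 : (n : 𝓞 K) ∣ a ^ l - (-b) ^ l := h7.trans (sub_dvd_pow_sub_pow _ _ _)
    rw [hlo.neg_pow] at h8
    have h9 : (n : 𝓞 K) ∣ ((2 : ℕ) : 𝓞 K) * b ^ l := by
      have := dvd_sub h8 hd
      convert this using 1
      push_cast; ring
    obtain ⟨b', hb'⟩ := exists_N_mul K b
    have h10 : (n : 𝓞 K) ∣ ((2 * (p ^ t) ^ l : ℕ) : 𝓞 K) := by
      have := h9.mul_right (b' ^ l)
      convert this using 1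
      rw [← hNb]
      push_cast
      rw [hb', mul_pow]; ring
    have h11 := natCast_dvd_descent h10
    rcases hn.out.dvd_mul.1 h11 with h12 | h12
    · exact h2 ((Nat.prime_dvd_prime_iff_eq hn.out Nat.prime_two).1 h12)
    · exact hpn ((Nat.prime_dvd_prime_iff_eq hn.out D.hp).1
        (hn.out.dvd_of_dvd_pow (hn.out.dvd_of_dvd_pow h12))).symm

/-- the even case -/
lemma cong_even (D : Dat n p q) (h2 : n ≠ 2) (hpq : p ≠ q)
    (hcase : q = n ∨ ∃ hqn : IsUnit (q : ZMod n), ∃ j, hqn.unit ^ j = -1)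
    {d t : ℕ} (hdo : Odd d) (hdq : d ∣ q - 1) {α ρ : 𝓞 K} (hNα : N α = p ^ t)
    (hρ : ρ ^ (2 * n) = 1) (hd : (q : 𝓞 K) ∣ (ρ * α) ^ d - (br n K α) ^ d) :
    (q : 𝓞 K) ∣ ρ * α - br n K α := by
  rcases hcase with rfl | ⟨hqn, j, hj⟩
  · exact cong_N D h2 hpq hdo hdq hNα hρ hd
  · have hdj : d ∣ q ^ j - 1 := hdq.trans (by
      have := Nat.sub_dvd_pow_sub_pow q 1 j
      rwa [one_pow] at this)
    have h1 := key2 (k := j) D.hq hqn hdj hd
    rw [hj] at h1
    have hρb := root_mul_br hρ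
    set a : 𝓞 K := ρ * α with ha
    set b : 𝓞 K := br n K α with hb
    have h3 : (q : 𝓞 K) ∣ a ^ 2 - b ^ 2 := by
      have h4 := h1.mul_left (-ρ)
      convert h4 using 1
      have e1 : sg n K (-1) a = br n K ρ * b := by rw [ha, map_mul]; rfl
      have e2 : sg n K (-1) b = α := br_br (n := n) α
      rw [e1, e2, ha]
      linear_combination (b ^ 2) * hρb
    obtain ⟨e, he⟩ := hdo
    have h4 : (q : 𝓞 K) ∣ b ^ (2 * e) * (a - b) := by
      have h5 : (q : 𝓞 K) ∣ (a ^ 2) ^ e - (b ^ 2) ^ e := h3.trans (sub_dvd_pow_sub_pow _ _ _)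
      have h6 := dvd_sub hd (h5.mul_left a)
      convert h6 using 1
      rw [he, pow_succ, pow_succ, pow_mul, pow_mul]; ring
    obtain ⟨b', hb'⟩ := exists_N_mul K b
    have hNb : N b = p ^ t := by rw [hb, N_br, hNα]
    have h5 : (q : 𝓞 K) ∣ (((p ^ t) ^ (2 * e) : ℕ) : 𝓞 K) * (a - b) := by
      have h6 := h4.mul_left (b' ^ (2 * e))
      convert h6 using 1
      rw [← hNb]; push_cast
      rw [hb', mul_pow]; ring
    exact dvd_of_dvd_natCast_mul
      ((((Nat.coprime_primes D.hq D.hp).2 (Ne.symm hpq)).pow_right _).pow_right _) h5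

/-- the inequality in the even case -/
theorem key_even [Fact p.Prime] (D : Dat n p q) (h2 : n ≠ 2) (hpq : p ≠ q)
    (hcase : q = n ∨ ∃ hqn : IsUnit (q : ZMod n), ∃ j, hqn.unit ^ j = -1)
    {d t : ℕ} (hdo : Odd d) (ht : t ≠ 0)
    (hdn : d.Coprime (2 * n)) (hdq : d ∣ q - 1)
    (hR : R q n = p ^ (d * t)) {v : (ZMod n)ˣ → ℤ} {α : 𝓞 K}
    (hα : span {α} = II K D (fun c => t * mv d v c)) {F : (ZMod n)ˣ → ℤ}
    (hF : ∀ c, F c = v c - v (-c)) {c₀ : (ZMod n)ˣ} (hF0 : F c₀ ≠ 0) :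
    q ^ (n - 1) ≤ 2 ^ (n - 1) * p ^ (t * ∑ c, (F c).toNat) := by
  have h2n : 2 * n ≠ 0 := mul_ne_zero two_ne_zero hn.out.ne_zero
  have hd1 : 1 ≤ d := hdo.pos
  obtain ⟨ρ, hρ, hd⟩ := cong_first D h2 hdn hR hα
  have hNα : N α = p ^ ∑ c, t * mv d v c := by rw [N, hα, absNorm_II]
  have hab := cong_even D h2 hpq hcase hdo hdq hNα hρ hd
  set kk : (ZMod n)ˣ → ℕ := fun c => (v c).natAbs with hkk
  set g : 𝓞 K := QQ n K q kk with hg
  have hgs : span {g} = II K D (fun c => d * t * kk c) := span_QQ D hR kk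
  obtain ⟨s, hs, hgq⟩ := QQ_cong (K := K) q kk
  have hsb := root_mul_br hs
  have hgq1 : (q : 𝓞 K) ∣ br n K g - br n K s := by
    have := map_dvd (br n K) hgq
    rwa [map_natCast, map_sub] at this
  set κ : 𝓞 K := (br n K s) ^ 2 with hκ
  have hκ1 : κ ^ (2 * n) = 1 := by
    rw [hκ, ← pow_mul, mul_comm 2 (2 * n), pow_mul, ← map_pow, hs, map_one, one_pow]
  have hG : (q : 𝓞 K) ∣ br n K g - κ * g := by
    have e3 := dvd_sub hgq1 (hgq.mul_left κ)
    convert e3 using 1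
    rw [hκ]
    linear_combination (-(br n K s)) * hsb
  have hXY : (q : 𝓞 K) ∣ (ρ * α) * br n K g - κ * br n K α * g := by
    have := dvd_add (hab.mul_right (br n K g)) (hG.mul_left (br n K α))
    convert this using 1; ring
  have habs : ∀ φ : K →+* ℂ, ‖φ (((ρ * α) * br n K g : 𝓞 K) : K)‖ =
      ‖φ ((κ * br n K α * g : 𝓞 K) : K)‖ := by
    intro φ
    have e1 : ‖φ (κ : K)‖ = 1 := norm_root h2n hκ1 φ
    rw [emb_mul φ (ρ * α), norm_mul, norm_rho K hρ, norm_emb_br, norm_emb_br,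
      emb_mul φ (κ * br n K α), norm_mul, emb_mul φ κ, norm_mul, e1, norm_emb_br, one_mul]
  have hm1 : ∀ w : (ZMod n)ˣ, span {sg n K w α} = II K D (fun c => t * mv d v (c * w)) :=
    fun w => span_sg_II D hα w
  have hg1 : ∀ w : (ZMod n)ˣ, span {sg n K w g} = II K D (fun c => d * t * kk (c * w)) :=
    fun w => span_sg_II D hgs w
  have hρu : IsUnit ρ := isUnit_of_root K h2n hρ
  have hκu : IsUnit κ := isUnit_of_root K h2n hκ1
  have hX : span {(ρ * α) * br n K g} = II K D (fun c => t * mv d v (c * 1) +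
      d * t * kk (c * -1)) := by
    rw [II_add, ← hm1, ← hg1, span_singleton_mul_span_singleton, sg_one, mul_assoc,
      span_mul_root hρu]
    rfl
  have hY : span {κ * br n K α * g} = II K D (fun c => t * mv d v (c * -1) +
      d * t * kk (c * 1)) := by
    rw [II_add, ← hm1, ← hg1, span_singleton_mul_span_singleton, sg_one, mul_assoc,
      span_mul_root hκu]
    rfl
  have hdiff : ∀ c, ((t * mv d v (c * 1) + d * t * kk (c * -1) : ℕ) : ℤ) -
      ((t * mv d v (c * -1) + d * t * kk (c * 1) : ℕ) : ℤ) = t * F c := by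
    intro c
    rw [hF, mul_one, mul_neg_one]
    push_cast
    rw [mv_eq hd1, mv_eq hd1]
    ring
  have hsz := size_II D hpq hX hY (by
    intro he
    have h5 := hdiff c₀
    have h6 := congrFun he c₀
    rw [h6, sub_self] at h5
    rcases mul_eq_zero.1 h5.symm with h7 | h7
    · exact ht (by exact_mod_cast h7)
    · exact hF0 h7) hXY habs
  refine hsz.trans (Nat.mul_le_mul_left _ (Nat.pow_le_pow_right D.hp.pos ?_))
  rw [Finset.mul_sum]
  refine Finset.sum_le_sum fun c _ => ?_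
  have h5 := hdiff c
  zify
  rcases le_total (F c) 0 with h6 | h6
  · have h7 : (t : ℤ) * F c ≤ 0 := mul_nonpos_of_nonneg_of_nonpos (Int.natCast_nonneg _) h6
    have h8 : (t * mv d v (c * 1) + d * t * kk (c * -1) : ℕ) -
      (t * mv d v (c * -1) + d * t * kk (c * 1) : ℕ) = 0 := by omega
    rw [h8]; positivity
  · rw [Int.toNat_of_nonneg h6]
    have h7 : 0 ≤ (t : ℤ) * F c := mul_nonneg (Int.natCast_nonneg _) h6
    omega

/-- classes of the conjugate primes, raised to the power `t` -/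
def CC [Fact p.Prime] (K : Type*) [Field K] [NumberField K]
    [hK : IsCyclotomicExtension {n} ℚ K] (D : Dat n p q) (t : ℕ) (c : (ZMod n)ˣ) :
    ClassGroup (𝓞 K) :=
  ClassGroup.mk0 ⟨II K D (fun e => if e = c then t else 0),
    mem_nonZeroDivisors_of_ne_zero (II_ne_zero D _)⟩

/-- the class of an exponent vector -/
def PH [Fact p.Prime] (K : Type*) [Field K] [NumberField K]
    [hK : IsCyclotomicExtension {n} ℚ K] (D : Dat n p q) (t : ℕ) (v : (ZMod n)ˣ → ℤ) :
    ClassGroup (𝓞 K) := ∏ c, CC K D t c ^ v c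

lemma prod_CC [Fact p.Prime] (D : Dat n p q) (t : ℕ) (m : (ZMod n)ˣ → ℕ) :
    ∏ c, CC K D t c ^ m c = ClassGroup.mk0 ⟨II K D (fun c => t * m c),
      mem_nonZeroDivisors_of_ne_zero (II_ne_zero D _)⟩ := by
  simp only [CC]
  simp only [← map_pow, ← map_prod]
  congr 1
  apply Subtype.ext
  rw [SubmonoidClass.coe_finsetProd]
  change _ = ∏ c, PPc K D c ^ (t * m c)
  refine Finset.prod_congr rfl fun c _ => ?_
  rw [SubmonoidClass.coe_pow]
  change II K D (fun e => if e = c then t else 0) ^ m c = _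
  rw [II_single, ← pow_mul]

lemma CC_pow [Fact p.Prime] (D : Dat n p q) {d t : ℕ} (hR : R q n = p ^ (d * t))
    (c : (ZMod n)ˣ) : CC K D t c ^ d = 1 := by
  rw [CC, ← map_pow, ClassGroup.mk0_eq_one_iff]
  refine ⟨qz n K q c, ?_⟩
  rw [SubmonoidClass.coe_pow]
  change II K D (fun e => if e = c then t else 0) ^ d = span {qz n K q c}
  rw [II_single, ← pow_mul, mul_comm t d]
  exact (span_qz K D hR c).symm

lemma PH_pow [Fact p.Prime] (D : Dat n p q) {d t : ℕ} (hR : R q n = p ^ (d * t))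
    (v : (ZMod n)ˣ → ℤ) : PH K D t v ^ d = 1 := by
  rw [PH, ← Finset.prod_pow]
  refine Finset.prod_eq_one fun c _ => ?_
  rw [← zpow_natCast, zpow_comm, zpow_natCast, CC_pow D hR, one_zpow]

lemma PH_sub [Fact p.Prime] (D : Dat n p q) (t : ℕ) (v w : (ZMod n)ˣ → ℤ) :
    PH K D t (fun c => v c - w c) = PH K D t v / PH K D t w := by
  rw [PH, PH, PH, ← Finset.prod_div_distrib]
  exact Finset.prod_congr rfl fun c _ => zpow_sub _ _ _

lemma PH_one [Fact p.Prime] (D : Dat n p q) {d t : ℕ} (hd1 : 1 ≤ d)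
    (hR : R q n = p ^ (d * t))
    {v : (ZMod n)ˣ → ℤ} (h : PH K D t v = 1) :
    ∃ α : 𝓞 K, span {α} = II K D (fun c => t * mv d v c) := by
  have h1 : PH K D t v = ∏ c, CC K D t c ^ mv d v c := by
    rw [PH]
    refine Finset.prod_congr rfl fun c _ => ?_
    rw [← zpow_natCast, mv_eq hd1, zpow_add, zpow_mul, zpow_natCast, zpow_natCast,
      CC_pow D hR, one_pow, mul_one]
  rw [h1, prod_CC, ClassGroup.mk0_eq_one_iff] at h
  obtain ⟨α, hα⟩ := h.principal
  exact ⟨α, hα.symm⟩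

end

end Pool.Agent.Edg
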