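import Pool.Agent.Edg.Tor3

/-!
Counting ideal classes: combinatorics and numerical inequalities.
-/

namespace Pool.Agent.Edg

open NumberField Ideal Polynomial

noncomputable section

variable {n : ℕ} [hn : Fact n.Prime] {K : Type*} [Field K] [NumberField K]
  [hK : IsCyclotomicExtension {n} ℚ K] {p q : ℕ}

lemma two_mul_toNat (a : ℤ) : 2 * (a.toNat : ℤ) = |a| + a := by
  rcases le_total a 0 with h | h
  · rw [Int.toNat_of_nonpos h, abs_of_nonpos h]; simp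
  · rw [Int.toNat_of_nonneg h, abs_of_nonneg h]; ring

lemma sum_shift (u : (ZMod n)ˣ) (f : (ZMod n)ˣ → ℤ) : ∑ c, f (c * u) = ∑ c, f c :=
  Fintype.sum_equiv (Equiv.mulRight u) _ _ fun _ => rfl

lemma sum_neg (f : (ZMod n)ˣ → ℤ) : ∑ c, f (-c) = ∑ c, f c :=
  Fintype.sum_equiv (Equiv.neg _) _ _ fun _ => rfl

lemma cost_gen (u : (ZMod n)ˣ) (v F : (ZMod n)ˣ → ℤ)
    (hF : ∀ c, F c = v (c * u) - v (-(c * u)) - v c + v (-c)) :
    ∑ c, (F c).toNat ≤ 2 * ∑ c, (v c).natAbs := by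
  have h1 : ∑ c, F c = 0 := by
    simp only [hF]
    rw [Finset.sum_add_distrib, Finset.sum_sub_distrib, Finset.sum_sub_distrib, sum_shift u v,
      sum_shift u (fun c => v (-c)), sum_neg]
    ring
  have h2 : (2 : ℤ) * ∑ c, ((F c).toNat : ℤ) = ∑ c, |F c| := by
    rw [Finset.mul_sum, Finset.sum_congr rfl fun c _ => two_mul_toNat (F c),
      Finset.sum_add_distrib, h1, add_zero]
  have h3 : ∑ c, |F c| ≤ ∑ c, (|v (c * u)| + |v (-(c * u))| + |v c| + |v (-c)|) := by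
    refine Finset.sum_le_sum fun c _ => ?_
    rw [hF, abs_le]
    have a1 := neg_abs_le (v (c * u)); have b1 := le_abs_self (v (c * u))
    have a2 := neg_abs_le (v (-(c * u))); have b2 := le_abs_self (v (-(c * u)))
    have a3 := neg_abs_le (v c); have b3 := le_abs_self (v c)
    have a4 := neg_abs_le (v (-c)); have b4 := le_abs_self (v (-c))
    constructor <;> linarith
  rw [Finset.sum_add_distrib, Finset.sum_add_distrib, Finset.sum_add_distrib,
    sum_shift u (fun c => |v c|), sum_shift u (fun c => |v (-c)|), sum_neg (fun c => |v c|)] at h3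
  zify
  linarith

lemma cost_even (v F : (ZMod n)ˣ → ℤ) (hF : ∀ c, F c = v c - v (-c)) :
    ∑ c, (F c).toNat ≤ ∑ c, (v c).natAbs := by
  have h1 : ∑ c, F c = 0 := by
    simp only [hF]
    rw [Finset.sum_sub_distrib, sum_neg]
    ring
  have h2 : (2 : ℤ) * ∑ c, ((F c).toNat : ℤ) = ∑ c, |F c| := by
    rw [Finset.mul_sum, Finset.sum_congr rfl fun c _ => two_mul_toNat (F c),
      Finset.sum_add_distrib, h1, add_zero]
  have h3 : ∑ c, |F c| ≤ ∑ c, (|v c| + |v (-c)|) := by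
    refine Finset.sum_le_sum fun c _ => ?_
    rw [hF]
    exact abs_sub _ _
  rw [Finset.sum_add_distrib, sum_neg (fun c => |v c|)] at h3
  zify
  linarith

/-- the numerical contradiction -/
lemma num_contra {q n d m P : ℕ} (hn : 5 ≤ n) (hm : m ≤ d) (hqm : 2 * m ≤ q) (hq3 : 3 ≤ q)
    (hP : P ^ d = R q n) (hlq : 5 * 2 ^ d ≤ 4 * q ^ (d - m))
    (h : q ^ (n - 1) ≤ 2 ^ (n - 1) * P ^ m) : False := by
  obtain ⟨N, rfl⟩ : ∃ N, n = N + 1 := ⟨n - 1, by omega⟩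
  obtain ⟨e, rfl⟩ : ∃ e, d = e + m := ⟨d - m, by omega⟩
  rw [Nat.add_sub_cancel] at h hlq
  have h1 : (q ^ N) ^ (e + m) ≤ (2 ^ N) ^ (e + m) * (R q (N + 1)) ^ m := by
    have e0 : (2 ^ N) ^ (e + m) * (P ^ (e + m)) ^ m = (2 ^ N * P ^ m) ^ (e + m) := by
      rw [mul_pow, ← pow_mul P, ← pow_mul P, mul_comm m]
    rw [← hP, e0]
    exact Nat.pow_le_pow_left h _
  have h2 : (q - 1) * R q (N + 1) ≤ q ^ (N + 1) := by
    rw [sub_mul_R (by omega)]
    omega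
  have h3 : (q ^ N) ^ (e + m) * (q - 1) ^ m ≤ (2 ^ N) ^ (e + m) * (q ^ (N + 1)) ^ m := by
    calc (q ^ N) ^ (e + m) * (q - 1) ^ m
        ≤ ((2 ^ N) ^ (e + m) * (R q (N + 1)) ^ m) * (q - 1) ^ m := Nat.mul_le_mul_right _ h1
      _ = (2 ^ N) ^ (e + m) * ((q - 1) * R q (N + 1)) ^ m := by rw [mul_pow]; ring
      _ ≤ (2 ^ N) ^ (e + m) * (q ^ (N + 1)) ^ m :=
          Nat.mul_le_mul_left _ (Nat.pow_le_pow_left h2 m)
  have h4 : (q ^ e) ^ N * (q - 1) ^ m ≤ (2 ^ (e + m)) ^ N * q ^ m := by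
    have e1 : (q ^ N) ^ (e + m) * (q - 1) ^ m = (q ^ N) ^ m * ((q ^ e) ^ N * (q - 1) ^ m) := by
      rw [pow_add, ← pow_mul q N e, ← pow_mul q e N, mul_comm N e]; ring
    have e2 : (2 ^ N) ^ (e + m) * (q ^ (N + 1)) ^ m =
        (q ^ N) ^ m * ((2 ^ (e + m)) ^ N * q ^ m) := by
      have e3 : (2 ^ N) ^ (e + m) = (2 ^ (e + m)) ^ N := by
        rw [← pow_mul, ← pow_mul, mul_comm]
      rw [e3, pow_succ q N, mul_pow]; ring
    rw [e1, e2] at h3
    exact Nat.le_of_mul_le_mul_left h3 (by positivity)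
  have h5 : (5 * 2 ^ (e + m)) ^ N ≤ (4 * q ^ e) ^ N := Nat.pow_le_pow_left hlq _
  have h6 : 5 ^ N * (q - 1) ^ m ≤ 4 ^ N * q ^ m := by
    have h7 : (2 ^ (e + m)) ^ N * (5 ^ N * (q - 1) ^ m) ≤ (2 ^ (e + m)) ^ N * (4 ^ N * q ^ m) := by
      calc (2 ^ (e + m)) ^ N * (5 ^ N * (q - 1) ^ m)
          = (5 * 2 ^ (e + m)) ^ N * (q - 1) ^ m := by rw [mul_pow]; ring
        _ ≤ (4 * q ^ e) ^ N * (q - 1) ^ m := Nat.mul_le_mul_right _ h5
        _ = 4 ^ N * ((q ^ e) ^ N * (q - 1) ^ m) := by rw [mul_pow]; ring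
        _ ≤ 4 ^ N * ((2 ^ (e + m)) ^ N * q ^ m) := Nat.mul_le_mul_left _ h4
        _ = (2 ^ (e + m)) ^ N * (4 ^ N * q ^ m) := by ring
    exact Nat.le_of_mul_le_mul_left h7 (by positivity)
  -- Bernoulli
  have h8 : q ^ m ≤ 2 * (q - 1) ^ m := by
    have hb : ∀ j : ℕ, q * q ^ j ≤ q * (q - 1) ^ j + j * q ^ j := by
      intro j
      induction j with
      | zero => simp
      | succ j ih =>
        have hq' : q = (q - 1) + 1 := by omega
        calc q * q ^ (j + 1) = (q - 1) * (q * q ^ j) + q * q ^ j := by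
              have e5 : q * q ^ (j + 1) = ((q - 1) + 1) * (q * q ^ j) := by rw [← hq']; ring
              rw [e5, add_mul, one_mul]
          _ ≤ (q - 1) * (q * (q - 1) ^ j + j * q ^ j) + q * q ^ j :=
              Nat.add_le_add_right (Nat.mul_le_mul_left _ ih) _
          _ = q * (q - 1) ^ (j + 1) + (j * ((q - 1) * q ^ j) + q ^ (j + 1)) := by ring
          _ ≤ q * (q - 1) ^ (j + 1) + (j * (q * q ^ j) + q ^ (j + 1)) :=
              Nat.add_le_add_left (Nat.add_le_add_right (Nat.mul_le_mul_left _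
                (Nat.mul_le_mul_right _ (Nat.sub_le _ _))) _) _
          _ = q * (q - 1) ^ (j + 1) + (j + 1) * q ^ (j + 1) := by ring
    have h9 := hb m
    have h10 : 2 * (m * q ^ m) ≤ q * q ^ m := by
      rw [← mul_assoc]; exact Nat.mul_le_mul_right _ hqm
    have h11 : q * q ^ m ≤ q * (2 * (q - 1) ^ m) := by
      have : q * (2 * (q - 1) ^ m) = 2 * (q * (q - 1) ^ m) := by ring
      rw [this]; omega
    exact Nat.le_of_mul_le_mul_left h11 (by omega)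
  obtain ⟨j, rfl⟩ : ∃ j, N = j + 4 := ⟨N - 4, by omega⟩
  have h12 : 4 ^ j ≤ 5 ^ j := Nat.pow_le_pow_left (by norm_num) _
  have hpos : 0 < 5 ^ j * (q - 1) ^ m := by
    have : 0 < q - 1 := by omega
    positivity
  have h13 : 4 ^ (j + 4) * q ^ m ≤ 512 * (5 ^ j * (q - 1) ^ m) := by
    calc 4 ^ (j + 4) * q ^ m = 256 * (4 ^ j * q ^ m) := by ring
      _ ≤ 256 * (5 ^ j * (2 * (q - 1) ^ m)) := Nat.mul_le_mul_left _ (Nat.mul_le_mul h12 h8)
      _ = 512 * (5 ^ j * (q - 1) ^ m) := by ring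
  have h14 : 5 ^ (j + 4) * (q - 1) ^ m = 625 * (5 ^ j * (q - 1) ^ m) := by ring
  omega

lemma ineq_gen {q d k : ℕ} (hdo : Odd d) (hk : 1 ≤ k) (hkd : 5 * k < d) (hq : 2 * d + 1 ≤ q) :
    5 * 2 ^ d ≤ 4 * q ^ (d - 4 * k) := by
  obtain ⟨e, he⟩ : ∃ e, d = e + 4 * k := ⟨d - 4 * k, by omega⟩
  have he' : d - 4 * k = e := by omega
  rw [he']
  have h5e : d + 4 ≤ 5 * e := by omega
  have hd7 : 7 ≤ d := by obtain ⟨r, hr⟩ := hdo; omega
  have h1 : (5 * 2 ^ d) ^ 5 ≤ (4 * q ^ e) ^ 5 := by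
    have h2 : (4 * q ^ e) ^ 5 = 1024 * q ^ (5 * e) := by rw [mul_pow, ← pow_mul, mul_comm e]; norm_num
    have h3 : (5 * 2 ^ d) ^ 5 = 3125 * 32 ^ d := by
      rw [mul_pow, ← pow_mul, mul_comm d, pow_mul]; norm_num
    rw [h2, h3]
    have h4 : q ^ (d + 4) ≤ q ^ (5 * e) := Nat.pow_le_pow_right (by omega) h5e
    refine le_trans ?_ (Nat.mul_le_mul_left _ h4)
    have h6 : (2 * d + 1) ^ (d + 4) ≤ q ^ (d + 4) := Nat.pow_le_pow_left hq _
    refine le_trans ?_ (Nat.mul_le_mul_left _ h6)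
    clear h6 h4 h3 h2 h5e he' he hkd hdo
    rcases Nat.lt_or_ge d 16 with h7 | h7
    · interval_cases d <;> norm_num
    · have h8 : 32 ^ (d + 4) ≤ (2 * d + 1) ^ (d + 4) := Nat.pow_le_pow_left (by omega) _
      refine le_trans ?_ (Nat.mul_le_mul_left _ h8)
      rw [pow_add]
      have : 0 < 32 ^ d := by positivity
      omega
  exact (Nat.pow_le_pow_iff_left (by norm_num)).1 h1

lemma ineq_even {q d k : ℕ} (hdo : Odd d) (hk : 1 ≤ k) (hkd : 3 * k < d) (hq : 2 * d + 1 ≤ q) :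
    5 * 2 ^ d ≤ 4 * q ^ (d - 2 * k) := by
  obtain ⟨e, he⟩ : ∃ e, d = e + 2 * k := ⟨d - 2 * k, by omega⟩
  have he' : d - 2 * k = e := by omega
  rw [he']
  have h3e : d + 2 ≤ 3 * e := by omega
  have hd5 : 5 ≤ d := by obtain ⟨r, hr⟩ := hdo; omega
  have h1 : (5 * 2 ^ d) ^ 3 ≤ (4 * q ^ e) ^ 3 := by
    have h2 : (4 * q ^ e) ^ 3 = 64 * q ^ (3 * e) := by rw [mul_pow, ← pow_mul, mul_comm e]; norm_num
    have h3 : (5 * 2 ^ d) ^ 3 = 125 * 8 ^ d := by
      rw [mul_pow, ← pow_mul, mul_comm d, pow_mul]; norm_num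
    rw [h2, h3]
    have h4 : q ^ (d + 2) ≤ q ^ (3 * e) := Nat.pow_le_pow_right (by omega) h3e
    refine le_trans ?_ (Nat.mul_le_mul_left _ h4)
    have h6 : 8 ^ (d + 2) ≤ q ^ (d + 2) := Nat.pow_le_pow_left (by omega) _
    refine le_trans ?_ (Nat.mul_le_mul_left _ h6)
    rw [pow_add]
    have : 0 < 8 ^ d := by positivity
    omega
  exact (Nat.pow_le_pow_iff_left (by norm_num)).1 h1

/-- counting -/
lemma count_classes [Fact p.Prime] (D : Dat n p q) {d t N k : ℕ} (hR : R q n = p ^ (d * t))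
    (ι : Fin N → (ZMod n)ˣ) (hι : Function.Injective ι)
    (hno : ∀ w : (ZMod n)ˣ → ℤ, (∀ c, c ∉ Set.range ι → w c = 0) → (∃ c, w c ≠ 0) →
      ∑ c, (w c).natAbs ≤ 2 * k → PH K D t w ≠ 1) :
    Nat.card {v : Fin N → ℤ // ∑ i, (v i).natAbs ≤ k} ≤
      Nat.card {c : ClassGroup (𝓞 K) // c ^ d = 1} := by
  have : Finite {c : ClassGroup (𝓞 K) // c ^ d = 1} := inferInstance
  set E : (Fin N → ℤ) → ((ZMod n)ˣ → ℤ) := fun v => Function.extend ι v (fun _ => 0) with hE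
  have hE1 : ∀ v i, E v (ι i) = v i := fun v i => hι.extend_apply _ _ _
  have hE2 : ∀ v c, c ∉ Set.range ι → E v c = 0 := fun v c hc =>
    Function.extend_apply' _ _ _ (fun ⟨i, hi⟩ => hc ⟨i, hi⟩)
  refine Nat.card_le_card_of_injective (fun v => ⟨PH K D t (E v.1), PH_pow D hR _⟩) ?_
  intro v w hvw
  by_contra hne
  have h1 : PH K D t (E v.1) = PH K D t (E w.1) := congrArg Subtype.val hvw
  have h2 : PH K D t (fun c => E v.1 c - E w.1 c) = 1 := by rw [PH_sub, h1, div_self']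
  refine hno _ ?_ ?_ ?_ h2
  · intro c hc
    rw [hE2 _ c hc, hE2 _ c hc, sub_zero]
  · by_contra h3
    push Not at h3
    apply hne
    apply Subtype.ext
    funext i
    have h4 := h3 (ι i)
    rw [hE1, hE1] at h4
    exact sub_eq_zero.1 h4
  · have hs : ∀ v : Fin N → ℤ, ∑ c, (E v c).natAbs = ∑ i, (v i).natAbs := fun v =>
      (Fintype.sum_of_injective ι hι (fun i => (v i).natAbs) (fun c => (E v c).natAbs)
        (fun c hc => by rw [hE2 v c hc]; rfl) (fun i => by rw [hE1])).symm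
    calc ∑ c, (E v.1 c - E w.1 c).natAbs ≤ ∑ c, ((E v.1 c).natAbs + (E w.1 c).natAbs) :=
          Finset.sum_le_sum fun c _ => Int.natAbs_sub_le _ _
      _ = ∑ i, (v.1 i).natAbs + ∑ i, (w.1 i).natAbs := by
          rw [Finset.sum_add_distrib, hs, hs]
      _ ≤ 2 * k := by have := v.2; have := w.2; omega

end

end Pool.Agent.Edg
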