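import Pool.Agent.Edg.Tor4

/-!
Counting ideal classes: the theorem.
-/

namespace Pool.Agent.Edg

open NumberField Ideal Polynomial

noncomputable section

variable {n : ℕ} [hn : Fact n.Prime] {p q : ℕ}

lemma neg_one_order (h2 : n ≠ 2) : orderOf (-1 : (ZMod n)ˣ) = 2 :=
  orderOf_eq_prime (by rw [neg_one_sq]) (neg_one_ne_one h2)

/-- the subgroup generated by `H` and `-1` -/
def pmSub (H : Subgroup (ZMod n)ˣ) : Subgroup (ZMod n)ˣ where
  carrier := {c | c ∈ H ∨ -c ∈ H}
  mul_mem' := by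
    rintro a b (ha | ha) (hb | hb)
    · exact Or.inl (H.mul_mem ha hb)
    · right; have := H.mul_mem ha hb; rwa [mul_neg] at this
    · right; have := H.mul_mem ha hb; rwa [neg_mul] at this
    · left; have := H.mul_mem ha hb; rwa [neg_mul_neg] at this
  one_mem' := Or.inl H.one_mem
  inv_mem' := by
    rintro a (ha | ha)
    · exact Or.inl (H.inv_mem ha)
    · right; have := H.inv_mem ha; rwa [inv_neg] at this

lemma exists_S {u : (ZMod n)ˣ} (h2 : n ≠ 2) (hodd : Odd (orderOf u)) (hu1 : u ≠ 1) :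
    ∃ S : Finset (ZMod n)ˣ, (n - 1) / 3 ≤ S.card ∧ (∀ c ∈ S, -c ∉ S) ∧
      ∀ c ∈ S, ∃ i : ℕ, c * u ^ i ∉ S ∧ -(c * u ^ i) ∉ S := by
  classical
  set H := Subgroup.zpowers u with hH
  set L := pmSub H with hL
  have hcardH : Nat.card H = orderOf u := Nat.card_zpowers u
  have hneg : (-1 : (ZMod n)ˣ) ∉ H := by
    intro h
    have h3 := Subgroup.orderOf_dvd_natCard H h
    rw [neg_one_order h2, hcardH] at h3
    exact (Nat.not_even_iff_odd.2 hodd) (even_iff_two_dvd.2 h3)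
  have hneg' : ∀ a : (ZMod n)ˣ, a ∈ H → -a ∈ H → False := by
    intro a ha hb
    apply hneg
    have := H.mul_mem (H.inv_mem ha) hb
    rwa [mul_neg, inv_mul_cancel] at this
  have hLneg : (-1 : (ZMod n)ˣ) ∈ L := Or.inr (by rw [neg_neg]; exact H.one_mem)
  have hLu : u ∈ L := Or.inl (Subgroup.mem_zpowers u)
  have hord3 : 3 ≤ orderOf u := by
    have h3 : orderOf u ≠ 1 := fun h => hu1 (orderOf_eq_one_iff.1 h)
    obtain ⟨m, hm⟩ := hodd; omega
  have hcardL : 6 ≤ Nat.card L := by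
    have h3 := Subgroup.orderOf_dvd_natCard L hLneg
    rw [neg_one_order h2] at h3
    have h4 := Subgroup.orderOf_dvd_natCard L hLu
    have h5 : (2 : ℕ).Coprime (orderOf u) := (Nat.coprime_two_left).2 hodd
    have h6 := h5.mul_dvd_of_dvd_of_dvd h3 h4
    have h7 := Nat.le_of_dvd Nat.card_pos h6
    omega
  set r : (ZMod n)ˣ → (ZMod n)ˣ := fun c => (QuotientGroup.mk c : (ZMod n)ˣ ⧸ L).out with hr
  have hr1 : ∀ c, ∃ h ∈ L, r c = c * h := by
    intro c
    obtain ⟨h, hh⟩ := QuotientGroup.mk_out_eq_mul L c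
    exact ⟨h, h.2, hh⟩
  have hrmk : ∀ c, (QuotientGroup.mk (r c) : (ZMod n)ˣ ⧸ L) = QuotientGroup.mk c :=
    fun c => Quotient.out_eq' _
  have hrr : ∀ c, r (r c) = r c := fun c => by
    change (QuotientGroup.mk (r c) : (ZMod n)ˣ ⧸ L).out = r c
    rw [hrmk]
  have hrn : ∀ c, r (-c) = r c := fun c => by
    change (QuotientGroup.mk (-c) : (ZMod n)ˣ ⧸ L).out = (QuotientGroup.mk c : (ZMod n)ˣ ⧸ L).out
    congr 1
    rw [QuotientGroup.eq]
    have : (-c)⁻¹ * c = -1 := by rw [inv_neg, neg_mul, inv_mul_cancel]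
    rw [this]; exact hLneg
  set S : Finset (ZMod n)ˣ := Finset.univ.filter fun c => (r c)⁻¹ * c ∈ H ∧ c ≠ r c with hS
  have hmem : ∀ c, c ∈ S ↔ (r c)⁻¹ * c ∈ H ∧ c ≠ r c := fun c => by
    rw [hS, Finset.mem_filter]; simp
  set T : Finset (ZMod n)ˣ := Finset.univ.filter fun c => c = r c with hT
  have hmemT : ∀ c, c ∈ T ↔ c = r c := fun c => by
    rw [hT, Finset.mem_filter]; simp
  refine ⟨S, ?_, ?_, ?_⟩
  · -- cardinality
    have hcov : ∀ c : (ZMod n)ˣ, c ∈ S ∪ T ∨ -c ∈ S ∪ T := by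
      intro c
      obtain ⟨h, hh, hc⟩ := hr1 c
      rcases hh with hh | hh
      · left
        rw [Finset.mem_union, hmem, hmemT]
        by_cases h3 : c = r c
        · exact Or.inr h3
        · refine Or.inl ⟨?_, h3⟩
          rw [hc]
          have : (c * h)⁻¹ * c = h⁻¹ := by rw [mul_inv_rev, mul_assoc, inv_mul_cancel, mul_one]
          rw [this]; exact H.inv_mem hh
      · right
        rw [Finset.mem_union, hmem, hmemT, hrn]
        by_cases h3 : -c = r c
        · exact Or.inr h3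
        · refine Or.inl ⟨?_, h3⟩
          rw [hc]
          have : (c * h)⁻¹ * -c = (-h)⁻¹ := by
            rw [mul_inv_rev, mul_neg, mul_assoc, inv_mul_cancel, mul_one, inv_neg]
          rw [this]; exact H.inv_mem hh
    have h3 : n - 1 ≤ 2 * (S ∪ T).card := by
      have h4 : (Finset.univ : Finset (ZMod n)ˣ) ⊆ (S ∪ T) ∪ (S ∪ T).image (fun c => -c) := by
        intro c _
        rw [Finset.mem_union, Finset.mem_image]
        rcases hcov c with h5 | h5
        · exact Or.inl h5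
        · exact Or.inr ⟨-c, h5, neg_neg c⟩
      have h5 := Finset.card_le_card h4
      rw [Finset.card_univ, ZMod.card_units_eq_totient, Nat.totient_prime hn.out] at h5
      have h6 := Finset.card_union_le (S ∪ T) ((S ∪ T).image (fun c => -c))
      have h7 := Finset.card_image_le (s := S ∪ T) (f := fun c => -c)
      omega
    have h4 := Finset.card_union_le S T
    have h5 : T.card ≤ Nat.card ((ZMod n)ˣ ⧸ L) := by
      have h6 : Set.InjOn (fun c => (QuotientGroup.mk c : (ZMod n)ˣ ⧸ L)) T := by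
        intro a ha b hb hab
        rw [Finset.mem_coe, hmemT] at ha hb
        rw [ha, hb]
        change (QuotientGroup.mk a : (ZMod n)ˣ ⧸ L).out = (QuotientGroup.mk b : (ZMod n)ˣ ⧸ L).out
        exact congrArg Quotient.out hab
      have h7 := Finset.card_image_of_injOn h6
      rw [← h7, Nat.card_eq_fintype_card]
      exact Finset.card_le_univ _
    have h6 : Nat.card ((ZMod n)ˣ ⧸ L) * Nat.card L = n - 1 := by
      have h7 := Subgroup.card_eq_card_quotient_mul_card_subgroup L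
      rw [Nat.card_eq_fintype_card (α := (ZMod n)ˣ), ZMod.card_units_eq_totient,
        Nat.totient_prime hn.out] at h7
      exact h7.symm
    have h7 : Nat.card ((ZMod n)ˣ ⧸ L) * 6 ≤ n - 1 := by
      rw [← h6]; exact Nat.mul_le_mul_left _ hcardL
    omega
  · intro c hc hc'
    rw [hmem] at hc hc'
    rw [hrn, mul_neg] at hc'
    exact hneg' _ hc.1 hc'.1
  · intro c hc
    rw [hmem] at hc
    obtain ⟨i, hi⟩ : ∃ i : ℕ, u ^ i = c⁻¹ * r c := by
      have h3 : c⁻¹ * r c ∈ H := by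
        have := H.inv_mem hc.1
        rwa [mul_inv_rev, inv_inv] at this
      exact (mem_powers_iff_mem_zpowers).2 h3
    refine ⟨i, ?_, ?_⟩
    · rw [hi, mul_inv_cancel_left, hmem, hrr]
      exact fun h => h.2 rfl
    · rw [hi, mul_inv_cancel_left, hmem, hrn, hrr, mul_neg, inv_mul_cancel]
      exact fun h => hneg h.1

variable {K : Type*} [Field K] [NumberField K] [hK : IsCyclotomicExtension {n} ℚ K]

/-- enumeration of a part of a finite set -/
lemma exists_enum (S : Finset (ZMod n)ˣ) {N : ℕ} (hN : N ≤ S.card) :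
    ∃ ι : Fin N → (ZMod n)ˣ, Function.Injective ι ∧ ∀ c, c ∈ Set.range ι → c ∈ S := by
  refine ⟨fun i => (S.equivFin.symm (Fin.castLE hN i)).1, ?_, ?_⟩
  · intro a b hab
    have h1 := Subtype.ext hab
    exact Fin.castLE_injective hN (S.equivFin.symm.injective h1)
  · rintro c ⟨i, rfl⟩
    exact (S.equivFin.symm (Fin.castLE hN i)).2

theorem part_even [Fact p.Prime] (D : Dat n p q) (h5 : 5 ≤ n) (hpq : p ≠ q)
    (hcase : q = n ∨ ∃ hqn : IsUnit (q : ZMod n), ∃ j, hqn.unit ^ j = -1)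
    {d t k N : ℕ} (hdo : Odd d) (ht : t ≠ 0)
    (hdn : d.Coprime (2 * n)) (hdq : d ∣ q - 1) (hqd : 2 * d + 1 ≤ q)
    (hR : R q n = p ^ (d * t)) (hkd : 3 * k < d) (hN : N ≤ (n - 1) / 2) :
    Nat.card {v : Fin N → ℤ // ∑ i, (v i).natAbs ≤ k} ≤
      Nat.card {c : ClassGroup (𝓞 K) // c ^ d = 1} := by
  have h2 : n ≠ 2 := by omega
  have hi : ¬ n ∣ 1 := fun h => hn.out.one_lt.ne' (Nat.dvd_one.1 h)
  have hi1 : ¬ n ∣ 1 + 1 := fun h => by
    have := Nat.le_of_dvd two_pos h; omega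
  have hcard := card_AA (n := n) hi hi1
  obtain ⟨ι, hι, hιS⟩ := exists_enum (AA n 1) (N := N) (by omega)
  refine count_classes (k := k) D hR ι hι ?_
  rintro w hw ⟨c₀, hc₀⟩ hsum hPH
  obtain ⟨α, hα⟩ := PH_one D hdo.pos hR hPH
  have hcS : c₀ ∈ AA n 1 := by
    by_contra h
    exact hc₀ (hw c₀ fun h' => h (hιS _ h'))
  have hcS' : -c₀ ∉ AA n 1 := fun h => (neg_mem_AA hi hi1 c₀).1 h hcS
  have hwn : w (-c₀) = 0 := hw _ fun h => hcS' (hιS _ h)
  have hk : 1 ≤ k := by
    have h3 : (w c₀).natAbs ≤ ∑ c, (w c).natAbs :=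
      Finset.single_le_sum (f := fun c => (w c).natAbs) (fun _ _ => Nat.zero_le _)
        (Finset.mem_univ c₀)
    have h4 : (w c₀).natAbs ≠ 0 := Int.natAbs_ne_zero.2 hc₀
    omega
  have h3 := key_even D h2 hpq hcase hdo ht hdn hdq hR hα (F := fun c => w c - w (-c))
    (fun c => rfl) (c₀ := c₀) (by rw [hwn, sub_zero]; exact hc₀)
  have h4 := cost_even w (fun c => w c - w (-c)) (fun c => rfl)
  have h6 : p ^ (t * ∑ c, (w c - w (-c)).toNat) ≤ (p ^ t) ^ (2 * k) := by
    rw [← pow_mul]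
    exact Nat.pow_le_pow_right D.hp.pos (Nat.mul_le_mul_left _ (h4.trans hsum))
  have h7 := h3.trans (Nat.mul_le_mul_left _ h6)
  exact num_contra (m := 2 * k) (P := p ^ t) h5 (by omega) (by omega) (by omega)
    (by rw [hR, ← pow_mul, mul_comm]) (ineq_even hdo hk hkd hqd) h7

theorem part_odd [Fact p.Prime] (D : Dat n p q) (h5 : 5 ≤ n) (hpq : p ≠ q)
    (hqn : IsUnit (q : ZMod n)) (hodd : Odd (orderOf hqn.unit)) (hu1 : hqn.unit ≠ 1)
    {d t k N : ℕ} (hdo : Odd d) (ht : t ≠ 0)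
    (hdn : d.Coprime (2 * n)) (hdq : d ∣ q - 1) (hqd : 2 * d + 1 ≤ q)
    (hR : R q n = p ^ (d * t)) (hkd : 5 * k < d) (hN : N ≤ (n - 1) / 3) :
    Nat.card {v : Fin N → ℤ // ∑ i, (v i).natAbs ≤ k} ≤
      Nat.card {c : ClassGroup (𝓞 K) // c ^ d = 1} := by
  have h2 : n ≠ 2 := by omega
  obtain ⟨S, hS, hSn, hSi⟩ := exists_S h2 hodd hu1
  obtain ⟨ι, hι, hιS⟩ := exists_enum S (N := N) (by omega)
  refine count_classes (k := k) D hR ι hι ?_
  rintro w hw ⟨c₀, hc₀⟩ hsum hPH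
  obtain ⟨α, hα⟩ := PH_one D hdo.pos hR hPH
  have hw' : ∀ c, c ∉ S → w c = 0 := fun c hc => hw c fun h => hc (hιS _ h)
  have hcS : c₀ ∈ S := by
    by_contra h
    exact hc₀ (hw' c₀ h)
  have hwn : w (-c₀) = 0 := hw' _ (hSn _ hcS)
  have hk : 1 ≤ k := by
    have h3 : (w c₀).natAbs ≤ ∑ c, (w c).natAbs :=
      Finset.single_le_sum (f := fun c => (w c).natAbs) (fun _ _ => Nat.zero_le _)
        (Finset.mem_univ c₀)
    have h4 : (w c₀).natAbs ≠ 0 := Int.natAbs_ne_zero.2 hc₀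
    omega
  set F : (ZMod n)ˣ → ℤ := fun c => w (c * hqn.unit) - w (-(c * hqn.unit)) - w c + w (-c) with hF
  obtain ⟨c₁, hc₁⟩ : ∃ c, F c ≠ 0 := by
    by_contra hcon
    push Not at hcon
    obtain ⟨i, hi1, hi2⟩ := hSi c₀ hcS
    have h3 : ∀ j : ℕ, w (c₀ * hqn.unit ^ j) - w (-(c₀ * hqn.unit ^ j)) = w c₀ := by
      intro j
      induction j with
      | zero => rw [pow_zero, mul_one, hwn, sub_zero]
      | succ j ih =>
        have h4 := hcon (c₀ * hqn.unit ^ j)
        rw [hF] at h4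
        simp only at h4
        rw [pow_succ, ← mul_assoc, ← ih]
        linarith
    have h4 := h3 i
    rw [hw' _ hi1, hw' _ hi2, sub_zero] at h4
    exact hc₀ h4.symm
  have h3 := key_gen D h2 hpq hqn hdo.pos ht hdn hdq hR hα (F := F) (fun c => rfl) hc₁
  have h4 := cost_gen hqn.unit w F (fun c => rfl)
  have h6 : p ^ (t * ∑ c, (F c).toNat) ≤ (p ^ t) ^ (4 * k) := by
    rw [← pow_mul]
    refine Nat.pow_le_pow_right D.hp.pos (Nat.mul_le_mul_left _ (h4.trans ?_))
    omega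
  have h7 := h3.trans (Nat.mul_le_mul_left _ h6)
  exact num_contra (m := 4 * k) (P := p ^ t) h5 (by omega) (by omega) (by omega)
    (by rw [hR, ← pow_mul, mul_comm]) (ineq_gen hdo hk hkd hqd) h7

theorem many {p q x y d k : ℕ} (hp : p.Prime) (hp2 : p ≠ 2) (hq : q.Prime)
    (hx : 5 ≤ x) (hy : 2 ≤ y) (h : R q x = p ^ y)
    (hd : Odd d) (hdy : d ∣ y) (hdq : d ∣ q - 1)
    (K : Type*) [Field K] [NumberField K] [IsCyclotomicExtension {x} ℚ K] :
    (5 * k < d → Nat.card {v : Fin ((x - 1) / 3) → ℤ // ∑ i, (v i).natAbs ≤ k} ≤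
      Nat.card {c : ClassGroup (𝓞 K) // c ^ d = 1}) ∧
    (¬ Odd (orderOf (q : ZMod x)) → 3 * k < d →
      Nat.card {v : Fin ((x - 1) / 2) → ℤ // ∑ i, (v i).natAbs ≤ k} ≤
      Nat.card {c : ClassGroup (𝓞 K) // c ^ d = 1}) := by
  obtain ⟨hxp, hord, hxp1, hxq⟩ := basic hp hp2 hq (by omega) hy h
  have hF : Fact x.Prime := ⟨hxp⟩
  have hFp : Fact p.Prime := ⟨hp⟩
  have D : Dat x p q := ⟨hp, hq, hord⟩
  have hx2 : x ≠ 2 := by omega
  have hpq : p ≠ q := by
    rintro rfl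
    have := not_dvd_base hp (by omega) h dvd_rfl
    omega
  have hd0 : d ≠ 0 := by rintro rfl; simp at hd
  obtain ⟨t, rfl⟩ := hdy
  have ht0 : t ≠ 0 := by rintro rfl; omega
  have hdx : d.Coprime (2 * x) := by
    refine Nat.Coprime.mul_right ((Nat.coprime_two_right).2 hd) ?_
    rw [Nat.coprime_comm, Nat.Prime.coprime_iff_not_dvd hxp]
    exact fun hh => hxq (hh.trans hdq)
  have hqd : 1 < d → 2 * d + 1 ≤ q := by
    intro h1
    have hq2 : q ≠ 2 := by
      rintro rfl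
      have := Nat.le_of_dvd (by norm_num) hdq
      omega
    have hqo : Odd q := hq.eq_two_or_odd'.resolve_left hq2
    have h3 : 2 ∣ q - 1 := by obtain ⟨m, hm⟩ := hqo; exact ⟨m, by omega⟩
    have h4 := ((Nat.coprime_two_left).2 hd).mul_dvd_of_dvd_of_dvd h3 hdq
    have h5 := Nat.le_of_dvd (by have := hq.one_lt; omega) h4
    have := hq.one_lt
    omega
  have hordu : ∀ hqn : IsUnit (q : ZMod x), orderOf hqn.unit = orderOf (q : ZMod x) := by
    intro hqn; rw [← orderOf_units]; rfl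
  have hcase : ¬ Odd (orderOf (q : ZMod x)) →
      q = x ∨ ∃ hqn : IsUnit (q : ZMod x), ∃ k, hqn.unit ^ k = -1 := by
    intro hno
    by_cases h0 : (q : ZMod x) = 0
    · left
      rw [ZMod.natCast_eq_zero_iff] at h0
      exact ((Nat.prime_dvd_prime_iff_eq hxp hq).1 h0).symm
    · right
      have hu : IsUnit (q : ZMod x) := isUnit_iff_ne_zero.2 h0
      refine ⟨hu, exists_neg_one hu ?_⟩
      rwa [hordu]
  -- `d = 1` forces `k = 0`
  have htriv : d = 1 → k = 0 → ∀ N : ℕ, Nat.card {v : Fin N → ℤ // ∑ i, (v i).natAbs ≤ k} ≤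
      Nat.card {c : ClassGroup (𝓞 K) // c ^ d = 1} := by
    rintro rfl rfl N
    have h1 : Subsingleton {v : Fin N → ℤ // ∑ i, (v i).natAbs ≤ 0} := by
      refine ⟨fun a b => ?_⟩
      have h3 : ∀ v : {v : Fin N → ℤ // ∑ i, (v i).natAbs ≤ 0}, ∀ i, v.1 i = 0 := by
        intro v i
        have h4 := (Finset.sum_eq_zero_iff.1 (Nat.le_zero.1 v.2)) i (Finset.mem_univ i)
        exact Int.natAbs_eq_zero.1 h4
      apply Subtype.ext
      funext i
      rw [h3 a, h3 b]
    have h3 : 0 < Nat.card {c : ClassGroup (𝓞 K) // c ^ 1 = 1} := by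
      have : Nonempty {c : ClassGroup (𝓞 K) // c ^ 1 = 1} := ⟨⟨1, one_pow 1⟩⟩
      exact Nat.card_pos
    exact le_trans (Finite.card_le_one_iff_subsingleton.2 h1) h3
  rcases Nat.lt_or_ge 1 d with h1 | h1
  · have hqd' := hqd h1
    refine ⟨fun hk => ?_, fun hno hk => part_even D hx hpq (hcase hno) hd ht0 hdx hdq hqd' h hk
      le_rfl⟩
    by_cases ho : Odd (orderOf (q : ZMod x))
    · have h0 : (q : ZMod x) ≠ 0 := by
        intro h0
        rw [h0, orderOf_zero] at ho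
        exact absurd ho (by decide)
      have hu : IsUnit (q : ZMod x) := isUnit_iff_ne_zero.2 h0
      have hu1 : hu.unit ≠ 1 := by
        intro h1
        apply hxq
        have h2 : (q : ZMod x) = 1 := by
          have := congrArg Units.val h1
          rwa [IsUnit.unit_spec, Units.val_one] at this
        rw [← ZMod.natCast_eq_zero_iff, Nat.cast_sub hq.one_lt.le, h2]
        simp
      exact part_odd D hx hpq hu (by rwa [hordu]) hu1 hd ht0 hdx hdq hqd' h hk le_rfl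
    · exact part_even D hx hpq (hcase ho) hd ht0 hdx hdq hqd' h (by omega) (by omega)
  · have hd1 : d = 1 := by omega
    exact ⟨fun hk => htriv hd1 (by omega) _, fun _ hk => htriv hd1 (by omega) _⟩

end

end Pool.Agent.Edg
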