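import Pool.Agent.Edg.Jc

/-!
`1/(1 - z)` and traces.
-/

namespace Pool.Agent.Edg

open NumberField Ideal Polynomial

noncomputable section

variable (n : ℕ) [hn : Fact n.Prime] (K : Type*) [Field K] [NumberField K]
  [hK : IsCyclotomicExtension {n} ℚ K] {p q : ℕ}

/-- `-n / (1 - z)` -/
def TT : 𝓞 K := ∑ k ∈ Finset.range n, (k : 𝓞 K) * z n K ^ k

lemma sum_z : ∑ k ∈ Finset.range n, z n K ^ k = 0 := by
  have h1 := geom_sum_mul (z n K) n
  rw [z_pow, sub_self] at h1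
  exact (mul_eq_zero.1 h1).resolve_right
    (sub_ne_zero.2 ((z_prim n K).ne_one hn.out.one_lt))

lemma TT_mul : (1 - z n K) * TT n K = -(n : 𝓞 K) := by
  have h : ∀ m : ℕ, (1 - z n K) * ∑ k ∈ Finset.range m, (k : 𝓞 K) * z n K ^ k =
      ∑ k ∈ Finset.range (m + 1), z n K ^ k - 1 - m * z n K ^ m := by
    intro m
    induction m with
    | zero => simp
    | succ m ih =>
      rw [Finset.sum_range_succ, mul_add, ih, Finset.sum_range_succ _ (m + 1)]
      push_cast; ring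
  rw [TT, h, Finset.sum_range_succ, sum_z, z_pow]; ring

/-- trace as a sum over the group -/
def tr (x : 𝓞 K) : 𝓞 K := ∑ c : (ZMod n)ˣ, sg n K c x

lemma tr_add (x y : 𝓞 K) : tr n K (x + y) = tr n K x + tr n K y := by
  rw [tr, tr, tr, ← Finset.sum_add_distrib]
  exact Finset.sum_congr rfl fun c _ => map_add _ _ _

lemma tr_sub (x y : 𝓞 K) : tr n K (x - y) = tr n K x - tr n K y := by
  rw [tr, tr, tr, ← Finset.sum_sub_distrib]
  exact Finset.sum_congr rfl fun c _ => map_sub _ _ _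

lemma tr_natCast_mul (m : ℕ) (x : 𝓞 K) : tr n K (m * x) = m * tr n K x := by
  rw [tr, tr, Finset.mul_sum]
  exact Finset.sum_congr rfl fun c _ => by rw [map_mul, map_natCast]

lemma tr_sum {ι : Type*} (s : Finset ι) (f : ι → 𝓞 K) :
    tr n K (∑ i ∈ s, f i) = ∑ i ∈ s, tr n K (f i) := by
  simp only [tr]
  rw [Finset.sum_comm]
  exact Finset.sum_congr rfl fun c _ => map_sum _ _ _

lemma tr_sg (u : (ZMod n)ˣ) (x : 𝓞 K) : tr n K (sg n K u x) = tr n K x := by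
  rw [tr, tr]
  refine Fintype.sum_equiv (Equiv.mulRight u) _ _ fun c => ?_
  rw [← sg_mul]; rfl

omit [NumberField K] hK in
lemma sum_units (f : ZMod n → 𝓞 K) : ∑ c : (ZMod n)ˣ, f (c : ZMod n) = ∑ m : ZMod n, f m - f 0 := by
  classical
  rw [← Finset.add_sum_erase Finset.univ f (Finset.mem_univ 0), add_sub_cancel_left]
  refine Finset.sum_bij (fun c _ => (c : ZMod n)) ?_ ?_ ?_ ?_
  · intro c _; exact Finset.mem_erase.2 ⟨c.ne_zero, Finset.mem_univ _⟩
  · intro a _ b _ h; exact Units.ext h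
  · intro m hm; exact ⟨Units.mk0 m (Finset.mem_erase.1 hm).1, Finset.mem_univ _, rfl⟩
  · intro c _; rfl

omit [NumberField K] hK in
lemma sum_zmod (f : ZMod n → 𝓞 K) : ∑ m : ZMod n, f m = ∑ i ∈ Finset.range n, f (i : ZMod n) := by
  refine (Finset.sum_bij (fun (i : ℕ) _ => (i : ZMod n)) ?_ ?_ ?_ ?_).symm
  · intro i _; exact Finset.mem_univ _
  · intro a ha b hb h
    have := congrArg ZMod.val h
    rwa [ZMod.val_natCast_of_lt (Finset.mem_range.1 ha),
      ZMod.val_natCast_of_lt (Finset.mem_range.1 hb)] at this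
  · intro m _
    exact ⟨m.val, Finset.mem_range.2 (ZMod.val_lt m), ZMod.natCast_zmod_val m⟩
  · intro i _; rfl

/-- trace of the powers of `z` -/
lemma tr_z (i : ZMod n) : tr n K (z n K ^ i.val) = (if i = 0 then (n : 𝓞 K) else 0) - 1 := by
  have h1 : ∀ c : (ZMod n)ˣ, sg n K c (z n K ^ i.val) = z n K ^ ((c : ZMod n) * i).val := by
    intro c; rw [map_pow, sg_z, z_pow_val_mul]
  rw [tr, Finset.sum_congr rfl fun c _ => h1 c, sum_units n K fun m => z n K ^ (m * i).val,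
    zero_mul, z_pow_zero_val]
  congr 1
  split_ifs with h
  · rw [h]
    simp only [mul_zero, z_pow_zero_val]
    rw [Finset.sum_const, Finset.card_univ, ZMod.card, nsmul_eq_mul, mul_one]
  · have h2 : ∑ m : ZMod n, z n K ^ (m * i).val = ∑ m : ZMod n, z n K ^ m.val :=
      Fintype.sum_equiv (Equiv.mulRight₀ i h) _ _ fun m => rfl
    rw [h2, sum_zmod n K fun m => z n K ^ m.val, ← sum_z n K]
    exact Finset.sum_congr rfl fun i _ => z_pow_val_natCast n K i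

lemma tr_TT (i : ZMod n) : tr n K (TT n K * z n K ^ (-i).val) =
    (n : 𝓞 K) * i.val - ∑ k ∈ Finset.range n, (k : 𝓞 K) := by
  rw [TT, Finset.sum_mul, tr_sum]
  have h1 : ∀ k ∈ Finset.range n, tr n K ((k : 𝓞 K) * z n K ^ k * z n K ^ (-i).val) =
      (if k = i.val then (n : 𝓞 K) * k else 0) - k := by
    intro k hk
    rw [mul_assoc, tr_natCast_mul, ← z_pow_val_natCast, z_pow_val_add, tr_z]
    have h2 : ((k : ZMod n) + -i = 0) ↔ k = i.val := by
      rw [add_neg_eq_zero]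
      constructor
      · intro h; rw [← h, ZMod.val_natCast_of_lt (Finset.mem_range.1 hk)]
      · intro h; rw [h, ZMod.natCast_zmod_val]
    simp only [h2]
    split_ifs <;> ring
  rw [Finset.sum_congr rfl h1, Finset.sum_sub_distrib, Finset.sum_ite_eq',
    if_pos (Finset.mem_range.2 (ZMod.val_lt i))]

/-- the conjugates of `TT` -/
def Tc (c : (ZMod n)ˣ) : 𝓞 K := sg n K c⁻¹ (TT n K)

lemma tr_Tc (c : (ZMod n)ˣ) (i : ZMod n) : tr n K (Tc n K c * z n K ^ (-i).val) =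
    (n : 𝓞 K) * (i * c).val - ∑ k ∈ Finset.range n, (k : 𝓞 K) := by
  rw [← tr_sg n K c, map_mul, Tc, ← sg_mul, mul_inv_cancel, sg_one, map_pow, sg_z,
    z_pow_val_mul, mul_comm (c : ZMod n), neg_mul, tr_TT]

lemma br_Tc (c : (ZMod n)ˣ) : br n K (Tc n K c) = Tc n K (-c) := by
  rw [br, Tc, ← sg_mul, Tc, inv_neg, neg_mul, one_mul]

lemma n_mul_qz (q : ℕ) (c : (ZMod n)ˣ) :
    (n : 𝓞 K) * qz n K q c = qz n K 1 c * (n - ((q : 𝓞 K) - 1) * Tc n K c) := by
  have h := congrArg (sg n K c⁻¹) (TT_mul n K)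
  rw [map_mul, map_neg, map_natCast, map_sub, map_one] at h
  rw [qz, qz, Tc, map_sub, map_natCast, map_sub, map_natCast, Nat.cast_one]
  linear_combination ((q : 𝓞 K) - 1) * h

lemma exp2 (q : ℕ) (A : Finset (ZMod n)ˣ) :
    ((q : 𝓞 K) - 1) ^ 2 ∣ n * ∏ c ∈ A, ((n : 𝓞 K) - ((q : 𝓞 K) - 1) * Tc n K c) -
      n ^ A.card * (n - ((q : 𝓞 K) - 1) * ∑ c ∈ A, Tc n K c) := by
  classical
  induction A using Finset.induction_on with
  | empty => simp
  | insert a s ha ih =>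
    rw [Finset.prod_insert ha, Finset.sum_insert ha, Finset.card_insert_of_notMem ha]
    have h1 := ih.mul_left ((n : 𝓞 K) - ((q : 𝓞 K) - 1) * Tc n K a)
    have h2 := dvd_add h1 (Dvd.intro (n ^ s.card * Tc n K a * ∑ c ∈ s, Tc n K c) rfl :
      ((q : 𝓞 K) - 1) ^ 2 ∣ ((q : 𝓞 K) - 1) ^ 2 * (n ^ s.card * Tc n K a * ∑ c ∈ s, Tc n K c))
    convert h2 using 1
    ring

lemma exp3 (q : ℕ) (A : Finset (ZMod n)ˣ) :
    ((q : 𝓞 K) - 1) ^ 2 ∣ n ^ (A.card + 1) * ∏ c ∈ A, qz n K q c -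
      (∏ c ∈ A, qz n K 1 c) * (n ^ A.card * (n - ((q : 𝓞 K) - 1) * ∑ c ∈ A, Tc n K c)) := by
  have h1 : (n : 𝓞 K) ^ A.card * ∏ c ∈ A, qz n K q c =
      (∏ c ∈ A, qz n K 1 c) * ∏ c ∈ A, ((n : 𝓞 K) - ((q : 𝓞 K) - 1) * Tc n K c) := by
    rw [← Finset.prod_mul_distrib, ← Finset.prod_const, ← Finset.prod_mul_distrib]
    exact Finset.prod_congr rfl fun c _ => n_mul_qz n K q c
  have h2 := (exp2 n K q A).mul_left (∏ c ∈ A, qz n K 1 c)
  convert h2 using 1
  rw [pow_succ]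
  linear_combination (n : 𝓞 K) * h1

/-- the sum over the lower half -/
def SS : 𝓞 K := ∑ c ∈ AA n 1, Tc n K c

lemma mem_AA1 {c : (ZMod n)ˣ} : c ∈ AA n 1 ↔ 2 * (c : ZMod n).val < n := by
  rw [mem_AA, Nat.cast_one, one_mul, two_mul]

lemma sum_AA1 (f : ℕ → ℤ) : ∑ c ∈ AA n 1, f (c : ZMod n).val =
    ∑ k ∈ Finset.Icc 1 ((n - 1) / 2), f k := by
  have hn1 := hn.out.one_lt
  refine Finset.sum_bij (fun c _ => (c : ZMod n).val) ?_ ?_ ?_ ?_
  · intro c hc
    rw [mem_AA1] at hc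
    have : (c : ZMod n).val ≠ 0 := (ZMod.val_ne_zero _).2 c.ne_zero
    rw [Finset.mem_Icc]; omega
  · intro a _ b _ h; exact Units.ext (ZMod.val_injective n h)
  · intro k hk
    rw [Finset.mem_Icc] at hk
    have hk1 : k < n := by omega
    have h0 : (k : ZMod n) ≠ 0 := by
      rw [Ne, ZMod.natCast_eq_zero_iff]
      intro h; have := Nat.le_of_dvd (by omega) h; omega
    refine ⟨Units.mk0 (k : ZMod n) h0, ?_, ?_⟩
    · rw [mem_AA1, Units.val_mk0, ZMod.val_natCast_of_lt hk1]; omega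
    · rw [Units.val_mk0, ZMod.val_natCast_of_lt hk1]
  · intro c _; rfl

lemma sum_Icc (m : ℕ) : ∑ k ∈ Finset.Icc 1 m, (4 * (k : ℤ) - (2 * m + 1)) = m := by
  have h : ∀ j : ℕ, ∑ k ∈ Finset.Icc 1 j, (4 * (k : ℤ) - (2 * m + 1)) =
      2 * j * (j + 1) - (2 * m + 1) * j := by
    intro j
    induction j with
    | zero => simp
    | succ j ih => rw [Finset.sum_Icc_succ_top (by omega), ih]; push_cast; ring
  rw [h]; ring

/-- the trace of `(S - conj S) / z^2` -/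
lemma tr_SS (h2 : n ≠ 2) : tr n K ((SS n K - br n K (SS n K)) * z n K ^ (-(2 : ZMod n)).val) =
    (n : 𝓞 K) * (((n - 1) / 2 : ℕ) : 𝓞 K) := by
  have hn1 := hn.out.one_lt
  obtain ⟨m, hm⟩ := hn.out.eq_two_or_odd'.resolve_left h2
  have hm' : (n - 1) / 2 = m := by omega
  rw [SS, map_sum, ← Finset.sum_sub_distrib, Finset.sum_mul, tr_sum]
  have h1 : ∀ c ∈ AA n 1, tr n K ((Tc n K c - br n K (Tc n K c)) *
      z n K ^ (-(2 : ZMod n)).val) =
      ((n * (4 * ((c : ZMod n).val : ℤ) - (2 * m + 1)) : ℤ) : 𝓞 K) := by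
    intro c hc
    rw [mem_AA1] at hc
    have hc0 : (c : ZMod n).val ≠ 0 := (ZMod.val_ne_zero _).2 c.ne_zero
    have e1 : ((2 : ZMod n) * c).val = 2 * (c : ZMod n).val := by
      have : (2 : ZMod n) * c = ((2 * (c : ZMod n).val : ℕ) : ZMod n) := by
        push_cast; rw [ZMod.natCast_zmod_val]
      rw [this, ZMod.val_natCast_of_lt hc]
    have e2 : ((2 : ZMod n) * ((-c : (ZMod n)ˣ) : ZMod n)).val = n - 2 * (c : ZMod n).val := by
      have : (2 : ZMod n) * ((-c : (ZMod n)ˣ) : ZMod n) =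
          ((n - 2 * (c : ZMod n).val : ℕ) : ZMod n) := by
        rw [Nat.cast_sub hc.le]; push_cast
        rw [ZMod.natCast_zmod_val, ZMod.natCast_self]; ring
      rw [this, ZMod.val_natCast_of_lt (by omega)]
    rw [sub_mul, tr_sub, br_Tc, tr_Tc, tr_Tc, e1, e2, Nat.cast_sub hc.le]
    have e3 : (n : 𝓞 K) = 2 * m + 1 := by exact_mod_cast congrArg (Nat.cast : ℕ → 𝓞 K) hm
    push_cast
    rw [e3]; ring
  rw [Finset.sum_congr rfl h1, ← Int.cast_sum,
    sum_AA1 n fun k => (n : ℤ) * (4 * (k : ℤ) - (2 * m + 1)), ← Finset.mul_sum, hm', sum_Icc]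
  push_cast; ring

end

end Pool.Agent.Edg
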