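import Pool.Agent.Edg.Wie2

/-!
Assembly of the Wieferich type theorem.
-/

namespace Pool.Agent.Edg

open NumberField Ideal Polynomial

lemma dvd_R_sub {q x : ℕ} : (q : ℤ) - 1 ∣ (R q x : ℤ) - x := by
  have : (R q x : ℤ) - x = ∑ i ∈ Finset.range x, ((q : ℤ) ^ i - 1) := by
    rw [Finset.sum_sub_distrib, R]; push_cast; simp
  rw [this]
  refine Finset.dvd_sum fun i _ => ?_
  have h := sub_dvd_pow_sub_pow (q : ℤ) 1 i
  rwa [one_pow] at h

theorem wieferich {p q x y l : ℕ} (hp : p.Prime) (hp2 : p ≠ 2) (hq : q.Prime)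
    (hx : 5 ≤ x) (hy : 2 ≤ y) (h : R q x = p ^ y)
    (hl : l.Prime) (hl2 : l ≠ 2) (hlq : l ∣ q - 1) (hlx : ¬ l ∣ x - 1) :
    l ^ (padicValNat l y + 1) ∣ q - 1 ∧ l ^ (padicValNat l y + 1) ∣ x ^ (l - 1) - 1 := by
  obtain ⟨hxp, hord, hxp1, hxq⟩ := basic hp hp2 hq (by omega) hy h
  have hF : Fact x.Prime := ⟨hxp⟩
  have hFp : Fact p.Prime := ⟨hp⟩
  have hFl : Fact l.Prime := ⟨hl⟩
  have D : Dat x p q := ⟨hp, hq, hord⟩
  have hy0 : y ≠ 0 := by omega
  have hq1 : q - 1 ≠ 0 := by have := hq.one_lt; omega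
  have hlnx : l ≠ x := by rintro rfl; exact hxq hlq
  set a := padicValNat l y with ha
  have hay : l ^ a ∣ y := pow_padicValNat_dvd
  obtain ⟨t, ht⟩ := hay
  set b := padicValNat l (q - 1) with hb
  have hb1 : 1 ≤ b := one_le_padicValNat_of_dvd hq1 hlq
  have hbq : l ^ b ∣ q - 1 := pow_padicValNat_dvd
  have hbq' : ¬ l ^ (b + 1) ∣ q - 1 := pow_succ_padicValNat_not_dvd hq1
  have hR : R q x = p ^ (t * l ^ a) := by rw [h, ht, mul_comm]
  have K0 : IsCyclotomicExtension {x} ℚ (CyclotomicField x ℚ) :=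
    CyclotomicField.isCyclotomicExtension x ℚ
  have hab : a < b := lt_of_pow D hxp1 (by omega) hl hl2 hlnx hlx hR hb1 hbq hbq'
    (CyclotomicField x ℚ)
  have h1 : l ^ (a + 1) ∣ q - 1 := (pow_dvd_pow l hab).trans hbq
  refine ⟨h1, ?_⟩
  -- `x ≡ p ^ y` modulo `l ^ (a + 1)`
  have h2 : ((l ^ (a + 1) : ℕ) : ℤ) ∣ (p : ℤ) ^ y - x := by
    have h3 := dvd_R_sub (q := q) (x := x)
    rw [h] at h3
    push_cast at h3
    refine dvd_trans ?_ h3
    have : ((q - 1 : ℕ) : ℤ) = (q : ℤ) - 1 := by rw [Nat.cast_sub hq.one_lt.le]; simp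
    rw [← this]; exact_mod_cast h1
  have hunit : IsUnit (x : ZMod (l ^ (a + 1))) := by
    rw [ZMod.isUnit_iff_coprime]
    exact ((Nat.coprime_primes hxp hl).2 hlnx.symm).pow_right _
  have h4 : (x : ZMod (l ^ (a + 1))) = (p : ZMod (l ^ (a + 1))) ^ y := by
    have h5 := (ZMod.intCast_zmod_eq_zero_iff_dvd _ _).2 h2
    push_cast at h5
    exact (sub_eq_zero.1 h5).symm
  have hpu : IsUnit (p : ZMod (l ^ (a + 1))) := by
    rw [h4, isUnit_pow_iff hy0] at hunit; exact hunit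
  have h6 : (x : ZMod (l ^ (a + 1))) ^ (l - 1) = 1 := by
    rw [h4, ht, ← pow_mul, mul_assoc, mul_comm t, ← mul_assoc, pow_mul]
    have h7 := ZMod.pow_totient hpu.unit
    rw [Nat.totient_prime_pow_succ hl] at h7
    have h8 := congrArg Units.val h7
    rw [Units.val_pow_eq_pow_val, IsUnit.unit_spec, Units.val_one] at h8
    rw [h8, one_pow]
  have h9 : 1 ≤ x ^ (l - 1) := Nat.one_le_pow _ _ hxp.pos
  rw [← ZMod.natCast_eq_zero_iff, Nat.cast_sub h9]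
  push_cast
  rw [h6]; simp

end Pool.Agent.Edg
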